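import Pool.Agent.TPC.Defs

/-!
# [TPC-K1] eventually enough points; bases of lattices

`eventually_count`: if η ≤ 0 trivial (R ≥ 0). Otherwise N R ≥ (4/3 π/A) (R - c)³ and η A R³ ≤ (R - c)³ for large R since η A < 1 ((R-c)³/R³ → 1;
e.g. with q = η A < 1 choose R with (1 - c/R)³ ≥ 1 - 3c/R ≥ q).
`exists_basis`: L is a free ℤ-module of rank 3 (`ZLattice.module_free`, `ZLattice.module_finite`, `ZLattice.rank` : finrank ℤ L = finrank ℝ E3 = 3); take a ℤ-basis
β : Basis (Fin 3) ℤ L, b i = (β i : E3). Lat b = L (span of the basis, mapped by the inclusion). dt b ≠ 0: the basis vectors are linearly independent over ℝ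
(`Basis.ofZLatticeBasis` : Basis ι ℝ E3 with the same vectors); det3 0 (b 0) (b 1) (b 2) ≠ 0 by `BccCov.S.det3_ne_zero` or because the vectors 0, b 0, b 1, b 2 are
affinely independent, or via LL: the linear map l ↦ ∑ l i b i is injective, its determinant is dt b (`BccCov.W2.det_LL`).
-/

set_option autoImplicit false

open MeasureTheory Real
open scoped InnerProductSpace

namespace TPC

open BccCov BccO

theorem eventually_count {N : ℝ → ℕ} {A c η : ℝ} (hA : 0 < A) (hc : 0 ≤ c)
    (h : ∀ R, c ≤ R → 4 / 3 * π * (R - c) ^ 3 ≤ A * N R) (hη : A * η < 1) :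
    ∀ᶠ R in Filter.atTop, η * (4 / 3 * π * R ^ 3) ≤ N R := by
  have hpi := Real.pi_pos
  rcases le_or_gt η 0 with h0 | h0
  · filter_upwards [Filter.eventually_ge_atTop (0 : ℝ)] with R hR
    have h1 : 0 ≤ 4 / 3 * π * R ^ 3 := by positivity
    have h2 : η * (4 / 3 * π * R ^ 3) ≤ 0 := mul_nonpos_of_nonpos_of_nonneg h0 h1
    exact h2.trans (Nat.cast_nonneg _)
  · have hq : 0 < 1 - A * η := by linarith
    filter_upwards [Filter.eventually_ge_atTop (max c (3 * c / (1 - A * η)))] with R hR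
    have hR1 : c ≤ R := (le_max_left _ _).trans hR
    have hR2 : 3 * c / (1 - A * η) ≤ R := (le_max_right _ _).trans hR
    rw [div_le_iff₀ hq] at hR2
    have hR0 : 0 ≤ R := hc.trans hR1
    have h1 := h R hR1
    have h3 : (A * η) * R ^ 3 ≤ (R - c) ^ 3 := by
      have e1 : 0 ≤ R ^ 2 * (R * (1 - A * η) - 3 * c) := by
        apply mul_nonneg (by positivity); linarith
      have e2 : 0 ≤ c ^ 2 * (3 * R - c) := by
        apply mul_nonneg (by positivity); linarith
      nlinarith [e1, e2]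
    have h4 : A * (η * (4 / 3 * π * R ^ 3)) ≤ A * N R := by
      calc A * (η * (4 / 3 * π * R ^ 3)) = 4 / 3 * π * ((A * η) * R ^ 3) := by ring
        _ ≤ 4 / 3 * π * (R - c) ^ 3 := by
          apply mul_le_mul_of_nonneg_left h3; positivity
        _ ≤ A * N R := h1
    exact le_of_mul_le_mul_left h4 hA

theorem k1_dt (B : Module.Basis (Fin 3) ℝ E3) : dt (fun i => B i) ≠ 0 := by
  have h := (EuclideanSpace.basisFun (Fin 3) ℝ).toBasis.isUnit_det B
  rw [Module.Basis.det_apply, Matrix.det_fin_three] at h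
  have h2 := h.ne_zero
  intro h3
  apply h2
  rw [← h3]
  simp only [Module.Basis.toMatrix_apply, dt, det3]
  simp
  ring

theorem exists_basis (L : Submodule ℤ E3) [DiscreteTopology L] [IsZLattice ℝ L] :
    ∃ b : Fin 3 → E3, Lat b = L ∧ dt b ≠ 0 := by
  haveI : Module.Finite ℤ L := ZLattice.module_finite ℝ L
  haveI : Module.Free ℤ L := ZLattice.module_free ℝ L
  have hr : Module.finrank ℤ L = 3 := by
    rw [ZLattice.rank ℝ L]; simp
  let β : Module.Basis (Fin 3) ℤ L := Module.finBasisOfFinrankEq ℤ L hr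
  refine ⟨fun i => β.ofZLatticeBasis ℝ L i, ?_, k1_dt _⟩
  exact β.ofZLatticeBasis_span ℝ

end TPC
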