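import Pool.Agent.TPC.M2
import Pool.Agent.MP_bf7174_co.O.R5

/-!
# [TPC-M3] coverings by two separated sets
-/

set_option autoImplicit false

open MeasureTheory Real
open scoped InnerProductSpace Topology

namespace TPC

open BccCov BccO

/-- the count for a perturbation -/
theorem m3_pert {A B : Set E3} {r δ m l : ℝ} (hr : 0 < r) (hδ : 0 < δ)
    (hm : 3 < m) (hm4 : m < 4) (hA : ∀ x ∈ A, ∀ y ∈ A, x ≠ y → l ≤ dist x y)
    (hB : ∀ x ∈ B, ∀ y ∈ B, x ≠ y → l ≤ dist x y)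
    (hl : m * (r + δ) ^ 2 ≤ (l - 2 * δ) ^ 2) (hl2 : 2 * δ ≤ l)
    (hcov : Cov (A ∪ B) r) (hfin : ∀ R : ℝ, ((A ∪ B) ∩ Metric.closedBall (0 : E3) R).Finite)
    {R : ℝ} (hR : 0 ≤ R) :
    4 / 3 * π * R ^ 3 ≤ 4 * π * Km m * (r + δ) ^ 3 * NN (A ∪ B) (R + (4 * r + 5 * δ)) := by
  classical
  have hpi := pi_pos
  obtain ⟨p, hpinj, hpr⟩ := exists_enum hfin hcov
  obtain ⟨q, hqp, hqinj, hG⟩ := exists_gen p hδ
  have hpY : ∀ n, p n ∈ A ∪ B := fun n => by rw [← hpr]; exact ⟨n, rfl⟩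
  set Z := Set.range q with hZ
  have hnorm : ∀ n, |‖q n‖ - ‖p n‖| ≤ δ := fun n => by
    have h1 := abs_norm_sub_norm_le (q n) (p n)
    rw [← dist_eq_norm] at h1
    exact h1.trans (hqp n)
  have hZfin : ∀ R : ℝ, (Z ∩ Metric.closedBall (0 : E3) R).Finite := by
    intro R
    have h1 : (p ⁻¹' ((A ∪ B) ∩ Metric.closedBall (0 : E3) (R + δ))).Finite :=
      (hfin (R + δ)).preimage hpinj.injOn
    refine (h1.image q).subset ?_
    rintro _ ⟨⟨n, rfl⟩, hn⟩
    refine ⟨n, ⟨hpY n, ?_⟩, rfl⟩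
    rw [mem_closedBall_zero_iff] at hn ⊢
    have := (abs_le.1 (hnorm n)).1
    linarith
  have hZcov : ∀ c : E3, ∃ x ∈ Z, dist c x ≤ r + δ := by
    intro c
    obtain ⟨y, hy, hcy⟩ := hcov c
    rw [← hpr] at hy
    obtain ⟨n, rfl⟩ := hy
    refine ⟨q n, ⟨n, rfl⟩, ?_⟩
    have h1 := dist_triangle c (p n) (q n)
    have h2 := hqp n
    rw [dist_comm] at h2
    linarith
  obtain ⟨hT, hsph⟩ := Del_tri hG hZfin hZcov
  have hI : ∀ t ∈ Del Z, Inscribed t (r + δ) := by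
    intro t ht
    obtain ⟨o, ρ, h1, h2, -⟩ := hsph t ht
    exact ⟨o, ρ, h1, h2⟩
  have hsep : ∀ (C : Set E3), (∀ x ∈ C, ∀ y ∈ C, x ≠ y → l ≤ dist x y) → ∀ j n, p j ∈ C → p n ∈ C →
      q j ≠ q n → m * (r + δ) ^ 2 ≤ sd (q j) (q n) := by
    intro C hC j n hj hn hne
    have hmn : p j ≠ p n := fun h => hne (by rw [hpinj h])
    have h1 := hC _ hj _ hn hmn
    have h2 := dist_triangle (p j) (q j) (p n)
    have h3 := dist_triangle (q j) (q n) (p n)
    have h4 := hqp j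
    have h5 := hqp n
    rw [dist_comm] at h4
    refine hl.trans ?_
    rw [sd]
    exact pow_le_pow_left₀ (by linarith) (by linarith) 2
  let P : E3 → Prop := fun z => ∃ n, q n = z ∧ p n ∈ A
  have hvol : ∀ t ∈ Del Z, vol t ≤ (r + δ) ^ 3 * (Km m * tSS t) := by
    intro t ht
    refine m2_vol hm hm4 (by positivity) (hT.card_eq t ht) (hT.indep t ht) (hI t ht) P ?_ ?_
    · rintro x hx y hy ⟨j, rfl, hj⟩ ⟨n, rfl, hn⟩ hne
      exact hsep A hA j n hj hn hne
    · intro x hx y hy hPx hPy hne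
      obtain ⟨j, rfl⟩ := hT.vertices t ht x hx
      obtain ⟨n, rfl⟩ := hT.vertices t ht y hy
      have hj : p j ∈ B := (hpY j).resolve_left fun h => hPx ⟨j, rfl, h⟩
      have hn : p n ∈ B := (hpY n).resolve_left fun h => hPy ⟨n, rfl, h⟩
      exact hsep B hB j n hj hn hne
  obtain ⟨T, hTD, hV, hS⟩ := m2_count hT hI hZfin R
  have hvball : (volume (Metric.closedBall (0 : E3) R)).toReal = 4 / 3 * π * R ^ 3 := by
    rw [EuclideanSpace.volume_closedBall_fin_three, ← ENNReal.ofReal_pow hR,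
      ← ENNReal.ofReal_mul (by positivity), ENNReal.toReal_ofReal (by positivity)]
    ring
  rw [hvball] at hV
  have h1 : ∑ t ∈ T, vol t ≤ (r + δ) ^ 3 * (Km m * ∑ t ∈ T, tSS t) := by
    rw [Finset.mul_sum, Finset.mul_sum]
    exact Finset.sum_le_sum fun t ht => hvol t (hTD t ht)
  -- the map back
  set Z1 : Finset E3 := (hZfin (R + 4 * (r + δ))).toFinset with hZ1
  set X1 : Finset E3 := (hfin (R + (4 * r + 5 * δ))).toFinset with hX1
  have hZ1m : ∀ x, x ∈ Z1 ↔ x ∈ Z ∧ ‖x‖ ≤ R + 4 * (r + δ) := by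
    intro x
    simp only [Z1, Set.Finite.mem_toFinset, Set.mem_inter_iff, mem_closedBall_zero_iff]
  have hX1m : ∀ x, x ∈ X1 ↔ x ∈ A ∪ B ∧ ‖x‖ ≤ R + (4 * r + 5 * δ) := by
    intro x
    simp only [X1, Set.Finite.mem_toFinset, Set.mem_inter_iff, mem_closedBall_zero_iff]
  have hM1 : NN Z (R + 4 * (r + δ)) = Z1.card := Set.ncard_eq_toFinset_card _ (hZfin _)
  have hN1 : NN (A ∪ B) (R + (4 * r + 5 * δ)) = X1.card := Set.ncard_eq_toFinset_card _ (hfin _)
  set g : E3 → E3 := fun z => p (Function.invFun q z) with hg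
  have hgq : ∀ n, g (q n) = p n := fun n => by
    simp only [hg]
    rw [Function.leftInverse_invFun hqinj n]
  have hginj : Set.InjOn g Z := by
    rintro _ ⟨m, rfl⟩ _ ⟨n, rfl⟩ h
    rw [hgq, hgq] at h
    rw [hpinj h]
  have hZX : Z1.card ≤ X1.card := by
    refine Finset.card_le_card_of_injOn g ?_ (hginj.mono fun z hz => ((hZ1m z).1 hz).1)
    intro z hz
    obtain ⟨⟨n, rfl⟩, hn⟩ := (hZ1m z).1 hz
    rw [hgq, Finset.mem_coe, hX1m]
    refine ⟨hpY n, ?_⟩
    have := (abs_le.1 (hnorm n)).1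
    linarith
  rw [hM1] at hS
  rw [hN1]
  have f1 : (Z1.card : ℝ) ≤ X1.card := by exact_mod_cast hZX
  calc 4 / 3 * π * R ^ 3 ≤ (r + δ) ^ 3 * (Km m * ∑ t ∈ T, tSS t) := hV.trans h1
    _ ≤ (r + δ) ^ 3 * (Km m * (4 * π * X1.card)) := by
      apply mul_le_mul_of_nonneg_left _ (by positivity)
      apply mul_le_mul_of_nonneg_left _ (m1_Km (by linarith) hm4).le
      exact hS.trans (mul_le_mul_of_nonneg_left f1 (by positivity))
    _ = 4 * π * Km m * (r + δ) ^ 3 * X1.card := by ring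

/-- the bound as a function of the separation -/
noncomputable def Th (s : ℝ) : ℝ :=
  8 * (arccos (1 - 2 * (s ^ 2 / (16 - 3 * s ^ 2))) + 2 * arccos (s ^ 2 / (16 - 3 * s ^ 2)) - π) /
    (s ^ 2 * √(4 - s ^ 2))

theorem m3_Th {s : ℝ} (hs : √3 < s) (hs2 : s < 2) : 0 < Th s ∧
    Th s * (4 * π * Km (s ^ 2)) ≤ 4 / 3 * π := by
  have hpi := pi_pos
  have h3 : 0 ≤ √3 := sqrt_nonneg _
  have h33 : √3 ^ 2 = 3 := sq_sqrt (by norm_num)
  have hs0 : 0 < s := by linarith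
  have hm : 3 < s ^ 2 := by nlinarith
  have hm4 : s ^ 2 < 4 := by nlinarith
  have hO := m1_Om (by linarith : 0 < s ^ 2) hm4
  have hsq : 0 < √(4 - s ^ 2) := sqrt_pos.2 (by linarith)
  have e1 : Th s = 2 * Om (s ^ 2 / (16 - 3 * s ^ 2)) / (s ^ 2 * √(4 - s ^ 2)) := by
    rw [Th, Om]; ring
  constructor
  · rw [e1]; positivity
  · rw [e1, Km]
    apply le_of_eq
    have hO' := hO.ne'
    generalize Om (s ^ 2 / (16 - 3 * s ^ 2)) = O at hO'
    generalize √(4 - s ^ 2) = q at hsq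
    have hq := hsq.ne'
    field_simp
    ring

theorem m3_cont {m : ℝ} (hm : 3 < m) (hm4 : m < 4) : ContinuousAt Km m := by
  have hO := m1_Om (by linarith : 0 < m) hm4
  have h16 : 16 - 3 * m ≠ 0 := by
    have : 0 < 16 - 3 * m := by linarith
    exact this.ne'
  unfold Km
  have c1 : ContinuousAt (fun m : ℝ => m / (16 - 3 * m)) m :=
    continuousAt_id.div (by fun_prop) h16
  have c0 : Continuous Om := by
    unfold Om
    have h1 : Continuous fun k : ℝ => arccos (1 - 2 * k) := continuous_arccos.comp (by fun_prop)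
    have h2 : Continuous fun k : ℝ => arccos k := continuous_arccos
    fun_prop
  have c2 : ContinuousAt (fun m : ℝ => Om (m / (16 - 3 * m))) m :=
    c0.continuousAt.comp c1
  refine ContinuousAt.div ?_ (c2.const_mul 6) (by positivity)
  have : Continuous fun m : ℝ => m * √(4 - m) := by fun_prop
  exact this.continuousAt

/-- **coverings by two separated sets** -/
theorem two_separated (A B : Set E3) (r s : ℝ) (hr : 0 < r) (hs : √3 < s) (hs2 : s < 2)
    (hA : ∀ x ∈ A, ∀ y ∈ A, x ≠ y → s * r ≤ dist x y)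
    (hB : ∀ x ∈ B, ∀ y ∈ B, x ≠ y → s * r ≤ dist x y)
    (hC : (⋃ c ∈ A ∪ B, Metric.closedBall c r) = Set.univ) :
    ENNReal.ofReal (Th s) ≤
      Filter.liminf
        (fun R : ℝ =>
          ENat.toENNReal ((A ∪ B) ∩ Metric.closedBall (0 : EuclideanSpace ℝ (Fin 3)) R).encard *
            MeasureTheory.volume (Metric.closedBall (0 : EuclideanSpace ℝ (Fin 3)) r) /
            MeasureTheory.volume (Metric.closedBall (0 : EuclideanSpace ℝ (Fin 3)) R))
        Filter.atTop := by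
  have hpi := pi_pos
  have hcov : Cov (A ∪ B) r := by
    intro p
    have hp : p ∈ ⋃ c ∈ A ∪ B, Metric.closedBall c r := by rw [hC]; trivial
    simp only [Set.mem_iUnion, Metric.mem_closedBall, exists_prop] at hp
    exact hp
  have h3 : 0 ≤ √3 := sqrt_nonneg _
  have h33 : √3 ^ 2 = 3 := sq_sqrt (by norm_num)
  have hs0 : 0 < s := by linarith
  have hm : 3 < s ^ 2 := by nlinarith
  have hm4 : s ^ 2 < 4 := by nlinarith
  have hK := m1_Km (by linarith : 0 < s ^ 2) hm4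
  obtain ⟨hT0, hT1⟩ := m3_Th hs hs2
  apply density_of_bound' (A ∪ B) r hr (4 * π * Km (s ^ 2)) (Th s) (by positivity) hT0 hT1
  intro hfin η hη
  -- choice of m
  obtain ⟨m, hm3, hms, h1⟩ : ∃ m : ℝ, 3 < m ∧ m < s ^ 2 ∧ 4 * π * Km m * (r + 0) ^ 3 * η < 1 := by
    have hc : ContinuousAt (fun m : ℝ => 4 * π * Km m * (r + 0) ^ 3 * η) (s ^ 2) :=
      (((m3_cont hm hm4).const_mul (4 * π)).mul_const _).mul_const _
    have hev : ∀ᶠ m in 𝓝 (s ^ 2), 4 * π * Km m * (r + 0) ^ 3 * η < 1 :=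
      hc.eventually_lt continuousAt_const (by rw [add_zero]; exact hη)
    obtain ⟨d, hd, hball⟩ := Metric.eventually_nhds_iff.1 hev
    refine ⟨s ^ 2 - min (d / 2) ((s ^ 2 - 3) / 2), ?_, ?_, hball ?_⟩
    · have := min_le_right (d / 2) ((s ^ 2 - 3) / 2)
      linarith
    · have : 0 < min (d / 2) ((s ^ 2 - 3) / 2) := lt_min (by linarith) (by linarith)
      linarith
    · rw [dist_eq, abs_lt]
      have h4 := min_le_left (d / 2) ((s ^ 2 - 3) / 2)
      have h5 : 0 < min (d / 2) ((s ^ 2 - 3) / 2) := lt_min (by linarith) (by linarith)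
      constructor <;> linarith
  have hm4' : m < 4 := hms.trans hm4
  have hKm := m1_Km (by linarith : 0 < m) hm4'
  -- choice of δ
  obtain ⟨δ, hδ, h2, h4, h5⟩ : ∃ δ : ℝ, 0 < δ ∧ 4 * π * Km m * (r + δ) ^ 3 * η < 1 ∧
      m * (r + δ) ^ 2 < (s * r - 2 * δ) ^ 2 ∧ 2 * δ < s * r := by
    have c1 : Continuous fun δ : ℝ => 4 * π * Km m * (r + δ) ^ 3 * η := by fun_prop
    have c2 : Continuous fun δ : ℝ => m * (r + δ) ^ 2 := by fun_prop
    have c3 : Continuous fun δ : ℝ => (s * r - 2 * δ) ^ 2 := by fun_prop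
    have c4 : Continuous fun δ : ℝ => 2 * δ := by fun_prop
    have o1 := (isOpen_lt c1 continuous_const).mem_nhds (show (0 : ℝ) ∈ {δ : ℝ |
      4 * π * Km m * (r + δ) ^ 3 * η < 1} from h1)
    have o2 := (isOpen_lt c2 c3).mem_nhds (show (0 : ℝ) ∈ {δ : ℝ |
      m * (r + δ) ^ 2 < (s * r - 2 * δ) ^ 2} by
        show m * (r + 0) ^ 2 < (s * r - 2 * 0) ^ 2
        have e1 : (s * r - 2 * 0) ^ 2 = s ^ 2 * r ^ 2 := by ring
        rw [e1, add_zero]
        exact mul_lt_mul_of_pos_right hms (by positivity))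
    have o3 := (isOpen_lt c4 continuous_const).mem_nhds (show (0 : ℝ) ∈ {δ : ℝ |
      2 * δ < s * r} by
        show 2 * 0 < s * r
        rw [mul_zero]; positivity)
    obtain ⟨d, hd, hball⟩ := Metric.mem_nhds_iff.1 (Filter.inter_mem o1 (Filter.inter_mem o2 o3))
    have hmem : d / 2 ∈ Metric.ball (0 : ℝ) d := by
      rw [Metric.mem_ball, dist_zero_right, norm_eq_abs, abs_of_pos (by positivity)]
      linarith
    obtain ⟨a1, a2, a3⟩ := hball hmem
    exact ⟨d / 2, by positivity, a1, a2, a3⟩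
  refine eventually_count (A := 4 * π * Km m * (r + δ) ^ 3) (c := 4 * r + 5 * δ) (by positivity)
    (by positivity) (fun R hR => ?_) h2
  have h6 := m3_pert hr hδ hm3 hm4' hA hB h4.le h5.le hcov hfin
    (R := R - (4 * r + 5 * δ)) (by linarith)
  rwa [sub_add_cancel] at h6

theorem Th_bcc : Th (4 / √5) = 5 * √5 * π / 24 := by
  have h5 : 0 < √5 := sqrt_pos.2 (by norm_num)
  have h55 : √5 ^ 2 = 5 := sq_sqrt (by norm_num)
  have e1 : (4 / √5) ^ 2 = 16 / 5 := by rw [div_pow, h55]; norm_num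
  rw [Th, e1]
  have e2 : (16 / 5 : ℝ) / (16 - 3 * (16 / 5)) = 1 / 2 := by norm_num
  have e3 : (1 : ℝ) - 2 * (1 / 2) = 0 := by norm_num
  have e4 : arccos (1 / 2) = π / 3 := by
    rw [← cos_pi_div_three, arccos_cos (by positivity) (by linarith [pi_pos])]
  have e5 : √(4 - 16 / 5) = 2 / √5 := by
    rw [show (4 - 16 / 5 : ℝ) = (2 / √5) ^ 2 by rw [div_pow, h55]; norm_num]
    exact sqrt_sq (by positivity)
  rw [e2, e3, e4, e5, arccos_zero]
  field_simp
  nlinarith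

end TPC
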