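import Pool.Agent.TPC.Defs

/-!
# [TPC-A0] numerical constants

`cc = 16 √5 / 375` (unfold cc). `xm = 5 cc (1 - π/5) / (π (4/3 - 2/√3))`, `xL = 2/√3 xm - cc`, `de = xm - xL`.
Numerics: cc = 0.0954056, xm = 0.3159392, xL = 0.2694096, de = 0.0465296.
* `xm_bounds`: 1.7320508 < √3 < 1.7320509, 2.2360679 < √5 < 2.236068, `Real.pi_gt_d6`, `Real.pi_lt_d6`; the
  denominator π (4/3 - 2/√3) is 0.561189...; 5 cc (1 - π/5) = 0.177302...
* `xL_pos`: 2/√3 > 1.15, so xL > 1.15 * 0.3159 - 0.0955 > 0.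
* `de_pos`: de = cc - (2/√3 - 1) xm ≥ 0.0954 - 0.1548 * 0.316 > 0.
* `const_eq`: 2 π xL + 8 π de = 8 π xm - 6 π xL = 8 π xm - 6 π (2/√3 xm - cc) = 6 π (4/3 - 2/√3) xm + 6 π cc
  = 6 * 5 cc (1 - π/5) + 6 π cc = 30 cc (the denominator is nonzero, field_simp).
-/

set_option autoImplicit false

open MeasureTheory Real
open scoped InnerProductSpace

namespace TPC

open BccCov BccO

theorem a0_s3 : 1.7320508 < √3 ∧ √3 < 1.7320509 := by
  constructor
  · rw [Real.lt_sqrt (by norm_num)]; norm_num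
  · rw [Real.sqrt_lt' (by norm_num)]; norm_num

theorem a0_s5 : 2.2360679 < √5 ∧ √5 < 2.236068 := by
  constructor
  · rw [Real.lt_sqrt (by norm_num)]; norm_num
  · rw [Real.sqrt_lt' (by norm_num)]; norm_num

theorem a0_two_div : 2 / √3 = 2 / 3 * √3 := by
  have h0 : 0 < √3 := Real.sqrt_pos.mpr (by norm_num)
  have h2 : √3 * √3 = 3 := Real.mul_self_sqrt (by norm_num)
  rw [div_eq_iff h0.ne']
  linarith

theorem a0_den : 0.5611 < π * (4 / 3 - 2 / √3) ∧ 0.56119 < π * (4 / 3 - 2 / √3) ∧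
    π * (4 / 3 - 2 / √3) < 0.5612 := by
  have h1 := Real.pi_gt_d6
  have h2 := Real.pi_lt_d6
  obtain ⟨h3, h4⟩ := a0_s3
  rw [a0_two_div]
  have h5 : 0 < π := Real.pi_pos
  have h6 : 0 < 4 / 3 - 2 / 3 * √3 := by norm_num at h4 ⊢; linarith
  refine ⟨?_, ?_, ?_⟩
  · have : 3.141592 * (4 / 3 - 2 / 3 * √3) ≤ π * (4 / 3 - 2 / 3 * √3) :=
      mul_le_mul_of_nonneg_right h1.le h6.le
    norm_num at this h3 h4 ⊢
    linarith
  · have : 3.141592 * (4 / 3 - 2 / 3 * √3) ≤ π * (4 / 3 - 2 / 3 * √3) :=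
      mul_le_mul_of_nonneg_right h1.le h6.le
    norm_num at this h3 h4 ⊢
    linarith
  · have : π * (4 / 3 - 2 / 3 * √3) ≤ 3.141593 * (4 / 3 - 2 / 3 * √3) :=
      mul_le_mul_of_nonneg_right h2.le h6.le
    norm_num at this h3 h4 ⊢
    linarith

theorem a0_cc : 0.0954055 < cc ∧ cc < 0.0954057 := by
  obtain ⟨h3, h4⟩ := a0_s5
  unfold cc
  constructor <;> norm_num at h3 h4 ⊢ <;> linarith

theorem a0_num : 0.1773 < 5 * cc * (1 - π / 5) ∧ 5 * cc * (1 - π / 5) < 0.177304 := by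
  have h1 := Real.pi_gt_d6
  have h2 := Real.pi_lt_d6
  obtain ⟨h3, h4⟩ := a0_cc
  have h5 : 0 < 1 - π / 5 := by norm_num at h2 ⊢; linarith
  constructor
  · have : 5 * 0.0954055 * (1 - π / 5) ≤ 5 * cc * (1 - π / 5) :=
      mul_le_mul_of_nonneg_right (by linarith) h5.le
    norm_num at this h2 ⊢
    linarith
  · have : 5 * cc * (1 - π / 5) ≤ 5 * 0.0954057 * (1 - π / 5) :=
      mul_le_mul_of_nonneg_right (by linarith) h5.le
    norm_num at this h1 ⊢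
    linarith

theorem xm_bounds : 0.3159 < xm ∧ xm < 0.316 := by
  obtain ⟨d0, d1, d2⟩ := a0_den
  obtain ⟨n1, n2⟩ := a0_num
  have hd : 0 < π * (4 / 3 - 2 / √3) := by norm_num at d0 ⊢; linarith
  unfold xm
  constructor
  · rw [lt_div_iff₀ hd]
    norm_num at n1 d2 ⊢
    linarith
  · rw [div_lt_iff₀ hd]
    norm_num at n2 d1 ⊢
    linarith

theorem xL_pos : 0 < xL := by
  obtain ⟨h1, h2⟩ := xm_bounds
  obtain ⟨h3, h4⟩ := a0_s3
  obtain ⟨h5, h6⟩ := a0_cc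
  unfold xL
  rw [a0_two_div]
  have : 2 / 3 * √3 * 0.3159 ≤ 2 / 3 * √3 * xm :=
    mul_le_mul_of_nonneg_left h1.le (by positivity)
  have h7 : (0.36 : ℝ) < 2 / 3 * √3 * 0.3159 := by norm_num at h3 ⊢; linarith
  norm_num at h7 h6 ⊢
  linarith

theorem de_pos : 0 < de := by
  obtain ⟨h1, h2⟩ := xm_bounds
  obtain ⟨h3, h4⟩ := a0_s3
  obtain ⟨h5, h6⟩ := a0_cc
  unfold de xL
  rw [a0_two_div]
  have : 2 / 3 * √3 * xm ≤ 2 / 3 * 1.7320509 * xm :=
    mul_le_mul_of_nonneg_right (by linarith) (by linarith)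
  norm_num at this h2 h5 ⊢
  linarith

theorem const_eq : 2 * π * xL + 8 * π * de = 30 * cc := by
  obtain ⟨d0, -, -⟩ := a0_den
  have hd : 0 < π * (4 / 3 - 2 / √3) := by norm_num at d0 ⊢; linarith
  have h1 : xm * (π * (4 / 3 - 2 / √3)) = 5 * cc * (1 - π / 5) := by
    unfold xm
    exact div_mul_cancel₀ _ hd.ne'
  unfold de xL
  linear_combination 6 * h1

end TPC
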