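import Pool.Agent.TPC.Defs

/-!
# [TPC-A1] the dihedral angle as a Gaussian integral over a wedge

Put p = y - x, q = z - x, r = w - x, y' = x + (x - y) (so y' - x = -p).
(1) `jj_eq h` : |det3 x y z w| * jj (sd x y) (sd x z) (sd x w) (sd y z) (sd y w) (sd z w) = π^(3/2) * frac (ocone p q r).
(2) det3 x y' z w = - det3 x y z w (unfold det3; simp; ring), sd x y' = sd x y,
    sd y' z = 2 sd x y + 2 sd x z - sd y z, sd y' w = 2 sd x y + 2 sd x w - sd y w (by `sd_eq`; ring).
    So `jj_eq` for (x, y', z, w): |det3 x y z w| * jj (sd x y) (sd x z) (sd x w) (2 sd x y + 2 sd x z - sd y z)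
    (2 sd x y + 2 sd x w - sd y w) (sd z w) = π^(3/2) * frac (ocone (y' - x) q r).
(3) `girard` for both: frac (ocone p q r) = (dih x y z w + dih x z y w + dih x w y z - π) / (4 π) and
    frac (ocone (y' - x) q r) = (dih x y' z w + dih x z y' w + dih x w y' z - π) / (4 π).
(4) dih x y' z w = dih x y z w because perp (-p) v = perp p v; dih x z y' w = π - dih x z y w because
    perp q (-p) = - perp q p and `InnerProductGeometry.angle_neg_left`; dih x w y' z = π - dih x w y z in the same way.
Sum: (2 dih x y z w + π + π - 2 π) / (4 π) = dih x y z w / (2 π). JJ is the sum of the two jj.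
-/

set_option autoImplicit false

open MeasureTheory Real
open scoped InnerProductSpace

namespace TPC

open BccCov BccO

theorem a1_perp_neg_left (u v : E3) : perp (-u) v = perp u v := by
  unfold perp
  rw [inner_neg_left, inner_neg_neg, neg_div, neg_smul_neg]

theorem a1_perp_neg_right (u v : E3) : perp u (-v) = - perp u v := by
  unfold perp
  rw [inner_neg_right, neg_div, neg_smul, neg_sub, sub_neg_eq_add, add_comm, ← sub_eq_add_neg]

theorem a1_sub (x y : E3) : x + (x - y) - x = -(y - x) := by
  rw [add_sub_cancel_left, neg_sub]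

theorem a1_coord (x y : E3) (i : Fin 3) : (x + (x - y)) i = 2 * x i - y i := by
  rw [PiLp.add_apply, PiLp.sub_apply]
  ring

theorem JJ_eq {x y z w : E3} (h : det3 x y z w ≠ 0) :
    |det3 x y z w| * JJ (sd x y) (sd x z) (sd x w) (sd y z) (sd y w) (sd z w) =
      π ^ (3 / 2 : ℝ) * (dih x y z w / (2 * π)) := by
  set y' : E3 := x + (x - y) with hy'
  have hsub : y' - x = -(y - x) := a1_sub x y
  have hdet : det3 x y' z w = - det3 x y z w := by
    unfold det3
    rw [hy', a1_coord, a1_coord, a1_coord]
    ring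
  have h' : det3 x y' z w ≠ 0 := by
    rw [hdet]
    exact neg_ne_zero.2 h
  have s1 : sd x y' = sd x y := by
    rw [sd_eq, sd_eq, hy', a1_coord, a1_coord, a1_coord]
    ring
  have s2 : sd y' z = 2 * sd x y + 2 * sd x z - sd y z := by
    rw [sd_eq, sd_eq, sd_eq, sd_eq, hy', a1_coord, a1_coord, a1_coord]
    ring
  have s3 : sd y' w = 2 * sd x y + 2 * sd x w - sd y w := by
    rw [sd_eq, sd_eq, sd_eq, sd_eq, hy', a1_coord, a1_coord, a1_coord]
    ring
  have j1 := jj_eq h
  have j2 := jj_eq h'
  rw [girard h] at j1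
  rw [girard h', hdet, abs_neg, s1, s2, s3] at j2
  have d1 : dih x y' z w = dih x y z w := by
    unfold dih
    rw [hsub, a1_perp_neg_left, a1_perp_neg_left]
  have d2 : dih x z y' w = π - dih x z y w := by
    unfold dih
    rw [hsub, a1_perp_neg_right, InnerProductGeometry.angle_neg_left]
  have d3 : dih x w y' z = π - dih x w y z := by
    unfold dih
    rw [hsub, a1_perp_neg_right, InnerProductGeometry.angle_neg_left]
  rw [d1, d2, d3] at j2
  unfold JJ
  rw [mul_add, j1, j2, ← mul_add]
  congr 1
  have hpi : π ≠ 0 := Real.pi_ne_zero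
  field_simp
  ring

end TPC
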