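import Pool.Agent.TPC.Defs

/-!
# [TPC-A2] averaging of `MF` over the symmetries of the disphenoid

(1) Pos_refl: Pos A B C x y z → Pos A B C (2A+2B-x) (2A+2C-y) z, because
    qf A B C (2A+2B-x) (2A+2C-y) z l = qf A B C x y z l' with l' = (-l 0, l 1, l 2), ‖l'‖ = ‖l‖ (take l' = V3 (-l 0) (l 1) (l 2),
    `nsq`), same constant k.
(2) JJ at the average (weights 1/2, 1/2) of two parameter tuples with Pos is at most the average of the JJ: apply
    `jj_avg` to both summands (the arguments 2A+2B-x, 2A+2C-y are linear in the tuple).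
(3) `PosF a b c d e f` gives `Pos b a c d f e` (`Pos_s01 h.1`), so KW is midpoint convex on PosF. The eight tuples in
    `MF` are the images of (a,b,c,d,e,f) under the group generated by s1 = (a,d,e,b,c,f) (`PosF_12`), s2 = (a,c,b,e,d,f)
    (`PosF_34`), s3 = (f,b,d,c,e,a) (`PosF_1324`); so each of them has PosF, and MF is midpoint convex on PosF.
(4) MF a d e b c f = MF a b c d e f, MF a c b e d f = MF a b c d e f, MF f b d c e a = MF a b c d e f (unfold MF; ring: the
    eight summands are permuted).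
(5) Conclude exactly as `BccO.avg_D4` (file Pool/Agent/MP_bf7174_co/O/F2.lean) with `half'` replaced by its analogue for MF:
    three successive midpoints with the images under s1, s2, s3 lead to the tuple (X,Y,Y,Y,Y,X), X = (a+f)/2,
    Y = (b+c+d+e)/4; the PosF statements of the intermediate tuples are in the proof of `avg_D4` (`PosF_avg`).
-/

set_option autoImplicit false

open MeasureTheory Real
open scoped InnerProductSpace

namespace TPC

open BccCov BccO

theorem a2_refl {A B C x y z : ℝ} (h : Pos A B C x y z) :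
    Pos A B C (2 * A + 2 * B - x) (2 * A + 2 * C - y) z := by
  obtain ⟨k, hk, hq⟩ := h
  refine ⟨k, hk, fun l => ?_⟩
  have h1 := hq !₂[-l 0, l 1, l 2]
  have h2 : ‖(!₂[-l 0, l 1, l 2] : E3)‖ ^ 2 = ‖l‖ ^ 2 := by
    rw [EuclideanSpace.real_norm_sq_eq, EuclideanSpace.real_norm_sq_eq, Fin.sum_univ_three,
      Fin.sum_univ_three]
    simp
  rw [h2] at h1
  refine h1.trans (le_of_eq ?_)
  unfold qf
  simp
  ring

theorem a2_JJ {A B C x y z A' B' C' x' y' z' : ℝ} (h : Pos A B C x y z) (h' : Pos A' B' C' x' y' z')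
    {w w' : ℝ} (hw : 0 ≤ w) (hw' : 0 ≤ w') (hs : w + w' = 1) :
    JJ (w * A + w' * A') (w * B + w' * B') (w * C + w' * C') (w * x + w' * x') (w * y + w' * y')
      (w * z + w' * z') ≤ w * JJ A B C x y z + w' * JJ A' B' C' x' y' z' := by
  unfold JJ
  have h1 := jj_avg h h' hw hw' hs
  have h2 := jj_avg (a2_refl h) (a2_refl h') hw hw' hs
  have e1 : 2 * (w * A + w' * A') + 2 * (w * B + w' * B') - (w * x + w' * x') =
      w * (2 * A + 2 * B - x) + w' * (2 * A' + 2 * B' - x') := by ring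
  have e2 : 2 * (w * A + w' * A') + 2 * (w * C + w' * C') - (w * y + w' * y') =
      w * (2 * A + 2 * C - y) + w' * (2 * A' + 2 * C' - y') := by ring
  rw [e1, e2]
  linarith

theorem a2_KW {a b c d e f a' b' c' d' e' f' : ℝ} (h : PosF a b c d e f)
    (h' : PosF a' b' c' d' e' f') {w w' : ℝ} (hw : 0 ≤ w) (hw' : 0 ≤ w') (hs : w + w' = 1) :
    KW (w * a + w' * a') (w * b + w' * b') (w * c + w' * c') (w * d + w' * d') (w * e + w' * e')
      (w * f + w' * f') ≤ w * KW a b c d e f + w' * KW a' b' c' d' e' f' := by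
  unfold KW
  exact a2_JJ (Pos_s01 h.1) (Pos_s01 h'.1) hw hw' hs

theorem a2_MF {a b c d e f a' b' c' d' e' f' : ℝ} (h : PosF a b c d e f)
    (h' : PosF a' b' c' d' e' f') {w w' : ℝ} (hw : 0 ≤ w) (hw' : 0 ≤ w') (hs : w + w' = 1) :
    MF (w * a + w' * a') (w * b + w' * b') (w * c + w' * c') (w * d + w' * d') (w * e + w' * e')
      (w * f + w' * f') ≤ w * MF a b c d e f + w' * MF a' b' c' d' e' f' := by
  unfold MF
  have h1 := a2_KW h h' hw hw' hs
  have h2 := a2_KW (PosF_12 h) (PosF_12 h') hw hw' hs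
  have h3 := a2_KW (PosF_34 h) (PosF_34 h') hw hw' hs
  have h4 := a2_KW (PosF_12 (PosF_34 h)) (PosF_12 (PosF_34 h')) hw hw' hs
  have h5 := a2_KW (PosF_1324 h) (PosF_1324 h') hw hw' hs
  have h6 := a2_KW (PosF_1324 (PosF_34 h)) (PosF_1324 (PosF_34 h')) hw hw' hs
  have h7 := a2_KW (PosF_1324 (PosF_12 h)) (PosF_1324 (PosF_12 h')) hw hw' hs
  have h8 := a2_KW (PosF_1324 (PosF_12 (PosF_34 h))) (PosF_1324 (PosF_12 (PosF_34 h'))) hw hw' hs
  linarith

theorem a2_12 (a b c d e f : ℝ) : MF a d e b c f = MF a b c d e f := by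
  unfold MF
  ring

theorem a2_34 (a b c d e f : ℝ) : MF a c b e d f = MF a b c d e f := by
  unfold MF
  ring

theorem a2_1324 (a b c d e f : ℝ) : MF f b d c e a = MF a b c d e f := by
  unfold MF
  ring

theorem a2_half {a b c d e f a' b' c' d' e' f' : ℝ} (h : PosF a b c d e f)
    (h' : PosF a' b' c' d' e' f') (he : MF a' b' c' d' e' f' = MF a b c d e f) :
    PosF ((a + a') / 2) ((b + b') / 2) ((c + c') / 2) ((d + d') / 2) ((e + e') / 2) ((f + f') / 2) ∧
    MF ((a + a') / 2) ((b + b') / 2) ((c + c') / 2) ((d + d') / 2) ((e + e') / 2) ((f + f') / 2)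
      ≤ MF a b c d e f := by
  have A1 := a2_MF h h' (w := 1 / 2) (w' := 1 / 2) (by norm_num) (by norm_num) (by norm_num)
  have P1 := PosF_avg h h' (w := 1 / 2) (w' := 1 / 2) (by norm_num) (by norm_num) (by norm_num)
  rw [he] at A1
  have e1 : ∀ s t : ℝ, 1 / 2 * s + 1 / 2 * t = (s + t) / 2 := fun s t => by ring
  simp only [e1] at A1 P1
  refine ⟨P1, A1.trans (le_of_eq (by ring))⟩

theorem MF_avg_D4 {a b c d e f : ℝ} (h : PosF a b c d e f) :
    MF ((a + f) / 2) ((b + c + d + e) / 4) ((b + c + d + e) / 4) ((b + c + d + e) / 4)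
      ((b + c + d + e) / 4) ((a + f) / 2) ≤ MF a b c d e f := by
  obtain ⟨P1, A1⟩ := a2_half h (PosF_12 h) (a2_12 _ _ _ _ _ _)
  obtain ⟨P2, A2⟩ := a2_half P1 (PosF_34 P1) (a2_34 _ _ _ _ _ _)
  obtain ⟨-, A3⟩ := a2_half P2 (PosF_1324 P2) (a2_1324 _ _ _ _ _ _)
  refine le_trans (le_of_eq ?_) (A3.trans (A2.trans A1))
  congr 1 <;> ring

end TPC
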