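import Pool.Agent.TPC.A1

/-!
# [TPC-A3] the sum of the four dihedral angles

`JJ_eq` (file A1, may be used with its sorry). For a labelled tetrahedron (x,y,z,w) write T(x,y,z,w) =
(sd x y, sd x z, sd x w, sd y z, sd y w, sd z w). Then KW (T(x,y,z,w)) = JJ (sd x z) (sd x y) (sd x w) (sd y z) (sd z w) (sd y w)
is the left side of `JJ_eq` for (x, z, y, w) (up to `sd_comm`), so
|det3| * KW (T(x,y,z,w)) = π^(3/2) * (dih x z y w / (2π)) (det3 x z y w = - det3 x y z w, `abs_neg`).
The eight summands of MF (T(x,y,z,w)) are KW of T(x,y,z,w), T(y,x,z,w), T(x,y,w,z), T(y,x,w,z), T(z,w,x,y), T(w,z,x,y),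
T(z,w,y,x), T(w,z,y,x) (in this order, up to sd_comm), so they give dih x z y w, dih y z x w, dih x w y z, dih y w x z,
dih z x w y, dih w x z y, dih z y w x, dih w y z x. By `BccCov.S.dih_swap_left` (needs distinct points: `ne_of_det`) and
`BccCov.S.dih_swap_right` the last four are dih x z y w, dih x w y z, dih y z x w, dih y w x z. So the eight add up to 2 MM and
|det3| * MF = π^(3/2)/(2π) * MM, i.e. MM = cG/2 * |det3| * MF with cG = 4π/π^(3/2) (unfold cG; field_simp).
Determinant signs: `det3_swap01`, `det3_swap12`, `det3_swap23` or unfold det3; ring.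
-/

set_option autoImplicit false

open MeasureTheory Real
open scoped InnerProductSpace

namespace TPC

open BccCov BccO

theorem a3_KW {x y z w : E3} {D a b c d e f : ℝ} (hD : |det3 x y z w| = D) (hD0 : D ≠ 0)
    (ha : sd x y = a) (hb : sd x z = b) (hc : sd x w = c) (hd : sd y z = d) (he : sd y w = e)
    (hf : sd z w = f) :
    D * KW a b c d e f = π ^ (3 / 2 : ℝ) * (dih x z y w / (2 * π)) := by
  subst hD ha hb hc hd he hf
  have h0 : det3 x z y w ≠ 0 := by
    rw [det3_swap12]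
    exact neg_ne_zero.2 (abs_ne_zero.1 hD0)
  have h1 := JJ_eq h0
  rw [det3_swap12, abs_neg, sd_comm z y] at h1
  unfold KW
  exact h1

theorem MM_eq {x y z w : E3} (h : det3 x y z w ≠ 0) :
    MM x y z w = cG / 2 * |det3 x y z w| *
      MF (sd x y) (sd x z) (sd x w) (sd y z) (sd y w) (sd z w) := by
  obtain ⟨hxy, hxz, hxw, hyz, hyw, hzw⟩ := ne_of_det h
  have hpi := Real.pi_pos
  have hD0 : |det3 x y z w| ≠ 0 := abs_ne_zero.2 h
  have e5 : det3 z w x y = det3 x y z w := by unfold det3; ring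
  have e4 : |det3 y x w z| = |det3 x y z w| := by rw [det3_swap01, abs_neg, det3_swap23, abs_neg]
  have h1 := a3_KW (x := x) (y := y) (z := z) (w := w) rfl hD0 rfl rfl rfl rfl rfl rfl
  have h2 := a3_KW (x := y) (y := x) (z := z) (w := w) (D := |det3 x y z w|)
    (by rw [det3_swap01, abs_neg]) hD0 (sd_comm _ _) rfl rfl rfl rfl rfl
  have h3 := a3_KW (x := x) (y := y) (z := w) (w := z) (D := |det3 x y z w|)
    (by rw [det3_swap23, abs_neg]) hD0 rfl rfl rfl rfl rfl (sd_comm _ _)
  have h4 := a3_KW (x := y) (y := x) (z := w) (w := z) (D := |det3 x y z w|)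
    e4 hD0 (sd_comm _ _) rfl rfl rfl rfl (sd_comm _ _)
  have h5 := a3_KW (x := z) (y := w) (z := x) (w := y) (D := |det3 x y z w|)
    (by rw [e5]) hD0 rfl (sd_comm _ _) (sd_comm _ _) (sd_comm _ _) (sd_comm _ _) rfl
  have h6 := a3_KW (x := w) (y := z) (z := x) (w := y) (D := |det3 x y z w|)
    (by rw [det3_swap01, abs_neg, e5]) hD0 (sd_comm _ _) (sd_comm _ _) (sd_comm _ _) (sd_comm _ _)
    (sd_comm _ _) rfl
  have h7 := a3_KW (x := z) (y := w) (z := y) (w := x) (D := |det3 x y z w|)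
    (by rw [det3_swap23, abs_neg, e5]) hD0 rfl (sd_comm _ _) (sd_comm _ _) (sd_comm _ _)
    (sd_comm _ _) (sd_comm _ _)
  have h8 := a3_KW (x := w) (y := z) (z := y) (w := x) (D := |det3 x y z w|)
    (by rw [det3_swap01, abs_neg, det3_swap23, abs_neg, e5]) hD0 (sd_comm _ _) (sd_comm _ _)
    (sd_comm _ _) (sd_comm _ _) (sd_comm _ _) (sd_comm _ _)
  rw [BccCov.S.dih_swap_left x z w y hxz, BccCov.S.dih_swap_right x z y w] at h5
  rw [BccCov.S.dih_swap_left x w z y hxw, BccCov.S.dih_swap_right x w y z] at h6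
  rw [BccCov.S.dih_swap_left y z w x hyz, BccCov.S.dih_swap_right y z x w] at h7
  rw [BccCov.S.dih_swap_left y w z x hyw, BccCov.S.dih_swap_right y w x z] at h8
  have hP : 0 < π ^ (3 / 2 : ℝ) := Real.rpow_pos_of_pos hpi _
  have h9 : |det3 x y z w| * MF (sd x y) (sd x z) (sd x w) (sd y z) (sd y w) (sd z w) =
      π ^ (3 / 2 : ℝ) * (MM x y z w / (2 * π)) := by
    unfold MF MM
    linear_combination (h1 + h2 + h3 + h4 + h5 + h6 + h7 + h8) / 2
  rw [mul_assoc, h9, cG]
  field_simp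
  ring

end TPC
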