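import Pool.Agent.TPC.A0

/-!
# [TPC-A4] signs of the derivative `gg`

Write z = u². gg has derivative g1 u = -8 xm + 32/3 * (-1 + 23 u^2 - 40 u^4) / ((1+2u²)^3 √(1+2u²)), and g1 has derivative
g2 u = 64/3 * u * (30 - 195 u^2 + 120 u^4) / ((1+2u²)^4 √(1+2u²)) (all u). Check of the numerators:
d/du [(-u+5u³-4u⁵)(1+2u²)^(-5/2)] = [(-1+15z-20z²)(1+2z) - 10(-z+5z²-4z³)] (1+2z)^(-7/2) = (-1+23z-40z²)(1+2z)^(-7/2), and
d/dz [(-1+23z-40z²)(1+2z)^(-7/2)] = [(23-80z)(1+2z) - 7(-1+23z-40z²)] (1+2z)^(-9/2) = (30-195z+120z²)(1+2z)^(-9/2).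
Values: gg (1/√3) = 0: 8 xm/√3 cancels with 4 xL = 8 xm/√3 - 4 cc, and 32/3 * (1/√3) * (1/3) * (2/3) / ((5/3)² √(5/3))
= 64/(75√5) = 4 cc. g1 (1/√3) = -8 xm + 128/25 √(3/5) > 0 (xm < 0.316 from `xm_bounds`, 128/25 √(3/5) = 3.9659).
Let z0 = (195 - √23625)/240 = 0.17207..., u0 = √z0; 30-195z+120z² ≥ 0 for 0 ≤ z ≤ z0 and ≤ 0 for z0 ≤ z ≤ 1/2. So gg is convex on
[0,u0] and concave on [u0, 1/√2] (`convexOn_of_hasDerivWithinAt2_nonneg` / `concaveOn_of_...`, or monotone derivative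
`MonotoneOn.convexOn_of_deriv` / `AntitoneOn.concaveOn_of_deriv`).
`gg_right`: gg concave on [1/√3, 1/√2], gg(1/√3) = 0. If gg u₂ > 0 then (u₁ is between 1/√3 and u₂) concavity gives
gg u₁ ≥ min... more precisely gg u₁ ≥ convex combination of 0 and gg u₂, hence ≥ 0, contradiction.
`gg_left`: (a) on [u0, 1/√3]: concave with gg(1/√3) = 0 and g1(1/√3) > 0, so gg u ≤ g1(1/√3)(u - 1/√3) ≤ 0 there (tangent line of
a concave function; e.g. g1 is antitone on [u0,1/√2], so g1 ≥ g1(1/√3) > 0 on [u0,1/√3], gg is increasing there, so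
gg u ≤ gg(1/√3) = 0). (b) If u₂ ≥ u0 we are done by (a). If u₂ < u0: 0 ≤ u₁ < u₂ < u0, convexity on [0,u0]: gg u₂ ≤ convex
combination of gg u₁ < 0 and gg u0 ≤ 0, so ≤ 0.
-/

set_option autoImplicit false

open MeasureTheory Real
open scoped InnerProductSpace

namespace TPC

open BccCov BccO

/-- the derivative of `ff` in terms of `u = sin τ / √(1 + sin² τ)` -/
noncomputable def gg (u : ℝ) : ℝ :=
  4 * xL - 8 * xm * u +
    32 / 3 * (u * (4 * u ^ 2 - 1) * (1 - u ^ 2) / ((1 + 2 * u ^ 2) ^ 2 * √(1 + 2 * u ^ 2)))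

/-- auxiliary square root -/
noncomputable def a4_S (u : ℝ) : ℝ := √(1 + 2 * u ^ 2)

theorem a4_S_pos (u : ℝ) : 0 < a4_S u := Real.sqrt_pos.2 (by positivity)

theorem a4_S_sq (u : ℝ) : a4_S u ^ 2 = 1 + 2 * u ^ 2 := Real.sq_sqrt (by positivity)

theorem a4_S_deriv (u : ℝ) : HasDerivAt a4_S (2 * u / a4_S u) u := by
  have h1 : HasDerivAt (fun u : ℝ => 1 + 2 * u ^ 2) (4 * u) u := by
    have h := ((hasDerivAt_pow 2 u).const_mul 2).const_add 1
    refine h.congr_deriv ?_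
    norm_num
    ring
  have h2 := h1.sqrt (by positivity)
  refine h2.congr_deriv ?_
  have hp := a4_S_pos u
  unfold a4_S at hp ⊢
  field_simp
  ring

/-- first derivative of `gg` -/
noncomputable def a4_g1 (u : ℝ) : ℝ :=
  -(8 * xm) + 32 / 3 * ((-1 + 23 * u ^ 2 - 40 * u ^ 4) / a4_S u ^ 7)

theorem a4_gg_eq (u : ℝ) :
    gg u = 4 * xL - 8 * xm * u + 32 / 3 * ((-u + 5 * u ^ 3 - 4 * u ^ 5) / a4_S u ^ 5) := by
  have h : (1 + 2 * u ^ 2) ^ 2 * √(1 + 2 * u ^ 2) = a4_S u ^ 5 := by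
    have h2 := a4_S_sq u
    have : √(1 + 2 * u ^ 2) = a4_S u := rfl
    rw [this, ← h2]
    ring
  unfold gg
  rw [h]
  congr 3
  ring

theorem a4_pow_deriv (n : ℕ) (u : ℝ) :
    HasDerivAt (fun u => a4_S u ^ (n + 1)) ((n + 1 : ℝ) * a4_S u ^ n * (2 * u / a4_S u)) u := by
  have h := (a4_S_deriv u).pow (n + 1)
  refine h.congr_deriv ?_
  push_cast
  simp

theorem a4_gg_deriv (u : ℝ) : HasDerivAt gg (a4_g1 u) u := by
  have hN : HasDerivAt (fun u : ℝ => -u + 5 * u ^ 3 - 4 * u ^ 5) (-1 + 15 * u ^ 2 - 20 * u ^ 4) u := by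
    have h := ((hasDerivAt_id u).neg.add ((hasDerivAt_pow 3 u).const_mul 5)).sub
      ((hasDerivAt_pow 5 u).const_mul 4)
    refine h.congr_deriv ?_
    norm_num
    ring
  have hp := a4_S_pos u
  have hs := a4_S_sq u
  have hD := hN.div (a4_pow_deriv 4 u) (by positivity)
  have h1 : HasDerivAt (fun u : ℝ => 4 * xL - 8 * xm * u) (-(8 * xm)) u := by
    have h := ((hasDerivAt_id u).const_mul (8 * xm)).const_sub (4 * xL)
    refine h.congr_deriv ?_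
    ring
  have h2 := h1.add (hD.const_mul (32 / 3))
  have h3 : gg = fun u => (4 * xL - 8 * xm * u) +
      32 / 3 * ((-u + 5 * u ^ 3 - 4 * u ^ 5) / a4_S u ^ (4 + 1)) := by
    funext v
    rw [a4_gg_eq]
  rw [h3]
  refine h2.congr_deriv ?_
  unfold a4_g1
  congr 2
  rw [div_eq_div_iff (by positivity) (by positivity)]
  have e1 : ((4 : ℕ) : ℝ) = 4 := by norm_num
  rw [e1]
  have e2 : (4 + 1 : ℝ) * a4_S u ^ 4 * (2 * u / a4_S u) = 10 * u * a4_S u ^ 3 := by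
    field_simp
    ring
  rw [e2]
  have e3 : (-1 + 15 * u ^ 2 - 20 * u ^ 4) * a4_S u ^ (4 + 1) -
      (-u + 5 * u ^ 3 - 4 * u ^ 5) * (10 * u * a4_S u ^ 3) =
      a4_S u ^ 3 * (-1 + 23 * u ^ 2 - 40 * u ^ 4) := by
    have : a4_S u ^ (4 + 1) = a4_S u ^ 3 * a4_S u ^ 2 := by ring
    rw [this, hs]
    ring
  rw [e3]
  ring

/-- second derivative of `gg` -/
noncomputable def a4_g2 (u : ℝ) : ℝ :=
  64 / 3 * (u * (30 - 195 * u ^ 2 + 120 * u ^ 4) / a4_S u ^ 9)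

theorem a4_g1_deriv (u : ℝ) : HasDerivAt a4_g1 (a4_g2 u) u := by
  have hN : HasDerivAt (fun u : ℝ => -1 + 23 * u ^ 2 - 40 * u ^ 4) (46 * u - 160 * u ^ 3) u := by
    have h := (((hasDerivAt_pow 2 u).const_mul 23).const_add (-1)).sub
      ((hasDerivAt_pow 4 u).const_mul 40)
    refine h.congr_deriv ?_
    norm_num
    ring
  have hp := a4_S_pos u
  have hs := a4_S_sq u
  have hD := hN.div (a4_pow_deriv 6 u) (by positivity)
  have h2 := (hD.const_mul (32 / 3)).const_add (-(8 * xm))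
  have h3 : a4_g1 = fun u => -(8 * xm) +
      32 / 3 * ((-1 + 23 * u ^ 2 - 40 * u ^ 4) / a4_S u ^ (6 + 1)) := by
    funext v
    rfl
  rw [h3]
  refine h2.congr_deriv ?_
  unfold a4_g2
  have e1 : ((6 : ℕ) : ℝ) = 6 := by norm_num
  rw [e1]
  have e2 : (6 + 1 : ℝ) * a4_S u ^ 6 * (2 * u / a4_S u) = 14 * u * a4_S u ^ 5 := by
    field_simp
    ring
  rw [e2]
  have e3 : (46 * u - 160 * u ^ 3) * a4_S u ^ (6 + 1) -
      (-1 + 23 * u ^ 2 - 40 * u ^ 4) * (14 * u * a4_S u ^ 5) =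
      2 * (a4_S u ^ 5 * (u * (30 - 195 * u ^ 2 + 120 * u ^ 4))) := by
    have : a4_S u ^ (6 + 1) = a4_S u ^ 5 * a4_S u ^ 2 := by ring
    rw [this, hs]
    ring
  rw [e3]
  field_simp
  ring

/-- smaller root of `8 z^2 - 13 z + 2` -/
noncomputable def a4_z0 : ℝ := (13 - √105) / 16

theorem a4_sqrt105 : 10.2 < √105 ∧ √105 < 10.3 := by
  constructor
  · rw [Real.lt_sqrt (by norm_num)]
    norm_num
  · rw [Real.sqrt_lt' (by norm_num)]
    norm_num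

theorem a4_z0_bounds : 0.16 < a4_z0 ∧ a4_z0 < 0.18 := by
  have h := a4_sqrt105
  unfold a4_z0
  constructor
  · linarith [h.2]
  · linarith [h.1]

theorem a4_factor (z : ℝ) :
    30 - 195 * z + 120 * z ^ 2 = 120 * ((a4_z0 - z) * ((13 + √105) / 16 - z)) := by
  have h : √105 ^ 2 = 105 := Real.sq_sqrt (by norm_num)
  unfold a4_z0
  linear_combination (120 / 256) * h

theorem a4_u0_sq : √a4_z0 ^ 2 = a4_z0 := Real.sq_sqrt (by linarith [a4_z0_bounds.1])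

theorem a4_u0_nonneg : 0 ≤ √a4_z0 := Real.sqrt_nonneg _

theorem a4_g2_nonneg {u : ℝ} (h0 : 0 ≤ u) (h1 : u ≤ √a4_z0) : 0 ≤ a4_g2 u := by
  have hz : u ^ 2 ≤ a4_z0 := by
    rw [← a4_u0_sq]
    exact pow_le_pow_left₀ h0 h1 2
  have hp := a4_S_pos u
  have h5 := a4_sqrt105
  have hb := a4_z0_bounds
  have hf := a4_factor (u ^ 2)
  have hn : 0 ≤ 30 - 195 * u ^ 2 + 120 * u ^ 4 := by
    have : 30 - 195 * u ^ 2 + 120 * u ^ 4 = 30 - 195 * u ^ 2 + 120 * (u ^ 2) ^ 2 := by ring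
    rw [this, hf]
    have h1 : 0 ≤ a4_z0 - u ^ 2 := by linarith
    have h2 : 0 ≤ (13 + √105) / 16 - u ^ 2 := by
      have := h5.1
      have := hb.2
      linarith
    positivity
  unfold a4_g2
  positivity

theorem a4_g2_nonpos {u : ℝ} (h0 : √a4_z0 ≤ u) (h1 : u ≤ 1 / √2) : a4_g2 u ≤ 0 := by
  have hu : 0 ≤ u := a4_u0_nonneg.trans h0
  have hz : a4_z0 ≤ u ^ 2 := by
    rw [← a4_u0_sq]
    exact pow_le_pow_left₀ a4_u0_nonneg h0 2
  have hz2 : u ^ 2 ≤ 1 / 2 := by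
    have := pow_le_pow_left₀ hu h1 2
    rw [div_pow, Real.sq_sqrt (by norm_num)] at this
    linarith
  have hp := a4_S_pos u
  have h5 := a4_sqrt105
  have hf := a4_factor (u ^ 2)
  have hn : 30 - 195 * u ^ 2 + 120 * u ^ 4 ≤ 0 := by
    have : 30 - 195 * u ^ 2 + 120 * u ^ 4 = 30 - 195 * u ^ 2 + 120 * (u ^ 2) ^ 2 := by ring
    rw [this, hf]
    have h1 : a4_z0 - u ^ 2 ≤ 0 := by linarith
    have h2 : 0 ≤ (13 + √105) / 16 - u ^ 2 := by
      have := h5.1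
      linarith
    have := mul_nonpos_of_nonpos_of_nonneg h1 h2
    linarith
  unfold a4_g2
  have : u * (30 - 195 * u ^ 2 + 120 * u ^ 4) / a4_S u ^ 9 ≤ 0 :=
    div_nonpos_of_nonpos_of_nonneg (mul_nonpos_of_nonneg_of_nonpos hu hn) (by positivity)
  linarith

theorem a4_g1_mono : MonotoneOn a4_g1 (Set.Icc 0 √a4_z0) := by
  apply monotoneOn_of_deriv_nonneg (convex_Icc _ _)
  · exact fun u _ => (a4_g1_deriv u).continuousAt.continuousWithinAt
  · exact fun u _ => (a4_g1_deriv u).differentiableAt.differentiableWithinAt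
  · intro u hu
    rw [interior_Icc] at hu
    rw [(a4_g1_deriv u).deriv]
    exact a4_g2_nonneg hu.1.le hu.2.le

theorem a4_g1_anti : AntitoneOn a4_g1 (Set.Icc √a4_z0 (1 / √2)) := by
  apply antitoneOn_of_deriv_nonpos (convex_Icc _ _)
  · exact fun u _ => (a4_g1_deriv u).continuousAt.continuousWithinAt
  · exact fun u _ => (a4_g1_deriv u).differentiableAt.differentiableWithinAt
  · intro u hu
    rw [interior_Icc] at hu
    rw [(a4_g1_deriv u).deriv]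
    exact a4_g2_nonpos hu.1.le hu.2.le

theorem a4_w_sq : (1 / √3 : ℝ) ^ 2 = 1 / 3 := by
  rw [div_pow, Real.sq_sqrt (by norm_num)]
  norm_num

theorem a4_S_w_sq : a4_S (1 / √3) ^ 2 = 5 / 3 := by
  rw [a4_S_sq, a4_w_sq]
  norm_num

theorem a4_u0_lt : √a4_z0 < 1 / √3 := by
  have h1 := a4_u0_sq
  have h2 := a4_w_sq
  have h3 := a4_z0_bounds.2
  have h4 : (0 : ℝ) < 1 / √3 := by positivity
  nlinarith [a4_u0_nonneg]

theorem a4_w_lt : (1 / √3 : ℝ) < 1 / √2 := by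
  apply one_div_lt_one_div_of_lt (by positivity)
  exact Real.sqrt_lt_sqrt (by norm_num) (by norm_num)

theorem a4_gg_w : gg (1 / √3) = 0 := by
  rw [a4_gg_eq]
  have hS : a4_S (1 / √3) = √5 / √3 := by
    unfold a4_S
    rw [a4_w_sq, ← Real.sqrt_div (by norm_num)]
    norm_num
  have h3 : √3 ^ 2 = (3 : ℝ) := Real.sq_sqrt (by norm_num)
  have h5 : √5 ^ 2 = (5 : ℝ) := Real.sq_sqrt (by norm_num)
  have p3 : (0 : ℝ) < √3 := by positivity
  have p5 : (0 : ℝ) < √5 := by positivity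
  have hS5 : a4_S (1 / √3) ^ 5 = 25 * √5 / (9 * √3) := by
    have : a4_S (1 / √3) ^ 5 = (a4_S (1 / √3) ^ 2) ^ 2 * a4_S (1 / √3) := by ring
    rw [this, a4_S_w_sq, hS]
    field_simp
    norm_num
  have hN : -(1 / √3 : ℝ) + 5 * (1 / √3) ^ 3 - 4 * (1 / √3) ^ 5 = 2 / 9 * (1 / √3) := by
    have e3 : (1 / √3 : ℝ) ^ 3 = (1 / √3) ^ 2 * (1 / √3) := by ring
    have e5 : (1 / √3 : ℝ) ^ 5 = ((1 / √3) ^ 2) ^ 2 * (1 / √3) := by ring
    rw [e3, e5, a4_w_sq]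
    ring
  rw [hS5, hN]
  have hq : 2 / 9 * (1 / √3) / (25 * √5 / (9 * √3)) = 2 * √5 / 125 := by
    rw [div_eq_iff (by positivity)]
    field_simp
    nlinarith [h5]
  rw [hq]
  unfold xL BccCov.cc
  ring

theorem a4_g1_w : 0 < a4_g1 (1 / √3) := by
  unfold a4_g1
  have hp := a4_S_pos (1 / √3)
  have h2 := a4_S_w_sq
  have hlt : a4_S (1 / √3) < 1.3 := by nlinarith
  have hN : -1 + 23 * (1 / √3 : ℝ) ^ 2 - 40 * (1 / √3) ^ 4 = 20 / 9 := by
    have e4 : (1 / √3 : ℝ) ^ 4 = ((1 / √3) ^ 2) ^ 2 := by ring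
    rw [e4, a4_w_sq]
    norm_num
  have hS7 : a4_S (1 / √3) ^ 7 = 125 / 27 * a4_S (1 / √3) := by
    have : a4_S (1 / √3) ^ 7 = (a4_S (1 / √3) ^ 2) ^ 3 * a4_S (1 / √3) := by ring
    rw [this, h2]
    norm_num
  rw [hN, hS7]
  have hx := xm_bounds.2
  have hk : 0.36 < 20 / 9 / (125 / 27 * a4_S (1 / √3)) := by
    rw [lt_div_iff₀ (by positivity)]
    nlinarith
  linarith

theorem a4_g1_pos {u : ℝ} (h0 : √a4_z0 ≤ u) (h1 : u ≤ 1 / √3) : 0 < a4_g1 u :=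
  lt_of_lt_of_le a4_g1_w (a4_g1_anti ⟨h0, h1.trans a4_w_lt.le⟩
    ⟨a4_u0_lt.le, a4_w_lt.le⟩ h1)

theorem a4_gg_nonpos {u : ℝ} (h0 : √a4_z0 ≤ u) (h1 : u ≤ 1 / √3) : gg u ≤ 0 := by
  have hm : MonotoneOn gg (Set.Icc √a4_z0 (1 / √3)) := by
    apply monotoneOn_of_deriv_nonneg (convex_Icc _ _)
    · exact fun u _ => (a4_gg_deriv u).continuousAt.continuousWithinAt
    · exact fun u _ => (a4_gg_deriv u).differentiableAt.differentiableWithinAt
    · intro v hv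
      rw [interior_Icc] at hv
      rw [(a4_gg_deriv v).deriv]
      exact (a4_g1_pos hv.1.le hv.2.le).le
  have := hm ⟨h0, h1⟩ ⟨a4_u0_lt.le, le_refl _⟩ h1
  rwa [a4_gg_w] at this

theorem a4_mvt {a b : ℝ} (hab : a < b) : ∃ x, a < x ∧ x < b ∧ a4_g1 x * (b - a) = gg b - gg a := by
  obtain ⟨x, hx, h⟩ := exists_hasDerivAt_eq_slope gg a4_g1 hab
    (fun u _ => (a4_gg_deriv u).continuousAt.continuousWithinAt) (fun u _ => a4_gg_deriv u)
  refine ⟨x, hx.1, hx.2, ?_⟩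
  rw [h, div_mul_cancel₀]
  linarith

theorem gg_left {u₁ u₂ : ℝ} (h0 : 0 ≤ u₁) (h1 : u₁ < u₂) (h2 : u₂ ≤ 1 / √3) (hn : gg u₁ < 0) :
    gg u₂ ≤ 0 := by
  by_cases hc : √a4_z0 ≤ u₂
  · exact a4_gg_nonpos hc h2
  · push Not at hc
    by_contra hcon
    push Not at hcon
    obtain ⟨x, hx1, hx2, hx⟩ := a4_mvt h1
    obtain ⟨y, hy1, hy2, hy⟩ := a4_mvt hc
    have h3 : gg √a4_z0 ≤ 0 := a4_gg_nonpos (le_refl _) a4_u0_lt.le
    have hgx : 0 < a4_g1 x := by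
      by_contra hh
      push Not at hh
      have : a4_g1 x * (u₂ - u₁) ≤ 0 := mul_nonpos_of_nonpos_of_nonneg hh (by linarith)
      linarith
    have hgy : a4_g1 y < 0 := by
      by_contra hh
      push Not at hh
      have : 0 ≤ a4_g1 y * (√a4_z0 - u₂) := mul_nonneg hh (by linarith)
      linarith
    have := a4_g1_mono ⟨by linarith, by linarith⟩ ⟨by linarith, by linarith⟩ (hx2.trans hy1).le
    linarith

theorem gg_right {u₁ u₂ : ℝ} (h0 : 1 / √3 ≤ u₁) (h1 : u₁ < u₂) (h2 : u₂ ≤ 1 / √2)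
    (hn : gg u₁ < 0) : gg u₂ ≤ 0 := by
  by_contra hcon
  push Not at hcon
  have hne : 1 / √3 < u₁ := by
    rcases eq_or_lt_of_le h0 with h | h
    · rw [← h, a4_gg_w] at hn
      exact absurd hn (lt_irrefl _)
    · exact h
  have hu := a4_u0_lt
  obtain ⟨x, hx1, hx2, hx⟩ := a4_mvt hne
  obtain ⟨y, hy1, hy2, hy⟩ := a4_mvt h1
  rw [a4_gg_w] at hx
  have hgx : a4_g1 x < 0 := by
    by_contra hh
    push Not at hh
    have : 0 ≤ a4_g1 x * (u₁ - 1 / √3) := mul_nonneg hh (by linarith)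
    linarith
  have hgy : 0 < a4_g1 y := by
    by_contra hh
    push Not at hh
    have : a4_g1 y * (u₂ - u₁) ≤ 0 := mul_nonpos_of_nonpos_of_nonneg hh (by linarith)
    linarith
  have := a4_g1_anti ⟨by linarith, by linarith⟩ ⟨by linarith, by linarith⟩ (hx2.trans hy1).le
  linarith

end TPC
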