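import Pool.Agent.TPC.A4

/-!
# [TPC-A5a] derivative of `ff`

s = sin τ ∈ (0,1), c = cos τ > 0, s² + c² = 1.
d/dτ arccos (s²) = - 2 s c / √(1 - s⁴) (`Real.hasDerivAt_arccos`, s² ≠ ±1), √(1 - s⁴) = c √(1+s²), so it is -2 s/√(1+s²).
d/dτ [s² c / ((1+3s²) √(1+3s²))] = [(2 s c² - s³)(1+3s²) - 9 s³ c²] / ((1+3s²)² √(1+3s²)) = 2 s (1 - 3 s²)/((1+3s²)² √(1+3s²)).
So ff' = -8 xm s/√(1+s²) + 4 xL - 32/3 s (1-3s²)/((1+3s²)² √(1+3s²)).
With u = s/√(1+s²): u² = s²/(1+s²), 4u²-1 = (3s²-1)/(1+s²), 1-u² = 1/(1+s²), 1+2u² = (1+3s²)/(1+s²),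
√(1+2u²) = √(1+3s²)/√(1+s²); so u(4u²-1)(1-u²)/((1+2u²)² √(1+2u²)) = s(3s²-1)/((1+3s²)² √(1+3s²)), and gg u = ff' τ.
-/

set_option autoImplicit false

open MeasureTheory Real
open scoped InnerProductSpace

namespace TPC

open BccCov BccO

/-- the difference of the two sides in terms of `τ`, `κ = sin² τ` -/
noncomputable def ff (τ : ℝ) : ℝ :=
  4 * xm * arccos (sin τ ^ 2) + 4 * xL * τ - 2 * π * xL -
    16 / 3 * (sin τ ^ 2 * cos τ / ((1 + 3 * sin τ ^ 2) * √(1 + 3 * sin τ ^ 2)))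

theorem a5a_gg {s Q T : ℝ} (hQ : 0 < Q) (hT : 0 < T) (hQ2 : Q ^ 2 = 1 + 3 * s ^ 2)
    (hT2 : T ^ 2 = 1 + s ^ 2) :
    gg (s / T) = 4 * xL - 8 * xm * (s / T) - 32 / 3 * (s * (1 - 3 * s ^ 2) / Q ^ 5) := by
  have h1 : 1 + 2 * (s / T) ^ 2 = (Q / T) ^ 2 := by
    rw [div_pow, div_pow, hQ2, hT2]
    have : (1 + s ^ 2) ≠ 0 := by positivity
    field_simp
    ring
  have h2 : √(1 + 2 * (s / T) ^ 2) = Q / T := by
    rw [h1]
    exact Real.sqrt_sq (by positivity)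
  unfold gg
  rw [h2, h1]
  have h3 : s / T * (4 * (s / T) ^ 2 - 1) * (1 - (s / T) ^ 2) / (((Q / T) ^ 2) ^ 2 * (Q / T)) =
      -(s * (1 - 3 * s ^ 2) / Q ^ 5) := by
    have e : s / T * (4 * (s / T) ^ 2 - 1) * (1 - (s / T) ^ 2) =
        s * (4 * s ^ 2 - T ^ 2) * (T ^ 2 - s ^ 2) / T ^ 5 := by
      field_simp
    rw [e, hT2]
    have e2 : ((Q / T) ^ 2) ^ 2 * (Q / T) = Q ^ 5 / T ^ 5 := by
      field_simp
    rw [e2, div_div_div_cancel_right₀ (by positivity)]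
    rw [← neg_div]
    congr 1
    ring
  rw [h3]
  ring

theorem ff_deriv {τ : ℝ} (h0 : 0 < τ) (h1 : τ < π / 2) :
    HasDerivAt ff (gg (sin τ / √(1 + sin τ ^ 2))) τ := by
  have hpi := Real.pi_pos
  have hs : 0 < sin τ := Real.sin_pos_of_pos_of_lt_pi h0 (by linarith)
  have hc : 0 < cos τ := Real.cos_pos_of_mem_Ioo ⟨by linarith, h1⟩
  have hsc : sin τ ^ 2 + cos τ ^ 2 = 1 := Real.sin_sq_add_cos_sq τ
  have hQ : 0 < √(1 + 3 * sin τ ^ 2) := Real.sqrt_pos.2 (by positivity)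
  have hT : 0 < √(1 + sin τ ^ 2) := Real.sqrt_pos.2 (by positivity)
  have hQ2 : √(1 + 3 * sin τ ^ 2) ^ 2 = 1 + 3 * sin τ ^ 2 := Real.sq_sqrt (by positivity)
  have hT2 : √(1 + sin τ ^ 2) ^ 2 = 1 + sin τ ^ 2 := Real.sq_sqrt (by positivity)
  have dsin := Real.hasDerivAt_sin τ
  have dcos := Real.hasDerivAt_cos τ
  have ds2 : HasDerivAt (fun t => sin t ^ 2) (2 * sin τ * cos τ) τ := by
    have h := dsin.pow 2
    refine h.congr_deriv ?_
    norm_num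
  -- the arccos term
  have dacos : HasDerivAt (fun t => arccos (sin t ^ 2)) (-(2 * (sin τ / √(1 + sin τ ^ 2)))) τ := by
    have hne1 : sin τ ^ 2 ≠ -1 := by nlinarith
    have hne2 : sin τ ^ 2 ≠ 1 := by nlinarith
    have h := (Real.hasDerivAt_arccos hne1 hne2).comp τ ds2
    refine h.congr_deriv ?_
    have e : √(1 - (sin τ ^ 2) ^ 2) = cos τ * √(1 + sin τ ^ 2) := by
      have : 1 - (sin τ ^ 2) ^ 2 = (cos τ * √(1 + sin τ ^ 2)) ^ 2 := by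
        rw [mul_pow, hT2]
        linear_combination (-(1 + sin τ ^ 2)) * hsc
      rw [this]
      exact Real.sqrt_sq (by positivity)
    rw [e]
    field_simp
  -- the quotient
  have dQ : HasDerivAt (fun t => √(1 + 3 * sin t ^ 2))
      (3 * sin τ * cos τ / √(1 + 3 * sin τ ^ 2)) τ := by
    have h := ((ds2.const_mul 3).const_add 1).sqrt (by positivity)
    refine h.congr_deriv ?_
    field_simp
  have dN : HasDerivAt (fun t => sin t ^ 2 * cos t) (2 * sin τ * cos τ ^ 2 - sin τ ^ 3) τ := by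
    have h := ds2.mul dcos
    refine h.congr_deriv ?_
    ring
  have dQ3 : HasDerivAt (fun t => √(1 + 3 * sin t ^ 2) ^ 3)
      (9 * sin τ * cos τ * √(1 + 3 * sin τ ^ 2)) τ := by
    have h := dQ.pow 3
    refine h.congr_deriv ?_
    norm_num
    field_simp
    ring
  have dR := dN.div dQ3 (by positivity)
  have dR' : HasDerivAt (fun t => sin t ^ 2 * cos t / ((1 + 3 * sin t ^ 2) * √(1 + 3 * sin t ^ 2)))
      (2 * (sin τ * (1 - 3 * sin τ ^ 2) / √(1 + 3 * sin τ ^ 2) ^ 5)) τ := by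
    have e : (fun t => sin t ^ 2 * cos t / ((1 + 3 * sin t ^ 2) * √(1 + 3 * sin t ^ 2))) =
        fun t => sin t ^ 2 * cos t / √(1 + 3 * sin t ^ 2) ^ 3 := by
      funext t
      have h2 : √(1 + 3 * sin t ^ 2) ^ 2 = 1 + 3 * sin t ^ 2 := Real.sq_sqrt (by positivity)
      have h3 : √(1 + 3 * sin t ^ 2) ^ 3 = (1 + 3 * sin t ^ 2) * √(1 + 3 * sin t ^ 2) := by
        have : √(1 + 3 * sin t ^ 2) ^ 3 = √(1 + 3 * sin t ^ 2) ^ 2 * √(1 + 3 * sin t ^ 2) := by ring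
        rw [this, h2]
      rw [h3]
    rw [e]
    refine dR.congr_deriv ?_
    have k : (2 * sin τ * cos τ ^ 2 - sin τ ^ 3) * √(1 + 3 * sin τ ^ 2) ^ 3 -
        sin τ ^ 2 * cos τ * (9 * sin τ * cos τ * √(1 + 3 * sin τ ^ 2)) =
        √(1 + 3 * sin τ ^ 2) * (2 * (sin τ * (1 - 3 * sin τ ^ 2))) := by
      have e3 : √(1 + 3 * sin τ ^ 2) ^ 3 = (1 + 3 * sin τ ^ 2) * √(1 + 3 * sin τ ^ 2) := by
        have : √(1 + 3 * sin τ ^ 2) ^ 3 = √(1 + 3 * sin τ ^ 2) ^ 2 * √(1 + 3 * sin τ ^ 2) := by ring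
        rw [this, hQ2]
      rw [e3]
      linear_combination (√(1 + 3 * sin τ ^ 2) * (2 * sin τ * (1 + 3 * sin τ ^ 2) -
        9 * sin τ ^ 3)) * hsc
    rw [k]
    rw [div_eq_iff (by positivity)]
    field_simp
  have hall := (((dacos.const_mul (4 * xm)).add ((hasDerivAt_id τ).const_mul (4 * xL))).sub_const
    (2 * π * xL)).sub (dR'.const_mul (16 / 3))
  rw [a5a_gg hQ hT hQ2 hT2]
  refine hall.congr_deriv ?_
  ring

end TPC
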