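import Pool.Agent.TPC.A5a

/-!
# [TPC-A5b] values of `ff` and the inequality of one variable

`ff_deriv`, `gg_left`, `gg_right` may be used with their sorries.
`ff_cont`: the denominator is positive. `ff_zero`: ff 0 = 4 xm π/2 - 2 π xL = 2 π de ≥ 0. `ff_quarter`: sin²(π/4) = 1/2,
arccos (1/2) = π/3 (`Real.arccos_eq_of_eq_cos` or cos_pi_div_three): ff (π/4) = 4/3 π xm - π xL - (16/3)(1/2)(√2/2)/((5/2)√(5/2)), the
last term is 5 cc; xL = 2/√3 xm - cc and xm π (4/3 - 2/√3) = 5 cc (1 - π/5), so ff (π/4) = 5 cc (1-π/5) + π cc - 5 cc = 0.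
`ff_half`: arccos 1 = 0, cos (π/2) = 0: ff (π/2) = 0.
`ff_nonneg`: u(τ) = sin τ/√(1+sin² τ) is strictly increasing on [0,π/2] with u(0) = 0, u(π/4) = 1/√3, u(π/2) = 1/√2
(u² = s²/(1+s²) is increasing in s).
Case 0 ≤ τ ≤ π/4: suppose ff τ < 0 (so 0 < τ < π/4). Mean value theorem (`exists_hasDerivAt_eq_slope` or
`exists_deriv_eq_slope`) on [0,τ]: some ξ₁ with ff' ξ₁ = (ff τ - ff 0)/τ < 0; on [τ,π/4]: some ξ₂ with ff' ξ₂ > 0. Then
gg(u ξ₁) < 0 < gg (u ξ₂), 0 ≤ u ξ₁ < u ξ₂ ≤ 1/√3, contradiction with `gg_left`. Case π/4 ≤ τ ≤ π/2: the same with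
`gg_right`.
`one_var`: apply `ff_nonneg` to τ = arcsin √k: sin τ = √k, sin² τ = k, cos τ = √(1 - k) (`Real.cos_arcsin`).
-/

set_option autoImplicit false

open MeasureTheory Real
open scoped InnerProductSpace

namespace TPC

open BccCov BccO

theorem ff_cont : Continuous ff := by
  have h : Continuous fun τ : ℝ =>
      sin τ ^ 2 * cos τ / ((1 + 3 * sin τ ^ 2) * √(1 + 3 * sin τ ^ 2)) := by
    refine Continuous.div (by fun_prop) (by fun_prop) (fun τ => ?_)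
    have h1 : 0 < 1 + 3 * sin τ ^ 2 := by positivity
    positivity
  have h2 : Continuous fun τ : ℝ => arccos (sin τ ^ 2) :=
    continuous_arccos.comp (by fun_prop)
  exact (((continuous_const.mul h2).add (continuous_const.mul continuous_id)).sub
    continuous_const).sub (continuous_const.mul h)

theorem ff_zero : 0 ≤ ff 0 := by
  have h := de_pos
  have hpi := Real.pi_pos
  have e : ff 0 = 2 * π * de := by
    unfold ff de
    rw [Real.sin_zero]
    norm_num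
    ring
  rw [e]
  positivity

theorem a5b_den : (0 : ℝ) < 4 / 3 - 2 / √3 := by
  have h3 : (1.7 : ℝ) < √3 := by
    rw [Real.lt_sqrt (by norm_num)]
    norm_num
  have : 2 / √3 < 4 / 3 := by
    rw [div_lt_iff₀ (by linarith)]
    linarith
  linarith

theorem a5b_xm : π * (4 / 3 - 2 / √3) * xm = 5 * cc * (1 - π / 5) := by
  have h := a5b_den
  have hpi := Real.pi_pos
  have hne : π * (4 / 3 - 2 / √3) ≠ 0 := by positivity
  unfold xm
  exact mul_div_cancel₀ _ hne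

theorem a5b_arccos : arccos (1 / 2) = π / 3 := by
  rw [← Real.cos_pi_div_three]
  exact Real.arccos_cos (by positivity) (by linarith [Real.pi_pos])

theorem a5b_sinq : sin (π / 4) ^ 2 = 1 / 2 := by
  rw [Real.sin_pi_div_four, div_pow, Real.sq_sqrt (by norm_num)]
  norm_num

theorem ff_quarter : ff (π / 4) = 0 := by
  have h2 : √2 ^ 2 = (2 : ℝ) := Real.sq_sqrt (by norm_num)
  have h5 : √5 ^ 2 = (5 : ℝ) := Real.sq_sqrt (by norm_num)
  have p2 : (0 : ℝ) < √2 := by positivity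
  have p5 : (0 : ℝ) < √5 := by positivity
  have hS : √(1 + 3 * (1 / 2) : ℝ) = √5 / √2 := by
    rw [← Real.sqrt_div (by norm_num)]
    norm_num
  have hq : (1 / 2 * (√2 / 2)) / ((1 + 3 * (1 / 2)) * (√5 / √2)) = √5 / 25 := by
    rw [div_eq_iff (by positivity)]
    field_simp
    nlinarith [h2, h5]
  have hx := a5b_xm
  unfold ff
  rw [a5b_sinq, a5b_arccos, Real.cos_pi_div_four, hS, hq]
  unfold xL
  have hc : 16 / 3 * (√5 / 25) = 5 * cc := by
    unfold BccCov.cc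
    ring
  rw [hc]
  linear_combination hx

theorem ff_half : ff (π / 2) = 0 := by
  unfold ff
  rw [Real.sin_pi_div_two, Real.cos_pi_div_two]
  norm_num
  ring

/-- the substitution -/
noncomputable def a5b_u (τ : ℝ) : ℝ := sin τ / √(1 + sin τ ^ 2)

theorem a5b_u_eq {τ : ℝ} (h : 0 ≤ sin τ) : a5b_u τ = √(sin τ ^ 2 / (1 + sin τ ^ 2)) := by
  unfold a5b_u
  rw [Real.sqrt_div (by positivity), Real.sqrt_sq h]

theorem a5b_u_lt {τ₁ τ₂ : ℝ} (h0 : 0 ≤ τ₁) (h1 : τ₁ < τ₂) (h2 : τ₂ ≤ π / 2) :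
    a5b_u τ₁ < a5b_u τ₂ := by
  have hpi := Real.pi_pos
  have hs : sin τ₁ < sin τ₂ :=
    Real.strictMonoOn_sin ⟨by linarith, by linarith⟩ ⟨by linarith, by linarith⟩ h1
  have hs1 : 0 ≤ sin τ₁ := Real.sin_nonneg_of_nonneg_of_le_pi h0 (by linarith)
  rw [a5b_u_eq hs1, a5b_u_eq (hs1.trans hs.le)]
  apply Real.sqrt_lt_sqrt (by positivity)
  rw [div_lt_div_iff₀ (by positivity) (by positivity)]
  have : sin τ₁ ^ 2 < sin τ₂ ^ 2 := pow_lt_pow_left₀ hs hs1 (by norm_num)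
  nlinarith

theorem a5b_u_zero : a5b_u 0 = 0 := by
  unfold a5b_u
  rw [Real.sin_zero]
  simp

theorem a5b_u_quarter : a5b_u (π / 4) = 1 / √3 := by
  have hs : 0 ≤ sin (π / 4) := by
    rw [Real.sin_pi_div_four]
    positivity
  rw [a5b_u_eq hs, a5b_sinq]
  have : (1 / 2 / (1 + 1 / 2) : ℝ) = 1 / 3 := by norm_num
  rw [this, Real.sqrt_div (by norm_num), Real.sqrt_one]

theorem a5b_u_half : a5b_u (π / 2) = 1 / √2 := by
  rw [a5b_u_eq (by rw [Real.sin_pi_div_two]; norm_num), Real.sin_pi_div_two]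
  have : ((1 : ℝ) ^ 2 / (1 + 1 ^ 2)) = 1 / 2 := by norm_num
  rw [this, Real.sqrt_div (by norm_num), Real.sqrt_one]

theorem a5b_mvt {a b : ℝ} (h0 : 0 ≤ a) (hab : a < b) (h1 : b ≤ π / 2) :
    ∃ x, a < x ∧ x < b ∧ gg (a5b_u x) * (b - a) = ff b - ff a := by
  obtain ⟨x, hx, h⟩ := exists_hasDerivAt_eq_slope ff (fun τ => gg (a5b_u τ)) hab
    ff_cont.continuousOn (fun u hu => ff_deriv (lt_of_le_of_lt h0 hu.1) (lt_of_lt_of_le hu.2 h1))
  refine ⟨x, hx.1, hx.2, ?_⟩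
  have h' : gg (a5b_u x) = (ff b - ff a) / (b - a) := h
  rw [h', div_mul_cancel₀]
  linarith

theorem ff_nonneg {τ : ℝ} (h0 : 0 ≤ τ) (h1 : τ ≤ π / 2) : 0 ≤ ff τ := by
  have hpi := Real.pi_pos
  by_contra hcon
  push Not at hcon
  have key : ∀ a b : ℝ, 0 ≤ a → a < τ → τ < b → b ≤ π / 2 → 0 ≤ ff a → ff b = 0 →
      ∃ x y, a < x ∧ x < τ ∧ τ < y ∧ y < b ∧ gg (a5b_u x) < 0 ∧ 0 < gg (a5b_u y) := by
    intro a b ha hat htb hb hfa hfb
    obtain ⟨x, hx1, hx2, hx⟩ := a5b_mvt ha hat h1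
    obtain ⟨y, hy1, hy2, hy⟩ := a5b_mvt h0 htb hb
    refine ⟨x, y, hx1, hx2, hy1, hy2, ?_, ?_⟩
    · by_contra hh
      push Not at hh
      have := mul_nonneg hh (by linarith : 0 ≤ τ - a)
      linarith
    · by_contra hh
      push Not at hh
      have := mul_nonpos_of_nonpos_of_nonneg hh (by linarith : 0 ≤ b - τ)
      linarith
  rcases le_or_gt τ (π / 4) with hq | hq
  · have hne : τ ≠ π / 4 := by
      intro h
      rw [h, ff_quarter] at hcon
      exact lt_irrefl _ hcon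
    have hne0 : τ ≠ 0 := by
      intro h
      rw [h] at hcon
      exact absurd ff_zero (not_le.2 hcon)
    obtain ⟨x, y, hx1, hx2, hy1, hy2, hgx, hgy⟩ := key 0 (π / 4) le_rfl
      (lt_of_le_of_ne h0 (Ne.symm hne0)) (lt_of_le_of_ne hq hne) (by linarith) ff_zero ff_quarter
    have hu0 : 0 ≤ a5b_u x := by
      rw [← a5b_u_zero]
      exact (a5b_u_lt le_rfl hx1 (by linarith)).le
    have hu1 : a5b_u x < a5b_u y := a5b_u_lt hx1.le (hx2.trans hy1) (by linarith)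
    have hu2 : a5b_u y ≤ 1 / √3 := by
      rw [← a5b_u_quarter]
      exact (a5b_u_lt (by linarith) hy2 (by linarith)).le
    exact absurd (gg_left hu0 hu1 hu2 hgx) (not_le.2 hgy)
  · have hne : τ ≠ π / 2 := by
      intro h
      rw [h, ff_half] at hcon
      exact lt_irrefl _ hcon
    obtain ⟨x, y, hx1, hx2, hy1, hy2, hgx, hgy⟩ := key (π / 4) (π / 2) (by linarith) hq
      (lt_of_le_of_ne h1 hne) le_rfl ff_quarter.ge ff_half
    have hu0 : 1 / √3 ≤ a5b_u x := by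
      rw [← a5b_u_quarter]
      exact (a5b_u_lt (by linarith) hx1 (by linarith)).le
    have hu1 : a5b_u x < a5b_u y := a5b_u_lt (by linarith) (hx2.trans hy1) (by linarith)
    have hu2 : a5b_u y ≤ 1 / √2 := by
      rw [← a5b_u_half]
      exact (a5b_u_lt (by linarith) hy2 le_rfl).le
    exact absurd (gg_right hu0 hu1 hu2 hgx) (not_le.2 hgy)

theorem one_var {k : ℝ} (h0 : 0 < k) (h1 : k < 1) :
    16 / 3 * (k * √(1 - k) / ((1 + 3 * k) * √(1 + 3 * k))) ≤
      4 * xm * arccos k + 4 * xL * arcsin √k - 2 * π * xL := by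
  have hk : √k ^ 2 = k := Real.sq_sqrt h0.le
  have hk0 : 0 ≤ √k := Real.sqrt_nonneg k
  have hk1 : √k ≤ 1 := by
    rw [Real.sqrt_le_one]
    exact h1.le
  have h := ff_nonneg (Real.arcsin_nonneg.2 hk0) (Real.arcsin_le_pi_div_two (√k))
  unfold ff at h
  rw [Real.sin_arcsin (by linarith) hk1, Real.cos_arcsin, hk] at h
  linarith

end TPC
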