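import Pool.Agent.TPC.A3
import Pool.Agent.TPC.A5b

/-!
# [TPC-A6a] the inequality at the disphenoid

`dis_MF`: copy the proof of `BccO.dis_FF` (file O/D1.lean): same points x y z w in V3 form with sd x y = sd z w = X and
the other four sd equal to Y, |det3| = X √(Y - X/2), and the four dihedral angles d3, d4, d5, d6 at the edges xz, xw, yz, yw
equal to arccos (X/(4Y-X)); use `MM_eq` (file A3, with its sorry) instead of `SS_eq`.
`dis_ineq`: let D = X √(Y - X/2) > 0. By `dis_FF` and `dis_MF`, D * (cG * (xL/2 * FF + de/2 * MF)) =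
xL/2 * (4 α + 8 β - 4 π) + de * 4 β, α = arccos ((4Y-3X)/(4Y-X)), β = arccos (X/(4Y-X)), FF, MF at X Y Y Y Y X.
Put S = 4Y - X > 0, k = X/S ∈ (0,1) (X < 2Y gives S > X). (4Y-3X)/S = 1 - 2k, α = arccos (1-2k) = 2 arcsin √k
(cos (2t) = 1 - 2 sin² t, 0 ≤ 2t ≤ π). So the right side is 4 xm β + 4 xL arcsin √k - 2 π xL (xm = xL + de), which is
≥ 16/3 * k √(1-k)/((1+3k)√(1+3k)) by `one_var`. And D/6 ≤ this: X = k S, Y - X/2 = S (1-k)/4, D/6 = k S √(S (1-k))/12, and
2X + 4Y = S (1+3k) ≤ 16, so S √S ≤ 64/((1+3k)√(1+3k)). Hence D/6 ≤ D * (cG * (...)), divide by D.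
-/

set_option autoImplicit false

open MeasureTheory Real
open scoped InnerProductSpace

namespace TPC

open BccCov BccO

open BccCov.W2 in
theorem dis_MF {X Y : ℝ} (hX : 0 < X) (hY : X < 2 * Y) :
    cG / 2 * (X * √(Y - X / 2)) * MF X Y Y Y Y X = 4 * arccos (X / (4 * Y - X)) := by
  have hh : 0 < Y - X / 2 := by linarith
  have hsX := sq_sqrt hX.le
  have hsh := sq_sqrt hh.le
  have hX' : 0 < √X := sqrt_pos.2 hX
  have hh' : 0 < √(Y - X / 2) := sqrt_pos.2 hh
  set p := √X with hp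
  set h := √(Y - X / 2) with hhdef
  set x : E3 := V3 (p / 2) 0 (h / 2) with hx
  set y : E3 := V3 (-(p / 2)) 0 (h / 2) with hy
  set z : E3 := V3 0 (p / 2) (-(h / 2)) with hz
  set w : E3 := V3 0 (-(p / 2)) (-(h / 2)) with hw
  have c : ∀ a b c : ℝ, V3 a b c 0 = a ∧ V3 a b c 1 = b ∧ V3 a b c 2 = c := by
    intro a b c
    simp [V3]
  have exy : sd x y = X := by
    rw [sd_eq, hx, hy]; simp only [c]; linear_combination hsX
  have ezw : sd z w = X := by
    rw [sd_eq, hz, hw]; simp only [c]; linear_combination hsX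
  have exz : sd x z = Y := by
    rw [sd_eq, hx, hz]; simp only [c]; linear_combination (1 / 2) * hsX + hsh
  have exw : sd x w = Y := by
    rw [sd_eq, hx, hw]; simp only [c]; linear_combination (1 / 2) * hsX + hsh
  have eyz : sd y z = Y := by
    rw [sd_eq, hy, hz]; simp only [c]; linear_combination (1 / 2) * hsX + hsh
  have eyw : sd y w = Y := by
    rw [sd_eq, hy, hw]; simp only [c]; linear_combination (1 / 2) * hsX + hsh
  have hdet : |det3 x y z w| = X * h := by
    have : det3 x y z w = X * h := by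
      rw [det3, hx, hy, hz, hw]; simp only [c]; linear_combination h * hsX
    rw [this, abs_of_pos (by positivity)]
  have hdet0 : det3 x y z w ≠ 0 := by
    rw [← abs_pos, hdet]; positivity
  obtain ⟨hxy, hxz, hxw, hyz, hyw, hzw⟩ := ne_of_det hdet0
  have h1 := MM_eq hdet0
  rw [hdet, exy, exz, exw, eyz, eyw, ezw] at h1
  rw [← h1, MM]
  have hp4 : 0 < X * (4 * Y - X) := mul_pos hX (by linarith)
  have h4 : 0 < 4 * Y - X := by linarith
  have k1 : ∀ t : ℝ, t / √(X * (4 * Y - X) * (X * (4 * Y - X))) = t / (X * (4 * Y - X)) := by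
    intro t; rw [sqrt_mul_self hp4.le]
  have A2 : A4 Y X Y = X * (4 * Y - X) := by unfold A4; ring
  have A3 : A4 Y Y X = X * (4 * Y - X) := by unfold A4; ring
  have N2 : N4 Y X Y Y X Y = X * X := by unfold N4; ring
  have d3 : dih x z y w = arccos (X / (4 * Y - X)) := by
    rw [dih_eq x z y w hxz, sd_comm z y,
      exy, exz, exw, eyz, eyw, ezw, A2, A3, N2, k1, mul_div_mul_left _ _ hX.ne']
  have d4 : dih x w y z = arccos (X / (4 * Y - X)) := by
    rw [dih_eq x w y z hxw, sd_comm w y, sd_comm w z,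
      exy, exz, exw, eyz, eyw, ezw, A2, A3, N2, k1, mul_div_mul_left _ _ hX.ne']
  have d5 : dih y z x w = arccos (X / (4 * Y - X)) := by
    rw [dih_eq y z x w hyz, sd_comm y x, sd_comm z x,
      exy, exz, exw, eyz, eyw, ezw, A2, A3, N2, k1, mul_div_mul_left _ _ hX.ne']
  have d6 : dih y w x z = arccos (X / (4 * Y - X)) := by
    rw [dih_eq y w x z hyw, sd_comm y x, sd_comm w x, sd_comm w z,
      exy, exz, exw, eyz, eyw, ezw, A2, A3, N2, k1, mul_div_mul_left _ _ hX.ne']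
  rw [d3, d4, d5, d6]
  ring

theorem a6a_alpha {k : ℝ} (h0 : 0 < k) (h1 : k < 1) : arccos (1 - 2 * k) = 2 * arcsin √k := by
  have hk : √k ^ 2 = k := Real.sq_sqrt h0.le
  have hk0 : 0 ≤ √k := Real.sqrt_nonneg k
  have hk1 : √k ≤ 1 := by
    rw [Real.sqrt_le_one]
    exact h1.le
  have hs : sin (arcsin √k) = √k := Real.sin_arcsin (by linarith) hk1
  have ht0 : 0 ≤ arcsin √k := Real.arcsin_nonneg.2 hk0
  have ht1 : arcsin √k ≤ π / 2 := Real.arcsin_le_pi_div_two _
  have hc : cos (2 * arcsin √k) = 1 - 2 * k := by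
    rw [Real.cos_two_mul, Real.cos_sq', hs, hk]
    ring
  rw [← hc]
  exact Real.arccos_cos (by linarith) (by linarith)

theorem a6a_pow {T : ℝ} (_h0 : 0 ≤ T) (h1 : T ≤ 16) : T * √T ≤ 64 := by
  have h : √T ≤ 4 := by
    rw [Real.sqrt_le_left (by norm_num)]
    linarith
  have := mul_le_mul h1 h (Real.sqrt_nonneg T) (by norm_num)
  linarith

theorem dis_ineq {X Y : ℝ} (hX : 0 < X) (hY : X < 2 * Y) (h16 : 2 * X + 4 * Y ≤ 16) :
    1 / 6 ≤ cG * (xL / 2 * FF X Y Y Y Y X + de / 2 * MF X Y Y Y Y X) := by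
  have hh : 0 < Y - X / 2 := by linarith
  have hF := dis_FF hX hY
  have hM := dis_MF hX hY
  obtain ⟨S, hS⟩ : ∃ S, S = 4 * Y - X := ⟨_, rfl⟩
  have hS0 : 0 < S := by rw [hS]; linarith
  obtain ⟨k, hk⟩ : ∃ k, k = X / S := ⟨_, rfl⟩
  have hkS : X = k * S := by
    rw [hk, div_mul_cancel₀]
    exact hS0.ne'
  have hk0 : 0 < k := by rw [hk]; positivity
  have hk1 : k < 1 := by
    rw [hk, div_lt_one hS0, hS]
    linarith
  have hsq : √(Y - X / 2) = √S * √(1 - k) / 2 := by
    have e : Y - X / 2 = S * (1 - k) / 4 := by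
      have : S * (1 - k) = S - X := by rw [hkS]; ring
      rw [this, hS]
      ring
    rw [e, Real.sqrt_div (mul_nonneg hS0.le (by linarith)), Real.sqrt_mul hS0.le]
    have : √(4 : ℝ) = 2 := by
      rw [show (4 : ℝ) = 2 ^ 2 by norm_num]
      exact Real.sqrt_sq (by norm_num)
    rw [this]
  have e1 : (4 * Y - 3 * X) / (4 * Y - X) = 1 - 2 * k := by
    rw [← hS, div_eq_iff hS0.ne']
    have : (1 - 2 * k) * S = S - 2 * X := by rw [hkS]; ring
    rw [this, hS]
    ring
  rw [e1, a6a_alpha hk0 hk1, ← hS, ← hk, hsq] at hF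
  rw [← hS, ← hk, hsq] at hM
  have hone := one_var hk0 hk1
  have h1k : 0 < √(1 - k) := Real.sqrt_pos.2 (by linarith)
  have hsS : 0 < √S := Real.sqrt_pos.2 hS0
  have hD : 0 < X * (√S * √(1 - k) / 2) := by positivity
  have hT : S * √S * ((1 + 3 * k) * √(1 + 3 * k)) ≤ 64 := by
    have e : S * √S * ((1 + 3 * k) * √(1 + 3 * k)) = (S * (1 + 3 * k)) * √(S * (1 + 3 * k)) := by
      rw [Real.sqrt_mul hS0.le]
      ring
    rw [e]
    apply a6a_pow (by positivity)
    have : S * (1 + 3 * k) = S + 3 * X := by rw [hkS]; ring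
    rw [this, hS]
    linarith
  have hle : X * (√S * √(1 - k) / 2) * (1 / 6) ≤
      16 / 3 * (k * √(1 - k) / ((1 + 3 * k) * √(1 + 3 * k))) := by
    have hp : 0 < (1 + 3 * k) * √(1 + 3 * k) := by
      have : 0 < √(1 + 3 * k) := Real.sqrt_pos.2 (by linarith)
      positivity
    have e2 : X * (√S * √(1 - k) / 2) * (1 / 6) = k * √(1 - k) * (S * √S) / 12 := by
      rw [hkS]
      ring
    rw [e2, ← mul_div_assoc, le_div_iff₀ hp]
    have h3 := mul_le_mul_of_nonneg_left hT (by positivity : 0 ≤ k * √(1 - k) / 12)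
    calc k * √(1 - k) * (S * √S) / 12 * ((1 + 3 * k) * √(1 + 3 * k)) =
        k * √(1 - k) / 12 * (S * √S * ((1 + 3 * k) * √(1 + 3 * k))) := by ring
      _ ≤ k * √(1 - k) / 12 * 64 := h3
      _ = 16 / 3 * (k * √(1 - k)) := by ring
  have hde : de = xm - xL := rfl
  have key : X * (√S * √(1 - k) / 2) * (1 / 6) ≤
      X * (√S * √(1 - k) / 2) * (cG * (xL / 2 * FF X Y Y Y Y X + de / 2 * MF X Y Y Y Y X)) := by
    have e3 : X * (√S * √(1 - k) / 2) *
        (cG * (xL / 2 * FF X Y Y Y Y X + de / 2 * MF X Y Y Y Y X)) =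
        xL / 2 * (cG * (X * (√S * √(1 - k) / 2)) * FF X Y Y Y Y X) +
        de * (cG / 2 * (X * (√S * √(1 - k) / 2)) * MF X Y Y Y Y X) := by ring
    rw [e3, hF, hM, hde]
    linarith
  exact le_of_mul_le_mul_left key hD

end TPC
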