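import Pool.Agent.TPC.A2
import Pool.Agent.TPC.A6a

/-!
# [TPC-A6b] the tetrahedron inequality

First r = 1, ρ ≤ 1. `PosF_of_det h`, `avg_D4`, `MF_avg_D4`: with X = (sd x y + sd z w)/2, Y = (sd x z + sd x w + sd y z + sd y w)/4 the
tuple (X,Y,Y,Y,Y,X) has PosF, so 0 < X < 2Y (`dis_pos`), and FF, MF there are at most FF, MF at the sd's. `sum_sd_le`
(R = 1): 2X + 4Y ≤ 16. So `dis_ineq` gives 1/6 ≤ cG * (xL/2 * FF + de/2 * MF) at the sd's (cG_pos, xL_pos, de_pos). Multiply
by |det3| and use `SS_eq`, `MM_eq`.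
General: det3 ≠ 0 gives x ≠ y, so ρ > 0 (dist x o = dist y o = 0 would give x = y) and r > 0. Apply the case r = 1 to the points
c • x, ..., c = 1/r: dist (c•x) (c•o) = c ρ ≤ 1, det3_smul, dih_smul, SS_smul (file O/R2.lean): c³ |det3|/6 ≤ xL/2 SS + de MM;
multiply by r³.
-/

set_option autoImplicit false

open MeasureTheory Real
open scoped InnerProductSpace

namespace TPC

open BccCov BccO

theorem a6b_one {x y z w o : E3} {ρ : ℝ} (hρ : ρ ≤ 1) (hx : dist x o = ρ) (hy : dist y o = ρ)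
    (hz : dist z o = ρ) (hw : dist w o = ρ) (h : det3 x y z w ≠ 0) :
    |det3 x y z w| / 6 ≤ xL / 2 * SS x y z w + de * MM x y z w := by
  have hP := PosF_of_det h
  obtain ⟨hA, hF⟩ := avg_D4 hP
  have hM := MF_avg_D4 hP
  obtain ⟨hX, hXY⟩ := dis_pos hA
  have hsum := sum_sd_le hx hy hz hw hρ
  have hdis := dis_ineq hX hXY (by linarith)
  have hcG := cG_pos
  have hL := xL_pos
  have hd := de_pos
  have h1 : 1 / 6 ≤ cG * (xL / 2 * FF (sd x y) (sd x z) (sd x w) (sd y z) (sd y w) (sd z w) +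
      de / 2 * MF (sd x y) (sd x z) (sd x w) (sd y z) (sd y w) (sd z w)) := by
    refine hdis.trans (mul_le_mul_of_nonneg_left ?_ hcG.le)
    exact add_le_add (mul_le_mul_of_nonneg_left hF (by positivity))
      (mul_le_mul_of_nonneg_left hM (by positivity))
  have hdet : 0 ≤ |det3 x y z w| := abs_nonneg _
  have h2 := mul_le_mul_of_nonneg_left h1 hdet
  have hS := SS_eq h
  have hMM := MM_eq h
  rw [hS, hMM]
  calc |det3 x y z w| / 6 = |det3 x y z w| * (1 / 6) := by ring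
    _ ≤ _ := h2
    _ = _ := by ring

theorem a6b_MM_smul {c : ℝ} (hc : 0 < c) (x y z w : E3) :
    MM (c • x) (c • y) (c • z) (c • w) = MM x y z w := by
  unfold MM
  simp only [dih_smul hc]

theorem Tineq {x y z w o : E3} {ρ r : ℝ} (hρ : ρ ≤ r) (hx : dist x o = ρ) (hy : dist y o = ρ)
    (hz : dist z o = ρ) (hw : dist w o = ρ) (h : det3 x y z w ≠ 0) :
    |det3 x y z w| / 6 ≤ r ^ 3 * (xL / 2 * SS x y z w + de * MM x y z w) := by
  have hρ0 : 0 < ρ := by
    rcases lt_or_eq_of_le (hx ▸ dist_nonneg : 0 ≤ ρ) with h0 | h0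
    · exact h0
    · exfalso
      rw [← h0] at hx hy
      have e1 := dist_eq_zero.1 hx
      have e2 := dist_eq_zero.1 hy
      exact (ne_of_det h).1 (e1.trans e2.symm)
  have hr0 : 0 < r := lt_of_lt_of_le hρ0 hρ
  obtain ⟨c, hc⟩ : ∃ c, c = 1 / r := ⟨_, rfl⟩
  have hc0 : 0 < c := by rw [hc]; positivity
  have hcr : c * r = 1 := by rw [hc, div_mul_cancel₀]; exact hr0.ne'
  have hcρ : c * ρ ≤ 1 := by
    rw [← hcr]
    exact mul_le_mul_of_nonneg_left hρ hc0.le
  have key := a6b_one (x := c • x) (y := c • y) (z := c • z) (w := c • w) (o := c • o) hcρ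
    (by rw [dist_smul' hc0, hx]) (by rw [dist_smul' hc0, hy]) (by rw [dist_smul' hc0, hz])
    (by rw [dist_smul' hc0, hw]) (by rw [det3_smul]; exact mul_ne_zero (by positivity) h)
  rw [SS_smul hc0, a6b_MM_smul hc0, det3_smul, abs_mul, abs_of_pos (by positivity : 0 < c ^ 3)]
    at key
  have hr3 : 0 < r ^ 3 := by positivity
  have h2 := mul_le_mul_of_nonneg_left key hr3.le
  have e : r ^ 3 * (c ^ 3 * |det3 x y z w| / 6) = |det3 x y z w| / 6 := by
    have : r ^ 3 * c ^ 3 = 1 := by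
      rw [← mul_pow, mul_comm r c, hcr, one_pow]
    linear_combination (|det3 x y z w| / 6) * this
  rw [e] at h2
  exact h2

end TPC
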