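import Pool.Agent.TPC.Defs

/-!
# [TPC-B1] the dihedral angles at the mixed edges of a vertex

N = {y | (v ∈ S ↔ y ∉ S) ∧ ∃ t ∈ D, v ∈ t ∧ y ∈ t} is finite with a Finset Nf of card ≤ 8. If t ∈ s and m ∈ mixE S t v then
m = {v, y} with y ∈ N (y ≠ v since v ∈ S ↔ y ∉ S). Hence (Finset.sum_comm', or bound by a sum over Nf and the filter)
∑_{t∈s} ∑_{m ∈ mixE S t v} tdih t m ≤ ∑_{y∈Nf} ∑_{t ∈ s, {v,y} ⊆ t} tdih t {v,y} (for every t the map y ↦ {v,y} is injective and
covers mixE S t v; tdih ≥ 0 by `tdih_facts.2.1`). For fixed y let s' be the finite set of all t ∈ D with {v,y} ⊆ t (finite by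
`(finiteness hT hI hfin).2.2.1`); `angle_sum` (namespace BccCov, file A.lean) gives ∑_{t∈s'} tdih t {v,y} = 2π if s' is nonempty (and 0
otherwise), the sum over the subset s.filter is at most that. Total ≤ 8 * 2π.
-/

set_option autoImplicit false

open MeasureTheory Real
open scoped InnerProductSpace

namespace TPC

open BccCov BccO

/-- the edges of `t` at `v` with exactly one end in `S` -/
noncomputable def mixE (S : Set E3) (t : Finset E3) (v : E3) : Finset (Finset E3) :=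
  open Classical in (t.powersetCard 2).filter fun m => v ∈ m ∧ ∃ y ∈ m, (v ∈ S ↔ y ∉ S)

/-- share of the vertex `v` of `t` -/
noncomputable def sh (S : Set E3) (t : Finset E3) (v : E3) : ℝ :=
  xL / 2 * tsol t v + de / 2 * ∑ m ∈ mixE S t v, tdih t m

theorem vertex_mix {X : Set E3} {D : Set (Finset E3)} {r : ℝ} (hT : IsTriangulation X D)
    (hI : ∀ t ∈ D, Inscribed t r) (hfin : ∀ R : ℝ, (X ∩ Metric.closedBall (0 : E3) R).Finite)
    (S : Set E3) (v : E3)
    (hdeg : {y | (v ∈ S ↔ y ∉ S) ∧ ∃ t ∈ D, v ∈ t ∧ y ∈ t}.encard ≤ 8)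
    (s : Finset (Finset E3)) (hs : ∀ t ∈ s, t ∈ D ∧ v ∈ t) :
    ∑ t ∈ s, ∑ m ∈ mixE S t v, tdih t m ≤ 16 * π := by
  classical
  obtain ⟨-, -, hF3, -⟩ := finiteness hT hI hfin
  have hnn : ∀ t m : Finset E3, 0 ≤ tdih t m := fun t m => (tdih_facts.2.1 t m).1
  have hfinN : {y | (v ∈ S ↔ y ∉ S) ∧ ∃ t ∈ D, v ∈ t ∧ y ∈ t}.Finite := by
    refine Set.finite_of_encard_le_coe (k := 8) ?_
    exact_mod_cast hdeg
  obtain ⟨Nf, hNf⟩ : ∃ Nf : Finset E3, (Nf : Set E3) = {y | (v ∈ S ↔ y ∉ S) ∧ ∃ t ∈ D, v ∈ t ∧ y ∈ t} :=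
    ⟨hfinN.toFinset, hfinN.coe_toFinset⟩
  have hNm : ∀ y, y ∈ Nf ↔ (v ∈ S ↔ y ∉ S) ∧ ∃ t ∈ D, v ∈ t ∧ y ∈ t := by
    intro y
    rw [← Finset.mem_coe, hNf]
    exact Iff.rfl
  have hcard : Nf.card ≤ 8 := by
    rw [← hNf, Set.encard_coe_eq_coe_finsetCard] at hdeg
    exact_mod_cast hdeg
  have hne : ∀ y, y ∈ Nf → v ≠ y := by
    rintro y hy rfl
    have h1 := ((hNm v).1 hy).1
    tauto
  -- the edges of one tetrahedron
  have h1 : ∀ t ∈ s, ∑ m ∈ mixE S t v, tdih t m ≤ ∑ y ∈ Nf.filter (fun y => y ∈ t), tdih t {v, y} := by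
    intro t ht
    have hsub : mixE S t v ⊆ (Nf.filter (fun y => y ∈ t)).image (fun y => ({v, y} : Finset E3)) := by
      intro m hm
      unfold mixE at hm
      rw [Finset.mem_filter, Finset.mem_powersetCard] at hm
      obtain ⟨⟨hmt, hmc⟩, hvm, y, hym, hy⟩ := hm
      have hvy : v ≠ y := by
        rintro rfl
        tauto
      rw [Finset.mem_image]
      refine ⟨y, Finset.mem_filter.2 ⟨(hNm y).2 ⟨hy, t, (hs t ht).1, (hs t ht).2, hmt hym⟩, hmt hym⟩, ?_⟩
      refine Finset.eq_of_subset_of_card_le ?_ ?_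
      · intro a ha
        rw [Finset.mem_insert, Finset.mem_singleton] at ha
        rcases ha with rfl | rfl
        · exact hvm
        · exact hym
      · rw [hmc, Finset.card_pair hvy]
    refine (Finset.sum_le_sum_of_subset_of_nonneg hsub fun m _ _ => hnn t m).trans (le_of_eq ?_)
    refine Finset.sum_image ?_
    intro y hy y' hy' hyy
    have hy1 : v ≠ y := hne y (Finset.mem_filter.1 hy).1
    have h2 : y ∈ ({v, y'} : Finset E3) := by
      have h3 : y ∈ ({v, y} : Finset E3) := by simp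
      have h4 : ({v, y} : Finset E3) = {v, y'} := hyy
      rwa [h4] at h3
    rw [Finset.mem_insert, Finset.mem_singleton] at h2
    rcases h2 with h2 | h2
    · exact absurd h2.symm hy1
    · exact h2
  -- the angles around one edge
  have h2 : ∀ y ∈ Nf, ∑ t ∈ s.filter (fun t => y ∈ t), tdih t {v, y} ≤ 2 * π := by
    intro y hy
    have hvy := hne y hy
    obtain ⟨-, t0, ht0, hvt0, hyt0⟩ := (hNm y).1 hy
    have hfs := hF3 {v, y} (Finset.insert_nonempty _ _)
    have hmem : ∀ t, t ∈ hfs.toFinset ↔ t ∈ D ∧ ({v, y} : Finset E3) ⊆ t := by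
      intro t
      rw [Set.Finite.mem_toFinset]
      exact Iff.rfl
    have h3 := angle_sum hT hI hfin {v, y} (Finset.card_pair hvy)
      ⟨t0, ht0, by
        intro a ha
        rw [Finset.mem_insert, Finset.mem_singleton] at ha
        rcases ha with rfl | rfl
        · exact hvt0
        · exact hyt0⟩ hfs.toFinset hmem
    rw [← h3]
    refine Finset.sum_le_sum_of_subset_of_nonneg ?_ fun t _ _ => hnn t _
    intro t ht
    rw [Finset.mem_filter] at ht
    rw [hmem]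
    refine ⟨(hs t ht.1).1, ?_⟩
    intro a ha
    rw [Finset.mem_insert, Finset.mem_singleton] at ha
    rcases ha with rfl | rfl
    · exact (hs t ht.1).2
    · exact ht.2
  calc ∑ t ∈ s, ∑ m ∈ mixE S t v, tdih t m
      ≤ ∑ t ∈ s, ∑ y ∈ Nf.filter (fun y => y ∈ t), tdih t {v, y} := Finset.sum_le_sum h1
    _ = ∑ y ∈ Nf, ∑ t ∈ s.filter (fun t => y ∈ t), tdih t {v, y} := by
      refine Finset.sum_comm' fun t y => ?_
      rw [Finset.mem_filter, Finset.mem_filter]
      tauto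
    _ ≤ ∑ y ∈ Nf, 2 * π := Finset.sum_le_sum h2
    _ = Nf.card * (2 * π) := by rw [Finset.sum_const, nsmul_eq_mul]
    _ ≤ 8 * (2 * π) := by
      refine mul_le_mul_of_nonneg_right ?_ (by positivity)
      exact_mod_cast hcard
    _ = 16 * π := by ring

end TPC
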