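import Pool.Agent.TPC.B1
import Pool.Agent.TPC.A6b

/-!
# [TPC-B2] the volume of a tetrahedron is at most the sum of the shares

t = {x,y,z,w}, x, y ∈ S, z, w ∉ S, distinct (`BccCov.S.distinct`), det3 x y z w ≠ 0 (`BccCov.S.det3_ne_zero` / `tdih_facts.2.2`). `vol_eq`,
`Tineq` (file A6b, with its sorry) with the sphere of hI: vol t = |det3|/6 ≤ r³ (xL/2 SS + de MM). `sum_tsol`, `tSS_eq`:
∑_{v∈t} tsol t v = SS. mixE S t x = {{x,z},{x,w}}, mixE S t y = {{y,z},{y,w}}, mixE S t z = {{x,z},{y,z}}, mixE S t w = {{x,w},{y,w}} as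
finsets (or: use `sum_four` and `Finset.sum_filter` with `six_sum`), and `six_dih` gives tdih t {x,z} = dih x z y w, etc.; so
∑_{v∈t} ∑_{m ∈ mixE S t v} tdih t m = 2 MM x y z w. Hence ∑ sh = xL/2 SS + de MM.
-/

set_option autoImplicit false

open MeasureTheory Real
open scoped InnerProductSpace

namespace TPC

open BccCov BccO

/-- the mixed edges at a vertex: those with the other end in `{a, b}` -/
theorem b2_mix {x y z w : E3} {t : Finset E3} {S : Set E3} (hc : t.card = 4)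
    (ht : (t : Set E3) = {x, y, z, w}) (hy : x ∈ S ↔ y ∈ S) (hz : x ∈ S ↔ z ∉ S) (hw : x ∈ S ↔ w ∉ S) :
    ∑ m ∈ mixE S t x, tdih t m = dih x z y w + dih x w y z := by
  classical
  obtain ⟨hxy, hxz, hxw, hyz, hyw, hzw⟩ := BccCov.S.distinct hc ht
  obtain ⟨h1, h2, h3, h4, h5, h6⟩ := six_dih hc ht
  unfold mixE
  rw [Finset.sum_filter, six_sum hc ht]
  have c1 : ¬ (x ∈ ({x, y} : Finset E3) ∧ ∃ u ∈ ({x, y} : Finset E3), (x ∈ S ↔ u ∉ S)) := by
    rintro ⟨-, u, hu, hu'⟩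
    rw [Finset.mem_insert, Finset.mem_singleton] at hu
    rcases hu with rfl | rfl <;> tauto
  have c2 : x ∈ ({x, z} : Finset E3) ∧ ∃ u ∈ ({x, z} : Finset E3), (x ∈ S ↔ u ∉ S) :=
    ⟨by simp, z, by simp, hz⟩
  have c3 : x ∈ ({x, w} : Finset E3) ∧ ∃ u ∈ ({x, w} : Finset E3), (x ∈ S ↔ u ∉ S) :=
    ⟨by simp, w, by simp, hw⟩
  have c4 : ¬ (x ∈ ({y, z} : Finset E3) ∧ ∃ u ∈ ({y, z} : Finset E3), (x ∈ S ↔ u ∉ S)) := by
    rintro ⟨h, -⟩
    rw [Finset.mem_insert, Finset.mem_singleton] at h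
    tauto
  have c5 : ¬ (x ∈ ({y, w} : Finset E3) ∧ ∃ u ∈ ({y, w} : Finset E3), (x ∈ S ↔ u ∉ S)) := by
    rintro ⟨h, -⟩
    rw [Finset.mem_insert, Finset.mem_singleton] at h
    tauto
  have c6 : ¬ (x ∈ ({z, w} : Finset E3) ∧ ∃ u ∈ ({z, w} : Finset E3), (x ∈ S ↔ u ∉ S)) := by
    rintro ⟨h, -⟩
    rw [Finset.mem_insert, Finset.mem_singleton] at h
    tauto
  rw [if_neg c1, if_pos c2, if_pos c3, if_neg c4, if_neg c5, if_neg c6, h2, h3]
  ring

theorem vol_le {t : Finset E3} {r : ℝ} {S : Set E3} (hc : t.card = 4)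
    (hi : AffineIndependent ℝ (Subtype.val : {x // x ∈ t} → E3)) (hI : Inscribed t r)
    (h22 : ∃ x y z w : E3, (t : Set E3) = {x, y, z, w} ∧ x ∈ S ∧ y ∈ S ∧ z ∉ S ∧ w ∉ S) :
    vol t ≤ r ^ 3 * ∑ v ∈ t, sh S t v := by
  classical
  obtain ⟨x, y, z, w, ht, hx, hy, hz, hw⟩ := h22
  obtain ⟨hxy, hxz, hxw, hyz, hyw, hzw⟩ := BccCov.S.distinct hc ht
  obtain ⟨o, ρ, hρ, ho⟩ := hI
  have hmem : ∀ a, a ∈ ({x, y, z, w} : Set E3) → dist a o = ρ := by
    intro a ha
    rw [← ht] at ha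
    exact ho a (Finset.mem_coe.1 ha)
  have hdet : det3 x y z w ≠ 0 := tdih_facts.2.2 x y z w t hc ht hi
  have hT := Tineq hρ (hmem x (by simp)) (hmem y (by simp)) (hmem z (by simp)) (hmem w (by simp)) hdet
  have e1 : ∑ v ∈ t, sh S t v = xL / 2 * SS x y z w + de * MM x y z w := by
    have e2 : ∑ v ∈ t, sh S t v =
        xL / 2 * ∑ v ∈ t, tsol t v + de / 2 * ∑ v ∈ t, ∑ m ∈ mixE S t v, tdih t m := by
      unfold sh
      rw [Finset.sum_add_distrib, ← Finset.mul_sum, ← Finset.mul_sum]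
    have e3 : ∑ v ∈ t, ∑ m ∈ mixE S t v, tdih t m = 2 * MM x y z w := by
      rw [sum_four hc ht, b2_mix hc ht (by tauto) (by tauto) (by tauto),
        b2_mix hc (ht.trans (set_perm1 x y z w)) (by tauto) (by tauto) (by tauto)]
      have p3 : ({x, y, z, w} : Set E3) = {z, w, x, y} := by
        ext v; simp only [Set.mem_insert_iff, Set.mem_singleton_iff]; tauto
      have p4 : ({x, y, z, w} : Set E3) = {w, z, x, y} := by
        ext v; simp only [Set.mem_insert_iff, Set.mem_singleton_iff]; tauto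
      rw [b2_mix hc (ht.trans p3) (by tauto) (by tauto) (by tauto),
        b2_mix hc (ht.trans p4) (by tauto) (by tauto) (by tauto)]
      -- dih x z y w + dih x w y z + (dih y z x w + dih y w x z) + (dih z x w y + dih z y w x) + (dih w x z y + dih w y z x)
      rw [BccCov.S.dih_swap_left x z w y hxz, BccCov.S.dih_swap_left y z w x hyz,
        BccCov.S.dih_swap_left x w z y hxw, BccCov.S.dih_swap_left y w z x hyw,
        BccCov.S.dih_swap_right x z y w, BccCov.S.dih_swap_right y z x w,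
        BccCov.S.dih_swap_right x w y z, BccCov.S.dih_swap_right y w x z, MM]
      ring
    rw [e2, e3, sum_tsol hc, tSS_eq hc ht]
    ring
  rw [vol_eq ht, e1]
  exact hT

end TPC
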