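import Pool.Agent.TPC.B2
import Pool.Agent.TPC.A0

/-!
# [TPC-B3] the counting inequality

Follow `BccO.counting2` (file O/R3.lean), without boundary terms: T the finite set of t ∈ D with a vertex of norm ≤ R + 2r,
Y1 the points of X of norm ≤ R + 4r. (volume ball).toReal ≤ ∑_{t∈T} vol t (as there, `hV`; if R < 0 the ball is empty and the
claim is trivial, or the proof works anyway) ≤ ∑_{t∈T} r³ ∑_{v∈t} sh S t v (`vol_le`) = r³ ∑_{v∈Y1} ∑_{t∈T, v∈t} sh S t v, and for every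
v ∈ Y1: ∑_{t∈T, v∈t} sh S t v = xL/2 ∑ tsol t v + de/2 ∑∑ tdih t m ≤ xL/2 * 4π + de/2 * 16π = 30 cc (`vertex_sum`, `vertex_mix`,
`xL_pos`, `de_pos`, `const_eq`). NN X (R+4r) = Y1.card. If v ∈ Y1 is in no tetrahedron the inner sum is 0 ≤ 30 cc (vertex_sum and
vertex_mix hold for the empty finset as well).
-/

set_option autoImplicit false

open MeasureTheory Real
open scoped InnerProductSpace

namespace TPC

open BccCov BccO

theorem countM {X : Set E3} {D : Set (Finset E3)} {r : ℝ} (hr : 0 < r) (hT : IsTriangulation X D)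
    (hI : ∀ t ∈ D, Inscribed t r) (hfin : ∀ R : ℝ, (X ∩ Metric.closedBall (0 : E3) R).Finite)
    (S : Set E3)
    (h22 : ∀ t ∈ D, ∃ x y z w : E3, (t : Set E3) = {x, y, z, w} ∧ x ∈ S ∧ y ∈ S ∧ z ∉ S ∧ w ∉ S)
    (hdeg : ∀ v ∈ X, {y | (v ∈ S ↔ y ∉ S) ∧ ∃ t ∈ D, v ∈ t ∧ y ∈ t}.encard ≤ 8) (R : ℝ) :
    (volume (Metric.closedBall (0 : E3) R)).toReal ≤ 30 * cc * r ^ 3 * NN X (R + 4 * r) := by
  classical
  obtain ⟨hF1, hF2, -, hF4⟩ := finiteness hT hI hfin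
  -- the finite set of tetrahedra
  let T : Finset (Finset E3) := (hF2 (R + 2 * r)).toFinset
  have hTm : ∀ t, t ∈ T ↔ t ∈ D ∧ ∃ x ∈ t, ‖x‖ ≤ R + 2 * r := by
    intro t
    simp only [T, Set.Finite.mem_toFinset, Set.mem_ofPred_eq]
  have hTD : ∀ t ∈ T, t ∈ D := fun t ht => ((hTm t).1 ht).1
  have hdist : ∀ t ∈ D, ∀ x ∈ t, ∀ y ∈ t, ‖x‖ ≤ ‖y‖ + 2 * r := by
    intro t ht x hx y hy
    have h1 := hF1 t ht x (subset_convexHull ℝ _ (Finset.mem_coe.2 hx)) y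
      (subset_convexHull ℝ _ (Finset.mem_coe.2 hy))
    rw [dist_eq_norm] at h1
    have h2 : ‖x‖ ≤ ‖y‖ + ‖x - y‖ := by
      have := norm_add_le y (x - y)
      rwa [add_sub_cancel] at this
    linarith
  -- point set
  let Y1 : Finset E3 := (hfin (R + 4 * r)).toFinset
  have hY1m : ∀ x, x ∈ Y1 ↔ x ∈ X ∧ ‖x‖ ≤ R + 4 * r := by
    intro x
    simp only [Y1, Set.Finite.mem_toFinset, Set.mem_inter_iff, mem_closedBall_zero_iff]
  have hN1 : NN X (R + 4 * r) = Y1.card := Set.ncard_eq_toFinset_card _ (hfin (R + 4 * r))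
  have hTY1 : ∀ t ∈ T, ∀ x ∈ t, x ∈ Y1 := by
    intro t ht x hx
    obtain ⟨htD, y, hy, hyn⟩ := (hTm t).1 ht
    rw [hY1m]
    exact ⟨hT.vertices t htD x hx, by linarith [hdist t htD x hx y hy]⟩
  -- volume
  have hvfin : ∀ t : Finset E3, volume (convexHull ℝ (t : Set E3)) ≠ ⊤ := fun t =>
    (Set.Finite.isCompact_convexHull ℝ t.finite_toSet).measure_lt_top.ne
  have hV : (volume (Metric.closedBall (0 : E3) R)).toReal ≤ ∑ t ∈ T, vol t := by
    have h1 : Metric.closedBall (0 : E3) R ⊆ ⋃ t ∈ T, convexHull ℝ (t : Set E3) := by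
      intro z hz
      have h2 := hF4 R hz
      simp only [Set.mem_iUnion, exists_prop] at h2 ⊢
      obtain ⟨t, ht, hzt⟩ := h2
      exact ⟨t, (hTm t).2 ht, hzt⟩
    have h3 : volume (Metric.closedBall (0 : E3) R)
        ≤ ∑ t ∈ T, volume (convexHull ℝ (t : Set E3)) :=
      (measure_mono h1).trans (measure_biUnion_finset_le _ _)
    unfold vol
    rw [← ENNReal.toReal_sum fun t _ => hvfin t]
    exact ENNReal.toReal_mono (ENNReal.sum_ne_top.2 fun t _ => hvfin t) h3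
  -- shares
  have hsh : ∑ t ∈ T, ∑ v ∈ t, sh S t v ≤ 30 * cc * NN X (R + 4 * r) := by
    have h2 : ∑ t ∈ T, ∑ v ∈ t, sh S t v = ∑ v ∈ Y1, ∑ t ∈ T.filter (fun t => v ∈ t), sh S t v := by
      refine Finset.sum_comm' fun t v => ?_
      simp only [Finset.mem_filter]
      exact ⟨fun h => ⟨⟨h.1, h.2⟩, hTY1 t h.1 v h.2⟩, fun h => ⟨h.1.1, h.1.2⟩⟩
    have h3 : ∀ v ∈ Y1, ∑ t ∈ T.filter (fun t => v ∈ t), sh S t v ≤ 30 * cc := by
      intro v hv
      have hs : ∀ t ∈ T.filter (fun t => v ∈ t), t ∈ D ∧ v ∈ t := by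
        intro t ht
        rw [Finset.mem_filter] at ht
        exact ⟨hTD t ht.1, ht.2⟩
      have h4 := vertex_sum hT v _ hs
      have h5 := vertex_mix hT hI hfin S v (hdeg v ((hY1m v).1 hv).1) _ hs
      have h6 : ∑ t ∈ T.filter (fun t => v ∈ t), sh S t v =
          xL / 2 * ∑ t ∈ T.filter (fun t => v ∈ t), tsol t v +
            de / 2 * ∑ t ∈ T.filter (fun t => v ∈ t), ∑ m ∈ mixE S t v, tdih t m := by
        unfold sh
        rw [Finset.sum_add_distrib, ← Finset.mul_sum, ← Finset.mul_sum]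
      have h7 := mul_le_mul_of_nonneg_left h4 (by linarith [xL_pos] : 0 ≤ xL / 2)
      have h8 := mul_le_mul_of_nonneg_left h5 (by linarith [de_pos] : 0 ≤ de / 2)
      have h9 := const_eq
      rw [h6]
      linarith
    rw [h2, hN1]
    refine (Finset.sum_le_sum h3).trans (le_of_eq ?_)
    rw [Finset.sum_const, nsmul_eq_mul]
    ring
  have hvs : ∑ t ∈ T, vol t ≤ r ^ 3 * ∑ t ∈ T, ∑ v ∈ t, sh S t v := by
    rw [Finset.mul_sum]
    refine Finset.sum_le_sum fun t ht => ?_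
    exact vol_le (hT.card_eq t (hTD t ht)) (hT.indep t (hTD t ht)) (hI t (hTD t ht)) (h22 t (hTD t ht))
  calc (volume (Metric.closedBall (0 : E3) R)).toReal ≤ ∑ t ∈ T, vol t := hV
    _ ≤ r ^ 3 * ∑ t ∈ T, ∑ v ∈ t, sh S t v := hvs
    _ ≤ r ^ 3 * (30 * cc * NN X (R + 4 * r)) := mul_le_mul_of_nonneg_left hsh (by positivity)
    _ = 30 * cc * r ^ 3 * NN X (R + 4 * r) := by ring

end TPC
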