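import Pool.Agent.TPC.Defs

/-!
# [TPC-C1] the Delaunay triangulation under weak genericity
(adapted from Pool.Agent.MP_bf7174_co.O.Q1 and Q2)
-/

set_option autoImplicit false

open MeasureTheory Real
open scoped InnerProductSpace Pointwise Topology

namespace TPC

open BccCov BccO

/-- from an empty sphere with at least four points -/
lemma c1_Del_of_empty {X : Set E3} (hG : Gen2 X) (hfin : ∀ R : ℝ, (X ∩ Metric.closedBall (0 : E3) R).Finite)
    {o : E3} {ρ : ℝ} (h1 : ∀ x ∈ X, ρ ≤ dist x o) {s : Finset E3} (hs : 4 ≤ s.card)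
    (hsX : ∀ x ∈ s, x ∈ X) (hso : ∀ x ∈ s, dist x o = ρ) : s ∈ Del X := by
  classical
  have h4 : s.card = 4 := le_antisymm (hG.sphere o ρ s hsX hso) hs
  refine ⟨h4, hsX, o, ρ, hso, fun x hx hxs => lt_of_le_of_ne (h1 x hx) fun he => ?_⟩
  have h5 := hG.sphere o ρ (insert x s) (fun y hy => by
      rcases Finset.mem_insert.1 hy with h | h
      · rw [h]; exact hx
      · exact hsX y h) (fun y hy => by
      rcases Finset.mem_insert.1 hy with h | h
      · rw [h]; exact he.symm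
      · exact hso y h)
  rw [Finset.card_insert_of_notMem hxs, h4] at h5
  omega

theorem c1_Del_nonempty {X : Set E3} (hG : Gen2 X)
    (hfin : ∀ R : ℝ, (X ∩ Metric.closedBall (0 : E3) R).Finite) {R0 : ℝ}
    (hcov : ∀ p : E3, ∃ x ∈ X, dist p x ≤ R0) : (Del X).Nonempty := by
  classical
  obtain ⟨y₀, hy₀, -⟩ := hcov 0
  set K : Set E3 := {c | ∀ y ∈ X, dist c y₀ ≤ dist c y} with hK
  have hKc : IsCompact K := by
    apply Metric.isCompact_of_isClosed_isBounded
    · have : K = ⋂ y ∈ X, {c | dist c y₀ ≤ dist c y} := by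
        ext c; simp [hK]
      rw [this]
      exact isClosed_biInter fun y _ => isClosed_le (by fun_prop) (by fun_prop)
    · have hb : Bornology.IsBounded (Metric.closedBall y₀ R0) := Metric.isBounded_closedBall
      refine hb.subset ?_
      intro c hc
      obtain ⟨x, hx, hcx⟩ := hcov c
      exact (hc x hx).trans hcx
  obtain ⟨c, hcK, hmax⟩ := hKc.exists_isMaxOn (f := fun c => dist c y₀)
    ⟨y₀, fun y _ => by rw [dist_self]; exact dist_nonneg⟩ (by fun_prop)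
  set ρ := dist c y₀ with hρ
  have hemp : ∀ x ∈ X, ρ ≤ dist x c := fun x hx => by rw [dist_comm]; exact hcK x hx
  set S : Finset E3 := (fin_ball hfin c ρ).toFinset with hS
  have hSm : ∀ x, x ∈ S ↔ x ∈ X ∧ dist x c ≤ ρ := by
    intro x
    rw [hS, Set.Finite.mem_toFinset, Set.mem_inter_iff, Metric.mem_closedBall]
  have hSX : ∀ x ∈ S, x ∈ X := fun x hx => ((hSm x).1 hx).1
  have hSo : ∀ x ∈ S, dist x c = ρ := fun x hx =>
    le_antisymm ((hSm x).1 hx).2 (hemp x (hSX x hx))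
  refine ⟨S, c1_Del_of_empty hG hfin hemp ?_ hSX hSo⟩
  by_contra hcard
  push Not at hcard
  have hy₀S : y₀ ∈ S := (hSm y₀).2 ⟨hy₀, by rw [dist_comm]⟩
  obtain ⟨p, q, hpq⟩ := subset_pair (s := S.erase y₀) (by
    rw [Finset.card_erase_of_mem hy₀S]; omega)
  obtain ⟨v, hv0, hvp, hvq, hvc⟩ : ∃ v : E3, v ≠ 0 ∧ ⟪v, p - y₀⟫_ℝ = 0 ∧ ⟪v, q - y₀⟫_ℝ = 0 ∧
      0 ≤ ⟪v, c - y₀⟫_ℝ := by
    obtain ⟨v, h0, h1, h2⟩ := exists_orth (p - y₀) (q - y₀)
    rcases le_total 0 ⟪v, c - y₀⟫_ℝ with h | h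
    · exact ⟨v, h0, h1, h2, h⟩
    · refine ⟨-v, neg_ne_zero.2 h0, ?_, ?_, ?_⟩
      · rw [inner_neg_left, h1, neg_zero]
      · rw [inner_neg_left, h2, neg_zero]
      · rw [inner_neg_left]; linarith
  have hvS : ∀ y ∈ S, ⟪v, y - y₀⟫_ℝ = 0 := by
    intro y hy
    by_cases h : y = y₀
    · rw [h, sub_self, inner_zero_right]
    · rcases hpq y (Finset.mem_erase.2 ⟨h, hy⟩) with h1 | h1
      · rw [h1]; exact hvp
      · rw [h1]; exact hvq
  have hvn : 0 < ‖v‖ := norm_pos_iff.2 hv0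
  -- small `t`
  set F := ((fin_ball hfin c (ρ + 1)).toFinset) with hF
  have hFm : ∀ x, x ∈ F ↔ x ∈ X ∧ dist x c ≤ ρ + 1 := by
    intro x
    rw [hF, Set.Finite.mem_toFinset, Set.mem_inter_iff, Metric.mem_closedBall]
  have ev1 : ∀ᶠ t in 𝓝[>] (0 : ℝ), ∀ y ∈ F, y ∉ S → dist (c + t • v) y₀ < dist (c + t • v) y := by
    rw [Filter.eventually_all_finset]
    intro y hy
    by_cases hyS : y ∈ S
    · exact Filter.Eventually.of_forall fun _ h => absurd hyS h
    · have h1 : dist (c + (0 : ℝ) • v) y₀ < dist (c + (0 : ℝ) • v) y := by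
        rw [zero_smul, add_zero]
        refine lt_of_le_of_ne (hcK y ((hFm y).1 hy).1) fun he => hyS ((hSm y).2 ⟨((hFm y).1 hy).1, ?_⟩)
        rw [dist_comm, ← he]
      have h2 : ∀ᶠ t in 𝓝 (0 : ℝ), dist (c + t • v) y₀ < dist (c + t • v) y :=
        (Continuous.tendsto (by fun_prop) 0).eventually_lt (Continuous.tendsto (by fun_prop) 0) h1
      filter_upwards [mem_nhdsWithin_of_mem_nhds h2] with t ht _
      exact ht
  have ev2 : ∀ᶠ t in 𝓝[>] (0 : ℝ), 0 < t ∧ t < 1 / (2 * ‖v‖) := Ioo_mem_nhdsGT (by positivity)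
  obtain ⟨t, h1, ht0, ht1⟩ := (ev1.and ev2).exists
  rw [lt_div_iff₀ (by positivity)] at ht1
  have htv : dist (c + t • v) c = t * ‖v‖ := by
    rw [dist_eq_norm, add_sub_cancel_left, norm_smul, norm_eq_abs, abs_of_pos ht0]
  have hmem : c + t • v ∈ K := by
    intro y hy
    by_cases hyS : y ∈ S
    · have e1 : dist (c + t • v) y₀ ^ 2 = dist (c + t • v) y ^ 2 := by
        rw [dist_line, dist_line]
        have e2 : ⟪v, c - y⟫_ℝ = ⟪v, c - y₀⟫_ℝ := by
          have : c - y = (c - y₀) - (y - y₀) := by abel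
          rw [this, inner_sub_right, hvS y hyS, sub_zero]
        have e3 : dist c y = dist c y₀ := by rw [dist_comm, hSo y hyS]
        rw [e2, e3]
      exact ((pow_left_inj₀ dist_nonneg dist_nonneg (by norm_num)).1 e1).le
    · by_cases hyF : y ∈ F
      · exact (h1 y hyF hyS).le
      · have h2 : ρ + 1 < dist y c := by
          by_contra hcon
          push Not at hcon
          exact hyF ((hFm y).2 ⟨hy, hcon⟩)
        have h3 := dist_triangle y (c + t • v) c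
        have h4 := dist_triangle (c + t • v) c y₀
        rw [dist_comm y (c + t • v)] at h3
        linarith
  have h5 := hmax hmem
  have h5' : dist (c + t • v) y₀ ≤ ρ := h5
  have h6 := dist_line c v y₀ t
  have h7 : dist (c + t • v) y₀ ^ 2 ≤ ρ ^ 2 := pow_le_pow_left₀ dist_nonneg h5' 2
  have h8 : 0 ≤ 2 * t * ⟪v, c - y₀⟫_ℝ := by positivity
  have h9 : 0 < t ^ 2 * ‖v‖ ^ 2 := by positivity
  rw [h6] at h7
  linarith

/-- a neighbour across every face -/
theorem c1_Del_nb {X : Set E3} (hG : Gen2 X)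
    (hfin : ∀ R : ℝ, (X ∩ Metric.closedBall (0 : E3) R).Finite) {R0 : ℝ}
    (hcov : ∀ p : E3, ∃ x ∈ X, dist p x ≤ R0) {t : Finset E3} (ht : t ∈ Del X) {f : Finset E3}
    (hft : f ⊆ t) (hf : f.card = 3) : ∃ t' ∈ Del X, t' ≠ t ∧ f ⊆ t' := by
  classical
  obtain ⟨h4, htX, o, ρ, hto, htout⟩ := ht
  obtain ⟨a, b, c, hab, hac, hbc, hfe⟩ := Finset.card_eq_three.1 hf
  obtain ⟨d, hd⟩ : ∃ d, t \ f = {d} := by
    rw [← Finset.card_eq_one, Finset.card_sdiff_of_subset hft, h4, hf]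
  have hdt : d ∈ t ∧ d ∉ f := by
    rw [← Finset.mem_sdiff, hd]; simp
  have htf : ∀ x ∈ t, x ∈ f ∨ x = d := by
    intro x hx
    by_cases hxf : x ∈ f
    · left; exact hxf
    · right
      have : x ∈ t \ f := Finset.mem_sdiff.2 ⟨hx, hxf⟩
      rw [hd] at this
      simpa using this
  have haf : a ∈ f := by rw [hfe]; simp
  have hbf : b ∈ f := by rw [hfe]; simp
  have hcf : c ∈ f := by rw [hfe]; simp
  have had : a ≠ d := fun h => hdt.2 (h ▸ haf)
  have hbd : b ≠ d := fun h => hdt.2 (h ▸ hbf)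
  have hcd : c ≠ d := fun h => hdt.2 (h ▸ hcf)
  have hdet : det3 a b c d ≠ 0 := hG.plane o ρ a (htX a (hft haf)) b (htX b (hft hbf)) c (htX c (hft hcf))
    d (htX d hdt.1) hab hac had hbc hbd hcd (hto a (hft haf)) (hto b (hft hbf)) (hto c (hft hcf))
    (hto d hdt.1)
  -- oriented normal vector
  obtain ⟨n, hnd, hnf⟩ : ∃ n : E3, ⟪n, d - a⟫_ℝ < 0 ∧ ∀ x ∈ f, ⟪n, x - a⟫_ℝ = 0 := by
    have hf0 : ∀ x ∈ f, ⟪nrmv a b c, x - a⟫_ℝ = 0 := by
      intro x hx
      rw [nrmv_det]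
      rw [hfe] at hx
      simp only [Finset.mem_insert, Finset.mem_singleton] at hx
      rcases hx with rfl | rfl | rfl <;> unfold det3 <;> ring
    rcases lt_or_gt_of_ne hdet with h | h
    · exact ⟨nrmv a b c, by rw [nrmv_det]; exact h, hf0⟩
    · refine ⟨-nrmv a b c, by rw [inner_neg_left, nrmv_det]; linarith, fun x hx => ?_⟩
      rw [inner_neg_left, hf0 x hx, neg_zero]
  have hn0 : n ≠ 0 := by
    rintro rfl
    rw [inner_zero_left] at hnd
    exact lt_irrefl _ hnd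
  have hnn : 0 < ‖n‖ := norm_pos_iff.2 hn0
  set φ : E3 → ℝ := fun x => ⟪n, x - a⟫_ℝ with hφ
  set ro : ℝ → ℝ := fun τ => ρ ^ 2 - 2 * τ * ⟪n, a - o⟫_ℝ + τ ^ 2 * ‖n‖ ^ 2 with hro
  have key : ∀ x τ, dist x (o + τ • n) ^ 2 - ro τ = dist x o ^ 2 - ρ ^ 2 - 2 * τ * φ x := by
    intro x τ
    rw [dist_comm x (o + τ • n), dist_line, dist_comm o x]
    have : ⟪n, o - x⟫_ℝ = -φ x - ⟪n, a - o⟫_ℝ := by
      simp only [hφ]
      rw [← inner_neg_right, ← inner_sub_right]
      congr 1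
      abel
    rw [this, hro]
    ring
  -- a point on the other side
  obtain ⟨x₀, hx₀, hφ₀⟩ : ∃ x ∈ X, 0 < φ x := by
    obtain ⟨x, hx, hxd⟩ := hcov (a + ((R0 + 1) / ‖n‖) • n)
    refine ⟨x, hx, ?_⟩
    simp only [hφ]
    have e1 : x - a = ((R0 + 1) / ‖n‖) • n + (x - (a + ((R0 + 1) / ‖n‖) • n)) := by abel
    rw [e1, inner_add_right, inner_smul_right, real_inner_self_eq_norm_sq]
    have e2 := abs_real_inner_le_norm n (x - (a + ((R0 + 1) / ‖n‖) • n))
    rw [← dist_eq_norm, dist_comm] at e2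
    have e3 : ‖n‖ * dist (a + ((R0 + 1) / ‖n‖) • n) x ≤ ‖n‖ * R0 :=
      mul_le_mul_of_nonneg_left hxd hnn.le
    have e4 : (R0 + 1) / ‖n‖ * ‖n‖ ^ 2 = ‖n‖ * R0 + ‖n‖ := by field_simp
    have e5 := neg_abs_le ⟪n, x - (a + ((R0 + 1) / ‖n‖) • n)⟫_ℝ
    rw [e4]
    linarith
  -- the parameter of a point
  set τ : E3 → ℝ := fun x => (dist x o ^ 2 - ρ ^ 2) / (2 * φ x) with hτ
  have hρ0 : 0 ≤ ρ := by rw [← hto a (hft haf)]; exact dist_nonneg
  have hkey2 : ∀ x, 0 < φ x → ∀ s, dist x (o + s • n) ^ 2 - ro s = 2 * φ x * (τ x - s) := by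
    intro x hx s
    rw [key, hτ]
    field_simp
  have hτ0 : ∀ x ∈ X, 0 < φ x → 0 ≤ τ x := by
    intro x hx hφx
    have hxt : x ∉ t := by
      intro hxt
      rcases htf x hxt with h | h
      · have := hnf x h
        simp only [hφ] at hφx
        linarith
      · rw [h] at hφx
        simp only [hφ] at hφx
        linarith
    have h1 := htout x hx hxt
    simp only [hτ]
    apply div_nonneg _ (by positivity)
    have := pow_le_pow_left₀ hρ0 h1.le 2
    linarith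
  have hro0 : ∀ s, 0 ≤ ro s := by
    intro s
    have h1 := key a s
    have h2 : φ a = 0 := hnf a haf
    rw [h2, hto a (hft haf)] at h1
    have : ro s = dist a (o + s • n) ^ 2 := by linarith
    rw [this]; positivity
  -- the minimal parameter
  set s₀ := τ x₀ with hs₀
  set F : Finset E3 := (fin_ball hfin (o + s₀ • n) (√(ro s₀))).toFinset.filter (fun x => 0 < φ x) with hF
  have hFm : ∀ x, x ∈ F ↔ (x ∈ X ∧ dist x (o + s₀ • n) ≤ √(ro s₀)) ∧ 0 < φ x := by
    intro x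
    rw [hF, Finset.mem_filter, Set.Finite.mem_toFinset, Set.mem_inter_iff, Metric.mem_closedBall]
  have hin : ∀ x ∈ X, 0 < φ x → τ x ≤ s₀ → x ∈ F := by
    intro x hx hφx hle
    rw [hFm]
    refine ⟨⟨hx, ?_⟩, hφx⟩
    apply le_sqrt_of_sq_le
    have := hkey2 x hφx s₀
    have h2 : 2 * φ x * (τ x - s₀) ≤ 0 := mul_nonpos_of_nonneg_of_nonpos (by positivity) (by linarith)
    linarith
  obtain ⟨x₁, hx₁F, hmin⟩ := Finset.exists_min_image F τ ⟨x₀, hin x₀ hx₀ hφ₀ le_rfl⟩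
  obtain ⟨⟨hx₁, -⟩, hφ₁⟩ := (hFm x₁).1 hx₁F
  set s := τ x₁ with hs
  have hs0 : 0 ≤ s := hτ0 x₁ hx₁ hφ₁
  have hmin' : ∀ x ∈ X, 0 < φ x → s ≤ τ x := by
    intro x hx hφx
    rcases le_total (τ x) s₀ with h | h
    · exact hmin x (hin x hx hφx h)
    · exact (hmin x₀ (hin x₀ hx₀ hφ₀ le_rfl)).trans h
  -- the new sphere
  have hne1 : x₁ ∉ f := fun h => by
    have := hnf x₁ h
    simp only [hφ] at hφ₁
    linarith
  have hne2 : x₁ ∉ t := fun h => by
    rcases htf x₁ h with h | h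
    · exact hne1 h
    · rw [h] at hφ₁
      simp only [hφ] at hφ₁
      linarith
  have hemp : ∀ x ∈ X, √(ro s) ≤ dist x (o + s • n) := by
    intro x hx
    rw [sqrt_le_left dist_nonneg]
    rcases lt_or_ge 0 (φ x) with h | h
    · have h1 := hkey2 x h s
      have h2 : 0 ≤ 2 * φ x * (τ x - s) := mul_nonneg (by positivity) (by linarith [hmin' x hx h])
      linarith
    · have h1 := key x s
      have h2 : 0 ≤ dist x o ^ 2 - ρ ^ 2 := by
        by_cases hxt : x ∈ t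
        · rw [hto x hxt]; linarith
        · have := pow_le_pow_left₀ hρ0 (htout x hx hxt).le 2
          linarith
      have h3 : 2 * s * φ x ≤ 0 := mul_nonpos_of_nonneg_of_nonpos (by positivity) h
      linarith
  have hon : ∀ x ∈ insert x₁ f, dist x (o + s • n) = √(ro s) := by
    intro x hx
    symm
    rcases Finset.mem_insert.1 hx with h | h
    · have h1 := hkey2 x₁ hφ₁ s
      rw [hs, sub_self, mul_zero] at h1
      have h2 : ro s = dist x (o + s • n) ^ 2 := by rw [h]; linarith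
      rw [h2, sqrt_sq dist_nonneg]
    · have h1 := key x s
      have h3 : φ x = 0 := hnf x h
      rw [h3, hto x (hft h)] at h1
      have h2 : ro s = dist x (o + s • n) ^ 2 := by linarith
      rw [h2, sqrt_sq dist_nonneg]
  refine ⟨insert x₁ f, c1_Del_of_empty hG hfin hemp ?_ ?_ hon, ?_, Finset.subset_insert _ _⟩
  · rw [Finset.card_insert_of_notMem hne1, hf]
  · intro x hx
    rcases Finset.mem_insert.1 hx with h | h
    · rw [h]; exact hx₁
    · exact htX x (hft h)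
  · intro he
    apply hne2
    rw [← he]
    exact Finset.mem_insert_self _ _

theorem c1_indep {X : Set E3} (hG : Gen2 X) {t : Finset E3} (ht : t ∈ Del X) :
    AffineIndependent ℝ (Subtype.val : {x // x ∈ t} → E3) := by
  classical
  obtain ⟨h4, htX, o, ρ, hto, -⟩ := ht

  have hpos : 0 < t.card := by omega
  obtain ⟨x, hx⟩ := Finset.card_pos.1 hpos
  obtain ⟨y, z, w, hyz, hyw, hzw, he⟩ := Finset.card_eq_three.1
    (by rw [Finset.card_erase_of_mem hx, h4] : (t.erase x).card = 3)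
  have hy : y ∈ t.erase x := by rw [he]; simp
  have hz : z ∈ t.erase x := by rw [he]; simp
  have hw : w ∈ t.erase x := by rw [he]; simp
  rw [Finset.mem_erase] at hy hz hw
  have hdet : det3 x y z w ≠ 0 := hG.plane o ρ x (htX x hx) y (htX y hy.2) z (htX z hz.2) w (htX w hw.2)
    hy.1.symm hz.1.symm hw.1.symm hyz hyw hzw (hto x hx) (hto y hy.2) (hto z hz.2) (hto w hw.2)
  refine affInd_image ![x, y, z, w] hdet t ?_
  ext v
  have h1 : v ∈ (t : Set E3) ↔ v = x ∨ v ∈ t.erase x := by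
    rw [Finset.mem_coe, Finset.mem_erase]
    by_cases h : v = x
    · simp [h, hx]
    · simp [h]
  rw [h1, he]
  simp only [Finset.mem_insert, Finset.mem_singleton, Set.mem_range]
  constructor
  · rintro (rfl | rfl | rfl | rfl)
    · exact ⟨0, rfl⟩
    · exact ⟨1, rfl⟩
    · exact ⟨2, rfl⟩
    · exact ⟨3, rfl⟩
  · rintro ⟨i, rfl⟩
    fin_cases i <;> simp


/-- **existence of the Delaunay triangulation** -/
theorem Del_tri2 {X : Set E3} (hG : Gen2 X)
    (hfin : ∀ R : ℝ, (X ∩ Metric.closedBall (0 : E3) R).Finite) {R0 : ℝ}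
    (hcov : ∀ p : E3, ∃ x ∈ X, dist p x ≤ R0) :
    IsTriangulation X (Del X) ∧ ∀ t ∈ Del X, Inscribed t R0 := by
  classical
  have hsph : ∀ t ∈ Del X, ∃ (o : E3) (ρ : ℝ), ρ ≤ R0 ∧
      (∀ x ∈ t, dist x o = ρ) ∧ ∀ x ∈ X, x ∉ t → ρ < dist x o := by
    rintro t ⟨h4, htX, o, ρ, hto, htout⟩
    refine ⟨o, ρ, ?_, hto, htout⟩
    obtain ⟨x, hx, hxd⟩ := hcov o
    rw [dist_comm] at hxd
    by_cases hxt : x ∈ t
    · rw [← hto x hxt]; exact hxd
    · exact (htout x hx hxt).le.trans hxd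
  refine ⟨delaunay_tiles X (Del X) R0 hfin (c1_Del_nonempty hG hfin hcov) (fun t ht => ht.1) ?_
    (fun t ht => ht.2.1) hsph (fun t ht f hft hf => c1_Del_nb hG hfin hcov ht hft hf), fun t ht => ?_⟩
  · intro t ht
    exact c1_indep hG ht
  · obtain ⟨o, ρ, h1, h2, -⟩ := hsph t ht
    exact ⟨o, ρ, h1, h2⟩

end TPC
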