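import Pool.Agent.TPC.Defs

/-!
# [TPC-D1] nonvanishing of the determinants for affinely independent labels

(0) If v₁, ..., v_k ∈ Fin 4 → ℝ are linearly independent and w₁, ..., w_k ∈ E3 there is a linear map φ : (Fin 4 → ℝ) →ₗ[ℝ] E3 with
φ v_i = w_i (`(Basis.span hli).constr ℝ w` on the span, then `LinearMap.exists_extend`). With P j = φ (Pi.single j 1) we have
ev P a = φ a for all a (`LinearMap.pi_apply_eq_sum_univ`).
(1) `exists_det`: `affineIndependent_iff_linearIndependent_vsub ℝ a 0`: the vectors a i - a 0, i ≠ 0, are linearly independent. Take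
φ (a 1 - a 0) = V3 1 0 0, φ (a 2 - a 0) = V3 0 1 0, φ (a 3 - a 0) = V3 0 0 1 (V3 from BccCov.W2; or EuclideanSpace.single). Then
ev P (a i) = ev P (a 0) + e_i and det3 = 1 (unfold det3; simp).
(2) `cs_zero`: from dist x_i o = dist x_0 o = ρ: sd x_0 x_i = 2 ∑_k (x_i k - x_0 k)(o k - x_0 k) (expand dist_sq / `sd_eq`,
`BccCov.LP.lin_of`); substitute these four values in cs; the result is a polynomial identity (linear_combination or
nlinarith free: `rw` the four sd then `unfold det3; ring`).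
(3) `exists_cs`: as (1) with five labels, φ (a 1 - a 0) = e0, φ (a 2 - a 0) = e1, φ (a 3 - a 0) = e2, φ (a 4 - a 0) = - e0 : cs = -2.
-/

set_option autoImplicit false

open MeasureTheory Real
open scoped InnerProductSpace

namespace TPC

open BccCov BccO

theorem d1_ext {ι V W : Type} [AddCommGroup V] [Module ℝ V] [AddCommGroup W] [Module ℝ W]
    {v : ι → V} (hv : LinearIndependent ℝ v) (w : ι → W) : ∃ φ : V →ₗ[ℝ] W, ∀ i, φ (v i) = w i := by
  obtain ⟨φ, hφ⟩ := LinearMap.exists_extend ((Module.Basis.span hv).constr ℝ w)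
  refine ⟨φ, fun i => ?_⟩
  have h1 : φ (v i) = (φ.comp (Submodule.span ℝ (Set.range v)).subtype)
      (Module.Basis.span hv i) := by
    rw [LinearMap.comp_apply, Submodule.subtype_apply, Module.Basis.span_apply]
  rw [h1, hφ, Module.Basis.constr_basis]

theorem d1_ev {n : ℕ} (a : Fin (n + 1) → Fin 4 → ℝ) (h : AffineIndependent ℝ a)
    (w : {x : Fin (n + 1) // x ≠ 0} → E3) :
    ∃ P : Fin 4 → E3, ∀ i : {x : Fin (n + 1) // x ≠ 0}, ev P (a i) = ev P (a 0) + w i := by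
  rw [affineIndependent_iff_linearIndependent_vsub ℝ a 0] at h
  obtain ⟨φ, hφ⟩ := d1_ext h w
  refine ⟨fun j => φ (fun i => if j = i then 1 else 0), fun i => ?_⟩
  have h1 : ∀ b : Fin 4 → ℝ, ev (fun j => φ (fun i => if j = i then 1 else 0)) b = φ b :=
    fun b => (LinearMap.pi_apply_eq_sum_univ φ b).symm
  rw [h1, h1, ← hφ i, vsub_eq_sub, map_sub, add_sub_cancel]

theorem exists_det (a : Fin 4 → Fin 4 → ℝ) (h : AffineIndependent ℝ a) :
    ∃ P : Fin 4 → E3, det3 (ev P (a 0)) (ev P (a 1)) (ev P (a 2)) (ev P (a 3)) ≠ 0 := by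
  obtain ⟨P, hP⟩ := d1_ev a h (fun i => if i.1 = 1 then BccCov.W2.V3 1 0 0 else
    if i.1 = 2 then BccCov.W2.V3 0 1 0 else BccCov.W2.V3 0 0 1)
  refine ⟨P, ?_⟩
  have h1 := hP ⟨1, by decide⟩
  have h2 := hP ⟨2, by decide⟩
  have h3 := hP ⟨3, by decide⟩
  dsimp only at h1 h2 h3
  rw [if_pos rfl] at h1
  rw [if_neg (by decide), if_pos rfl] at h2
  rw [if_neg (by decide), if_neg (by decide)] at h3
  rw [h1, h2, h3]
  have e : det3 (ev P (a 0)) (ev P (a 0) + BccCov.W2.V3 1 0 0) (ev P (a 0) + BccCov.W2.V3 0 1 0)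
      (ev P (a 0) + BccCov.W2.V3 0 0 1) = 1 := by
    simp [det3, BccCov.W2.V3]
  rw [e]
  exact one_ne_zero

theorem d1_sd {x y o : E3} (h : dist x o = dist y o) :
    sd x y = 2 * ((y 0 - x 0) * (o 0 - x 0) + (y 1 - x 1) * (o 1 - x 1) +
      (y 2 - x 2) * (o 2 - x 2)) := by
  have h1 : dist x o ^ 2 = dist y o ^ 2 := by rw [h]
  rw [BccCov.LP.dist_sq, BccCov.LP.dist_sq] at h1
  rw [sd_eq]
  linear_combination (-1) * h1

theorem cs_zero {x0 x1 x2 x3 x4 o : E3} {ρ : ℝ} (h0 : dist x0 o = ρ) (h1 : dist x1 o = ρ)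
    (h2 : dist x2 o = ρ) (h3 : dist x3 o = ρ) (h4 : dist x4 o = ρ) : cs x0 x1 x2 x3 x4 = 0 := by
  unfold cs
  rw [d1_sd (h0.trans h1.symm), d1_sd (h0.trans h2.symm), d1_sd (h0.trans h3.symm),
    d1_sd (h0.trans h4.symm)]
  unfold det3
  ring

theorem exists_cs (a : Fin 5 → Fin 4 → ℝ) (h : AffineIndependent ℝ a) :
    ∃ P : Fin 4 → E3, cs (ev P (a 0)) (ev P (a 1)) (ev P (a 2)) (ev P (a 3)) (ev P (a 4)) ≠ 0 := by
  obtain ⟨P, hP⟩ := d1_ev a h (fun i => if i.1 = 1 then BccCov.W2.V3 1 0 0 else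
    if i.1 = 2 then BccCov.W2.V3 0 1 0 else if i.1 = 3 then BccCov.W2.V3 0 0 1 else
      BccCov.W2.V3 (-1) 0 0)
  refine ⟨P, ?_⟩
  have h1 := hP ⟨1, by decide⟩
  have h2 := hP ⟨2, by decide⟩
  have h3 := hP ⟨3, by decide⟩
  have h4 := hP ⟨4, by decide⟩
  dsimp only at h1 h2 h3 h4
  rw [if_pos rfl] at h1
  rw [if_neg (by decide), if_pos rfl] at h2
  rw [if_neg (by decide), if_neg (by decide), if_pos rfl] at h3
  rw [if_neg (by decide), if_neg (by decide), if_neg (by decide)] at h4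
  rw [h1, h2, h3, h4]
  have e : cs (ev P (a 0)) (ev P (a 0) + BccCov.W2.V3 1 0 0) (ev P (a 0) + BccCov.W2.V3 0 1 0)
      (ev P (a 0) + BccCov.W2.V3 0 0 1) (ev P (a 0) + BccCov.W2.V3 (-1) 0 0) = -2 := by
    unfold cs
    rw [sd_eq, sd_eq, sd_eq, sd_eq]
    simp [det3, BccCov.W2.V3]
    norm_num
  rw [e]
  norm_num

end TPC
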