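import Pool.Agent.TPC.Defs

/-!
# [TPC-D2] affinely dependent labels

`exists_dep`: Let W be the set of c : Fin k → ℝ with ∑ c i = 0 and ∑ c i • a i = 0. By h (`affineIndependent_iff_of_fintype`,
`Finset.weightedVSub_eq_weightedVSubOfPoint_of_sum_eq_zero` as in Q1.lean, or `Finset.weightedVSub_eq_linear_combination`) W contains some
c ≠ 0; choose one whose support {i | c i ≠ 0} has the least cardinality. Claim: this c works. Suppose
∑ c i ‖ev P (a i)‖² = 0 for all P. For t : Fin 4 → ℝ put P j = t j • e, ‖e‖ = 1: ev P (a i) = (∑ j, a i j * t j) • e, so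
q(t) := ∑ c i (t·a i)² = 0 for all t, where t·a = ∑ j, a j * t j. Then ∑ c i (t·a i)(s·a i) = (q(s+t) - q(s) - q(t))/2 = 0 for all
s, t. Fix t and put c' i = c i * (t·a i). ∑ c' i = t·(∑ c i • a i) = 0 and ∑ c' i • a i = 0 (take s = unit vectors). Choose i₀ with
c i₀ ≠ 0 and λ = t·a i₀; then c' - λ c ∈ W vanishes at i₀ and wherever c does, so its support is strictly smaller, hence
c' = λ c, i.e. t·a i = t·a i₀ for all i with c i ≠ 0. As t is arbitrary, a i = a i₀ for all i in the support of c, so the support is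
{i₀} by hinj, and ∑ c i = c i₀ ≠ 0, contradiction.
`dep_zero`: ‖x_i‖² = ‖x_i - o‖² + 2⟪x_i, o⟫ - ‖o‖² = ρ² + 2⟪x_i,o⟫ - ‖o‖², x_i = ev P (a i); ∑ c i • x_i = ev P (∑ c i • a i) = 0; so the
sum is (ρ² - ‖o‖²) ∑ c i + 2 ⟪∑ c i • x_i, o⟫ = 0.
-/

set_option autoImplicit false

open MeasureTheory Real
open scoped InnerProductSpace

namespace TPC

open BccCov BccO

theorem d2_start {k : ℕ} {a : Fin k → Fin 4 → ℝ} (h : ¬ AffineIndependent ℝ a) :
    ∃ c : Fin k → ℝ, c ≠ 0 ∧ ∑ i, c i = 0 ∧ ∑ i, c i • a i = 0 := by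
  rw [affineIndependent_iff_of_fintype] at h
  simp only [not_forall] at h
  obtain ⟨w, h0, h1, i, hi⟩ := h
  rw [Finset.weightedVSub_eq_linear_combination _ h0] at h1
  exact ⟨w, fun e => hi (by rw [e]; rfl), h0, h1⟩

theorem d2_quad {k : ℕ} {a : Fin k → Fin 4 → ℝ} {c : Fin k → ℝ}
    (h : ∀ P : Fin 4 → E3, ∑ i, c i * ‖ev P (a i)‖ ^ 2 = 0) (t : Fin 4 → ℝ) :
    ∑ i, c i * (∑ j, a i j * t j) ^ 2 = 0 := by
  have h1 := h (fun j => t j • EuclideanSpace.single 0 (1 : ℝ))
  rw [← h1]
  refine Finset.sum_congr rfl fun i _ => ?_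
  have h2 : ev (fun j => t j • (EuclideanSpace.single 0 (1 : ℝ) : E3)) (a i) =
      (∑ j, a i j * t j) • (EuclideanSpace.single 0 (1 : ℝ) : E3) := by
    unfold ev
    rw [Finset.sum_smul]
    refine Finset.sum_congr rfl fun j _ => ?_
    rw [smul_smul]
  rw [h2, norm_smul, mul_pow, Real.norm_eq_abs, sq_abs]
  simp

theorem d2_bil {k : ℕ} {a : Fin k → Fin 4 → ℝ} {c : Fin k → ℝ}
    (h : ∀ P : Fin 4 → E3, ∑ i, c i * ‖ev P (a i)‖ ^ 2 = 0) (t : Fin 4 → ℝ) (j₀ : Fin 4) :
    ∑ i, c i * (∑ j, a i j * t j) * a i j₀ = 0 := by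
  have h1 := d2_quad h t
  have h2 := d2_quad h (fun j => if j = j₀ then 1 else 0)
  have h3 := d2_quad h (fun j => t j + if j = j₀ then 1 else 0)
  have e1 : ∀ i, ∑ j, a i j * (if j = j₀ then (1 : ℝ) else 0) = a i j₀ := by
    intro i
    simp
  have e2 : ∀ i, ∑ j, a i j * (t j + if j = j₀ then (1 : ℝ) else 0) =
      (∑ j, a i j * t j) + a i j₀ := by
    intro i
    rw [← e1 i, ← Finset.sum_add_distrib]
    exact Finset.sum_congr rfl fun j _ => by ring
  simp only [e1] at h2
  simp only [e2] at h3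
  have e3 : ∑ i, c i * ((∑ j, a i j * t j) + a i j₀) ^ 2 =
      ∑ i, c i * (∑ j, a i j * t j) ^ 2 + 2 * ∑ i, c i * (∑ j, a i j * t j) * a i j₀ +
        ∑ i, c i * (a i j₀) ^ 2 := by
    rw [Finset.mul_sum, ← Finset.sum_add_distrib, ← Finset.sum_add_distrib]
    exact Finset.sum_congr rfl fun j _ => by ring
  rw [e3, h1, h2] at h3
  linarith

theorem d2_main {k : ℕ} (a : Fin k → Fin 4 → ℝ) (hinj : Function.Injective a) (n : ℕ) :
    ∀ c : Fin k → ℝ, c ≠ 0 → ∑ i, c i = 0 → ∑ i, c i • a i = 0 →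
      (Finset.univ.filter fun i => c i ≠ 0).card = n →
      ∃ c : Fin k → ℝ, ∑ i, c i = 0 ∧ ∑ i, c i • a i = 0 ∧
        ∃ P : Fin 4 → E3, ∑ i, c i * ‖ev P (a i)‖ ^ 2 ≠ 0 := by
  induction n using Nat.strong_induction_on with
  | _ n ih =>
    intro c hc h0 h1 hn
    by_cases hP : ∃ P : Fin 4 → E3, ∑ i, c i * ‖ev P (a i)‖ ^ 2 ≠ 0
    · exact ⟨c, h0, h1, hP⟩
    · simp only [not_exists, not_not] at hP
      obtain ⟨i₀, hi₀⟩ : ∃ i, c i ≠ 0 := by
        by_contra hcon
        simp only [not_exists, not_not] at hcon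
        exact hc (funext hcon)
      by_cases ht : ∃ t : Fin 4 → ℝ, ∃ i, c i * (∑ j, a i j * t j) -
          (∑ j, a i₀ j * t j) * c i ≠ 0
      · obtain ⟨t, i₁, hi₁⟩ := ht
        refine ih (Finset.univ.filter fun i => c i * (∑ j, a i j * t j) -
          (∑ j, a i₀ j * t j) * c i ≠ 0).card ?_ (fun i => c i * (∑ j, a i j * t j) -
          (∑ j, a i₀ j * t j) * c i) (fun e => hi₁ (congrFun e i₁)) ?_ ?_ rfl
        · rw [← hn]
          refine Finset.card_lt_card ⟨fun i hi => ?_, fun hsub => ?_⟩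
          · rw [Finset.mem_filter] at hi ⊢
            refine ⟨hi.1, fun h => hi.2 ?_⟩
            rw [h]; ring
          · have h5 := hsub (Finset.mem_filter.mpr ⟨Finset.mem_univ i₀, hi₀⟩)
            refine (Finset.mem_filter.mp h5).2 ?_
            ring
        · rw [Finset.sum_sub_distrib, ← Finset.mul_sum, h0, mul_zero, sub_zero]
          have h2 : ∀ j, ∑ i, c i * a i j = 0 := by
            intro j
            have := congrFun h1 j
            simpa [Finset.sum_apply] using this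
          simp only [Finset.mul_sum]
          rw [Finset.sum_comm]
          refine Finset.sum_eq_zero fun j _ => ?_
          have h3 : ∑ i, c i * (a i j * t j) = (∑ i, c i * a i j) * t j := by
            rw [Finset.sum_mul]
            exact Finset.sum_congr rfl fun i _ => by ring
          rw [h3, h2, zero_mul]
        · funext j
          have h2 : ∑ i, c i * a i j = 0 := by
            have := congrFun h1 j
            simpa [Finset.sum_apply] using this
          have h3 := d2_bil hP t j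
          simp only [Finset.sum_apply, Pi.smul_apply, smul_eq_mul, Pi.zero_apply]
          have h4 : ∑ i, (c i * (∑ j, a i j * t j) - (∑ j, a i₀ j * t j) * c i) * a i j =
              ∑ i, c i * (∑ j, a i j * t j) * a i j - (∑ j, a i₀ j * t j) * ∑ i, c i * a i j := by
            rw [Finset.mul_sum, ← Finset.sum_sub_distrib]
            exact Finset.sum_congr rfl fun i _ => by ring
          rw [h4, h3, h2]
          ring
      · exfalso
        simp only [not_exists, not_not] at ht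
        have h5 : ∀ i, c i ≠ 0 → i = i₀ := by
          intro i hi
          apply hinj
          funext j
          have h6 := ht (fun j' => if j' = j then 1 else 0) i
          simp only [mul_ite, mul_one, mul_zero, Finset.sum_ite_eq', Finset.mem_univ,
            if_true] at h6
          have h7 : c i * (a i j - a i₀ j) = 0 := by linear_combination h6
          rcases mul_eq_zero.mp h7 with h | h
          · exact absurd h hi
          · linarith
        have h6 : ∑ i, c i = c i₀ := by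
          refine Finset.sum_eq_single i₀ (fun i _ hi => ?_) (fun h => absurd (Finset.mem_univ _) h)
          by_contra hne
          exact hi (h5 i hne)
        exact hi₀ (h6.symm.trans h0)

theorem exists_dep {k : ℕ} (a : Fin k → Fin 4 → ℝ) (hinj : Function.Injective a)
    (h : ¬ AffineIndependent ℝ a) :
    ∃ c : Fin k → ℝ, ∑ i, c i = 0 ∧ ∑ i, c i • a i = 0 ∧
      ∃ P : Fin 4 → E3, ∑ i, c i * ‖ev P (a i)‖ ^ 2 ≠ 0 := by
  obtain ⟨c, hc, h0, h1⟩ := d2_start h
  exact d2_main a hinj _ c hc h0 h1 rfl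

theorem dep_zero {k : ℕ} {a : Fin k → Fin 4 → ℝ} {c : Fin k → ℝ} (h0 : ∑ i, c i = 0)
    (h1 : ∑ i, c i • a i = 0) {P : Fin 4 → E3} {o : E3} {ρ : ℝ}
    (h : ∀ i, dist (ev P (a i)) o = ρ) : ∑ i, c i * ‖ev P (a i)‖ ^ 2 = 0 := by
  have h2 : ∀ i, ‖ev P (a i)‖ ^ 2 = (ρ ^ 2 - ‖o‖ ^ 2) + 2 * ⟪ev P (a i), o⟫_ℝ := by
    intro i
    have h3 := norm_sub_sq_real (ev P (a i)) o
    rw [← dist_eq_norm, h i] at h3
    linarith
  have h4 : ∑ i, c i • ev P (a i) = 0 := by
    unfold ev
    simp only [Finset.smul_sum, smul_smul]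
    rw [Finset.sum_comm]
    refine Finset.sum_eq_zero fun j _ => ?_
    rw [← Finset.sum_smul]
    have := congrFun h1 j
    have h5 : ∑ i, c i * a i j = 0 := by simpa [Finset.sum_apply] using this
    rw [h5, zero_smul]
  have h6 : ∑ i, c i * ⟪ev P (a i), o⟫_ℝ = 0 := by
    have h7 : ⟪∑ i, c i • ev P (a i), o⟫_ℝ = 0 := by rw [h4, inner_zero_left]
    rw [sum_inner] at h7
    simpa only [real_inner_smul_left] using h7
  have h8 : ∑ i, c i * ‖ev P (a i)‖ ^ 2 =
      (ρ ^ 2 - ‖o‖ ^ 2) * ∑ i, c i + 2 * ∑ i, c i * ⟪ev P (a i), o⟫_ℝ := by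
    rw [Finset.mul_sum, Finset.mul_sum, ← Finset.sum_add_distrib]
    refine Finset.sum_congr rfl fun i _ => ?_
    rw [h2 i]
    ring
  rw [h8, h0, h6]
  ring

end TPC
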