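import Pool.Agent.TPC.Defs

/-!
# [TPC-D3] zero sets of analytic functions

`dense_ne`: open by continuity (AnalyticOnNhd.continuousOn). Dense: otherwise there is an open nonempty U with f = 0 on U; take z₀ ∈ U,
then f =ᶠ[𝓝 z₀] 0 and `AnalyticOnNhd.eq_of_eventuallyEq` (the whole space is connected) gives f = 0, contradiction to h0.
`an_det`, `an_cs`, `an_dep`: every coordinate P ↦ (ev P a) i = ∑ j, a j * P j i is a continuous linear map, so analytic
(`ContinuousLinearMap.analyticAt`), the rest are sums and products (`AnalyticAt.add`, `.mul`, `.pow`, `Finset.analyticAt_sum`, or fun_prop);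
‖v‖² = v 0 ^2 + v 1 ^2 + v 2 ^2 (`BccO.nsq`), sd by `sd_eq`.
-/

set_option autoImplicit false

open MeasureTheory Real
open scoped InnerProductSpace

namespace TPC

open BccCov BccO

theorem dense_ne {f : (Fin 4 → E3) → ℝ} (hf : AnalyticOnNhd ℝ f Set.univ) {P₀ : Fin 4 → E3}
    (h0 : f P₀ ≠ 0) : IsOpen {P | f P ≠ 0} ∧ Dense {P | f P ≠ 0} := by
  have hc : Continuous f := continuousOn_univ.mp hf.continuousOn
  refine ⟨isOpen_ne_fun hc continuous_const, ?_⟩
  rw [dense_iff_inter_open]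
  intro U hU hne
  by_contra hcon
  obtain ⟨z, hz⟩ := hne
  have h1 : ∀ y ∈ U, f y = 0 := by
    intro y hy
    by_contra h2
    exact hcon ⟨y, hy, h2⟩
  have h3 : f = fun _ => (0 : ℝ) := by
    refine AnalyticOnNhd.eq_of_eventuallyEq (z₀ := z) hf analyticOnNhd_const ?_
    filter_upwards [hU.mem_nhds hz] with y hy
    exact h1 y hy
  exact h0 (by rw [h3])

private theorem d3_coord (a : Fin 4 → ℝ) (i : Fin 3) :
    AnalyticOnNhd ℝ (fun P : Fin 4 → E3 => (ev P a) i) Set.univ := by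
  have h : (fun P : Fin 4 → E3 => (ev P a) i) =
      ⇑((EuclideanSpace.proj i : E3 →L[ℝ] ℝ).comp
        (∑ j, a j • (ContinuousLinearMap.proj j : (Fin 4 → E3) →L[ℝ] E3))) := by
    ext P
    simp [ev]
  rw [h]
  exact ContinuousLinearMap.analyticOnNhd _ _

theorem an_det (a0 a1 a2 a3 : Fin 4 → ℝ) :
    AnalyticOnNhd ℝ (fun P : Fin 4 → E3 => det3 (ev P a0) (ev P a1) (ev P a2) (ev P a3))
      Set.univ := by
  intro P hP
  have h := fun (a : Fin 4 → ℝ) (i : Fin 3) => d3_coord a i P hP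
  unfold det3
  exact (((h a1 0).sub (h a0 0)).mul ((((h a2 1).sub (h a0 1)).mul ((h a3 2).sub (h a0 2))).sub
    (((h a2 2).sub (h a0 2)).mul ((h a3 1).sub (h a0 1))))).sub
    (((h a1 1).sub (h a0 1)).mul ((((h a2 0).sub (h a0 0)).mul ((h a3 2).sub (h a0 2))).sub
    (((h a2 2).sub (h a0 2)).mul ((h a3 0).sub (h a0 0))))) |>.add
    (((h a1 2).sub (h a0 2)).mul ((((h a2 0).sub (h a0 0)).mul ((h a3 1).sub (h a0 1))).sub
    (((h a2 1).sub (h a0 1)).mul ((h a3 0).sub (h a0 0)))))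

private theorem d3_sd (a b : Fin 4 → ℝ) :
    AnalyticOnNhd ℝ (fun P : Fin 4 → E3 => sd (ev P a) (ev P b)) Set.univ := by
  intro P hP
  have h := fun (a : Fin 4 → ℝ) (i : Fin 3) => d3_coord a i P hP
  simp only [sd_eq]
  exact ((((h a 0).sub (h b 0)).pow 2).add (((h a 1).sub (h b 1)).pow 2)).add
    (((h a 2).sub (h b 2)).pow 2)

theorem an_cs (a0 a1 a2 a3 a4 : Fin 4 → ℝ) :
    AnalyticOnNhd ℝ (fun P : Fin 4 → E3 => cs (ev P a0) (ev P a1) (ev P a2) (ev P a3) (ev P a4))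
      Set.univ := by
  intro P hP
  unfold cs
  exact ((((d3_sd a0 a1 P hP).mul (an_det a0 a2 a3 a4 P hP)).sub
    ((d3_sd a0 a2 P hP).mul (an_det a0 a1 a3 a4 P hP))).add
    ((d3_sd a0 a3 P hP).mul (an_det a0 a1 a2 a4 P hP))).sub
    ((d3_sd a0 a4 P hP).mul (an_det a0 a1 a2 a3 P hP))

theorem an_dep {k : ℕ} (c : Fin k → ℝ) (a : Fin k → Fin 4 → ℝ) :
    AnalyticOnNhd ℝ (fun P : Fin 4 → E3 => ∑ i, c i * ‖ev P (a i)‖ ^ 2) Set.univ := by
  intro P hP
  have h := fun (a : Fin 4 → ℝ) (i : Fin 3) => d3_coord a i P hP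
  simp only [nsq]
  refine Finset.analyticAt_fun_sum _ fun i _ => ?_
  exact analyticAt_const.mul ((((h (a i) 0).pow 2).add ((h (a i) 1).pow 2)).add ((h (a i) 2).pow 2))

end TPC
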