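import Pool.Agent.TPC.D1
import Pool.Agent.TPC.D2
import Pool.Agent.TPC.D3

/-!
# [TPC-D4] generic parameters

The theorems of D1, D2, D3 may be used with their sorries. (Fin 4 → E3) is a complete metric space (Baire). For each condition choose
an analytic function f with f ≢ 0 such that f P ≠ 0 implies the condition:
 * det: f P = det3 (ev P 0) (ev P e0) (ev P e1) (ev P e2), e_j = Pi.single j 1 (ev P e_j = P j, ev P 0 = 0); nonzero by `exists_det`
   (the four labels are affinely independent) or directly at P = (unit vectors).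
 * inj, a ≠ 0: f P = ∑ i : Fin 1, 1 * ‖ev P a‖² (an_dep with k = 1), nonzero at P j = (a j : ℝ) • e.
 * four, a injective: if the real labels are affinely independent take f from `an_det`, `exists_det`; otherwise `exists_dep` gives c and
   f P = ∑ c i ‖ev P (a i)‖² ≢ 0; if f P ≠ 0 the points are not cospherical (`dep_zero`), so the condition holds vacuously.
 * five, a injective: if affinely independent take cs (`an_cs`, `exists_cs`, `cs_zero`), otherwise as before.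
The index set Unit ⊕ (Fin 4 → ℤ) ⊕ (Fin 4 → Fin 4 → ℤ) ⊕ (Fin 5 → Fin 4 → ℤ) is countable; `dense_iInter_of_isOpen` with `dense_ne`
(for each index choose an open dense set contained in the condition; for a = 0 or a not injective take univ). The intersection is dense, so it meets
Metric.ball P₀ δ; dist (P j) (P₀ j) ≤ dist P P₀ (`dist_le_pi_dist`).
-/

set_option autoImplicit false

open MeasureTheory Real
open scoped InnerProductSpace

namespace TPC

open BccCov BccO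

/-- generic parameters -/
structure GenP (P : Fin 4 → E3) : Prop where
  det : det3 0 (P 0) (P 1) (P 2) ≠ 0
  inj : ∀ a : Fin 4 → ℤ, a ≠ 0 → ev P (fun j => (a j : ℝ)) ≠ 0
  four : ∀ a : Fin 4 → Fin 4 → ℤ, Function.Injective a → ∀ (o : E3) (ρ : ℝ),
    (∀ i, dist (ev P (fun j => (a i j : ℝ))) o = ρ) →
    det3 (ev P (fun j => (a 0 j : ℝ))) (ev P (fun j => (a 1 j : ℝ)))
      (ev P (fun j => (a 2 j : ℝ))) (ev P (fun j => (a 3 j : ℝ))) ≠ 0
  five : ∀ a : Fin 5 → Fin 4 → ℤ, Function.Injective a → ∀ (o : E3) (ρ : ℝ),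
    ¬ ∀ i, dist (ev P (fun j => (a i j : ℝ))) o = ρ

/-- an analytic function which is not zero gives an open dense set -/
private theorem d4_an {f : (Fin 4 → E3) → ℝ} (hf : AnalyticOnNhd ℝ f Set.univ)
    (h0 : ∃ P₀, f P₀ ≠ 0) {Q : (Fin 4 → E3) → Prop} (hQ : ∀ P, f P ≠ 0 → Q P) :
    ∃ U : Set (Fin 4 → E3), IsOpen U ∧ Dense U ∧ ∀ P ∈ U, Q P := by
  obtain ⟨P₀, h0⟩ := h0
  obtain ⟨h1, h2⟩ := dense_ne hf h0
  exact ⟨{P | f P ≠ 0}, h1, h2, fun P hP => hQ P hP⟩

private theorem d4_inj {k : ℕ} {a : Fin k → Fin 4 → ℤ} (h : Function.Injective a) :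
    Function.Injective (fun i => fun j => ((a i j : ℤ) : ℝ)) := by
  intro i i' hii
  apply h
  funext j
  have h1 : ((a i j : ℤ) : ℝ) = ((a i' j : ℤ) : ℝ) := congrFun hii j
  exact_mod_cast h1

private theorem d4_single (P : Fin 4 → E3) (j : Fin 4) : ev P (Pi.single j 1) = P j := by
  unfold ev
  rw [Finset.sum_eq_single j]
  · simp
  · intro i _ hi
    simp [Pi.single_eq_of_ne hi]
  · simp

private theorem d4_det : ∃ U : Set (Fin 4 → E3), IsOpen U ∧ Dense U ∧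
    ∀ P ∈ U, det3 0 (P 0) (P 1) (P 2) ≠ 0 := by
  refine d4_an (an_det 0 (Pi.single 0 1) (Pi.single 1 1) (Pi.single 2 1)) ?_ ?_
  · refine ⟨![EuclideanSpace.single 0 1, EuclideanSpace.single 1 1, EuclideanSpace.single 2 1, 0], ?_⟩
    rw [d4_single, d4_single, d4_single]
    have h : ev ![EuclideanSpace.single 0 1, EuclideanSpace.single 1 1, EuclideanSpace.single 2 1, 0] 0 = 0 := by
      simp [ev]
    rw [h]
    simp [det3]
  · intro P hP
    rw [d4_single, d4_single, d4_single] at hP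
    have h : ev P 0 = 0 := by simp [ev]
    rwa [h] at hP

private theorem d4_ne (a : Fin 4 → ℤ) (ha : a ≠ 0) : ∃ U : Set (Fin 4 → E3), IsOpen U ∧ Dense U ∧
    ∀ P ∈ U, ev P (fun j => (a j : ℝ)) ≠ 0 := by
  refine d4_an (an_dep (fun _ : Fin 1 => (1 : ℝ)) (fun _ => (fun j => (a j : ℝ)))) ?_ ?_
  · refine ⟨fun j => (a j : ℝ) • (EuclideanSpace.single 0 1 : E3), ?_⟩
    have h1 : ev (fun j => (a j : ℝ) • (EuclideanSpace.single 0 1 : E3)) (fun j => (a j : ℝ)) =
        (∑ j, (a j : ℝ) ^ 2) • (EuclideanSpace.single 0 1 : E3) := by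
      unfold ev
      rw [Finset.sum_smul]
      refine Finset.sum_congr rfl fun j _ => ?_
      rw [smul_smul, sq]
    have h2 : 0 < ∑ j, (a j : ℝ) ^ 2 := by
      obtain ⟨j, hj⟩ := Function.ne_iff.mp ha
      refine Finset.sum_pos' (fun i _ => sq_nonneg _) ⟨j, Finset.mem_univ _, ?_⟩
      have : (a j : ℝ) ≠ 0 := by exact_mod_cast hj
      positivity
    simp only [Finset.univ_unique, Finset.sum_singleton, one_mul]
    rw [h1, norm_smul]
    simp
    exact h2.ne'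
  · intro P hP h
    apply hP
    simp [h]

private theorem d4_four (a : Fin 4 → Fin 4 → ℤ) (ha : Function.Injective a) :
    ∃ U : Set (Fin 4 → E3), IsOpen U ∧ Dense U ∧ ∀ P ∈ U, ∀ (o : E3) (ρ : ℝ),
    (∀ i, dist (ev P (fun j => (a i j : ℝ))) o = ρ) →
    det3 (ev P (fun j => (a 0 j : ℝ))) (ev P (fun j => (a 1 j : ℝ)))
      (ev P (fun j => (a 2 j : ℝ))) (ev P (fun j => (a 3 j : ℝ))) ≠ 0 := by
  by_cases h : AffineIndependent ℝ (fun i => fun j => ((a i j : ℤ) : ℝ))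
  · exact d4_an (an_det _ _ _ _) (exists_det _ h) fun P hP o ρ _ => hP
  · obtain ⟨c, hc0, hc1, P₀, hP₀⟩ := exists_dep _ (d4_inj ha) h
    refine d4_an (an_dep c (fun i => fun j => ((a i j : ℤ) : ℝ))) ⟨P₀, hP₀⟩ fun P hP o ρ ho => ?_
    exact absurd (dep_zero hc0 hc1 ho) hP

private theorem d4_five (a : Fin 5 → Fin 4 → ℤ) (ha : Function.Injective a) :
    ∃ U : Set (Fin 4 → E3), IsOpen U ∧ Dense U ∧ ∀ P ∈ U, ∀ (o : E3) (ρ : ℝ),
    ¬ ∀ i, dist (ev P (fun j => (a i j : ℝ))) o = ρ := by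
  by_cases h : AffineIndependent ℝ (fun i => fun j => ((a i j : ℤ) : ℝ))
  · refine d4_an (an_cs _ _ _ _ _) (exists_cs _ h) fun P hP o ρ ho => hP ?_
    exact cs_zero (ho 0) (ho 1) (ho 2) (ho 3) (ho 4)
  · obtain ⟨c, hc0, hc1, P₀, hP₀⟩ := exists_dep _ (d4_inj ha) h
    refine d4_an (an_dep c (fun i => fun j => ((a i j : ℤ) : ℝ))) ⟨P₀, hP₀⟩ fun P hP o ρ ho => ?_
    exact absurd (dep_zero hc0 hc1 ho) hP

/-- the conditions, indexed by a countable set -/
private def d4_C (P : Fin 4 → E3) :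
    Unit ⊕ (Fin 4 → ℤ) ⊕ (Fin 4 → Fin 4 → ℤ) ⊕ (Fin 5 → Fin 4 → ℤ) → Prop
  | .inl _ => det3 0 (P 0) (P 1) (P 2) ≠ 0
  | .inr (.inl a) => a ≠ 0 → ev P (fun j => (a j : ℝ)) ≠ 0
  | .inr (.inr (.inl a)) => Function.Injective a → ∀ (o : E3) (ρ : ℝ),
    (∀ i, dist (ev P (fun j => (a i j : ℝ))) o = ρ) →
    det3 (ev P (fun j => (a 0 j : ℝ))) (ev P (fun j => (a 1 j : ℝ)))
      (ev P (fun j => (a 2 j : ℝ))) (ev P (fun j => (a 3 j : ℝ))) ≠ 0
  | .inr (.inr (.inr a)) => Function.Injective a → ∀ (o : E3) (ρ : ℝ),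
    ¬ ∀ i, dist (ev P (fun j => (a i j : ℝ))) o = ρ

private theorem d4_all (i : Unit ⊕ (Fin 4 → ℤ) ⊕ (Fin 4 → Fin 4 → ℤ) ⊕ (Fin 5 → Fin 4 → ℤ)) :
    ∃ U : Set (Fin 4 → E3), IsOpen U ∧ Dense U ∧ ∀ P ∈ U, d4_C P i := by
  rcases i with _ | a | a | a
  · exact d4_det
  · by_cases ha : a = 0
    · exact ⟨Set.univ, isOpen_univ, dense_univ, fun P _ h => absurd ha h⟩
    · obtain ⟨U, h1, h2, h3⟩ := d4_ne a ha
      exact ⟨U, h1, h2, fun P hP _ => h3 P hP⟩
  · by_cases ha : Function.Injective a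
    · obtain ⟨U, h1, h2, h3⟩ := d4_four a ha
      exact ⟨U, h1, h2, fun P hP _ => h3 P hP⟩
    · exact ⟨Set.univ, isOpen_univ, dense_univ, fun P _ h => absurd h ha⟩
  · by_cases ha : Function.Injective a
    · obtain ⟨U, h1, h2, h3⟩ := d4_five a ha
      exact ⟨U, h1, h2, fun P hP _ => h3 P hP⟩
    · exact ⟨Set.univ, isOpen_univ, dense_univ, fun P _ h => absurd h ha⟩

theorem exists_genP (P₀ : Fin 4 → E3) {δ : ℝ} (hδ : 0 < δ) :
    ∃ P, GenP P ∧ ∀ j, dist (P j) (P₀ j) ≤ δ := by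
  choose U hU1 hU2 hU3 using d4_all
  have hd : Dense (⋂ i, U i) := dense_iInter_of_isOpen hU1 hU2
  obtain ⟨P, hP, hP2⟩ := hd.exists_mem_open Metric.isOpen_ball (Metric.nonempty_ball.mpr hδ : (Metric.ball P₀ δ).Nonempty)
  have hC : ∀ i, d4_C P i := fun i => hU3 i P (Set.mem_iInter.mp hP i)
  refine ⟨P, ⟨hC (.inl ()), fun a => hC (.inr (.inl a)), fun a => hC (.inr (.inr (.inl a))),
    fun a => hC (.inr (.inr (.inr a)))⟩, fun j => ?_⟩
  exact (dist_le_pi_dist P P₀ j).trans (Metric.mem_ball.mp hP2).le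

end TPC
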