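import Pool.Agent.TPC.Defs

/-!
# [TPC-L0] elementary facts on lattices

`mem_Lat`: `Submodule.mem_span_range_iff_exists_fun` (ℤ-linear combinations) and `Int.cast_smul_eq_zsmul ℝ`.
`XX_sub`: x - (u - l) = (x - u) + l. `XX_add`: x + l - u = (x - u) + l. `cov_neg`: for p apply hcov to p + u: x ∈ XX b u with
dist (p+u) x ≤ r; x - u works: if x ∈ Lat b then (x-u) - (-u) = x ∈ Lat b; if x - u ∈ Lat b then x - u ∈ Lat b.
`XX_of_mem`: u ∈ Lat b: XX b u = Lat b. `lin_indep`: dt b ≠ 0 gives linear independence (as in `BccO.affInd_of_det3`, or the explicit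
Cramer combination), so the coefficients are unique.
`dt_of_Lat`: b' i ∈ Lat b: b' i = ∑ j, M i j • b j with integers M i j (`mem_Lat`); det3 0 (b' 0) (b' 1) (b' 2) = det M * dt b where
det M is the integer determinant (write out the 3×3 determinant: unfold det3, substitute, ring). Similarly dt b = det N * dt b'.
So det N * det M = 1 in ℤ (dt b ≠ 0), det M = ±1 (`Int.isUnit_iff` / `Int.eq_one_or_neg_one_of_mul_eq_one`).
-/

set_option autoImplicit false

open MeasureTheory Real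
open scoped InnerProductSpace

namespace TPC

open BccCov BccO

theorem mem_Lat {b : Fin 3 → E3} {x : E3} :
    x ∈ Lat b ↔ ∃ n : Fin 3 → ℤ, x = ∑ i, (n i : ℝ) • b i := by
  rw [Submodule.mem_span_range_iff_exists_fun]
  constructor
  · rintro ⟨c, hc⟩
    refine ⟨c, ?_⟩
    rw [← hc]
    exact Finset.sum_congr rfl fun i _ => (Int.cast_smul_eq_zsmul ℝ (c i) (b i)).symm
  · rintro ⟨n, hn⟩
    refine ⟨n, ?_⟩
    rw [hn]
    exact Finset.sum_congr rfl fun i _ => (Int.cast_smul_eq_zsmul ℝ (n i) (b i)).symm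

theorem l0_zero {b : Fin 3 → E3} (hb : dt b ≠ 0) {d : Fin 3 → ℝ} (h : ∑ i, d i • b i = 0) :
    d = 0 := by
  have hc : ∀ k : Fin 3, d 0 * b 0 k + d 1 * b 1 k + d 2 * b 2 k = 0 := by
    intro k
    have h1 : (∑ i, d i • b i : E3) k = (0 : E3) k := by rw [h]
    rw [Fin.sum_univ_three] at h1
    simpa using h1
  have c0 := hc 0
  have c1 := hc 1
  have c2 := hc 2
  have e0 : dt b * d 0 = 0 := by
    unfold dt det3
    simp only [PiLp.zero_apply, sub_zero]
    linear_combination (b 1 1 * b 2 2 - b 1 2 * b 2 1) * c0 - (b 1 0 * b 2 2 - b 1 2 * b 2 0) * c1 +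
      (b 1 0 * b 2 1 - b 1 1 * b 2 0) * c2
  have e1 : dt b * d 1 = 0 := by
    unfold dt det3
    simp only [PiLp.zero_apply, sub_zero]
    linear_combination (-(b 0 1 * b 2 2 - b 0 2 * b 2 1)) * c0 +
      (b 0 0 * b 2 2 - b 0 2 * b 2 0) * c1 - (b 0 0 * b 2 1 - b 0 1 * b 2 0) * c2
  have e2 : dt b * d 2 = 0 := by
    unfold dt det3
    simp only [PiLp.zero_apply, sub_zero]
    linear_combination (b 0 1 * b 1 2 - b 0 2 * b 1 1) * c0 - (b 0 0 * b 1 2 - b 0 2 * b 1 0) * c1 +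
      (b 0 0 * b 1 1 - b 0 1 * b 1 0) * c2
  funext i
  fin_cases i
  · exact (mul_eq_zero.mp e0).resolve_left hb
  · exact (mul_eq_zero.mp e1).resolve_left hb
  · exact (mul_eq_zero.mp e2).resolve_left hb

theorem lin_indep {b : Fin 3 → E3} (hb : dt b ≠ 0) {n m : Fin 3 → ℝ}
    (h : ∑ i, n i • b i = ∑ i, m i • b i) : n = m := by
  have h1 : ∑ i, (n - m) i • b i = 0 := by
    simp only [Pi.sub_apply, sub_smul, Finset.sum_sub_distrib]
    rw [h, sub_self]
  exact sub_eq_zero.mp (l0_zero hb h1)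

theorem XX_sub {b : Fin 3 → E3} {u l : E3} (hl : l ∈ Lat b) : XX b (u - l) = XX b u := by
  ext x
  unfold XX
  simp only [Set.mem_ofPred_eq]
  refine or_congr Iff.rfl ?_
  have e : x - (u - l) = (x - u) + l := by abel
  rw [e]
  exact (Lat b).add_mem_iff_left hl

theorem XX_add {b : Fin 3 → E3} {u l : E3} (hl : l ∈ Lat b) (x : E3) :
    x ∈ XX b u ↔ x + l ∈ XX b u := by
  unfold XX
  simp only [Set.mem_ofPred_eq]
  have e : x + l - u = (x - u) + l := by abel
  rw [e, (Lat b).add_mem_iff_left hl, (Lat b).add_mem_iff_left hl]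

theorem XX_of_mem {b : Fin 3 → E3} {u : E3} (hu : u ∈ Lat b) : XX b u = (Lat b : Set E3) := by
  ext x
  unfold XX
  simp only [Set.mem_ofPred_eq, SetLike.mem_coe]
  constructor
  · rintro (h | h)
    · exact h
    · have := (Lat b).add_mem h hu
      rwa [sub_add_cancel] at this
  · exact fun h => Or.inl h

theorem cov_neg {b : Fin 3 → E3} {u : E3} {r : ℝ} (hcov : Cov (XX b u) r) :
    Cov (XX b (-u)) r := by
  intro p
  obtain ⟨x, hx, hd⟩ := hcov (p + u)
  refine ⟨x - u, ?_, ?_⟩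
  · rcases hx with hx | hx
    · right
      rw [sub_neg_eq_add, sub_add_cancel]
      exact hx
    · left
      exact hx
  · rw [dist_eq_norm] at hd ⊢
    have e : p - (x - u) = p + u - x := by abel
    rw [e]
    exact hd

theorem l0_det {b b' : Fin 3 → E3} (h : ∀ i, b' i ∈ Lat b) : ∃ m : ℤ, dt b' = m * dt b := by
  choose M hM using fun i => mem_Lat.mp (h i)
  refine ⟨M 0 0 * (M 1 1 * M 2 2 - M 1 2 * M 2 1) - M 0 1 * (M 1 0 * M 2 2 - M 1 2 * M 2 0) +
    M 0 2 * (M 1 0 * M 2 1 - M 1 1 * M 2 0), ?_⟩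
  have hc : ∀ i k : Fin 3, b' i k = M i 0 * b 0 k + M i 1 * b 1 k + M i 2 * b 2 k := by
    intro i k
    rw [hM i, Fin.sum_univ_three]
    simp
  unfold dt det3
  simp only [PiLp.zero_apply, sub_zero, hc]
  push_cast
  ring

theorem dt_of_Lat {b b' : Fin 3 → E3} (hb : dt b ≠ 0) (h : Lat b' = Lat b) :
    |dt b'| = |dt b| := by
  obtain ⟨m, hm⟩ := l0_det (b := b) (b' := b') fun i => by
    rw [← h]
    exact Submodule.subset_span (Set.mem_range_self i)
  obtain ⟨n, hn⟩ := l0_det (b := b') (b' := b) fun i => by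
    rw [h]
    exact Submodule.subset_span (Set.mem_range_self i)
  have h1 : ((n * m : ℤ) : ℝ) = 1 := by
    have h2 : ((n * m : ℤ) : ℝ) * dt b = 1 * dt b := by
      push_cast
      rw [one_mul, mul_assoc, ← hm, ← hn]
    exact mul_right_cancel₀ hb h2
  have h3 : n * m = 1 := by exact_mod_cast h1
  have h4 : m = 1 ∨ m = -1 := Int.isUnit_iff.mp (IsUnit.of_mul_eq_one n (by rw [mul_comm]; exact h3))
  rw [hm, abs_mul]
  rcases h4 with rfl | rfl <;> simp

end TPC
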