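import Pool.Agent.TPC.D4
import Pool.Agent.TPC.L0

/-!
# [TPC-D5] generic unions of two translates of a lattice

b = ![P 0, P 1, P 2], u = P 3. dt b ≠ 0 is h.det. Every x ∈ XX b u is ev P a for an integer label a: x ∈ Lat b: by `mem_Lat`
x = ∑ n i • b i = ev P (n 0, n 1, n 2, 0); x - u ∈ Lat b: x = ev P (n 0, n 1, n 2, 1). If u ∈ Lat b then ev P (n 0, n 1, n 2, -1) = 0
(ev is additive in the label), contradicting h.inj.
Gen2.plane: x, y, z, w distinct with labels a 0, ..., a 3 (as a function Fin 4 → Fin 4 → ℤ): equal labels give equal points, so a is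
injective; apply h.four. Gen2.sphere: if s.card > 4 take a subset with 5 elements (`Finset.exists_subset_card_eq`), enumerate it by Fin 5
(`Finset.equivFin` / `Finset.orderEmbOfFin` is not available, use `(Finset.equivFinOfCardEq h).symm`), choose labels, injective again; h.five.
-/

set_option autoImplicit false

open MeasureTheory Real
open scoped InnerProductSpace

namespace TPC

open BccCov BccO

theorem d5_label {P : Fin 4 → E3} {x : E3} (hx : x ∈ XX ![P 0, P 1, P 2] (P 3)) :
    ∃ a : Fin 4 → ℤ, x = ev P (fun j => (a j : ℝ)) := by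
  rcases hx with hx | hx
  · obtain ⟨n, hn⟩ := mem_Lat.mp hx
    refine ⟨![n 0, n 1, n 2, 0], ?_⟩
    rw [hn]
    unfold ev
    rw [Fin.sum_univ_three, Fin.sum_univ_four]
    simp
  · obtain ⟨n, hn⟩ := mem_Lat.mp hx
    refine ⟨![n 0, n 1, n 2, 1], ?_⟩
    rw [sub_eq_iff_eq_add.mp hn]
    unfold ev
    rw [Fin.sum_univ_three, Fin.sum_univ_four]
    simp

theorem d5_inj {k : ℕ} {P : Fin 4 → E3} {f : Fin k → E3} (hf : Function.Injective f)
    (hX : ∀ i, f i ∈ XX ![P 0, P 1, P 2] (P 3)) :
    ∃ a : Fin k → Fin 4 → ℤ, Function.Injective a ∧ ∀ i, f i = ev P (fun j => (a i j : ℝ)) := by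
  choose a ha using fun i => d5_label (hX i)
  refine ⟨a, fun i j hij => hf ?_, ha⟩
  rw [ha i, ha j, hij]

theorem gen2_of_genP {P : Fin 4 → E3} (h : GenP P) :
    dt ![P 0, P 1, P 2] ≠ 0 ∧ P 3 ∉ Lat ![P 0, P 1, P 2] ∧ Gen2 (XX ![P 0, P 1, P 2] (P 3)) := by
  refine ⟨?_, ?_, ?_⟩
  · unfold dt
    exact h.det
  · intro hu
    obtain ⟨n, hn⟩ := mem_Lat.mp hu
    have h1 : ![n 0, n 1, n 2, -1] ≠ (0 : Fin 4 → ℤ) := by
      intro e
      have := congrFun e 3
      simp at this
    apply h.inj _ h1
    unfold ev
    rw [Fin.sum_univ_three] at hn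
    rw [Fin.sum_univ_four]
    simp at hn ⊢
    rw [hn]
    abel
  · constructor
    · intro o ρ x hx y hy z hz w hw hxy hxz hxw hyz hyw hzw dx dy dz dw
      have hinj : Function.Injective ![x, y, z, w] := by
        intro i j hij
        fin_cases i <;> fin_cases j <;> simp_all
      obtain ⟨a, ha, hf⟩ := d5_inj (P := P) hinj (by
        intro i
        fin_cases i
        · exact hx
        · exact hy
        · exact hz
        · exact hw)
      have h0 := hf 0
      have h1 := hf 1
      have h2 := hf 2
      have h3 := hf 3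
      have h4 := h.four a ha o ρ (by
        intro i
        rw [← hf i]
        fin_cases i
        · exact dx
        · exact dy
        · exact dz
        · exact dw)
      rw [← h0, ← h1, ← h2, ← h3] at h4
      exact h4
    · intro o ρ s hs hd
      by_contra hcard
      have hcard' : 5 ≤ s.card := by omega
      obtain ⟨t, hts, ht⟩ := Finset.exists_subset_card_eq hcard'
      let e : Fin 5 ≃ t := (Finset.equivFinOfCardEq ht).symm
      obtain ⟨a, ha, hf⟩ := d5_inj (P := P) (f := fun i => (e i : E3))
        (Subtype.val_injective.comp e.injective) (fun i => hs _ (hts (e i).2))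
      refine h.five a ha o ρ fun i => ?_
      rw [← hf i]
      exact hd _ (hts (e i).2)

end TPC
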