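import Pool.Agent.MP_bf7174_co.T
import Pool.Agent.MP_bf7174_co.O.D2
import Pool.Agent.MP_bf7174_co.O.H1
import Pool.Agent.MP_bf7174_co.O.Q2
import Pool.Agent.MP_bf7174_co.O.R3

/-!
# [TPC] coverings by two translates of a lattice (MP_bf7174_co): definitions

`BccCov.cc = 16 √5 / 375`, so `5 cc` is the volume of the bcc tetrahedron with circumradius one.
-/

set_option autoImplicit false

open MeasureTheory Real
open scoped InnerProductSpace

namespace TPC

open BccCov BccO

/-- the constant `x_m = 0.31593...` -/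
noncomputable def xm : ℝ := 5 * cc * (1 - π / 5) / (π * (4 / 3 - 2 / √3))

/-- the constant `x_L = 0.26940...` -/
noncomputable def xL : ℝ := 2 / √3 * xm - cc

/-- `δ = x_m - x_L = 0.04652...` -/
noncomputable def de : ℝ := xm - xL

/-- the lattice generated by `b 0, b 1, b 2` -/
abbrev Lat (b : Fin 3 → E3) : Submodule ℤ E3 := Submodule.span ℤ (Set.range b)

/-- determinant of a basis -/
noncomputable def dt (b : Fin 3 → E3) : ℝ := det3 0 (b 0) (b 1) (b 2)

/-- the union of the lattice and its translate by `u` -/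
def XX (b : Fin 3 → E3) (u : E3) : Set E3 := {x | x ∈ Lat b ∨ x - u ∈ Lat b}

/-- the closed balls of radius `r` about the points of `X` cover space -/
def Cov (X : Set E3) (r : ℝ) : Prop := ∀ p : E3, ∃ x ∈ X, dist p x ≤ r

/-- squared area of the parallelogram spanned by `v`, `w` -/
noncomputable def cr2 (v w : E3) : ℝ := ‖v‖ ^ 2 * ‖w‖ ^ 2 - ⟪v, w⟫_ℝ ^ 2

/-- sum of the dihedral angles of the tetrahedron `x y z w` at the four edges joining `{x, y}` to
`{z, w}` -/
noncomputable def MM (x y z w : E3) : ℝ := dih x z y w + dih x w y z + dih y z x w + dih y w x z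

/-- Gaussian integral over the wedge at the first edge -/
noncomputable def JJ (A B C x y z : ℝ) : ℝ :=
  jj A B C x y z + jj A B C (2 * A + 2 * B - x) (2 * A + 2 * C - y) z

/-- the wedge at the edge `b = xz` of the tetrahedron `x y z w`, seen from `x` -/
noncomputable def KW (a b c d e f : ℝ) : ℝ := JJ b a c d f e

/-- the Gaussian function of the squared edges for the sum `MM` -/
noncomputable def MF (a b c d e f : ℝ) : ℝ :=
  (KW a b c d e f + KW a d e b c f + KW a c b e d f + KW a e d c b f +
    KW f b d c e a + KW f c e b d a + KW f d b e c a + KW f e c d b a) / 2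

/-- evaluation of the label `a` at the parameters `P` -/
noncomputable def ev (P : Fin 4 → E3) (a : Fin 4 → ℝ) : E3 := ∑ j, a j • P j

/-- polynomial which vanishes if the five points are cospherical -/
noncomputable def cs (x0 x1 x2 x3 x4 : E3) : ℝ :=
  sd x0 x1 * det3 x0 x2 x3 x4 - sd x0 x2 * det3 x0 x1 x3 x4 + sd x0 x3 * det3 x0 x1 x2 x4
    - sd x0 x4 * det3 x0 x1 x2 x3

/-- weak genericity: no five cospherical points, four cospherical points are not coplanar -/
structure Gen2 (X : Set E3) : Prop where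
  plane : ∀ (o : E3) (ρ : ℝ), ∀ x ∈ X, ∀ y ∈ X, ∀ z ∈ X, ∀ w ∈ X, x ≠ y → x ≠ z → x ≠ w → y ≠ z →
    y ≠ w → z ≠ w → dist x o = ρ → dist y o = ρ → dist z o = ρ → dist w o = ρ → det3 x y z w ≠ 0
  sphere : ∀ (o : E3) (ρ : ℝ) (s : Finset E3), (∀ x ∈ s, x ∈ X) → (∀ x ∈ s, dist x o = ρ) →
    s.card ≤ 4

/-- a superbase (extended basis) of the lattice `Lat b` -/
structure Sup (b : Fin 3 → E3) (v : Fin 4 → E3) : Prop where
  sum : ∑ i, v i = 0
  span : Submodule.span ℤ (Set.range v) = Lat b

end TPC
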