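import Pool.Agent.TPC.Defs

/-!
# [TPC-E1] translation invariance; edges with the same midpoint

`Del_add`: unfold Del: card (image under an injective map), points in X by hv, sphere with centre o + v and the same radius
(`dist_add_right`); a point x' ∈ X outside the image: x' - v ∈ X (hv) and x' - v ∉ t, so ρ < dist (x' - v) o = dist x' (o + v).
`same_mid`: c = midpoint ℝ x y = midpoint ℝ x' y' (from hm). c ∈ convexHull t ∩ convexHull t' (`BccCov.A.mid_mem`), = convexHull (t ∩ t')
(hT.faceToFace). `BccCov.A.vertex_mem` (file A.lean, namespace BccCov.A; its set is t₀ ∩ t): x ∈ t', y ∈ t' (for y use midpoint_comm), and symmetrically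
x' ∈ t, y' ∈ t. So x, y, x', y' ∈ t. Suppose x ≠ x' and x ≠ y'. Then y ≠ x' and y ≠ y' as well (from hm), and x is an affine
combination of the other points: x = x' + y' - y, contradiction to affine independence of t (hT.indep): e.g.
`AffineIndependent.notMem_affineSpan_sdiff` as in the proof of `vertex_mem`: x ∈ affineSpan of t \ {x} since x = y' -ᵥ y +ᵥ x'
(`AffineSubspace.vsub_mem_direction`, `AffineSubspace.vadd_mem_of_mem_direction`).
-/

set_option autoImplicit false

open MeasureTheory Real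
open scoped InnerProductSpace

namespace TPC

open BccCov BccO

open Classical in
theorem Del_add {X : Set E3} {v : E3} (hv : ∀ x, x ∈ X ↔ x + v ∈ X) {t : Finset E3}
    (ht : t ∈ Del X) : t.image (fun x => x + v) ∈ Del X := by
  obtain ⟨h1, h2, o, ρ, h3, h4⟩ := ht
  refine ⟨?_, ?_, o + v, ρ, ?_, ?_⟩
  · rw [Finset.card_image_of_injective _ (add_left_injective v), h1]
  · intro x hx
    obtain ⟨y, hy, rfl⟩ := Finset.mem_image.mp hx
    exact (hv y).mp (h2 y hy)
  · intro x hx
    obtain ⟨y, hy, rfl⟩ := Finset.mem_image.mp hx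
    rw [dist_add_right]
    exact h3 y hy
  · intro x hx hxt
    have h5 : x - v ∈ X := (hv _).mpr (by rwa [sub_add_cancel])
    have h6 : x - v ∉ t := fun h => hxt (Finset.mem_image.mpr ⟨x - v, h, sub_add_cancel x v⟩)
    have h7 := h4 _ h5 h6
    rwa [← dist_add_right (x - v) o v, sub_add_cancel] at h7

/-- two edges with the same midpoint coincide -/
theorem same_mid {X : Set E3} {D : Set (Finset E3)} (hT : IsTriangulation X D)
    {t t' : Finset E3} (ht : t ∈ D) (ht' : t' ∈ D) {x y x' y' : E3} (hx : x ∈ t) (hy : y ∈ t)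
    (hx' : x' ∈ t') (hy' : y' ∈ t') (hxy : x ≠ y) (hxy' : x' ≠ y') (hm : x + y = x' + y') :
    x = x' ∨ x = y' := by
  have hmid : midpoint ℝ x y = midpoint ℝ x' y' := by
    rw [midpoint_eq_smul_add, midpoint_eq_smul_add, hm]
  have hc : midpoint ℝ x y ∈ convexHull ℝ ((t : Set E3) ∩ (t' : Set E3)) := by
    rw [← hT.faceToFace t ht t' ht']
    refine ⟨BccCov.A.mid_mem hx hy, ?_⟩
    rw [hmid]
    exact BccCov.A.mid_mem hx' hy'
  have hx't : x' ∈ t := by
    refine BccCov.A.vertex_mem (hT.indep t' ht') hx' hy' hxy' hmid ?_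
    rw [Set.inter_comm]
    exact hc
  have hy't : y' ∈ t := by
    refine BccCov.A.vertex_mem (hT.indep t' ht') hy' hx' hxy'.symm (hmid.trans (midpoint_comm x' y')) ?_
    rw [Set.inter_comm]
    exact hc
  by_contra hcon
  push Not at hcon
  obtain ⟨hn1, hn2⟩ := hcon
  have h1 := (hT.indep t ht).notMem_affineSpan_sdiff ⟨x, hx⟩ Set.univ
  apply h1
  have h2 : (Subtype.val : {x // x ∈ t} → E3) '' (Set.univ \ {⟨x, hx⟩}) = (t : Set E3) \ {x} := by
    ext z
    constructor
    · rintro ⟨⟨z, hz⟩, hz', rfl⟩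
      refine ⟨hz, ?_⟩
      intro h
      apply hz'.2
      exact Subtype.ext h
    · rintro ⟨hz, hz'⟩
      refine ⟨⟨z, hz⟩, ⟨Set.mem_univ _, ?_⟩, rfl⟩
      intro h
      exact hz' (congrArg Subtype.val h)
  rw [h2]
  have m1 : y ∈ affineSpan ℝ ((t : Set E3) \ {x}) :=
    subset_affineSpan ℝ _ ⟨hy, fun h => hxy (Set.mem_singleton_iff.mp h).symm⟩
  have m2 : x' ∈ affineSpan ℝ ((t : Set E3) \ {x}) :=
    subset_affineSpan ℝ _ ⟨hx't, fun h => hn1 (Set.mem_singleton_iff.mp h).symm⟩
  have m3 : y' ∈ affineSpan ℝ ((t : Set E3) \ {x}) :=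
    subset_affineSpan ℝ _ ⟨hy't, fun h => hn2 (Set.mem_singleton_iff.mp h).symm⟩
  have m4 := AffineSubspace.vadd_mem_of_mem_direction (AffineSubspace.vsub_mem_direction m3 m1) m2
  have m5 : (y' -ᵥ y) +ᵥ x' = x := by
    rw [vsub_eq_sub, vadd_eq_add, sub_add_eq_add_sub, add_comm y' x', ← hm, add_sub_cancel_right]
  rwa [m5] at m4

end TPC
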