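import Pool.Agent.TPC.E1
import Pool.Agent.TPC.L0

/-!
# [TPC-E2] the number of mixed neighbours

`Del_add`, `same_mid`, `mem_Lat`, `XX_add`, `lin_indep` may be used with their sorries. Let N be the set. For y ∈ N: y ∈ t ∈ Del ⊆ XX b u. If
x ∈ Lat b then y ∉ Lat b, so y - u ∈ Lat b; if x ∉ Lat b then y ∈ Lat b. Put e(y) = y - u in the first case, y in the second case;
e(y) = ∑ n i • b i, n = n(y) : Fin 3 → ℤ (chosen by `mem_Lat`), and φ(y) = fun i => (n(y) i : ZMod 2). Claim: φ is injective on N; then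
N.encard ≤ card (Fin 3 → ZMod 2) = 8 (`Set.encard_le_card_of_injOn`, maps to univ).
Proof of the claim: let φ(y₁) = φ(y₂), y₁, y₂ ∈ N: y₂ - y₁ = l + l with l ∈ Lat b (all coefficients of the difference are even). Suppose y₁ ≠ y₂,
so l ≠ 0. Let t₁ ∋ x, y₁ and t₂ ∋ x, y₂. t' = t₂.image (· + (-l)) ∈ Del (XX b u) by `Del_add` (XX_add), it contains x - l and y₂ - l = y₁ + l.
x + y₁ = (x - l) + (y₁ + l). x ≠ y₁ (x ∈ Lat b ↔ y₁ ∉ Lat b) and x - l ≠ y₁ + l (same reason: x - l ∈ Lat b ↔ x ∈ Lat b, y₁ + l ∈ Lat b ↔ y₁ ∈ Lat b). By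
`same_mid` x = x - l (so l = 0, contradiction) or x = y₁ + l (so x ∈ Lat b ↔ y₁ ∈ Lat b, contradiction).
-/

set_option autoImplicit false

open MeasureTheory Real
open scoped InnerProductSpace

namespace TPC

open BccCov BccO

/-- `y` without its translation part -/
private noncomputable def e2_red (b : Fin 3 → E3) (u x y : E3) : E3 :=
  open Classical in if x ∈ Lat b then y - u else y

private theorem e2_key {b : Fin 3 → E3} {u : E3}
    (hT : IsTriangulation (XX b u) (Del (XX b u))) {x y₁ y₂ l : E3}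
    (h1 : x ∈ (Lat b : Set E3) ↔ y₁ ∉ (Lat b : Set E3))
    {t₁ t₂ : Finset E3} (ht1 : t₁ ∈ Del (XX b u)) (hx1 : x ∈ t₁) (hy1 : y₁ ∈ t₁)
    (ht2 : t₂ ∈ Del (XX b u)) (hx2 : x ∈ t₂) (hy2 : y₂ ∈ t₂) (hl : l ∈ Lat b)
    (h : y₂ = y₁ + l + l) : y₁ = y₂ := by
  classical
  have hl' : -l ∈ Lat b := neg_mem hl
  have ht' := Del_add (fun z => XX_add (u := u) hl' z) ht2
  have hmx : x + -l ∈ t₂.image (fun z => z + -l) := Finset.mem_image.mpr ⟨x, hx2, rfl⟩
  have hmy : y₁ + l ∈ t₂.image (fun z => z + -l) :=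
    Finset.mem_image.mpr ⟨y₂, hy2, by rw [h]; abel⟩
  have hxl : x + -l ∈ Lat b ↔ x ∈ Lat b := by
    constructor
    · intro h2
      have := add_mem h2 hl
      rwa [neg_add_cancel_right] at this
    · intro h2
      exact add_mem h2 hl'
  have hyl : y₁ + l ∈ Lat b ↔ y₁ ∈ Lat b := by
    constructor
    · intro h2
      have := add_mem h2 hl'
      rwa [add_neg_cancel_right] at this
    · intro h2
      exact add_mem h2 hl
  have h1' : x ∈ Lat b ↔ ¬ y₁ ∈ Lat b := h1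
  have n1 : x ≠ y₁ := by
    rintro rfl
    exact absurd h1' (by tauto)
  have n2 : x + -l ≠ y₁ + l := by
    intro h3
    have h4 : x + -l ∈ Lat b ↔ y₁ + l ∈ Lat b := by rw [h3]
    rw [hxl, hyl] at h4
    tauto
  rcases same_mid hT ht1 ht' hx1 hy1 hmx hmy n1 n2 (by abel) with h3 | h3
  · have h4 : l = 0 := by
      have : x + 0 = x + -l := by rw [add_zero]; exact h3
      have := add_left_cancel this
      exact neg_eq_zero.mp this.symm
    rw [h, h4, add_zero, add_zero]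
  · exfalso
    have h4 : x ∈ Lat b ↔ y₁ + l ∈ Lat b := by rw [← h3]
    rw [hyl] at h4
    tauto

theorem mixed_deg {b : Fin 3 → E3} {u : E3}
    (hT : IsTriangulation (XX b u) (Del (XX b u))) (x : E3) :
    {y | (x ∈ (Lat b : Set E3) ↔ y ∉ (Lat b : Set E3)) ∧
      ∃ t ∈ Del (XX b u), x ∈ t ∧ y ∈ t}.encard ≤ 8 := by
  classical
  set N : Set E3 := {y | (x ∈ (Lat b : Set E3) ↔ y ∉ (Lat b : Set E3)) ∧
      ∃ t ∈ Del (XX b u), x ∈ t ∧ y ∈ t} with hN
  have hred : ∀ y ∈ N, e2_red b u x y ∈ Lat b := by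
    rintro y ⟨h1, t, ht, hx, hy⟩
    have hyX : y ∈ Lat b ∨ y - u ∈ Lat b := ht.2.1 y hy
    have h1' : x ∈ Lat b ↔ ¬ y ∈ Lat b := h1
    unfold e2_red
    split_ifs with h
    · exact hyX.resolve_left (h1'.mp h)
    · by_contra h2
      exact h (h1'.mpr h2)
  have hex : ∀ y : E3, ∃ n : Fin 3 → ℤ, y ∈ N → e2_red b u x y = ∑ i, (n i : ℝ) • b i := by
    intro y
    by_cases hy : y ∈ N
    · obtain ⟨n, hn⟩ := mem_Lat.mp (hred y hy)
      exact ⟨n, fun _ => hn⟩
    · exact ⟨0, fun h => absurd h hy⟩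
  choose n hn using hex
  have hinj : Set.InjOn (fun y => fun i => ((n y i : ℤ) : ZMod 2)) N := by
    intro y₁ h1 y₂ h2 h12
    have hdiv : ∀ i, ∃ k : ℤ, n y₂ i - n y₁ i = 2 * k := by
      intro i
      have h3 : ((n y₁ i : ℤ) : ZMod 2) = ((n y₂ i : ℤ) : ZMod 2) := congrFun h12 i
      have h4 : (((n y₂ i - n y₁ i : ℤ)) : ZMod 2) = 0 := by
        push_cast
        rw [h3, sub_self]
      have h5 := (ZMod.intCast_zmod_eq_zero_iff_dvd (n y₂ i - n y₁ i) 2).mp h4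
      obtain ⟨k, hk⟩ := h5
      exact ⟨k, by exact_mod_cast hk⟩
    choose k hk using hdiv
    have hsub : e2_red b u x y₂ - e2_red b u x y₁ = y₂ - y₁ := by
      unfold e2_red
      split_ifs
      · abel
      · rfl
    have hl : (∑ i, (k i : ℝ) • b i) ∈ Lat b := mem_Lat.mpr ⟨k, rfl⟩
    have hd : y₂ = y₁ + (∑ i, (k i : ℝ) • b i) + (∑ i, (k i : ℝ) • b i) := by
      have h6 : y₂ - y₁ = (∑ i, (k i : ℝ) • b i) + (∑ i, (k i : ℝ) • b i) := by
        rw [← hsub, hn y₂ h2, hn y₁ h1, ← Finset.sum_sub_distrib, ← Finset.sum_add_distrib]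
        refine Finset.sum_congr rfl fun i _ => ?_
        rw [← sub_smul, ← add_smul]
        congr 1
        have h7 : ((n y₂ i : ℤ) : ℝ) - ((n y₁ i : ℤ) : ℝ) = 2 * ((k i : ℤ) : ℝ) := by
          exact_mod_cast hk i
        rw [h7, two_mul]
      rw [add_assoc, ← h6]
      abel
    obtain ⟨a1, t₁, b1, c1, d1⟩ := h1
    obtain ⟨a2, t₂, b2, c2, d2⟩ := h2
    exact e2_key hT a1 b1 c1 d1 b2 c2 d2 hl hd
  have h8 : (Set.univ : Set (Fin 3 → ZMod 2)).encard = 8 := by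
    rw [Set.encard_univ, ENat.card_eq_coe_fintype_card]
    rfl
  rw [← h8]
  exact Set.encard_le_encard_of_injOn (fun y _ => Set.mem_univ _) hinj

end TPC
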