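import Pool.Agent.TPC.Defs

/-!
# [TPC-F1] triangles in a ball

`cr2_tri`: with v = y - x, w = z - x, p = sd x y, q = sd x z, s = sd y z: ⟪v,w⟫ = (p + q - s)/2 (`inner_sd`), ‖v‖² = p, ‖w‖² = q, so
4 cr2 = 4pq - (p+q-s)² = 2(pq+qs+sp) - (p²+q²+s²) ≤ (p+q+s)²/3. And p + q + s ≤ 9ρ² : with x', y', z' the vectors from o,
p + q + s = 3 (‖x'‖²+‖y'‖²+‖z'‖²) - ‖x'+y'+z'‖² ≤ 9 ρ² (compare the proof of `sum_sd_le` in O/H1.lean). So 4 cr2 ≤ 27 ρ⁴.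
`cr2_pos_of_indep`: cr2 ≥ 0 by Cauchy-Schwarz with equality iff y - x and z - x are linearly dependent; y - x ≠ 0. If cr2 = 0 then
z - x = c (y - x) (`abs_real_inner_div_norm_mul_norm_eq_one_iff` or: for v ≠ 0, ‖w - (⟪v,w⟫/‖v‖²) v‖² = cr2/‖v‖² = 0), so z lies in the affine
span of {x, y} ⊆ t \ {z}, contradiction to `AffineIndependent.notMem_affineSpan_sdiff` (as in BccCov.A.vertex_mem).
-/

set_option autoImplicit false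

open MeasureTheory Real
open scoped InnerProductSpace

namespace TPC

open BccCov BccO

theorem cr2_tri {x y z o : E3} {ρ : ℝ} (hx : dist x o = ρ) (hy : dist y o = ρ)
    (hz : dist z o = ρ) : cr2 (y - x) (z - x) ≤ 27 / 4 * ρ ^ 4 := by

  rw [dist_eq_norm] at hx hy hz
  have e1 : y - x = (y - o) - (x - o) := by abel
  have e2 : z - x = (z - o) - (x - o) := by abel
  unfold cr2
  rw [e1, e2]
  generalize x - o = a at *
  generalize y - o = b at *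
  generalize z - o = c at *
  have h1 : ‖b - a‖ ^ 2 = 2 * ρ ^ 2 - 2 * ⟪b, a⟫_ℝ := by
    rw [norm_sub_sq_real, hx, hy]; ring
  have h2 : ‖c - a‖ ^ 2 = 2 * ρ ^ 2 - 2 * ⟪c, a⟫_ℝ := by
    rw [norm_sub_sq_real, hx, hz]; ring
  have h3 : ‖c - b‖ ^ 2 = 2 * ρ ^ 2 - 2 * ⟪c, b⟫_ℝ := by
    rw [norm_sub_sq_real, hy, hz]; ring
  have h4 : ⟪b - a, c - a⟫_ℝ = ⟪c, b⟫_ℝ - ⟪b, a⟫_ℝ - ⟪c, a⟫_ℝ + ρ ^ 2 := by
    rw [inner_sub_left, inner_sub_right, inner_sub_right, real_inner_self_eq_norm_sq, hx,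
      real_inner_comm c b, real_inner_comm c a]
    ring
  have h5 : ‖a + b + c‖ ^ 2 = 3 * ρ ^ 2 + 2 * (⟪b, a⟫_ℝ + ⟪c, a⟫_ℝ + ⟪c, b⟫_ℝ) := by
    rw [norm_add_sq_real, norm_add_sq_real, hx, hy, hz, inner_add_left, real_inner_comm c a,
      real_inner_comm c b, real_inner_comm b a]
    ring
  have h6 : 0 ≤ ‖a + b + c‖ ^ 2 := sq_nonneg _
  have h7 : 0 ≤ ‖b - a‖ ^ 2 := sq_nonneg _
  have h8 : 0 ≤ ‖c - a‖ ^ 2 := sq_nonneg _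
  have h9 : 0 ≤ ‖c - b‖ ^ 2 := sq_nonneg _
  rw [h5] at h6
  rw [h1] at h7
  rw [h2] at h8
  rw [h3] at h9
  rw [h1, h2, h4]
  have h10 : ρ ^ 4 = (ρ ^ 2) ^ 2 := by ring
  rw [h10]
  generalize ⟪b, a⟫_ℝ = α at *
  generalize ⟪c, a⟫_ℝ = γ at *
  generalize ⟪c, b⟫_ℝ = β at *
  generalize ρ ^ 2 = r at *
  have h11 : 0 ≤ 6 * r - 2 * (α + γ + β) := by linarith
  have h12 : 6 * r - 2 * (α + γ + β) ≤ 9 * r := by linarith
  have h13 : (6 * r - 2 * (α + γ + β)) ^ 2 ≤ (9 * r) ^ 2 := pow_le_pow_left₀ h11 h12 2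
  nlinarith [sq_nonneg (α - β), sq_nonneg (α - γ), sq_nonneg (β - γ)]

theorem cr2_pos_of_indep {t : Finset E3}
    (hi : AffineIndependent ℝ (Subtype.val : {x // x ∈ t} → E3)) {x y z : E3} (hx : x ∈ t)
    (hy : y ∈ t) (hz : z ∈ t) (hxy : x ≠ y) (hxz : x ≠ z) (hyz : y ≠ z) :
    0 < cr2 (y - x) (z - x) := by

  by_contra hcon
  push Not at hcon
  unfold cr2 at hcon
  have hv : y - x ≠ 0 := sub_ne_zero.2 (Ne.symm hxy)
  have hv2 : 0 < ‖y - x‖ ^ 2 := by positivity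
  set v := y - x with hvdef
  set w := z - x with hwdef
  set c := ⟪v, w⟫_ℝ / ‖v‖ ^ 2 with hc
  have h1 : ‖w - c • v‖ ^ 2 ≤ 0 := by
    rw [norm_sub_sq_real, norm_smul, inner_smul_right, mul_pow, Real.norm_eq_abs, sq_abs,
      real_inner_comm v w]
    have h2 : c * ‖v‖ ^ 2 = ⟪v, w⟫_ℝ := by rw [hc]; field_simp
    have h3 : ‖v‖ ^ 2 * (‖w‖ ^ 2 - 2 * (c * ⟪v, w⟫_ℝ) + c ^ 2 * ‖v‖ ^ 2) =
        ‖v‖ ^ 2 * ‖w‖ ^ 2 - 2 * (c * ‖v‖ ^ 2) * ⟪v, w⟫_ℝ + (c * ‖v‖ ^ 2) ^ 2 := by ring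
    rw [h2] at h3
    have h4 : ‖v‖ ^ 2 * (‖w‖ ^ 2 - 2 * (c * ⟪v, w⟫_ℝ) + c ^ 2 * ‖v‖ ^ 2) ≤ 0 := by
      rw [h3]; nlinarith
    by_contra h5
    push Not at h5
    have := mul_pos hv2 h5
    linarith
  have h6 : w = c • v := by
    have h7 : ‖w - c • v‖ ^ 2 = 0 := le_antisymm h1 (sq_nonneg _)
    have h8 : ‖w - c • v‖ = 0 := by simpa using h7
    exact sub_eq_zero.1 (norm_eq_zero.1 h8)
  have h9 : z = AffineMap.lineMap x y c := by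
    rw [AffineMap.lineMap_apply, vsub_eq_sub, vadd_eq_add, ← hvdef, ← h6, hwdef]
    abel
  have h10 := hi.notMem_affineSpan_sdiff ⟨z, hz⟩ Set.univ
  apply h10
  have h11 : (z : E3) ∈ affineSpan ℝ ({x, y} : Set E3) := by
    rw [h9]
    exact AffineMap.lineMap_mem_affineSpan_pair c x y
  refine affineSpan_mono ℝ ?_ h11
  rintro p (rfl | hp)
  · exact ⟨⟨p, hx⟩, ⟨Set.mem_univ _, fun h => hxz (congrArg Subtype.val h)⟩, rfl⟩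
  · rw [Set.mem_singleton_iff] at hp
    subst hp
    exact ⟨⟨p, hy⟩, ⟨Set.mem_univ _, fun h => hyz (congrArg Subtype.val h)⟩, rfl⟩

end TPC
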