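import Pool.Agent.TPC.F1

/-!
# [TPC-F2] no monochromatic triangles

(1) Let x, y, z ∈ t be distinct with y - x, z - x ∈ Lat b. By hI the points lie on a sphere of radius ρ ≤ r, 0 ≤ ρ, so
cr2 (y-x) (z-x) ≤ 27/4 ρ⁴ ≤ 27/4 r⁴ and > 0 (F1), contradicting hno. (2) Let A = t.filter (· ∈ Lat b), B = the rest; A.card + B.card = 4.
If A.card ≥ 3 there are three distinct points of Lat b (differences in Lat b), contradiction to (1); if B.card ≥ 3 there are three distinct points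
not in Lat b, these are in XX b u (hT.vertices), so x - u ∈ Lat b for each, differences in Lat b: contradiction. So both cards are 2;
`Finset.card_eq_two` gives A = {x,y}, B = {z,w}, t = A ∪ B.
-/

set_option autoImplicit false

open MeasureTheory Real
open scoped InnerProductSpace

namespace TPC

open BccCov BccO

theorem f2_tri {b : Fin 3 → E3} {u : E3} {r : ℝ} {D : Set (Finset E3)}
    (hT : IsTriangulation (XX b u) D) (hI : ∀ t ∈ D, Inscribed t r)
    (hno : ∀ v ∈ Lat b, ∀ w ∈ Lat b, cr2 v w = 0 ∨ 27 / 4 * r ^ 4 < cr2 v w)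
    {t : Finset E3} (ht : t ∈ D) {x y z : E3} (hx : x ∈ t) (hy : y ∈ t) (hz : z ∈ t)
    (hxy : x ≠ y) (hxz : x ≠ z) (hyz : y ≠ z) (h1 : y - x ∈ Lat b) (h2 : z - x ∈ Lat b) :
    False := by
  obtain ⟨o, ρ, hρ, hd⟩ := hI t ht
  have hρ0 : 0 ≤ ρ := by rw [← hd x hx]; exact dist_nonneg
  have h3 := cr2_tri (hd x hx) (hd y hy) (hd z hz)
  have h4 := cr2_pos_of_indep (hT.indep t ht) hx hy hz hxy hxz hyz
  have h5 : ρ ^ 4 ≤ r ^ 4 := pow_le_pow_left₀ hρ0 hρ 4
  rcases hno _ h1 _ h2 with h | h <;> linarith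

theorem two_two {b : Fin 3 → E3} {u : E3} {r : ℝ} {D : Set (Finset E3)}
    (hT : IsTriangulation (XX b u) D) (hI : ∀ t ∈ D, Inscribed t r)
    (hno : ∀ v ∈ Lat b, ∀ w ∈ Lat b, cr2 v w = 0 ∨ 27 / 4 * r ^ 4 < cr2 v w)
    (t : Finset E3) (ht : t ∈ D) :
    ∃ x y z w : E3, (t : Set E3) = {x, y, z, w} ∧ x ∈ (Lat b : Set E3) ∧ y ∈ (Lat b : Set E3) ∧
      z ∉ (Lat b : Set E3) ∧ w ∉ (Lat b : Set E3) := by
  classical
  have hc := Finset.card_filter_add_card_filter_not (s := t) (fun x => x ∈ Lat b)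
  rw [hT.card_eq t ht] at hc
  have hA : (t.filter fun x => x ∈ Lat b).card ≤ 2 := by
    by_contra hcon
    obtain ⟨x, hx, y, hy, z, hz, hxy, hxz, hyz⟩ := Finset.two_lt_card.mp (not_le.mp hcon)
    rw [Finset.mem_filter] at hx hy hz
    exact f2_tri hT hI hno ht hx.1 hy.1 hz.1 hxy hxz hyz ((Lat b).sub_mem hy.2 hx.2)
      ((Lat b).sub_mem hz.2 hx.2)
  have hB : (t.filter fun x => ¬ x ∈ Lat b).card ≤ 2 := by
    by_contra hcon
    obtain ⟨x, hx, y, hy, z, hz, hxy, hxz, hyz⟩ := Finset.two_lt_card.mp (not_le.mp hcon)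
    rw [Finset.mem_filter] at hx hy hz
    have hu : ∀ v, v ∈ t ∧ ¬ v ∈ Lat b → v - u ∈ Lat b := by
      rintro v ⟨hv, hv'⟩
      exact (hT.vertices t ht v hv).resolve_left hv'
    refine f2_tri hT hI hno ht hx.1 hy.1 hz.1 hxy hxz hyz ?_ ?_
    · have := (Lat b).sub_mem (hu y hy) (hu x hx)
      rwa [sub_sub_sub_cancel_right] at this
    · have := (Lat b).sub_mem (hu z hz) (hu x hx)
      rwa [sub_sub_sub_cancel_right] at this
  have hA2 : (t.filter fun x => x ∈ Lat b).card = 2 := by omega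
  have hB2 : (t.filter fun x => ¬ x ∈ Lat b).card = 2 := by omega
  obtain ⟨x, y, -, hxy⟩ := Finset.card_eq_two.mp hA2
  obtain ⟨z, w, -, hzw⟩ := Finset.card_eq_two.mp hB2
  have hx : x ∈ t.filter fun x => x ∈ Lat b := by rw [hxy]; simp
  have hy : y ∈ t.filter fun x => x ∈ Lat b := by rw [hxy]; simp
  have hz : z ∈ t.filter fun x => ¬ x ∈ Lat b := by rw [hzw]; simp
  have hw : w ∈ t.filter fun x => ¬ x ∈ Lat b := by rw [hzw]; simp
  refine ⟨x, y, z, w, ?_, (Finset.mem_filter.mp hx).2, (Finset.mem_filter.mp hy).2,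
    (Finset.mem_filter.mp hz).2, (Finset.mem_filter.mp hw).2⟩
  have h1 : t = {x, y} ∪ {z, w} := by
    rw [← hxy, ← hzw, Finset.filter_union_filter_not_eq]
  rw [h1]
  ext v
  simp only [Finset.coe_union, Finset.coe_insert, Finset.coe_singleton, Set.mem_union,
    Set.mem_insert_iff, Set.mem_singleton_iff]
  tauto

end TPC
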