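import Pool.Agent.TPC.L0

/-!
# [TPC-G1] counting lattice points in balls

`mem_Lat`, `lin_indep` may be used. Let L = LL (b 0) (b 1) (b 2) : E3 →ₗ E3, L l = l 0 • b 0 + l 1 • b 1 + l 2 • b 2, det L = dt b
(`BccCov.W2.det_LL` with x = 0 after simp; dt b = det3 0 ..), bijective. Q = {l : E3 | ∀ i, 0 ≤ l i ∧ l i < 1}, volume Q = 1
(EuclideanSpace.volume_preserving_... to Fin 3 → ℝ and `Real.volume_pi_Ico`), F = L '' Q, volume F = ofReal |dt b|
(`MeasureTheory.Measure.addHaar_image_linearMap`), F measurable, F ⊆ closedBall 0 c with c = ‖b 0‖ + ‖b 1‖ + ‖b 2‖.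
(i) every p is p = x + f with x ∈ Lat b, f ∈ F (floors of the coordinates of L⁻¹ p), and (ii) x + F, x' + F are disjoint for x ≠ x' in Lat b.
For v: the same for the points x with x - v ∈ Lat b. Finite: the sets x + F, x in the set A = {x | x - v ∈ Lat b, ‖x‖ ≤ R}, are disjoint, of equal
positive measure |dt b| and contained in closedBall 0 (R + c): for every finite subset T ⊆ A: T.card * |dt b| ≤ 4/3 π (R+c)³, so A is
finite (`Set.finite_of_forall_...`: an infinite set has finite subsets of every cardinality, `Set.Infinite.exists_subset_card_eq`); this also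
gives the upper bound. (For R < 0, A is empty.) Lower bound: closedBall 0 (R - c) ⊆ ⋃_{x ∈ A} (x + F): p = x + f, ‖x‖ ≤ ‖p‖ + c ≤ R. Measure of a
finite union ≤ sum. (Alternatively use ZSpan.fundamentalDomain of Mathlib.)
`NN_XX` (c from the first part, for v = 0 and v = u; take the same c): XX b u = {x ∈ Lat b} ∪ {x | x - u ∈ Lat b}; NN = ncard ≤ sum of the two;
if u ∉ Lat b the two sets are disjoint, so equality; always ≥ the first.
-/

set_option autoImplicit false

open MeasureTheory Real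
open scoped InnerProductSpace

namespace TPC

open BccCov BccO

lemma g1_lin {b : Fin 3 → E3} (hb : dt b ≠ 0) : LinearIndependent ℝ b := by
  rw [Fintype.linearIndependent_iff]
  intro g hg i
  have h := congrFun (lin_indep hb (n := g) (m := fun _ => 0) (by simpa using hg)) i
  exact h

/-- the basis -/
noncomputable def g1_B {b : Fin 3 → E3} (hb : dt b ≠ 0) : Module.Basis (Fin 3) ℝ E3 :=
  basisOfLinearIndependentOfCardEqFinrank (g1_lin hb) (by simp)

lemma g1_B_coe {b : Fin 3 → E3} (hb : dt b ≠ 0) : ⇑(g1_B hb) = b :=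
  coe_basisOfLinearIndependentOfCardEqFinrank _ _

lemma g1_vol {b : Fin 3 → E3} (hb : dt b ≠ 0) :
    volume (ZSpan.fundamentalDomain (g1_B hb)) = ENNReal.ofReal |dt b| := by
  rw [ZSpan.measure_fundamentalDomain (g1_B hb) volume (EuclideanSpace.basisFun (Fin 3) ℝ).toBasis,
    measure_congr (ZSpan.fundamentalDomain_ae_parallelepiped _ volume)]
  have h1 : volume (parallelepiped (EuclideanSpace.basisFun (Fin 3) ℝ).toBasis) = 1 := by
    have h := OrthonormalBasis.volume_parallelepiped (EuclideanSpace.basisFun (Fin 3) ℝ)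
    rw [OrthonormalBasis.coe_toBasis]
    exact h
  rw [h1, mul_one]
  congr 2
  rw [Module.Basis.det_apply, g1_B_coe, Matrix.det_fin_three]
  simp [Module.Basis.toMatrix_apply, dt, det3]
  ring

lemma g1_ball (R : ℝ) (hR : 0 ≤ R) :
    volume (Metric.closedBall (0 : E3) R) = ENNReal.ofReal (4 / 3 * π * R ^ 3) := by
  rw [EuclideanSpace.volume_closedBall_fin_three, ← ENNReal.ofReal_pow hR,
    ← ENNReal.ofReal_mul (by positivity)]
  congr 1
  ring

/-- the translate of the fundamental domain -/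
def g1_G {b : Fin 3 → E3} (hb : dt b ≠ 0) (x : E3) : Set E3 :=
  (fun p => p + (-x)) ⁻¹' (ZSpan.fundamentalDomain (g1_B hb))

lemma g1_G_meas {b : Fin 3 → E3} (hb : dt b ≠ 0) (x : E3) : MeasurableSet (g1_G hb x) :=
  (measurable_add_const (-x)) (ZSpan.fundamentalDomain_measurableSet (g1_B hb))

lemma g1_G_vol {b : Fin 3 → E3} (hb : dt b ≠ 0) (x : E3) :
    volume (g1_G hb x) = ENNReal.ofReal |dt b| := by
  rw [g1_G, measure_preimage_add_right, g1_vol]

lemma g1_G_norm {b : Fin 3 → E3} (hb : dt b ≠ 0) {x p : E3} (hp : p ∈ g1_G hb x) :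
    ‖p - x‖ ≤ ∑ i, ‖b i‖ := by
  have h1 : p - x ∈ ZSpan.fundamentalDomain (g1_B hb) := by
    rw [sub_eq_add_neg]; exact hp
  have h2 := ZSpan.norm_fract_le (g1_B hb) (p - x)
  rw [ZSpan.fract_eq_self.2 h1, g1_B_coe] at h2
  exact h2

lemma g1_uniq {b : Fin 3 → E3} (hb : dt b ≠ 0) {v x y p : E3} (hx : x - v ∈ Lat b)
    (hy : y - v ∈ Lat b) (hpx : p ∈ g1_G hb x) (hpy : p ∈ g1_G hb y) : x = y := by
  have hx' : -(x - v) ∈ Submodule.span ℤ (Set.range (g1_B hb)) := by
    rw [g1_B_coe]; exact neg_mem hx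
  have hy' : -(y - v) ∈ Submodule.span ℤ (Set.range (g1_B hb)) := by
    rw [g1_B_coe]; exact neg_mem hy
  obtain ⟨z, -, hz⟩ := ZSpan.exist_unique_vadd_mem_fundamentalDomain (g1_B hb) (p - v)
  have e1 := hz ⟨_, hx'⟩ (by
    change -(x - v) + (p - v) ∈ _
    have : -(x - v) + (p - v) = p + (-x) := by abel
    rw [this]; exact hpx)
  have e2 := hz ⟨_, hy'⟩ (by
    change -(y - v) + (p - v) ∈ _
    have : -(y - v) + (p - v) = p + (-y) := by abel
    rw [this]; exact hpy)
  have e3 := congrArg Subtype.val (e1.trans e2.symm)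
  simp only at e3
  have e4 : x - v = y - v := neg_injective e3
  exact sub_left_injective e4

lemma g1_exists {b : Fin 3 → E3} (hb : dt b ≠ 0) (v p : E3) :
    ∃ x, x - v ∈ Lat b ∧ p ∈ g1_G hb x := by
  obtain ⟨⟨z, hz0⟩, hz, -⟩ := ZSpan.exist_unique_vadd_mem_fundamentalDomain (g1_B hb) (p - v)
  have h1 : z ∈ Lat b := by
    rw [g1_B_coe] at hz0
    exact hz0
  have hz2 : z + (p - v) ∈ ZSpan.fundamentalDomain (g1_B hb) := hz
  refine ⟨v - z, ?_, ?_⟩
  · have : v - z - v = -z := by abel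
    rw [this]
    exact neg_mem h1
  · rw [g1_G, Set.mem_preimage]
    have : p + -(v - z) = z + (p - v) := by abel
    rw [this]
    exact hz2

lemma g1_card {b : Fin 3 → E3} (hb : dt b ≠ 0) {v : E3} {R : ℝ} (hR : 0 ≤ R) (T : Finset E3)
    (hT : ↑T ⊆ {x | x - v ∈ Lat b} ∩ Metric.closedBall (0 : E3) R) :
    (T.card : ℝ) * |dt b| ≤ 4 / 3 * π * (R + ∑ i, ‖b i‖) ^ 3 := by
  have hc : 0 ≤ ∑ i, ‖b i‖ := Finset.sum_nonneg fun i _ => norm_nonneg _
  have h1 : volume (⋃ x ∈ T, g1_G hb x) = T.card * ENNReal.ofReal |dt b| := by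
    rw [measure_biUnion_finset]
    · simp [g1_G_vol]
    · intro x hx y hy hxy
      rw [Function.onFun, Set.disjoint_left]
      intro p hpx hpy
      exact hxy (g1_uniq hb (hT hx).1 (hT hy).1 hpx hpy)
    · intro x _
      exact g1_G_meas hb x
  have h2 : volume (⋃ x ∈ T, g1_G hb x) ≤ volume (Metric.closedBall (0 : E3) (R + ∑ i, ‖b i‖)) := by
    apply measure_mono
    intro p hp
    simp only [Set.mem_iUnion] at hp
    obtain ⟨x, hx, hpx⟩ := hp
    have h3 := g1_G_norm hb hpx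
    have h4 := (hT hx).2
    rw [mem_closedBall_zero_iff] at h4 ⊢
    have h5 : p = x + (p - x) := by abel
    rw [h5]
    exact (norm_add_le _ _).trans (add_le_add h4 h3)
  rw [h1, g1_ball _ (by positivity)] at h2
  have h3 := ENNReal.toReal_mono ENNReal.ofReal_ne_top h2
  rw [ENNReal.toReal_mul, ENNReal.toReal_natCast, ENNReal.toReal_ofReal (abs_nonneg _),
    ENNReal.toReal_ofReal (by positivity)] at h3
  exact h3

lemma g1_fin {b : Fin 3 → E3} (hb : dt b ≠ 0) (v : E3) (R : ℝ) :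
    ({x | x - v ∈ Lat b} ∩ Metric.closedBall (0 : E3) R).Finite := by
  rcases lt_or_ge R 0 with hR | hR
  · rw [Metric.closedBall_eq_empty.2 hR, Set.inter_empty]
    exact Set.finite_empty
  · by_contra hinf
    obtain ⟨n, hn⟩ := exists_nat_gt (4 / 3 * π * (R + ∑ i, ‖b i‖) ^ 3 / |dt b|)
    obtain ⟨T, hT, hTc⟩ := Set.Infinite.exists_subset_card_eq hinf n
    have h1 := g1_card hb hR T hT
    rw [hTc] at h1
    rw [div_lt_iff₀ (abs_pos.2 hb)] at hn
    linarith

theorem count_bounds {b : Fin 3 → E3} (hb : dt b ≠ 0) : ∃ c : ℝ, 0 ≤ c ∧ ∀ (v : E3) (R : ℝ),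
    ({x | x - v ∈ Lat b} ∩ Metric.closedBall (0 : E3) R).Finite ∧
    (0 ≤ R → (({x | x - v ∈ Lat b} ∩ Metric.closedBall (0 : E3) R).ncard : ℝ) * |dt b| ≤
      4 / 3 * π * (R + c) ^ 3) ∧
    (c ≤ R → 4 / 3 * π * (R - c) ^ 3 ≤
      (({x | x - v ∈ Lat b} ∩ Metric.closedBall (0 : E3) R).ncard : ℝ) * |dt b|) := by
  refine ⟨∑ i, ‖b i‖, Finset.sum_nonneg fun i _ => norm_nonneg _, fun v R =>
    ⟨g1_fin hb v R, fun hR => ?_, fun hR => ?_⟩⟩
  · rw [Set.ncard_eq_toFinset_card _ (g1_fin hb v R)]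
    exact g1_card hb hR _ (by rw [Set.Finite.coe_toFinset])
  · have hf := g1_fin hb v R
    rw [Set.ncard_eq_toFinset_card _ hf]
    have h1 : Metric.closedBall (0 : E3) (R - ∑ i, ‖b i‖) ⊆ ⋃ x ∈ hf.toFinset, g1_G hb x := by
      intro p hp
      obtain ⟨x, hx, hpx⟩ := g1_exists hb v p
      simp only [Set.mem_iUnion]
      refine ⟨x, ?_, hpx⟩
      rw [Set.Finite.mem_toFinset]
      refine ⟨hx, ?_⟩
      have h3 := g1_G_norm hb hpx
      rw [mem_closedBall_zero_iff] at hp ⊢
      have h5 : x = p - (p - x) := by abel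
      rw [h5]
      have h6 := norm_sub_le p (p - x)
      linarith
    have h2 : volume (Metric.closedBall (0 : E3) (R - ∑ i, ‖b i‖)) ≤
        hf.toFinset.card * ENNReal.ofReal |dt b| := by
      refine (measure_mono h1).trans ((measure_biUnion_finset_le _ _).trans ?_)
      simp [g1_G_vol]
    rw [g1_ball _ (by linarith)] at h2
    have h3 := ENNReal.toReal_mono (by
      exact ENNReal.mul_ne_top (ENNReal.natCast_ne_top _) ENNReal.ofReal_ne_top) h2
    have hnn : 0 ≤ R - ∑ i, ‖b i‖ := by linarith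
    rw [ENNReal.toReal_mul, ENNReal.toReal_natCast, ENNReal.toReal_ofReal (abs_nonneg _),
      ENNReal.toReal_ofReal (by positivity)] at h3
    exact h3

end TPC
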