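import Pool.Agent.TPC.G1

/-!
# [TPC-G2] counting points of two translates in balls

`count_bounds` (file G1, with its sorry) for v = 0 and v = u (the same c). {x | x - 0 ∈ Lat b} = Lat b. XX b u ∩ ball is the union of the two sets;
ncard_union_le gives the upper bound 2 * ...; if u ∉ Lat b the two sets are disjoint (x ∈ Lat b and x - u ∈ Lat b give u ∈ Lat b), so
ncard_union_eq; the last part by monotonicity (Set.ncard_le_ncard, finite).
-/

set_option autoImplicit false

open MeasureTheory Real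
open scoped InnerProductSpace

namespace TPC

open BccCov BccO

theorem NN_XX {b : Fin 3 → E3} (hb : dt b ≠ 0) (u : E3) : ∃ c : ℝ, 0 ≤ c ∧ ∀ R : ℝ,
    (XX b u ∩ Metric.closedBall (0 : E3) R).Finite ∧
    (0 ≤ R → NN (XX b u) R * |dt b| ≤ 2 * (4 / 3 * π * (R + c) ^ 3)) ∧
    (u ∉ Lat b → c ≤ R → 2 * (4 / 3 * π * (R - c) ^ 3) ≤ NN (XX b u) R * |dt b|) ∧
    (c ≤ R → 4 / 3 * π * (R - c) ^ 3 ≤ NN (XX b u) R * |dt b|) := by
  obtain ⟨c, hc, h⟩ := count_bounds hb
  refine ⟨c, hc, fun R => ?_⟩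
  obtain ⟨f0, u0, l0⟩ := h 0 R
  obtain ⟨f1, u1, l1⟩ := h u R
  set A : Set E3 := {x | x - 0 ∈ Lat b} ∩ Metric.closedBall (0 : E3) R with hA
  set B : Set E3 := {x | x - u ∈ Lat b} ∩ Metric.closedBall (0 : E3) R with hB
  have hd : 0 ≤ |dt b| := abs_nonneg _
  have hX : XX b u ∩ Metric.closedBall (0 : E3) R = A ∪ B := by
    ext x
    simp only [hA, hB, XX, Set.mem_inter_iff, Set.mem_setOf_eq, Set.mem_union, sub_zero]
    tauto
  have hN : NN (XX b u) R = (A ∪ B).ncard := by
    unfold NN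
    rw [hX]
  have hfin : (A ∪ B).Finite := f0.union f1
  refine ⟨by rw [hX]; exact hfin, fun hR => ?_, fun hu hR => ?_, fun hR => ?_⟩
  · have h1 : ((A ∪ B).ncard : ℝ) ≤ A.ncard + B.ncard := by
      exact_mod_cast Set.ncard_union_le A B
    have h2 := u0 hR
    have h3 := u1 hR
    rw [hN]
    have h4 := mul_le_mul_of_nonneg_right h1 hd
    rw [add_mul] at h4
    linarith
  · have hdis : Disjoint A B := by
      rw [Set.disjoint_left]
      rintro x ⟨hx, _⟩ ⟨hx', _⟩
      apply hu
      have e : u = (x - 0) - (x - u) := by abel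
      rw [e]
      exact Submodule.sub_mem _ hx hx'
    have h1 : ((A ∪ B).ncard : ℝ) = A.ncard + B.ncard := by
      exact_mod_cast Set.ncard_union_eq hdis f0 f1
    have h2 := l0 hR
    have h3 := l1 hR
    rw [hN, h1, add_mul]
    linarith
  · have h1 : (A.ncard : ℝ) ≤ (A ∪ B).ncard := by
      exact_mod_cast Set.ncard_le_ncard Set.subset_union_left hfin
    have h2 := l0 hR
    rw [hN]
    have h4 := mul_le_mul_of_nonneg_right h1 hd
    linarith

end TPC
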