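import Pool.Agent.TPC.L0

/-!
# [TPC-H1] linear perturbations

`exists_lin`: Le : E3 ≃L[ℝ] E3 with Le l = l 0 • b 0 + l 1 • b 1 + l 2 • b 2 (`BccO.exists_equiv` with p = b 0, q = b 1, r = b 2; the determinant is
dt b by `BccCov.W2.det_LL`, x = 0). A = (LL (b' 0) (b' 1) (b' 2)) ∘ Le.symm as a continuous linear map (LinearMap.toContinuousLinearMap). A (b i) = b' i since
Le.symm (b i) is the i-th unit vector. A x - x = ∑_i (Le.symm x) i • (b' i - b i), |(Le.symm x) i| ≤ ‖Le.symm x‖ ≤ ‖Le.symm‖ ‖x‖; so K = 3 ‖Le.symm‖ + 1.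
`cov_lin`: A is injective (‖A x‖ ≥ (1-η)‖x‖), so surjective (finite dimension, `LinearMap.injective_iff_surjective`). p = A p'. Choose x ∈ XX b u with
dist p' x ≤ r. A maps Lat b to Lat b' (mem_Lat). If x ∈ Lat b: A x ∈ Lat b' and ‖A (p' - x)‖ ≤ (1+η) r. If x - u = l ∈ Lat b: x' = u' + A l ∈ XX b' u' and
p - x' = A (p' - x) + (A u - u) + (u - u'), norm ≤ (1+η) r + η ‖u‖ + δ.
-/

set_option autoImplicit false

open MeasureTheory Real
open scoped InnerProductSpace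

namespace TPC

open BccCov BccO

theorem exists_lin {b : Fin 3 → E3} (hb : dt b ≠ 0) : ∃ K : ℝ, 0 < K ∧
    ∀ (δ : ℝ) (b' : Fin 3 → E3), 0 ≤ δ → (∀ i, dist (b' i) (b i) ≤ δ) →
      ∃ A : E3 →L[ℝ] E3, (∀ i, A (b i) = b' i) ∧ ∀ x, ‖A x - x‖ ≤ K * δ * ‖x‖ := by
  have hdet : LinearMap.det (BccCov.W2.LL (b 0) (b 1) (b 2)) ≠ 0 := by
    have h1 := BccCov.W2.det_LL (0 : E3) (b 0) (b 1) (b 2)
    rw [sub_zero, sub_zero, sub_zero] at h1
    rw [h1]
    exact hb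
  obtain ⟨Le, hLe⟩ := exists_equiv hdet
  have hcoord : ∀ (v : E3) (i : Fin 3), |v i| ≤ ‖v‖ := fun v i => by
    have h1 : ‖v‖ ^ 2 = v 0 ^ 2 + v 1 ^ 2 + v 2 ^ 2 := nsq v
    have h2 : |v i| ^ 2 ≤ ‖v‖ ^ 2 := by
      rw [h1, sq_abs]
      fin_cases i <;> simp <;> nlinarith [sq_nonneg (v 0), sq_nonneg (v 1), sq_nonneg (v 2)]
    exact (pow_le_pow_iff_left₀ (abs_nonneg _) (norm_nonneg _) two_ne_zero).1 h2
  have hK := Le.symm.toContinuousLinearMap.le_opNorm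
  set K := ‖Le.symm.toContinuousLinearMap‖ with hKdef
  have hK0 : 0 ≤ K := norm_nonneg _
  refine ⟨3 * K + 1, by positivity, ?_⟩
  intro δ b' hδ hb'
  have hsum : ∀ x : E3, x = (Le.symm x) 0 • b 0 + (Le.symm x) 1 • b 1 + (Le.symm x) 2 • b 2 := fun x => by
    have h1 := hLe (Le.symm x)
    rw [Le.apply_symm_apply] at h1
    exact h1
  let B : E3 →ₗ[ℝ] E3 := (BccCov.W2.LL (b' 0) (b' 1) (b' 2)).comp (Le.symm.toLinearEquiv : E3 →ₗ[ℝ] E3)
  have hB : ∀ x, B x = (Le.symm x) 0 • b' 0 + (Le.symm x) 1 • b' 1 + (Le.symm x) 2 • b' 2 := fun x => rfl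
  refine ⟨LinearMap.toContinuousLinearMap B, ?_, ?_⟩
  · intro i
    rw [LinearMap.coe_toContinuousLinearMap', hB]
    have e : Le.symm (b i) = EuclideanSpace.single i (1 : ℝ) := by
      rw [ContinuousLinearEquiv.symm_apply_eq, hLe]
      show b i = (EuclideanSpace.single i (1 : ℝ)) 0 • b 0 + (EuclideanSpace.single i (1 : ℝ)) 1 • b 1 +
        (EuclideanSpace.single i (1 : ℝ)) 2 • b 2
      fin_cases i <;> simp
    rw [e]
    fin_cases i <;> simp
  · intro x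
    rw [LinearMap.coe_toContinuousLinearMap', hB]
    have e1 : (Le.symm x) 0 • b' 0 + (Le.symm x) 1 • b' 1 + (Le.symm x) 2 • b' 2 - x =
        (Le.symm x) 0 • (b' 0 - b 0) + (Le.symm x) 1 • (b' 1 - b 1) + (Le.symm x) 2 • (b' 2 - b 2) := by
      calc (Le.symm x) 0 • b' 0 + (Le.symm x) 1 • b' 1 + (Le.symm x) 2 • b' 2 - x =
          (Le.symm x) 0 • b' 0 + (Le.symm x) 1 • b' 1 + (Le.symm x) 2 • b' 2 -
            ((Le.symm x) 0 • b 0 + (Le.symm x) 1 • b 1 + (Le.symm x) 2 • b 2) := by rw [← hsum x]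
        _ = _ := by module
    rw [e1]
    have h2 : ‖Le.symm x‖ ≤ K * ‖x‖ := hK x
    have h3 : ∀ i : Fin 3, ‖(Le.symm x) i • (b' i - b i)‖ ≤ K * ‖x‖ * δ := fun i => by
      rw [norm_smul, Real.norm_eq_abs, ← dist_eq_norm]
      exact mul_le_mul ((hcoord _ i).trans h2) (hb' i) dist_nonneg (by positivity)
    refine (norm_add₃_le).trans ?_
    have hx := norm_nonneg x
    nlinarith [h3 0, h3 1, h3 2, mul_nonneg hδ hx]

theorem cov_lin {b b' : Fin 3 → E3} {u u' : E3} {r η δ : ℝ} (hr : 0 ≤ r) (A : E3 →L[ℝ] E3)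
    (hA : ∀ i, A (b i) = b' i) (hη : ∀ x, ‖A x - x‖ ≤ η * ‖x‖) (hη0 : 0 ≤ η) (hη1 : η < 1)
    (hδ : 0 ≤ δ) (hu : dist u' u ≤ δ) (hcov : Cov (XX b u) r) :
    Cov (XX b' u') ((1 + η) * r + η * ‖u‖ + δ) := by
  have hinj : Function.Injective (A : E3 →ₗ[ℝ] E3) := by
    rw [injective_iff_map_eq_zero]
    intro x hx
    have h1 := hη x
    have h2 : A x = 0 := hx
    rw [h2, zero_sub, norm_neg] at h1
    have h3 := norm_nonneg x
    have h4 : ‖x‖ = 0 := by nlinarith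
    exact norm_eq_zero.1 h4
  have hsurj : Function.Surjective (A : E3 →ₗ[ℝ] E3) := LinearMap.injective_iff_surjective.1 hinj
  have hlat : ∀ l ∈ Lat b, A l ∈ Lat b' := fun l hl => by
    obtain ⟨n, rfl⟩ := mem_Lat.1 hl
    rw [mem_Lat]
    refine ⟨n, ?_⟩
    rw [map_sum]
    refine Finset.sum_congr rfl fun i _ => ?_
    rw [map_smul, hA]
  intro p
  obtain ⟨p', hp'⟩ := hsurj p
  have hp'' : A p' = p := hp'
  obtain ⟨x, hx, hd⟩ := hcov p'
  have hn : ∀ z : E3, ‖A z‖ ≤ (1 + η) * ‖z‖ := fun z => by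
    have h1 := hη z
    have h2 : ‖A z‖ ≤ ‖A z - z‖ + ‖z‖ := by
      have := norm_add_le (A z - z) z
      rwa [sub_add_cancel] at this
    linarith
  have hd' : ‖A (p' - x)‖ ≤ (1 + η) * r := by
    refine (hn _).trans ?_
    rw [← dist_eq_norm]
    exact mul_le_mul_of_nonneg_left hd (by linarith)
  rcases hx with hx | hx
  · refine ⟨A x, Or.inl (hlat x hx), ?_⟩
    rw [← hp'', dist_eq_norm, ← map_sub]
    have := mul_nonneg hη0 (norm_nonneg u)
    linarith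
  · refine ⟨u' + A (x - u), Or.inr ?_, ?_⟩
    · rw [add_sub_cancel_left]
      exact hlat _ hx
    · rw [dist_eq_norm]
      have e1 : p - (u' + A (x - u)) = A (p' - x) + (A u - u) + (u - u') := by
        rw [← hp'', map_sub, map_sub]
        abel
      rw [e1]
      refine (norm_add₃_le).trans ?_
      have h1 := hη u
      have h2 : ‖u - u'‖ ≤ δ := by rw [← dist_eq_norm, dist_comm]; exact hu
      linarith

end TPC
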