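import Pool.Agent.TPC.L0

/-!
# [TPC-H2] areas under linear maps

`cr2_nonneg`: Cauchy-Schwarz. `cr2_shift`: cr2 v (w - t v) = cr2 v w (expand: ‖w - tv‖² = ‖w‖² - 2t⟪v,w⟫ + t²‖v‖², ring).
`cr2_lower`: if A v = 0 then v = 0 (h) and both sides are 0. Otherwise t = ⟪A v, A w⟫/‖A v‖²; ⟪A v, A w - t A v⟫ = 0, so
cr2 (A v) (A w) = cr2 (A v) (A (w - t v)) = ‖A v‖² ‖A (w - t v)‖² ≥ m⁴ ‖v‖² ‖w - t v‖² ≥ m⁴ cr2 v (w - t v) = m⁴ cr2 v w.
`cr2_zero`: if v = 0 trivial; otherwise t = ⟪v,w⟫/‖v‖², ‖w - t v‖² ‖v‖² = cr2 v w = 0, so w = t v, A w = t A v, cr2 = 0.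
`lat_map`: every v' ∈ Lat b' is A v with v ∈ Lat b (mem_Lat, linearity).
-/

set_option autoImplicit false

open MeasureTheory Real
open scoped InnerProductSpace

namespace TPC

open BccCov BccO

theorem cr2_nonneg (v w : E3) : 0 ≤ cr2 v w := by
  have h := abs_real_inner_le_norm v w
  have h2 : ⟪v, w⟫_ℝ ^ 2 ≤ (‖v‖ * ‖w‖) ^ 2 := by
    rw [← sq_abs]
    exact pow_le_pow_left₀ (abs_nonneg _) h 2
  unfold cr2
  rw [mul_pow] at h2
  linarith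

theorem h2_shift (v w : E3) (t : ℝ) : cr2 v (w - t • v) = cr2 v w := by
  unfold cr2
  rw [norm_sub_sq_real, inner_sub_right, inner_smul_right, inner_smul_right, norm_smul,
    real_inner_self_eq_norm_sq, mul_pow, Real.norm_eq_abs, sq_abs, real_inner_comm v w]
  ring

theorem h2_le (v w : E3) : cr2 v w ≤ ‖v‖ ^ 2 * ‖w‖ ^ 2 := by
  unfold cr2
  nlinarith [sq_nonneg ⟪v, w⟫_ℝ]

theorem cr2_lower (A : E3 →L[ℝ] E3) {m : ℝ} (hm : 0 < m) (h : ∀ x, m * ‖x‖ ≤ ‖A x‖) (v w : E3) :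
    m ^ 4 * cr2 v w ≤ cr2 (A v) (A w) := by
  by_cases hv : A v = 0
  · have h1 := h v
    rw [hv, norm_zero] at h1
    have h2 : ‖v‖ = 0 := by
      have := norm_nonneg v
      nlinarith
    have h3 : v = 0 := norm_eq_zero.1 h2
    have h4 : cr2 v w = 0 := by
      rw [h3]; unfold cr2; rw [norm_zero, inner_zero_left]; ring
    rw [h4, mul_zero]
    exact cr2_nonneg _ _
  · have hn : 0 < ‖A v‖ := norm_pos_iff.2 hv
    obtain ⟨t, ht⟩ : ∃ t, t = ⟪A v, A w⟫_ℝ / ‖A v‖ ^ 2 := ⟨_, rfl⟩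
    have h0 : ⟪A v, A w - t • A v⟫_ℝ = 0 := by
      rw [inner_sub_right, inner_smul_right, real_inner_self_eq_norm_sq, ht]
      field_simp
      ring
    have h1 : cr2 (A v) (A w) = ‖A v‖ ^ 2 * ‖A (w - t • v)‖ ^ 2 := by
      rw [← h2_shift (A v) (A w) t, cr2, h0, map_sub, map_smul]
      ring
    rw [h1, ← h2_shift v w t]
    have h3 : (m * ‖v‖) ^ 2 ≤ ‖A v‖ ^ 2 := pow_le_pow_left₀ (by positivity) (h v) 2
    have h4 : (m * ‖w - t • v‖) ^ 2 ≤ ‖A (w - t • v)‖ ^ 2 :=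
      pow_le_pow_left₀ (by positivity) (h _) 2
    calc m ^ 4 * cr2 v (w - t • v) ≤ m ^ 4 * (‖v‖ ^ 2 * ‖w - t • v‖ ^ 2) :=
          mul_le_mul_of_nonneg_left (h2_le _ _) (by positivity)
      _ = (m * ‖v‖) ^ 2 * (m * ‖w - t • v‖) ^ 2 := by ring
      _ ≤ _ := mul_le_mul h3 h4 (by positivity) (by positivity)

theorem cr2_zero (A : E3 →L[ℝ] E3) {v w : E3} (h : cr2 v w = 0) : cr2 (A v) (A w) = 0 := by
  by_cases hv : v = 0
  · rw [hv, map_zero]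
    unfold cr2
    rw [norm_zero, inner_zero_left]
    ring
  · have hn : 0 < ‖v‖ := norm_pos_iff.2 hv
    obtain ⟨t, ht⟩ : ∃ t, t = ⟪v, w⟫_ℝ / ‖v‖ ^ 2 := ⟨_, rfl⟩
    have h0 : ⟪v, w - t • v⟫_ℝ = 0 := by
      rw [inner_sub_right, inner_smul_right, real_inner_self_eq_norm_sq, ht]
      field_simp
      ring
    rw [← h2_shift v w t, cr2, h0] at h
    have h1 : ‖w - t • v‖ ^ 2 = 0 := by
      have h2 : ‖v‖ ^ 2 * ‖w - t • v‖ ^ 2 = 0 := by linarith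
      exact (mul_eq_zero.1 h2).resolve_left (by positivity)
    have h2 : w - t • v = 0 := norm_eq_zero.1 (pow_eq_zero_iff (two_ne_zero) |>.1 h1)
    rw [← h2_shift (A v) (A w) t, ← map_smul, ← map_sub, h2, map_zero]
    unfold cr2
    rw [norm_zero, inner_zero_right]
    ring

theorem lat_map {b b' : Fin 3 → E3} (A : E3 →L[ℝ] E3) (hA : ∀ i, A (b i) = b' i) {v' : E3}
    (hv : v' ∈ Lat b') : ∃ v ∈ Lat b, A v = v' := by
  obtain ⟨n, rfl⟩ := mem_Lat.1 hv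
  refine ⟨∑ i, (n i : ℝ) • b i, mem_Lat.2 ⟨n, rfl⟩, ?_⟩
  rw [map_sum]
  refine Finset.sum_congr rfl fun i _ => ?_
  rw [map_smul, hA]

end TPC
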