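import Pool.Agent.TPC.B3
import Pool.Agent.TPC.C1
import Pool.Agent.TPC.E2
import Pool.Agent.TPC.F2
import Pool.Agent.TPC.G2

/-!
# [TPC-H3] generic case

X = XX b u. Finite intersections with balls by `NN_XX`. `Del_tri2` gives hT, hI for D = Del X. `two_two` (F2) gives h22 with S = Lat b, `mixed_deg` (E2) gives hdeg.
`countM`: 4/3 π R³ ≤ 30 cc r³ NN X (R+4r) for R ≥ 0 (`BccCov.T.vol_ball`), and `NN_XX`: NN X (R+4r) * |dt b| ≤ 8/3 π (R+4r+c)³. So for all R > 0: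
|dt b| ≤ 60 cc r³ ((R + 4r + c)/R)³; let R → ∞ (`ge_of_tendsto'` / `le_of_tendsto`).
-/

set_option autoImplicit false

open MeasureTheory Real
open scoped InnerProductSpace

namespace TPC

open BccCov BccO

theorem gen_bound {b : Fin 3 → E3} {u : E3} {r : ℝ} (hr : 0 < r) (hb : dt b ≠ 0)
    (hG : Gen2 (XX b u)) (hcov : Cov (XX b u) r)
    (hno : ∀ v ∈ Lat b, ∀ w ∈ Lat b, cr2 v w = 0 ∨ 27 / 4 * r ^ 4 < cr2 v w) :
    |dt b| ≤ 60 * cc * r ^ 3 := by
  have hpi := Real.pi_pos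
  have hcc : 0 < cc := BccCov.T.cc_pos
  obtain ⟨c, hc, hN⟩ := NN_XX hb u
  obtain ⟨hT, hI⟩ := Del_tri2 hG (fun R => (hN R).1) hcov
  have h22 : ∀ t ∈ Del (XX b u), ∃ x y z w : E3, (t : Set E3) = {x, y, z, w} ∧
      x ∈ (Lat b : Set E3) ∧ y ∈ (Lat b : Set E3) ∧ z ∉ (Lat b : Set E3) ∧
      w ∉ (Lat b : Set E3) := fun t ht => two_two hT hI hno t ht
  have hdeg : ∀ v ∈ XX b u, {y | (v ∈ (Lat b : Set E3) ↔ y ∉ (Lat b : Set E3)) ∧
      ∃ t ∈ Del (XX b u), v ∈ t ∧ y ∈ t}.encard ≤ 8 := fun v _ => mixed_deg hT v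
  have hd : 0 < |dt b| := abs_pos.2 hb
  have key : ∀ R : ℝ, 0 < R → |dt b| ≤ 60 * cc * r ^ 3 * ((R + (4 * r + c)) / R) ^ 3 := by
    intro R hR
    have h1 := countM hr hT hI (fun R => (hN R).1) (Lat b : Set E3) h22 hdeg R
    rw [BccCov.T.vol_ball R hR.le] at h1
    have h2 := (hN (R + 4 * r)).2.1 (by positivity)
    have h3 : 4 / 3 * π * R ^ 3 * |dt b| ≤ 30 * cc * r ^ 3 * (2 * (4 / 3 * π * (R + 4 * r + c) ^ 3)) := by
      calc 4 / 3 * π * R ^ 3 * |dt b| ≤ 30 * cc * r ^ 3 * NN (XX b u) (R + 4 * r) * |dt b| :=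
            mul_le_mul_of_nonneg_right h1 hd.le
        _ = 30 * cc * r ^ 3 * (NN (XX b u) (R + 4 * r) * |dt b|) := by ring
        _ ≤ _ := mul_le_mul_of_nonneg_left h2 (by positivity)
    rw [div_pow, mul_div_assoc', le_div_iff₀ (by positivity)]
    have h4 : 4 / 3 * π * (|dt b| * R ^ 3) ≤
        4 / 3 * π * (60 * cc * r ^ 3 * (R + (4 * r + c)) ^ 3) := by
      rw [← add_assoc]
      linarith
    exact le_of_mul_le_mul_left h4 (by positivity)
  have hlim : Filter.Tendsto (fun R : ℝ => 60 * cc * r ^ 3 * ((R + (4 * r + c)) / R) ^ 3)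
      Filter.atTop (nhds (60 * cc * r ^ 3 * (1 + 0) ^ 3)) := by
    refine Filter.Tendsto.const_mul _ (Filter.Tendsto.pow ?_ 3)
    have h1 : Filter.Tendsto (fun R : ℝ => 1 + (4 * r + c) / R) Filter.atTop (nhds (1 + 0)) :=
      tendsto_const_nhds.add (tendsto_const_nhds.div_atTop Filter.tendsto_id)
    refine h1.congr' ?_
    filter_upwards [Filter.eventually_gt_atTop 0] with R hR
    field_simp
  rw [add_zero, one_pow, mul_one] at hlim
  refine ge_of_tendsto hlim ?_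
  filter_upwards [Filter.eventually_gt_atTop 0] with R hR
  exact key R hR

end TPC
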