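import Pool.Agent.TPC.H1
import Pool.Agent.TPC.H2
import Pool.Agent.TPC.D5

/-!
# [TPC-H4] approximation by generic parameters

K from `exists_lin hb`. For small δ > 0 apply `exists_genP` to P₀ = ![b 0, b 1, b 2, u] and δ: P, b' = ![P 0, P 1, P 2], u' = P 3, `gen2_of_genP`.
A from exists_lin, η = K δ. r' = (1+η) r + η ‖u‖ + δ. As δ → 0: r' → r, dt b' → dt b (dt is continuous in b; choose δ by continuity of
`fun b' => |dt b'|` at b, or write the statement with filters), and (1-η)⁴ * 7.29 r⁴ > 27/4 r'⁴ for small δ (7.29 > 6.75). Cov (XX b' u') r' by `cov_lin`.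
Last condition: v' = A v, w' = A w with v, w ∈ Lat b (`lat_map`). If cr2 v w = 0 then cr2 v' w' = 0 (`cr2_zero`). Otherwise cr2 v w > 7.29 r⁴ and
cr2 v' w' ≥ (1-η)⁴ cr2 v w > 27/4 r'⁴ (`cr2_lower` with m = 1 - η: ‖A x‖ ≥ ‖x‖ - ‖A x - x‖ ≥ (1-η)‖x‖).
-/

set_option autoImplicit false

open MeasureTheory Real
open scoped InnerProductSpace

namespace TPC

open BccCov BccO

theorem approx {b : Fin 3 → E3} {u : E3} {r : ℝ} (hr : 0 < r) (hb : dt b ≠ 0)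
    (hcov : Cov (XX b u) r)
    (hno : ∀ v ∈ Lat b, ∀ w ∈ Lat b, cr2 v w = 0 ∨ 7.29 * r ^ 4 < cr2 v w) {ε : ℝ}
    (hε : 0 < ε) : ∃ (b' : Fin 3 → E3) (u' : E3) (r' : ℝ), 0 < r' ∧ r' ≤ r + ε ∧ dt b' ≠ 0 ∧
      |dt b| ≤ |dt b'| + ε ∧ Gen2 (XX b' u') ∧ Cov (XX b' u') r' ∧
      ∀ v ∈ Lat b', ∀ w ∈ Lat b', cr2 v w = 0 ∨ 27 / 4 * r' ^ 4 < cr2 v w := by
  obtain ⟨K, hK, hlin⟩ := exists_lin hb
  have hcont : Continuous fun b' : Fin 3 → E3 => dt b' := by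
    unfold dt det3
    fun_prop
  obtain ⟨δ₀, hδ₀, hdt⟩ := Metric.continuousAt_iff.1 hcont.continuousAt ε hε
  -- choice of `δ`
  have e1 : ∀ᶠ δ in nhdsWithin (0 : ℝ) (Set.Ioi 0), K * δ < 1 := by
    have h1 : Filter.Tendsto (fun δ : ℝ => K * δ) (nhds 0) (nhds (K * 0)) :=
      (by fun_prop : Continuous fun δ : ℝ => K * δ).tendsto 0
    rw [mul_zero] at h1
    exact (h1.mono_left nhdsWithin_le_nhds).eventually (gt_mem_nhds one_pos)
  have e2 : ∀ᶠ δ in nhdsWithin (0 : ℝ) (Set.Ioi 0),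
      (1 + K * δ) * r + K * δ * ‖u‖ + δ < r + ε := by
    have h1 : Filter.Tendsto (fun δ : ℝ => (1 + K * δ) * r + K * δ * ‖u‖ + δ) (nhds 0)
        (nhds ((1 + K * 0) * r + K * 0 * ‖u‖ + 0)) :=
      (by fun_prop : Continuous fun δ : ℝ => (1 + K * δ) * r + K * δ * ‖u‖ + δ).tendsto 0
    have h2 : (1 + K * 0) * r + K * 0 * ‖u‖ + 0 = r := by ring
    rw [h2] at h1
    exact (h1.mono_left nhdsWithin_le_nhds).eventually (gt_mem_nhds (by linarith))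
  have e3 : ∀ᶠ δ in nhdsWithin (0 : ℝ) (Set.Ioi 0),
      0 < (1 - K * δ) ^ 4 * (7.29 * r ^ 4) - 27 / 4 * ((1 + K * δ) * r + K * δ * ‖u‖ + δ) ^ 4 := by
    have h1 : Filter.Tendsto (fun δ : ℝ => (1 - K * δ) ^ 4 * (7.29 * r ^ 4) -
        27 / 4 * ((1 + K * δ) * r + K * δ * ‖u‖ + δ) ^ 4) (nhds 0)
        (nhds ((1 - K * 0) ^ 4 * (7.29 * r ^ 4) -
        27 / 4 * ((1 + K * 0) * r + K * 0 * ‖u‖ + 0) ^ 4)) :=
      (by fun_prop : Continuous fun δ : ℝ => (1 - K * δ) ^ 4 * (7.29 * r ^ 4) -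
        27 / 4 * ((1 + K * δ) * r + K * δ * ‖u‖ + δ) ^ 4).tendsto 0
    have h2 : (1 - K * 0) ^ 4 * (7.29 * r ^ 4) - 27 / 4 * ((1 + K * 0) * r + K * 0 * ‖u‖ + 0) ^ 4
        = 0.54 * r ^ 4 := by ring
    rw [h2] at h1
    exact (h1.mono_left nhdsWithin_le_nhds).eventually (lt_mem_nhds (by positivity))
  have e4 : ∀ᶠ δ in nhdsWithin (0 : ℝ) (Set.Ioi 0), 0 < δ ∧ δ < δ₀ := Ioo_mem_nhdsGT hδ₀
  obtain ⟨δ, ⟨⟨h1, h2⟩, h3⟩, h4, h5⟩ := (((e1.and e2).and e3).and e4).exists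
  -- generic parameters
  obtain ⟨P, hP, hPd⟩ := exists_genP ![b 0, b 1, b 2, u] h4
  obtain ⟨g1, g2, g3⟩ := gen2_of_genP hP
  set b' : Fin 3 → E3 := ![P 0, P 1, P 2] with hb'
  have hd0 := hPd 0
  have hd1 := hPd 1
  have hd2 := hPd 2
  have hd3 := hPd 3
  simp only [Matrix.cons_val] at hd0 hd1 hd2 hd3
  have hbb : ∀ i, dist (b' i) (b i) ≤ δ := by
    intro i
    fin_cases i
    · exact hd0
    · exact hd1
    · exact hd2
  have hη0 : 0 ≤ K * δ := by positivity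
  obtain ⟨A, hA, hAx⟩ := hlin δ b' h4.le hbb
  have hlow : ∀ x, (1 - K * δ) * ‖x‖ ≤ ‖A x‖ := by
    intro x
    have q1 := hAx x
    have q2 : ‖x‖ ≤ ‖A x‖ + ‖A x - x‖ := by
      have := norm_sub_le (A x) (A x - x)
      rwa [sub_sub_cancel] at this
    linarith
  refine ⟨b', P 3, (1 + K * δ) * r + K * δ * ‖u‖ + δ, by positivity, h2.le, g1, ?_, g3,
    cov_lin hr.le A hA hAx hη0 h1 h4.le hd3 hcov, ?_⟩
  · have q1 : dist b' b < δ₀ := lt_of_le_of_lt ((dist_pi_le_iff h4.le).2 hbb) h5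
    have q2 := hdt q1
    rw [Real.dist_eq] at q2
    have q3 := abs_sub_abs_le_abs_sub (dt b) (dt b')
    rw [abs_sub_comm] at q3
    linarith
  · intro v hv w hw
    obtain ⟨v₀, hv₀, rfl⟩ := lat_map A hA hv
    obtain ⟨w₀, hw₀, rfl⟩ := lat_map A hA hw
    rcases hno v₀ hv₀ w₀ hw₀ with h | h
    · left; exact cr2_zero A h
    · right
      have q1 := cr2_lower A (by linarith : 0 < 1 - K * δ) hlow v₀ w₀
      have q2 : (1 - K * δ) ^ 4 * (7.29 * r ^ 4) < (1 - K * δ) ^ 4 * cr2 v₀ w₀ :=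
        mul_lt_mul_of_pos_left h (pow_pos (by linarith) 4)
      linarith

end TPC
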