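import Pool.Agent.TPC.H3
import Pool.Agent.TPC.H4

/-!
# [TPC-H5] lattices without short parallelograms

For every ε > 0: `approx`, `gen_bound`: |dt b| ≤ 60 cc (r+ε)³ + ε; let ε → 0.
-/

set_option autoImplicit false

open MeasureTheory Real
open scoped InnerProductSpace

namespace TPC

open BccCov BccO

theorem case2 {b : Fin 3 → E3} {u : E3} {r : ℝ} (hr : 0 < r) (hb : dt b ≠ 0)
    (hcov : Cov (XX b u) r)
    (hno : ∀ v ∈ Lat b, ∀ w ∈ Lat b, cr2 v w = 0 ∨ 7.29 * r ^ 4 < cr2 v w) :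
    |dt b| ≤ 60 * cc * r ^ 3 := by
  have hcc : 0 < cc := BccCov.T.cc_pos
  have key : ∀ ε : ℝ, 0 < ε → |dt b| ≤ 60 * cc * (r + ε) ^ 3 + ε := by
    intro ε hε
    obtain ⟨b', u', r', h1, h2, h3, h4, h5, h6, h7⟩ := approx hr hb hcov hno hε
    have h8 := gen_bound h1 h3 h5 h6 h7
    have h9 : r' ^ 3 ≤ (r + ε) ^ 3 := pow_le_pow_left₀ h1.le h2 3
    have h10 : 60 * cc * r' ^ 3 ≤ 60 * cc * (r + ε) ^ 3 :=
      mul_le_mul_of_nonneg_left h9 (by positivity)
    linarith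
  have hlim : Filter.Tendsto (fun ε : ℝ => 60 * cc * (r + ε) ^ 3 + ε) (nhdsWithin 0 (Set.Ioi 0))
      (nhds (60 * cc * (r + 0) ^ 3 + 0)) := by
    have hcont : Continuous fun ε : ℝ => 60 * cc * (r + ε) ^ 3 + ε := by fun_prop
    exact (hcont.tendsto 0).mono_left nhdsWithin_le_nhds
  rw [add_zero, add_zero] at hlim
  refine ge_of_tendsto hlim ?_
  filter_upwards [self_mem_nhdsWithin] with ε hε
  exact key ε hε

end TPC
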