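import Pool.Agent.TPC.G1

/-!
# [TPC-I1] minimal superbases

`exists_min_sup`: v⁰ = ![b 0, b 1, b 2, -(b 0 + b 1 + b 2)] is a superbase (span: both inclusions by Submodule.span_le). Let C = ∑ ‖v⁰ i‖². The set
M = {v | Sup b v ∧ ∑ ‖v i‖² ≤ C} is finite: every v i lies in Lat b (h.span, subset_span) and ‖v i‖ ≤ √C, Lat b ∩ closedBall 0 √C is finite by
`count_bounds` (v = 0; may be used with its sorry), so M ⊆ Set.pi univ of finite sets (`Set.Finite.pi`). M is nonempty, so it has an element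
minimising ∑ ‖v i‖² (`Set.exists_min_image`); it is minimal among all superbases.
-/

set_option autoImplicit false

open MeasureTheory Real
open scoped InnerProductSpace

namespace TPC

open BccCov BccO

theorem i1_sup (b : Fin 3 → E3) : Sup b ![b 0, b 1, b 2, -(b 0 + b 1 + b 2)] := by
  constructor
  · rw [Fin.sum_univ_four]
    simp only [Matrix.cons_val]
    abel
  · apply le_antisymm
    · rw [Submodule.span_le]
      have h : ∀ i, b i ∈ Lat b := fun i => Submodule.subset_span ⟨i, rfl⟩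
      rintro _ ⟨i, rfl⟩
      fin_cases i
      · exact h 0
      · exact h 1
      · exact h 2
      · exact Submodule.neg_mem _ (Submodule.add_mem _ (Submodule.add_mem _ (h 0) (h 1)) (h 2))
    · rw [Submodule.span_le]
      rintro _ ⟨i, rfl⟩
      apply Submodule.subset_span
      fin_cases i
      · exact ⟨0, rfl⟩
      · exact ⟨1, rfl⟩
      · exact ⟨2, rfl⟩

theorem exists_min_sup {b : Fin 3 → E3} (hb : dt b ≠ 0) :
    ∃ v, Sup b v ∧ ∀ v', Sup b v' → ∑ i, ‖v i‖ ^ 2 ≤ ∑ i, ‖v' i‖ ^ 2 := by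
  obtain ⟨v₀, hv₀⟩ : ∃ v₀, v₀ = ![b 0, b 1, b 2, -(b 0 + b 1 + b 2)] := ⟨_, rfl⟩
  have hs₀ : Sup b v₀ := by rw [hv₀]; exact i1_sup b
  obtain ⟨C, hC⟩ : ∃ C, C = ∑ i, ‖v₀ i‖ ^ 2 := ⟨_, rfl⟩
  obtain ⟨c, -, h⟩ := count_bounds hb
  have hfin : ((Lat b : Set E3) ∩ Metric.closedBall (0 : E3) √C).Finite := by
    have h1 := (h 0 √C).1
    have e : {x : E3 | x - 0 ∈ Lat b} = (Lat b : Set E3) := by
      ext x
      rw [Set.mem_ofPred_eq, sub_zero]
      rfl
    rwa [e] at h1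
  set M : Set (Fin 4 → E3) := {v | Sup b v ∧ ∑ i, ‖v i‖ ^ 2 ≤ C} with hM
  have hMfin : M.Finite := by
    refine (Set.Finite.pi' (fun _ : Fin 4 => hfin)).subset ?_
    rintro v ⟨hv, hvC⟩ i
    refine ⟨?_, ?_⟩
    · rw [SetLike.mem_coe, ← hv.span]
      exact Submodule.subset_span ⟨i, rfl⟩
    · rw [mem_closedBall_zero_iff]
      apply Real.le_sqrt_of_sq_le
      refine le_trans ?_ hvC
      exact Finset.single_le_sum (f := fun i => ‖v i‖ ^ 2) (fun j _ => sq_nonneg _)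
        (Finset.mem_univ i)
  obtain ⟨v, ⟨hv, hvC⟩, hmin⟩ := Set.exists_min_image M (fun v => ∑ i, ‖v i‖ ^ 2) hMfin
    ⟨v₀, hs₀, hC.ge⟩
  refine ⟨v, hv, fun v' hv' => ?_⟩
  rcases le_or_gt (∑ i, ‖v' i‖ ^ 2) C with h1 | h1
  · exact hmin v' ⟨hv', h1⟩
  · exact hvC.trans h1.le

end TPC
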