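import Pool.Agent.TPC.L0

/-!
# [TPC-I2] minimal superbases are obtuse; permutations

`sup_perm`: sum over a permutation (`Equiv.sum_comp`), range (v ∘ σ) = range v (`Equiv.range_comp`/`EquivLike.range_comp`).
`sup_Lat`: v 3 = -(v 0 + v 1 + v 2) ∈ span, so span {v 0, v 1, v 2} = span (range v) = Lat b.
`obtuse_of_min`: by `sup_perm` (and the invariance of the sum ∑ ‖v i‖² under permutations) it suffices to treat i = 0, j = 1 (choose a
permutation σ with σ 0 = i, σ 1 = j), or treat general i, j directly. Suppose ⟪v 0, v 1⟫ > 0. Put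
v' = ![-(v 0), v 1, v 2 + v 0, v 3 + v 0]. Sum: -v 0 + v 1 + v 2 + v 3 + 2 v 0 = 0. Span: v 0, v 1, v 2, v 3 are integer combinations of the v' i and
conversely. ∑ ‖v' i‖² = ∑ ‖v i‖² + 2 ‖v 0‖² + 2 ⟪v 0, v 2 + v 3⟫ = ∑ ‖v i‖² - 2 ⟪v 0, v 1⟫ < ∑ ‖v i‖² (v 2 + v 3 = - v 0 - v 1), contradiction.
-/

set_option autoImplicit false

open MeasureTheory Real
open scoped InnerProductSpace

namespace TPC

open BccCov BccO

theorem sup_perm {b : Fin 3 → E3} {v : Fin 4 → E3} (h : Sup b v) (σ : Equiv.Perm (Fin 4)) :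
    Sup b (v ∘ σ) := by
  constructor
  · rw [← h.sum]
    exact Equiv.sum_comp σ v
  · rw [EquivLike.range_comp v σ]
    exact h.span

theorem i2_v3 {b : Fin 3 → E3} {v : Fin 4 → E3} (h : Sup b v) : v 3 = -(v 0 + v 1 + v 2) := by
  have h' := h.sum
  rw [Fin.sum_univ_four] at h'
  rw [eq_neg_iff_add_eq_zero, add_comm]
  exact h'

theorem sup_Lat {b : Fin 3 → E3} {v : Fin 4 → E3} (h : Sup b v) :
    Lat ![v 0, v 1, v 2] = Lat b := by
  rw [← h.span]
  apply le_antisymm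
  · rw [Submodule.span_le]
    rintro _ ⟨i, rfl⟩
    apply Submodule.subset_span
    fin_cases i
    · exact ⟨0, rfl⟩
    · exact ⟨1, rfl⟩
    · exact ⟨2, rfl⟩
  · rw [Submodule.span_le]
    have h0 : v 0 ∈ Lat ![v 0, v 1, v 2] := Submodule.subset_span ⟨0, rfl⟩
    have h1 : v 1 ∈ Lat ![v 0, v 1, v 2] := Submodule.subset_span ⟨1, rfl⟩
    have h2 : v 2 ∈ Lat ![v 0, v 1, v 2] := Submodule.subset_span ⟨2, rfl⟩
    rintro _ ⟨i, rfl⟩
    fin_cases i
    · exact h0
    · exact h1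
    · exact h2
    · show v 3 ∈ Lat ![v 0, v 1, v 2]
      rw [i2_v3 h]
      exact Submodule.neg_mem _ (Submodule.add_mem _ (Submodule.add_mem _ h0 h1) h2)

/-- the case of the first two vectors -/
theorem i2_obt {b : Fin 3 → E3} {v : Fin 4 → E3} (h : Sup b v)
    (hmin : ∀ v', Sup b v' → ∑ i, ‖v i‖ ^ 2 ≤ ∑ i, ‖v' i‖ ^ 2) : ⟪v 0, v 1⟫_ℝ ≤ 0 := by
  have hv3 := i2_v3 h
  obtain ⟨w, hw⟩ : ∃ w : Fin 4 → E3, w = ![-(v 0), v 1, v 2 + v 0, v 3 + v 0] := ⟨_, rfl⟩
  have w0 : w 0 = -(v 0) := by rw [hw]; rfl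
  have w1 : w 1 = v 1 := by rw [hw]; rfl
  have w2 : w 2 = v 2 + v 0 := by rw [hw]; rfl
  have w3 : w 3 = v 3 + v 0 := by rw [hw]; rfl
  have hS : Sup b w := by
    constructor
    · rw [Fin.sum_univ_four, w0, w1, w2, w3, hv3]
      abel
    · rw [← h.span]
      have m0 : ∀ i, v i ∈ Submodule.span ℤ (Set.range v) := fun i => Submodule.subset_span ⟨i, rfl⟩
      have n0 : ∀ i, w i ∈ Submodule.span ℤ (Set.range w) := fun i => Submodule.subset_span ⟨i, rfl⟩
      apply le_antisymm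
      · rw [Submodule.span_le]
        rintro _ ⟨i, rfl⟩
        fin_cases i
        · show w 0 ∈ Submodule.span ℤ (Set.range v)
          rw [w0]; exact Submodule.neg_mem _ (m0 0)
        · show w 1 ∈ Submodule.span ℤ (Set.range v)
          rw [w1]; exact m0 1
        · show w 2 ∈ Submodule.span ℤ (Set.range v)
          rw [w2]; exact Submodule.add_mem _ (m0 2) (m0 0)
        · show w 3 ∈ Submodule.span ℤ (Set.range v)
          rw [w3]; exact Submodule.add_mem _ (m0 3) (m0 0)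
      · rw [Submodule.span_le]
        have k0 : v 0 ∈ Submodule.span ℤ (Set.range w) := by
          have e : v 0 = -(w 0) := by rw [w0, neg_neg]
          rw [e]; exact Submodule.neg_mem _ (n0 0)
        rintro _ ⟨i, rfl⟩
        fin_cases i
        · exact k0
        · show v 1 ∈ Submodule.span ℤ (Set.range w)
          rw [← w1]; exact n0 1
        · show v 2 ∈ Submodule.span ℤ (Set.range w)
          have e : v 2 = w 2 - v 0 := by rw [w2]; abel
          rw [e]; exact Submodule.sub_mem _ (n0 2) k0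
        · show v 3 ∈ Submodule.span ℤ (Set.range w)
          have e : v 3 = w 3 - v 0 := by rw [w3]; abel
          rw [e]; exact Submodule.sub_mem _ (n0 3) k0
  have h1 := hmin w hS
  rw [Fin.sum_univ_four, Fin.sum_univ_four, w0, w1, w2, w3, hv3] at h1
  rw [inner3]
  simp only [nsq, PiLp.add_apply, PiLp.neg_apply] at h1
  nlinarith

theorem obtuse_of_min {b : Fin 3 → E3} {v : Fin 4 → E3} (h : Sup b v)
    (hmin : ∀ v', Sup b v' → ∑ i, ‖v i‖ ^ 2 ≤ ∑ i, ‖v' i‖ ^ 2) {i j : Fin 4} (hij : i ≠ j) :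
    ⟪v i, v j⟫_ℝ ≤ 0 := by
  obtain ⟨σ, h0, h1⟩ : ∃ σ : Equiv.Perm (Fin 4), σ 0 = i ∧ σ 1 = j := by
    revert i j
    decide
  have h2 := i2_obt (sup_perm h σ) (fun v' hv' => by
    have e : ∑ i, ‖(v ∘ σ) i‖ ^ 2 = ∑ i, ‖v i‖ ^ 2 :=
      Equiv.sum_comp σ (fun i => ‖v i‖ ^ 2)
    rw [e]
    exact hmin v' hv')
  simp only [Function.comp, h0, h1] at h2
  exact h2

end TPC
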