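import Pool.Agent.TPC.I2

/-!
# [TPC-I3] the empty balls of an obtuse superbase

Lat ![v 0, v 1, v 2] = Lat b (`sup_Lat`), dt ![v 0, v 1, v 2] ≠ 0 (`dt_of_Lat`), v 3 = -(v 0 + v 1 + v 2). Let p i j = -⟪v i, v j⟫ ≥ 0 (i ≠ j). For
x = n 0 v 0 + n 1 v 1 + n 2 v 2 (real n, put n 3 = 0) Selling's identity: ‖x‖² = ∑_{i<j} p i j (n i - n j)² (use
‖v i‖² = - ∑_{j≠i} ⟪v i, v j⟫ because ∑ v j = 0; for i = 0,1,2 write ⟪v i, v 3⟫ = -⟪v i, v 0⟫ - ⟪v i, v 1⟫ - ⟪v i, v 2⟫, then it is an identity in the six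
inner products of v 0, v 1, v 2). Let ℓ(n) = ∑_{i<j} p i j (n i - n j), linear. As v 0, v 1, v 2 is a basis there is o ∈ E3 with
2 ⟪v i, o⟫ = ℓ(unit vector i) for i = 0,1,2 (the linear map o ↦ (⟪v i, o⟫)_i is injective (orthogonal to a basis means 0), so surjective; or Cramer's rule / `exists_equiv`). Then
‖x - o‖² = ‖o‖² + ∑_{i<j} p i j (n i - n j)(n i - n j - 1). For integers n every summand is ≥ 0 (m (m-1) ≥ 0), so ‖x - o‖ ≥ ‖o‖ for all x ∈ Lat b;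
at n = (0,0,0), (1,0,0), (1,1,0), (1,1,1) all differences n i - n j (i < j) are 0 or 1, so equality. ρ = ‖o‖. Covering: some x ∈ Lat b has
dist o x ≤ r, so ρ ≤ r.
-/

set_option autoImplicit false

open MeasureTheory Real
open scoped InnerProductSpace

namespace TPC

open BccCov BccO

lemma i3_exists_o {a b c : E3} (h : det3 0 a b c ≠ 0) (s t u : ℝ) :
    ∃ o : E3, ⟪a, o⟫_ℝ = s ∧ ⟪b, o⟫_ℝ = t ∧ ⟪c, o⟫_ℝ = u := by
  have hD : det3 0 a b c = a 0 * (b 1 * c 2 - b 2 * c 1) - a 1 * (b 0 * c 2 - b 2 * c 0)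
      + a 2 * (b 0 * c 1 - b 1 * c 0) := by
    simp [det3]
  refine ⟨(1 / det3 0 a b c) • !₂[
      s * (b 1 * c 2 - b 2 * c 1) + t * (c 1 * a 2 - c 2 * a 1) + u * (a 1 * b 2 - a 2 * b 1),
      s * (b 2 * c 0 - b 0 * c 2) + t * (c 2 * a 0 - c 0 * a 2) + u * (a 2 * b 0 - a 0 * b 2),
      s * (b 0 * c 1 - b 1 * c 0) + t * (c 0 * a 1 - c 1 * a 0) + u * (a 0 * b 1 - a 1 * b 0)],
    ?_, ?_, ?_⟩
  · rw [inner_smul_right, one_div, inv_mul_eq_iff_eq_mul₀ h]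
    rw [hD]
    simp [PiLp.inner_apply, Fin.sum_univ_three]
    ring
  · rw [inner_smul_right, one_div, inv_mul_eq_iff_eq_mul₀ h]
    rw [hD]
    simp [PiLp.inner_apply, Fin.sum_univ_three]
    ring
  · rw [inner_smul_right, one_div, inv_mul_eq_iff_eq_mul₀ h]
    rw [hD]
    simp [PiLp.inner_apply, Fin.sum_univ_three]
    ring

lemma i3_int (m : ℤ) : 0 ≤ (m : ℝ) * ((m : ℝ) - 1) := by
  have h : 0 ≤ m * (m - 1) := by
    rcases le_or_gt m 0 with h | h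
    · nlinarith
    · have : 1 ≤ m := h
      nlinarith
  exact_mod_cast h

theorem sup_ball {b : Fin 3 → E3} {v : Fin 4 → E3} {r : ℝ} (hb : dt b ≠ 0) (h : Sup b v)
    (hob : ∀ i j, i ≠ j → ⟪v i, v j⟫_ℝ ≤ 0) (hcov : Cov (Lat b : Set E3) r) :
    ∃ (o : E3) (ρ : ℝ), ρ ≤ r ∧ dist 0 o = ρ ∧ dist (v 0) o = ρ ∧ dist (v 0 + v 1) o = ρ ∧
      dist (v 0 + v 1 + v 2) o = ρ := by
  have hL := sup_Lat h
  have hdt : dt ![v 0, v 1, v 2] ≠ 0 := by
    intro h0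
    have h1 := dt_of_Lat hb hL
    rw [h0, abs_zero] at h1
    exact hb (abs_eq_zero.1 h1.symm)
  have hdet : det3 0 (v 0) (v 1) (v 2) ≠ 0 := by
    simpa [dt] using hdt
  have hv3 : v 3 = -(v 0 + v 1 + v 2) := by
    have h1 := h.sum
    rw [Fin.sum_univ_four] at h1
    exact (neg_eq_of_add_eq_zero_right h1).symm
  obtain ⟨g01, hg01⟩ : ∃ g, g = ⟪v 0, v 1⟫_ℝ := ⟨_, rfl⟩
  obtain ⟨g02, hg02⟩ : ∃ g, g = ⟪v 0, v 2⟫_ℝ := ⟨_, rfl⟩
  obtain ⟨g12, hg12⟩ : ∃ g, g = ⟪v 1, v 2⟫_ℝ := ⟨_, rfl⟩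
  obtain ⟨g00, hg00⟩ : ∃ g, g = ‖v 0‖ ^ 2 := ⟨_, rfl⟩
  obtain ⟨g11, hg11⟩ : ∃ g, g = ‖v 1‖ ^ 2 := ⟨_, rfl⟩
  obtain ⟨g22, hg22⟩ : ∃ g, g = ‖v 2‖ ^ 2 := ⟨_, rfl⟩
  have q01 : g01 ≤ 0 := hg01 ▸ hob 0 1 (by decide)
  have q02 : g02 ≤ 0 := hg02 ▸ hob 0 2 (by decide)
  have q12 : g12 ≤ 0 := hg12 ▸ hob 1 2 (by decide)
  have q03 : 0 ≤ g00 + g01 + g02 := by
    have h1 := hob 0 3 (by decide)
    rw [hv3, inner_neg_right, inner_add_right, inner_add_right, real_inner_self_eq_norm_sq,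
      ← hg01, ← hg02, ← hg00] at h1
    linarith
  have q13 : 0 ≤ g01 + g11 + g12 := by
    have h1 := hob 1 3 (by decide)
    rw [hv3, inner_neg_right, inner_add_right, inner_add_right, real_inner_self_eq_norm_sq,
      real_inner_comm, ← hg01, ← hg12, ← hg11] at h1
    linarith
  have q23 : 0 ≤ g02 + g12 + g22 := by
    have h1 := hob 2 3 (by decide)
    rw [hv3, inner_neg_right, inner_add_right, inner_add_right, real_inner_self_eq_norm_sq,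
      real_inner_comm (v 0) (v 2), real_inner_comm (v 1) (v 2), ← hg02, ← hg12, ← hg22] at h1
    linarith
  -- the centre
  obtain ⟨o, o0, o1, o2⟩ := i3_exists_o hdet
    ((-g01 - g02 + (g00 + g01 + g02)) / 2)
    ((g01 - g12 + (g01 + g11 + g12)) / 2)
    ((g02 + g12 + (g02 + g12 + g22)) / 2)
  have key : ∀ n0 n1 n2 : ℝ, ‖(n0 • v 0 + n1 • v 1 + n2 • v 2) - o‖ ^ 2 = ‖o‖ ^ 2
      + (-g01) * ((n0 - n1) * (n0 - n1 - 1)) + (-g02) * ((n0 - n2) * (n0 - n2 - 1))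
      + (-g12) * ((n1 - n2) * (n1 - n2 - 1)) + (g00 + g01 + g02) * (n0 * (n0 - 1))
      + (g01 + g11 + g12) * (n1 * (n1 - 1)) + (g02 + g12 + g22) * (n2 * (n2 - 1)) := by
    intro n0 n1 n2
    rw [norm_sub_sq_real, ← real_inner_self_eq_norm_sq (n0 • v 0 + n1 • v 1 + n2 • v 2)]
    simp only [inner_add_left, inner_add_right, inner_smul_left, inner_smul_right,
      real_inner_self_eq_norm_sq, RCLike.conj_to_real]
    rw [real_inner_comm (v 0) (v 1), real_inner_comm (v 0) (v 2), real_inner_comm (v 1) (v 2),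
      o0, o1, o2, ← hg01, ← hg02, ← hg12, ← hg00, ← hg11, ← hg22]
    ring
  have hge : ∀ x ∈ (Lat b : Set E3), ‖o‖ ≤ dist o x := by
    intro x hx
    have hx' : x ∈ Lat ![v 0, v 1, v 2] := by rw [hL]; exact hx
    obtain ⟨n, hn⟩ := mem_Lat.1 hx'
    rw [Fin.sum_univ_three] at hn
    simp only [Matrix.cons_val_zero, Matrix.cons_val_one, Matrix.cons_val] at hn
    have h1 := key (n 0) (n 1) (n 2)
    rw [← hn] at h1
    have k01 := mul_nonneg (neg_nonneg.2 q01) (i3_int (n 0 - n 1))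
    have k02 := mul_nonneg (neg_nonneg.2 q02) (i3_int (n 0 - n 2))
    have k12 := mul_nonneg (neg_nonneg.2 q12) (i3_int (n 1 - n 2))
    have k03 := mul_nonneg q03 (i3_int (n 0))
    have k13 := mul_nonneg q13 (i3_int (n 1))
    have k23 := mul_nonneg q23 (i3_int (n 2))
    push_cast at k01 k02 k12
    rw [dist_comm, dist_eq_norm]
    refine (sq_le_sq₀ (norm_nonneg _) (norm_nonneg _)).1 ?_
    rw [h1]
    linarith
  have e0 := key 0 0 0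
  have e1 := key 1 0 0
  have e2 := key 1 1 0
  have e3 := key 1 1 1
  refine ⟨o, ‖o‖, ?_, ?_, ?_, ?_, ?_⟩
  · obtain ⟨x, hx, hxr⟩ := hcov o
    exact (hge x hx).trans hxr
  · rw [dist_eq_norm, zero_sub, norm_neg]
  · rw [dist_eq_norm]
    have h1 : ‖v 0 - o‖ ^ 2 = ‖o‖ ^ 2 := by
      simp only [one_smul, zero_smul, add_zero] at e1
      rw [e1]; ring
    exact (pow_left_inj₀ (norm_nonneg _) (norm_nonneg _) two_ne_zero).1 h1
  · rw [dist_eq_norm]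
    have h1 : ‖v 0 + v 1 - o‖ ^ 2 = ‖o‖ ^ 2 := by
      simp only [one_smul, zero_smul, add_zero] at e2
      rw [e2]; ring
    exact (pow_left_inj₀ (norm_nonneg _) (norm_nonneg _) two_ne_zero).1 h1
  · rw [dist_eq_norm]
    have h1 : ‖v 0 + v 1 + v 2 - o‖ ^ 2 = ‖o‖ ^ 2 := by
      simp only [one_smul] at e3
      rw [e3]; ring
    exact (pow_left_inj₀ (norm_nonneg _) (norm_nonneg _) two_ne_zero).1 h1

end TPC
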