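import Pool.Agent.TPC.I3

/-!
# [TPC-I4] sum of the squares of a superbase; Hadamard

`sup_sum`: `sup_ball` for v, and for v ∘ σ (`sup_perm`) with σ = swap 1 2 and σ = swap 0 1 (hob for v ∘ σ: σ injective). `sum_sd_le` (O/H1.lean, R = r)
for the points 0, v 0, v 0 + v 1, v 0 + v 1 + v 2: the six squared distances are ‖v 0‖², ‖v 0 + v 1‖², ‖v 0+v 1+v 2‖² = ‖v 3‖², ‖v 1‖², ‖v 1 + v 2‖², ‖v 2‖², so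
S + ‖v 0+v 1‖² + ‖v 1+v 2‖² ≤ 16 r², S = ∑ ‖v i‖²; similarly S + ‖v 0+v 2‖² + ‖v 2+v 1‖² ≤ 16 r², S + ‖v 1+v 0‖² + ‖v 0+v 2‖² ≤ 16 r². Identity
‖v 0+v 1‖² + ‖v 1+v 2‖² + ‖v 0+v 2‖² = ‖v 0‖²+‖v 1‖²+‖v 2‖²+‖v 0+v 1+v 2‖² = S. Sum: 3 S + 2 S ≤ 48 r².
`hadamard`: dt ![a,b,c]² ≤ ‖a‖²‖b‖²‖c‖²: with coordinates, dt = det3 0 a b c = ⟪a, b × c⟫, Cauchy-Schwarz twice: dt² ≤ ‖a‖² ‖b×c‖² and
‖b×c‖² = ‖b‖²‖c‖² - ⟪b,c⟫² (Lagrange identity, ring in coordinates with `nsq`).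
-/

set_option autoImplicit false

open MeasureTheory Real
open scoped InnerProductSpace

namespace TPC

open BccCov BccO

theorem hadamard (a b c : E3) : dt ![a, b, c] ^ 2 ≤ ‖a‖ ^ 2 * ‖b‖ ^ 2 * ‖c‖ ^ 2 := by
  obtain ⟨m, hm⟩ : ∃ m, m = nrmv 0 b c := ⟨_, rfl⟩
  have h1 : ⟪m, a⟫_ℝ = dt ![a, b, c] := by
    rw [hm]
    have h := nrmv_det 0 b c a
    rw [sub_zero] at h
    rw [h]
    unfold dt det3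
    simp only [Matrix.cons_val, PiLp.zero_apply]
    ring
  have h2 : ‖m‖ ^ 2 ≤ ‖b‖ ^ 2 * ‖c‖ ^ 2 := by
    have h3 : ‖m‖ ^ 2 = ‖b‖ ^ 2 * ‖c‖ ^ 2 - ⟪b, c⟫_ℝ ^ 2 := by
      rw [hm, nsq, nsq, nsq, inner3]
      simp only [nrmv, PiLp.zero_apply, sub_zero]
      simp
      ring
    rw [h3]
    nlinarith [sq_nonneg ⟪b, c⟫_ℝ]
  have h4 : ⟪m, a⟫_ℝ ^ 2 ≤ ‖m‖ ^ 2 * ‖a‖ ^ 2 := by
    rw [← sq_abs, ← mul_pow]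
    exact pow_le_pow_left₀ (abs_nonneg _) (abs_real_inner_le_norm m a) 2
  rw [← h1]
  calc ⟪m, a⟫_ℝ ^ 2 ≤ ‖m‖ ^ 2 * ‖a‖ ^ 2 := h4
    _ ≤ (‖b‖ ^ 2 * ‖c‖ ^ 2) * ‖a‖ ^ 2 := mul_le_mul_of_nonneg_right h2 (sq_nonneg _)
    _ = _ := by ring

/-- one path -/
theorem i4_path {b : Fin 3 → E3} {v : Fin 4 → E3} {r : ℝ} (hb : dt b ≠ 0)
    (h : Sup b v) (hob : ∀ i j, i ≠ j → ⟪v i, v j⟫_ℝ ≤ 0) (hcov : Cov (Lat b : Set E3) r) :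
    ‖v 0‖ ^ 2 + ‖v 0 + v 1‖ ^ 2 + ‖v 0 + v 1 + v 2‖ ^ 2 + ‖v 1‖ ^ 2 + ‖v 1 + v 2‖ ^ 2 + ‖v 2‖ ^ 2
      ≤ 16 * r ^ 2 := by
  obtain ⟨o, ρ, h0, h1, h2, h3, h4⟩ := sup_ball hb h hob hcov
  have h5 := sum_sd_le h1 h2 h3 h4 h0
  have e : ∀ x y : E3, sd x y = ‖y - x‖ ^ 2 := by
    intro x y
    rw [sd, dist_comm, dist_eq_norm]
  simp only [e] at h5
  have e1 : v 0 - 0 = v 0 := sub_zero _
  have e2 : v 0 + v 1 - 0 = v 0 + v 1 := sub_zero _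
  have e3 : v 0 + v 1 + v 2 - 0 = v 0 + v 1 + v 2 := sub_zero _
  have e4 : v 0 + v 1 - v 0 = v 1 := by abel
  have e5 : v 0 + v 1 + v 2 - v 0 = v 1 + v 2 := by abel
  have e6 : v 0 + v 1 + v 2 - (v 0 + v 1) = v 2 := by abel
  rw [e1, e2, e3, e4, e5, e6] at h5
  exact h5

theorem sup_sum {b : Fin 3 → E3} {v : Fin 4 → E3} {r : ℝ} (hb : dt b ≠ 0)
    (h : Sup b v) (hob : ∀ i j, i ≠ j → ⟪v i, v j⟫_ℝ ≤ 0) (hcov : Cov (Lat b : Set E3) r) :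
    5 * ∑ i, ‖v i‖ ^ 2 ≤ 48 * r ^ 2 := by
  have hobs : ∀ σ : Equiv.Perm (Fin 4), ∀ i j, i ≠ j → ⟪(v ∘ σ) i, (v ∘ σ) j⟫_ℝ ≤ 0 := by
    intro σ i j hij
    exact hob _ _ fun h => hij (σ.injective h)
  have p1 := i4_path hb h hob hcov
  have p2 := i4_path hb (sup_perm h (Equiv.swap 1 2)) (hobs _) hcov
  have p3 := i4_path hb (sup_perm h (Equiv.swap 0 1)) (hobs _) hcov
  have s1 : ∀ i : Fin 4, (v ∘ (Equiv.swap (1 : Fin 4) 2)) i = v (Equiv.swap (1 : Fin 4) 2 i) :=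
    fun i => rfl
  have s2 : ∀ i : Fin 4, (v ∘ (Equiv.swap (0 : Fin 4) 1)) i = v (Equiv.swap (0 : Fin 4) 1 i) :=
    fun i => rfl
  have a0 : Equiv.swap (1 : Fin 4) 2 0 = 0 := by decide
  have a1 : Equiv.swap (1 : Fin 4) 2 1 = 2 := by decide
  have a2 : Equiv.swap (1 : Fin 4) 2 2 = 1 := by decide
  have c0 : Equiv.swap (0 : Fin 4) 1 0 = 1 := by decide
  have c1 : Equiv.swap (0 : Fin 4) 1 1 = 0 := by decide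
  have c2 : Equiv.swap (0 : Fin 4) 1 2 = 2 := by decide
  rw [s1, s1, s1, a0, a1, a2] at p2
  rw [s2, s2, s2, c0, c1, c2] at p3
  have hv3 : v 3 = -(v 0 + v 1 + v 2) := by
    have h' := h.sum
    rw [Fin.sum_univ_four] at h'
    rw [eq_neg_iff_add_eq_zero, add_comm]
    exact h'
  have n3 : ‖v 3‖ ^ 2 = ‖v 0 + v 1 + v 2‖ ^ 2 := by rw [hv3, norm_neg]
  have n4 : ‖v 0 + v 2 + v 1‖ ^ 2 = ‖v 0 + v 1 + v 2‖ ^ 2 := by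
    congr 2; abel
  have n5 : ‖v 1 + v 0 + v 2‖ ^ 2 = ‖v 0 + v 1 + v 2‖ ^ 2 := by
    congr 2; abel
  have n6 : ‖v 2 + v 1‖ ^ 2 = ‖v 1 + v 2‖ ^ 2 := by rw [add_comm]
  have n7 : ‖v 1 + v 0‖ ^ 2 = ‖v 0 + v 1‖ ^ 2 := by rw [add_comm]
  have h3 : ‖v 1 + v 2‖ ^ 2 + ‖v 0 + v 2‖ ^ 2 + ‖v 0 + v 1‖ ^ 2 =
      ‖v 0‖ ^ 2 + ‖v 1‖ ^ 2 + ‖v 2‖ ^ 2 + ‖v 0 + v 1 + v 2‖ ^ 2 := by
    simp only [nsq, PiLp.add_apply]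
    ring
  rw [n4, n6] at p2
  rw [n5, n7] at p3
  rw [Fin.sum_univ_four, n3]
  linarith

end TPC
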