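import Pool.Agent.TPC.I1
import Pool.Agent.TPC.I4

/-!
# [TPC-I5] Bambah theorem for lattice coverings

v from `exists_min_sup`, obtuse by `obtuse_of_min`, S = ∑ ‖v i‖² ≤ 48 r²/5 by `sup_sum`. |dt b| = |dt ![v 0,v 1,v 2]| (`sup_Lat`, `dt_of_Lat`).
dt ![v 1 + v 2, v 0 + v 2, v 0 + v 1] = 2 dt ![v 0, v 1, v 2] (unfold, ring). By `hadamard` 4 dt² ≤ A B C with A = ‖v 1+v 2‖², B = ‖v 0+v 2‖²,
C = ‖v 0+v 1‖², A + B + C = S (identity as in I4, v 3 = -(v 0+v 1+v 2)), so A B C ≤ (S/3)³ ≤ (16 r²/5)³ (AM-GM for three nonnegative numbers: nlinarith or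
`Real.inner_le_nnorm_mul_nnorm`-free: 27 ABC ≤ (A+B+C)³). So dt² ≤ (16/5)³/4 r⁶ = 8.192 r⁶ = (30 cc r³)², as (30 cc)² = (1.28 √5)² = 8.192. Take roots
(`abs_le_of_sq_le_sq'`, `abs_le_abs`, r ≥ 0).
-/

set_option autoImplicit false

open MeasureTheory Real
open scoped InnerProductSpace

namespace TPC

open BccCov BccO

theorem i5_amgm {A B C S : ℝ} (hA : 0 ≤ A) (hB : 0 ≤ B) (hC : 0 ≤ C) (h : A + B + C = S) :
    A * B * C ≤ (S / 3) ^ 3 := by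
  subst h
  have h1 : 0 ≤ (A + B + C) * ((A - B) ^ 2 + (B - C) ^ 2 + (C - A) ^ 2) := by positivity
  have h2 : 0 ≤ A * (B - C) ^ 2 + B * (C - A) ^ 2 + C * (A - B) ^ 2 := by positivity
  nlinarith

theorem bambah {b : Fin 3 → E3} {r : ℝ} (hr : 0 ≤ r) (hb : dt b ≠ 0)
    (hcov : Cov (Lat b : Set E3) r) : |dt b| ≤ 30 * cc * r ^ 3 := by
  have hcc : 0 < cc := BccCov.T.cc_pos
  obtain ⟨v, hv, hmin⟩ := exists_min_sup hb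
  have hob : ∀ i j, i ≠ j → ⟪v i, v j⟫_ℝ ≤ 0 := fun i j hij => obtuse_of_min hv hmin hij
  have hS := sup_sum hb hv hob hcov
  have hd := dt_of_Lat hb (sup_Lat hv)
  rw [← hd]
  have hv3 : v 3 = -(v 0 + v 1 + v 2) := by
    have h := hv.sum
    rw [Fin.sum_univ_four] at h
    rw [eq_neg_iff_add_eq_zero, add_comm]
    exact h
  rw [Fin.sum_univ_four] at hS
  have h1 := hadamard (v 1 + v 2) (v 0 + v 2) (v 0 + v 1)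
  have h2 : dt ![v 1 + v 2, v 0 + v 2, v 0 + v 1] = 2 * dt ![v 0, v 1, v 2] := by
    unfold dt det3
    simp only [Matrix.cons_val, PiLp.add_apply, PiLp.zero_apply]
    ring
  have h3 : ‖v 1 + v 2‖ ^ 2 + ‖v 0 + v 2‖ ^ 2 + ‖v 0 + v 1‖ ^ 2 =
      ‖v 0‖ ^ 2 + ‖v 1‖ ^ 2 + ‖v 2‖ ^ 2 + ‖v 3‖ ^ 2 := by
    rw [hv3]
    simp only [nsq, PiLp.add_apply, PiLp.neg_apply]
    ring
  have h4 := i5_amgm (sq_nonneg ‖v 1 + v 2‖) (sq_nonneg ‖v 0 + v 2‖) (sq_nonneg ‖v 0 + v 1‖) h3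
  rw [h2] at h1
  have h5 : (‖v 0‖ ^ 2 + ‖v 1‖ ^ 2 + ‖v 2‖ ^ 2 + ‖v 3‖ ^ 2) / 3 ≤ 16 / 5 * r ^ 2 := by linarith
  have h6 : ((‖v 0‖ ^ 2 + ‖v 1‖ ^ 2 + ‖v 2‖ ^ 2 + ‖v 3‖ ^ 2) / 3) ^ 3 ≤ (16 / 5 * r ^ 2) ^ 3 :=
    pow_le_pow_left₀ (by positivity) h5 3
  have h7 : dt ![v 0, v 1, v 2] ^ 2 ≤ (30 * cc * r ^ 3) ^ 2 := by
    have e1 : (30 * cc * r ^ 3) ^ 2 = 8.192 * r ^ 6 := by
      have h50 : √5 ^ 2 = (5 : ℝ) := Real.sq_sqrt (by norm_num)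
      unfold cc
      calc (30 * (16 * √5 / 375) * r ^ 3) ^ 2 = (480 / 375) ^ 2 * √5 ^ 2 * r ^ 6 := by ring
        _ = _ := by rw [h50]; norm_num
    have e2 : (16 / 5 * r ^ 2) ^ 3 = 32.768 * r ^ 6 := by ring
    rw [e1]
    rw [e2] at h6
    nlinarith
  exact abs_le_of_sq_le_sq h7 (by positivity)

end TPC
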