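import Pool.Agent.TPC.L0

/-!
# [TPC-J1] a basis which contains a basis of a plane section

Let L = Lat b, a free ℤ-module with the basis b (linearly independent over ℤ since dt b ≠ 0, `lin_indep`). N = the submodule of L spanned by v, w.
Smith normal form: `Submodule.smithNormalForm` (or `Submodule.exists_smith_normal_form...`, structure `Module.Basis.SmithNormalForm`): basis bM : Basis (Fin 3) ℤ L,
n, bN : Basis (Fin n) ℤ N, f : Fin n ↪ Fin 3, a : Fin n → ℤ with (bN i : L) = a i • bM (f i). v and w are linearly independent over ℝ (cr2 > 0), N has rank 2, so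
n = 2 (n ≤ 3; N ⊆ span of {v, w} gives n ≤ 2 by rank, and if n ≤ 1 then v, w are both multiples of one vector (or 0) and cr2 = 0). So
v, w ∈ span ℤ {p, q}, p = bM (f 0), q = bM (f 1): v = α p + β q, w = γ p + δ q with integers, and
cr2 v w = (α δ - β γ)² cr2 p q (identity: expand norms and inner products), (αδ-βγ)² ≥ 1 as cr2 v w > 0. So cr2 p q ≤ cr2 v w (cr2 ≥ 0). b' = ![p, q, the third basis
vector], Lat b' = L (the range of b' is the range of bM, which spans L).
Alternative without Smith form: among the pairs (p,q) ∈ L² with v, w ∈ span_ℝ{p,q}, 0 < cr2 p q minimal etc.; any proof is fine.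
-/

set_option autoImplicit false

open MeasureTheory Real
open scoped InnerProductSpace

namespace TPC

open BccCov BccO

lemma j1_linInd {b : Fin 3 → E3} (hb : dt b ≠ 0) : LinearIndependent ℤ b := by
  rw [Fintype.linearIndependent_iff]
  intro g hg i
  have h1 : ∑ i, ((g i : ℤ) : ℝ) • b i = ∑ i, (0 : ℝ) • b i := by
    simp only [Int.cast_smul_eq_zsmul, zero_smul, Finset.sum_const_zero]
    exact hg
  have h2 := congrFun (lin_indep hb (n := fun i => ((g i : ℤ) : ℝ)) (m := fun _ => 0) h1) i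
  exact_mod_cast h2

lemma j1_cr2 (p q : E3) (α β γ δ : ℝ) :
    cr2 (α • p + β • q) (γ • p + δ • q) = (α * δ - β * γ) ^ 2 * cr2 p q := by
  unfold cr2
  rw [← real_inner_self_eq_norm_sq (α • p + β • q), ← real_inner_self_eq_norm_sq (γ • p + δ • q)]
  simp only [inner_add_left, inner_add_right, inner_smul_left, inner_smul_right,
    real_inner_self_eq_norm_sq, RCLike.conj_to_real]
  rw [real_inner_comm p q]
  ring

theorem exists_basis_cr2 {b : Fin 3 → E3} (hb : dt b ≠ 0) {v w : E3} (hv : v ∈ Lat b)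
    (hw : w ∈ Lat b) (h0 : 0 < cr2 v w) :
    ∃ b' : Fin 3 → E3, Lat b' = Lat b ∧ cr2 (b' 0) (b' 1) ≤ cr2 v w := by
  let B : Module.Basis (Fin 3) ℤ (Lat b) := Module.Basis.span (j1_linInd hb)
  let N : Submodule ℤ (Lat b) := Submodule.span ℤ {⟨v, hv⟩, ⟨w, hw⟩}
  obtain ⟨n, S⟩ := N.smithNormalForm B
  have hn : n ≤ 2 := by
    have h1 : Module.finrank ℤ N = n := by
      rw [Module.finrank_eq_card_basis S.bN, Fintype.card_fin]
    have h2 : Module.finrank ℤ N ≤ (({⟨v, hv⟩, ⟨w, hw⟩} : Finset (Lat b))).card := by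
      have h3 := finrank_span_finset_le_card (R := ℤ) ({⟨v, hv⟩, ⟨w, hw⟩} : Finset (Lat b))
      rw [Set.finrank, Finset.coe_insert, Finset.coe_singleton] at h3
      exact h3
    have h4 := Finset.card_le_two (a := (⟨v, hv⟩ : Lat b)) (b := ⟨w, hw⟩)
    omega
  obtain ⟨k, hk⟩ : ∃ k, k ∉ Set.range S.f := by
    by_contra hcon
    push Not at hcon
    have h1 : Function.Surjective S.f := fun k => hcon k
    have h2 := Fintype.card_le_of_surjective _ h1
    rw [Fintype.card_fin, Fintype.card_fin] at h2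
    omega
  have hvN : (⟨v, hv⟩ : Lat b) ∈ N := Submodule.subset_span (by simp)
  have hwN : (⟨w, hw⟩ : Lat b) ∈ N := Submodule.subset_span (by simp)
  have rv : S.bM.repr ⟨v, hv⟩ k = 0 := S.repr_eq_zero_of_notMem_range ⟨_, hvN⟩ hk
  have rw' : S.bM.repr ⟨w, hw⟩ k = 0 := S.repr_eq_zero_of_notMem_range ⟨_, hwN⟩ hk
  let σ : Equiv.Perm (Fin 3) := Equiv.swap 2 k
  have hσ : σ 2 = k := Equiv.swap_apply_left 2 k
  let b' : Fin 3 → E3 := fun i => ((S.bM (σ i) : Lat b) : E3)
  have hexp : ∀ x : Lat b, S.bM.repr x k = 0 →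
      (x : E3) = ((S.bM.repr x (σ 0) : ℤ) : ℝ) • b' 0 + ((S.bM.repr x (σ 1) : ℤ) : ℝ) • b' 1 := by
    intro x hx
    have h1 := S.bM.sum_repr x
    rw [← Equiv.sum_comp σ, Fin.sum_univ_three, hσ, hx, zero_smul, add_zero] at h1
    have h2 := congrArg (Subtype.val) h1
    rw [← h2, Int.cast_smul_eq_zsmul, Int.cast_smul_eq_zsmul]
    simp [b']
  have ev := hexp _ rv
  have ew := hexp _ rw'
  obtain ⟨α, hα⟩ : ∃ α, α = S.bM.repr ⟨v, hv⟩ (σ 0) := ⟨_, rfl⟩
  obtain ⟨β, hβ⟩ : ∃ β, β = S.bM.repr ⟨v, hv⟩ (σ 1) := ⟨_, rfl⟩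
  obtain ⟨γ, hγ⟩ : ∃ γ, γ = S.bM.repr ⟨w, hw⟩ (σ 0) := ⟨_, rfl⟩
  obtain ⟨δ, hδ⟩ : ∃ δ, δ = S.bM.repr ⟨w, hw⟩ (σ 1) := ⟨_, rfl⟩
  rw [← hα, ← hβ] at ev
  rw [← hγ, ← hδ] at ew
  have hcr : cr2 v w = ((α : ℝ) * δ - β * γ) ^ 2 * cr2 (b' 0) (b' 1) := by
    rw [← j1_cr2, ← ev, ← ew]
  refine ⟨b', ?_, ?_⟩
  · have h1 : Set.range b' = (Lat b).subtype '' (Set.range S.bM) := by
      rw [← Set.range_comp]
      ext x
      constructor
      · rintro ⟨i, rfl⟩
        exact ⟨σ i, rfl⟩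
      · rintro ⟨i, rfl⟩
        exact ⟨σ.symm i, by simp [b']⟩
    change Submodule.span ℤ (Set.range b') = Lat b
    rw [h1, Submodule.span_image, S.bM.span_eq, Submodule.map_top, Submodule.range_subtype]
  · have hD : (α * δ - β * γ : ℤ) ≠ 0 := by
      intro hz
      have hz' : ((α : ℝ) * δ - β * γ) = 0 := by exact_mod_cast hz
      rw [hcr, hz'] at h0
      norm_num at h0
    have hD1 : (1 : ℤ) ≤ (α * δ - β * γ) ^ 2 := by
      have : 0 < (α * δ - β * γ) ^ 2 := by positivity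
      exact this
    have hD2 : (1 : ℝ) ≤ ((α : ℝ) * δ - β * γ) ^ 2 := by exact_mod_cast hD1
    have hpos : 0 ≤ cr2 (b' 0) (b' 1) := by
      by_contra hneg
      push Not at hneg
      rw [hcr] at h0
      nlinarith
    rw [hcr]
    nlinarith

end TPC
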