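import Pool.Agent.TPC.L0

/-!
# [TPC-J2] slabs

Heights: z(p) = ⟪n, p⟫, H = ⟪n, b 2⟫ > 2r, h = ⟪n, u⟫ ∈ (0,H). A centre c ∈ XX b u is c = n₀ b₀ + n₁ b₁ + k b₂ (height kH) or that + u
(height kH + h), k ∈ ℤ (`mem_Lat`, Fin.sum_univ_three).
(a) Monotonicity: if dist (p + s•n) c ≤ r and |z(p)+s' - z(c)| ≤ |z(p)+s - z(c)| then dist (p + s'•n) c ≤ r (the component of p - c orthogonal to n is
unchanged: dist² = ‖w‖² + (z(p)+s-z(c))², w = (p - c) - z(p-c) n). And |z(p)+s - z(c)| ≤ dist (p+s•n) c always.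
(b) Claim 1: let z(p) ≥ 0 and p not within r of any centre of height 0. Then p is not within r of any centre of height h - H. Proof: suppose it is.
Let ε = (H - 2r)/2 > 0. The property `some centre of height h - H is within r of p + jε n` holds for j = 0 and fails for large j (then the
height difference exceeds r); let j be such that it holds for j and fails for j+1 (Nat.find). Let p' = p + (j+1) ε n, z' = z(p') = z(p) + (j+1) ε ≥ 0. From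
j: z' - ε - h + H ≤ r. By the covering some centre c is within r of p'. Cases: height 0: impossible (monotonicity (a): |z'| ≥ |z(p)|, so c would be within r
of p). height kH with k ≥ 1: kH - z' ≤ r; add z' - ε - h + H ≤ r: (k+1)H - h - ε ≤ 2r, but (k+1) H - h > H and H - ε > 2r: contradiction. height kH with k ≤ -1:
z' + |k| H ≤ r < H impossible. height h + kH, k ≥ 0: h + kH - z' ≤ r, sum: (k+1)H - ε ≤ 2r: contradiction. k = -1: excluded by the choice of j.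
k ≤ -2: z' - h - kH ≥ -h + 2H > H > r: contradiction.
(c) Claim 2: let z(p) ≤ h and p not within r of any centre of height h. Then p is not within r of any centre of height H. Proof: the same with
p' = p - (j+1) ε n: z' = z(p) - (j+1)ε ≤ h, H - z' - ε ≤ r. Centre c near p': height h: excluded by monotonicity (|z' - h| ≥ |z(p) - h|). height kH, k ≤ 0:
z' - kH ≤ r, sum: (1-k)H - ε ≤ 2r contradiction. k = 1: excluded by the choice of j. k ≥ 2: kH - z' ≥ 2H - h > H > r. height h + kH, k ≤ -1: z' - h - kH ≤ r, sum: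
(1-k)H - h - ε ≤ 2r, (1-k)H - h ≥ 2H - h > H contradiction. k ≥ 1: h + kH - z' ≥ H > r contradiction.
(d) If 0 ≤ z(p) ≤ h then some centre of height 0 or h is within r of p: otherwise take the centre c given by the covering: height h-H excluded by (b), height H by (c),
all other heights are at distance > r (kH, k ≤ -1: ≥ H; kH, k ≥ 2: ≥ 2H - h > H; h + kH, k ≤ -2: ≥ 2H - h; k ≥ 1: ≥ H). Centres of height 0 are
n₀ b₀ + n₁ b₁ (kH = 0 gives k = 0; kH + h = 0 is impossible since 0 < h < H), centres of height h are u + n₀ b₀ + n₁ b₁ (kH = h impossible): all in Lat ![b 0, b 1, u].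
(e) General p: k = ⌊z(p)/h⌋, p - k u has height in [0,h); c within r of it, c + k u ∈ Lat ![b 0, b 1, u] is within r of p.
-/

set_option autoImplicit false

open MeasureTheory Real
open scoped InnerProductSpace

namespace TPC

open BccCov BccO

section
variable {b : Fin 3 → E3} {u n : E3} {r : ℝ}

theorem j2_sq (hn : ‖n‖ = 1) (q : E3) (s : ℝ) : ‖q + s • n‖ ^ 2 = (‖q‖ ^ 2 - ⟪n, q⟫_ℝ ^ 2) + (⟪n, q⟫_ℝ + s) ^ 2 := by
  rw [@norm_add_sq_real, inner_smul_right, norm_smul, hn, mul_one, Real.norm_eq_abs, sq_abs, real_inner_comm]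
  ring

/-- monotonicity -/
theorem j2_mono (hn : ‖n‖ = 1) {p c : E3} {s s' : ℝ} (h : dist (p + s • n) c ≤ r)
    (h2 : |⟪n, p⟫_ℝ + s' - ⟪n, c⟫_ℝ| ≤ |⟪n, p⟫_ℝ + s - ⟪n, c⟫_ℝ|) : dist (p + s' • n) c ≤ r := by
  have e : ∀ t : ℝ, dist (p + t • n) c ^ 2 = (‖p - c‖ ^ 2 - ⟪n, p - c⟫_ℝ ^ 2) + (⟪n, p⟫_ℝ + t - ⟪n, c⟫_ℝ) ^ 2 := by
    intro t
    rw [dist_eq_norm, show p + t • n - c = (p - c) + t • n by abel, j2_sq hn, inner_sub_right]
    ring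
  have h3 := sq_le_sq.2 h2
  have h4 : dist (p + s' • n) c ^ 2 ≤ dist (p + s • n) c ^ 2 := by
    rw [e, e]
    linarith
  exact (pow_le_pow_iff_left₀ dist_nonneg dist_nonneg (by norm_num)).1 h4 |>.trans h

theorem j2_height (hn : ‖n‖ = 1) {p c : E3} (h : dist p c ≤ r) : |⟪n, p⟫_ℝ - ⟪n, c⟫_ℝ| ≤ r := by
  rw [← inner_sub_right]
  refine (abs_real_inner_le_norm _ _).trans ?_
  rw [hn, one_mul, ← dist_eq_norm]
  exact h

/-- the heights of the centres -/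
theorem j2_rep (h0 : ⟪n, b 0⟫_ℝ = 0) (h1 : ⟪n, b 1⟫_ℝ = 0) {c : E3} (hc : c ∈ XX b u) :
    ∃ (k : ℤ) (t : ℝ), (t = 0 ∨ t = ⟪n, u⟫_ℝ) ∧ ⟪n, c⟫_ℝ = k * ⟪n, b 2⟫_ℝ + t ∧
      (k = 0 → c ∈ (Lat ![b 0, b 1, u] : Set E3)) := by
  have key : ∀ l : E3, l ∈ Lat b → ∃ k : ℤ, ⟪n, l⟫_ℝ = k * ⟪n, b 2⟫_ℝ ∧ (k = 0 → l ∈ Lat ![b 0, b 1, u]) := by
    intro l hl
    obtain ⟨m, rfl⟩ := mem_Lat.1 hl
    refine ⟨m 2, ?_, ?_⟩
    · rw [Fin.sum_univ_three, inner_add_right, inner_add_right, inner_smul_right, inner_smul_right, inner_smul_right,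
        h0, h1]
      ring
    · intro h2
      rw [mem_Lat]
      refine ⟨![m 0, m 1, 0], ?_⟩
      rw [Fin.sum_univ_three, Fin.sum_univ_three, h2]
      simp
  rcases hc with hc | hc
  · obtain ⟨k, hk, hk2⟩ := key c hc
    exact ⟨k, 0, Or.inl rfl, by rw [hk, add_zero], hk2⟩
  · obtain ⟨k, hk, hk2⟩ := key (c - u) hc
    refine ⟨k, ⟪n, u⟫_ℝ, Or.inr rfl, ?_, ?_⟩
    · rw [inner_sub_right] at hk
      linarith
    · intro h2
      have hu : u ∈ Lat ![b 0, b 1, u] := Submodule.subset_span ⟨2, rfl⟩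
      have h3 := Submodule.add_mem _ (hk2 h2) hu
      rw [sub_add_cancel] at h3
      exact h3

/-- claim 1 -/
theorem j2_claim1 (hr : 0 < r) (hn : ‖n‖ = 1)
    (h0 : ⟪n, b 0⟫_ℝ = 0) (h1 : ⟪n, b 1⟫_ℝ = 0) (h2 : 2 * r < ⟪n, b 2⟫_ℝ)
    (hu : 0 < ⟪n, u⟫_ℝ) (hu' : ⟪n, u⟫_ℝ < ⟪n, b 2⟫_ℝ) (hcov : Cov (XX b u) r) {p : E3} (hp : 0 ≤ ⟪n, p⟫_ℝ)
    (hno : ∀ c ∈ XX b u, ⟪n, c⟫_ℝ = 0 → r < dist p c) :
    ∀ c ∈ XX b u, ⟪n, c⟫_ℝ = ⟪n, u⟫_ℝ - ⟪n, b 2⟫_ℝ → r < dist p c := by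
  classical
  intro c hc hcz
  by_contra hcd
  rw [not_lt] at hcd
  obtain ⟨H, hH⟩ : ∃ H : ℝ, H = ⟪n, b 2⟫_ℝ := ⟨_, rfl⟩
  obtain ⟨h, hh⟩ : ∃ h : ℝ, h = ⟪n, u⟫_ℝ := ⟨_, rfl⟩
  rw [← hH] at h2 hu' hcz
  rw [← hh] at hu hu' hcz
  obtain ⟨ε, hε⟩ : ∃ ε : ℝ, ε = (H - 2 * r) / 2 := ⟨_, rfl⟩
  have hε0 : 0 < ε := by linarith
  have hN : ∃ N : ℕ, ¬ ∃ c ∈ XX b u, ⟪n, c⟫_ℝ = h - H ∧ dist (p + ((N : ℝ) * ε) • n) c ≤ r := by
    obtain ⟨N, hN⟩ := exists_nat_gt (r / ε)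
    refine ⟨N, ?_⟩
    rintro ⟨c', -, hz, hd⟩
    have h3 := j2_height hn hd
    rw [hz, inner_add_right, inner_smul_right, real_inner_self_eq_norm_sq, hn] at h3
    have h4 := (div_lt_iff₀ hε0).1 hN
    have h5 := (abs_le.1 h3).2
    linarith
  have hspec := Nat.find_spec hN
  have hmin := fun m => Nat.find_min hN (m := m)
  generalize Nat.find hN = N at hspec hmin
  have hN0 : N ≠ 0 := by
    rintro rfl
    apply hspec
    refine ⟨c, hc, hcz, ?_⟩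
    rw [Nat.cast_zero, zero_mul, zero_smul, add_zero]
    exact hcd
  obtain ⟨j, rfl⟩ := Nat.exists_eq_succ_of_ne_zero hN0
  obtain ⟨c1, -, hz1, hd1⟩ := not_not.1 (hmin j (Nat.lt_succ_self j))
  have hh1 := (abs_le.1 (j2_height hn hd1)).2
  rw [hz1, inner_add_right, inner_smul_right, real_inner_self_eq_norm_sq, hn] at hh1
  obtain ⟨c', hc', hd'⟩ := hcov (p + (((j.succ : ℕ) : ℝ) * ε) • n)
  have hh' := abs_le.1 (j2_height hn hd')
  rw [inner_add_right, inner_smul_right, real_inner_self_eq_norm_sq, hn] at hh'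
  obtain ⟨k, t, ht, hz', -⟩ := j2_rep h0 h1 hc'
  rw [← hH] at hz'
  rw [← hh] at ht
  have hjs : ((j.succ : ℕ) : ℝ) * ε = (j : ℝ) * ε + ε := by
    push_cast
    ring
  have hj0 : 0 ≤ (j : ℝ) * ε := mul_nonneg (Nat.cast_nonneg j) hε0.le
  rw [hjs, hz'] at hh'
  have hHp : 0 < H := by linarith
  have hk1 : ∀ m : ℤ, m ≤ k → (m : ℝ) * H ≤ (k : ℝ) * H := fun m hm =>
    mul_le_mul_of_nonneg_right (by exact_mod_cast hm) hHp.le
  have hk2 : ∀ m : ℤ, k ≤ m → (k : ℝ) * H ≤ (m : ℝ) * H := fun m hm =>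
    mul_le_mul_of_nonneg_right (by exact_mod_cast hm) hHp.le
  rcases ht with rfl | rfl
  · rcases lt_trichotomy k 0 with hk | hk | hk
    · have h3 := hk2 (-1) (by omega)
      push_cast at h3
      linarith [hh'.2]
    · rw [hk, Int.cast_zero, zero_mul, add_zero] at hz'
      have h3 := hno c' hc' hz'
      refine absurd ?_ (not_le.2 h3)
      have h4 := j2_mono (s' := 0) hn hd' (by
        rw [hz', sub_zero, sub_zero, add_zero, abs_of_nonneg hp, abs_of_nonneg (by rw [hjs]; linarith), hjs]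
        linarith)
      rwa [zero_smul, add_zero] at h4
    · have h3 := hk1 1 (by omega)
      push_cast at h3
      linarith [hh'.1]
  · have hk : k ≤ -2 ∨ k = -1 ∨ 0 ≤ k := by omega
    rcases hk with hk | hk | hk
    · have h3 := hk2 (-2) (by omega)
      push_cast at h3
      linarith [hh'.2]
    · apply hspec
      refine ⟨c', hc', ?_, hd'⟩
      rw [hz', hk]
      push_cast
      ring
    · have h3 := hk1 0 (by omega)
      push_cast at h3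
      linarith [hh'.1]

/-- the symmetry `c ↦ u - c` -/
theorem j2_symm {c : E3} (hc : c ∈ XX b u) : u - c ∈ XX b u := by
  rcases hc with hc | hc
  · right
    rw [show u - c - u = -c by abel]
    exact Submodule.neg_mem _ hc
  · left
    rw [show u - c = -(c - u) by abel]
    exact Submodule.neg_mem _ hc

theorem j2_dist (p c : E3) : dist (u - p) (u - c) = dist p c := by
  rw [dist_eq_norm, dist_eq_norm, show u - p - (u - c) = -(p - c) by abel, norm_neg]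

/-- claim 2 -/
theorem j2_claim2 (hr : 0 < r) (hn : ‖n‖ = 1)
    (h0 : ⟪n, b 0⟫_ℝ = 0) (h1 : ⟪n, b 1⟫_ℝ = 0) (h2 : 2 * r < ⟪n, b 2⟫_ℝ)
    (hu : 0 < ⟪n, u⟫_ℝ) (hu' : ⟪n, u⟫_ℝ < ⟪n, b 2⟫_ℝ) (hcov : Cov (XX b u) r) {p : E3} (hp : ⟪n, p⟫_ℝ ≤ ⟪n, u⟫_ℝ)
    (hno : ∀ c ∈ XX b u, ⟪n, c⟫_ℝ = ⟪n, u⟫_ℝ → r < dist p c) :
    ∀ c ∈ XX b u, ⟪n, c⟫_ℝ = ⟪n, b 2⟫_ℝ → r < dist p c := by
  intro c hc hcz
  have h3 := j2_claim1 (p := u - p) hr hn h0 h1 h2 hu hu' hcov (by rw [inner_sub_right]; linarith) (by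
    intro c' hc' hz
    have h4 := hno (u - c') (j2_symm hc') (by rw [inner_sub_right, hz, sub_zero])
    rw [← j2_dist (u := u)] at h4
    rwa [sub_sub_cancel] at h4) (u - c) (j2_symm hc) (by rw [inner_sub_right, hcz])
  rwa [j2_dist] at h3

/-- the middle slab -/
theorem j2_mid (hr : 0 < r) (hn : ‖n‖ = 1)
    (h0 : ⟪n, b 0⟫_ℝ = 0) (h1 : ⟪n, b 1⟫_ℝ = 0) (h2 : 2 * r < ⟪n, b 2⟫_ℝ)
    (hu : 0 < ⟪n, u⟫_ℝ) (hu' : ⟪n, u⟫_ℝ < ⟪n, b 2⟫_ℝ) (hcov : Cov (XX b u) r) {p : E3} (hp : 0 ≤ ⟪n, p⟫_ℝ)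
    (hp2 : ⟪n, p⟫_ℝ ≤ ⟪n, u⟫_ℝ) : ∃ c ∈ (Lat ![b 0, b 1, u] : Set E3), dist p c ≤ r := by
  by_contra hcon
  push Not at hcon
  obtain ⟨H, hH⟩ : ∃ H : ℝ, H = ⟪n, b 2⟫_ℝ := ⟨_, rfl⟩
  obtain ⟨h, hh⟩ : ∃ h : ℝ, h = ⟪n, u⟫_ℝ := ⟨_, rfl⟩
  have hHp : 0 < H := by linarith
  have hmem : ∀ c ∈ XX b u, (⟪n, c⟫_ℝ = 0 ∨ ⟪n, c⟫_ℝ = ⟪n, u⟫_ℝ) → c ∈ (Lat ![b 0, b 1, u] : Set E3) := by
    intro c hc hz
    obtain ⟨k, t, ht, hk, hk2⟩ := j2_rep h0 h1 hc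
    apply hk2
    rw [← hH] at hk h2 hu'
    rw [← hh] at ht hz hu hu'
    have hk1 : ∀ m : ℤ, m ≤ k → (m : ℝ) * H ≤ (k : ℝ) * H := fun m hm =>
      mul_le_mul_of_nonneg_right (by exact_mod_cast hm) hHp.le
    have hk3 : ∀ m : ℤ, k ≤ m → (k : ℝ) * H ≤ (m : ℝ) * H := fun m hm =>
      mul_le_mul_of_nonneg_right (by exact_mod_cast hm) hHp.le
    rcases lt_trichotomy k 0 with hk0 | hk0 | hk0
    · exfalso
      have h3 := hk3 (-1) (by omega)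
      push_cast at h3
      rcases ht with rfl | rfl <;> rcases hz with hz | hz <;> linarith
    · exact hk0
    · exfalso
      have h3 := hk1 1 (by omega)
      push_cast at h3
      rcases ht with rfl | rfl <;> rcases hz with hz | hz <;> linarith
  have c1 := j2_claim1 hr hn h0 h1 h2 hu hu' hcov hp (fun c hc hz => hcon c (hmem c hc (Or.inl hz)))
  have c2 := j2_claim2 hr hn h0 h1 h2 hu hu' hcov hp2 (fun c hc hz => hcon c (hmem c hc (Or.inr hz)))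
  obtain ⟨c, hc, hd⟩ := hcov p
  have hh' := abs_le.1 (j2_height hn hd)
  obtain ⟨k, t, ht, hk, hk2⟩ := j2_rep h0 h1 hc
  rw [← hH] at hk h2 hu' c1 c2
  rw [← hh] at ht hu hu' hp2 c1
  have hk1 : ∀ m : ℤ, m ≤ k → (m : ℝ) * H ≤ (k : ℝ) * H := fun m hm =>
    mul_le_mul_of_nonneg_right (by exact_mod_cast hm) hHp.le
  have hk3 : ∀ m : ℤ, k ≤ m → (k : ℝ) * H ≤ (m : ℝ) * H := fun m hm =>
    mul_le_mul_of_nonneg_right (by exact_mod_cast hm) hHp.le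
  have hk0 : k ≠ 0 := fun h3 => absurd hd (not_le.2 (hcon c (hk2 h3)))
  rw [hk] at hh'
  rcases ht with rfl | rfl
  · have hkc : k ≤ -1 ∨ k = 1 ∨ 2 ≤ k := by omega
    rcases hkc with h3 | h3 | h3
    · have h4 := hk3 (-1) h3
      push_cast at h4
      linarith [hh'.2]
    · rw [h3, Int.cast_one, one_mul, add_zero] at hk
      exact absurd hd (not_le.2 (c2 c hc hk))
    · have h4 := hk1 2 h3
      push_cast at h4
      linarith [hh'.1]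
  · have hkc : k ≤ -2 ∨ k = -1 ∨ 1 ≤ k := by omega
    rcases hkc with h3 | h3 | h3
    · have h4 := hk3 (-2) h3
      push_cast at h4
      linarith [hh'.2]
    · rw [h3] at hk
      push_cast at hk
      exact absurd hd (not_le.2 (c1 c hc (by linarith)))
    · have h4 := hk1 1 h3
      push_cast at h4
      linarith [hh'.1]

end

theorem slab {b : Fin 3 → E3} {u n : E3} {r : ℝ} (hr : 0 < r) (hn : ‖n‖ = 1)
    (h0 : ⟪n, b 0⟫_ℝ = 0) (h1 : ⟪n, b 1⟫_ℝ = 0) (h2 : 2 * r < ⟪n, b 2⟫_ℝ)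
    (hu : 0 < ⟪n, u⟫_ℝ) (hu' : ⟪n, u⟫_ℝ < ⟪n, b 2⟫_ℝ) (hcov : Cov (XX b u) r) :
    Cov (Lat ![b 0, b 1, u] : Set E3) r := by
  intro p
  obtain ⟨k, hk⟩ : ∃ k : ℤ, k = ⌊⟪n, p⟫_ℝ / ⟪n, u⟫_ℝ⌋ := ⟨_, rfl⟩
  have h3 : (k : ℝ) ≤ ⟪n, p⟫_ℝ / ⟪n, u⟫_ℝ := by
    rw [hk]
    exact Int.floor_le _
  have h4 : ⟪n, p⟫_ℝ / ⟪n, u⟫_ℝ < (k : ℝ) + 1 := by
    rw [hk]
    exact Int.lt_floor_add_one _
  rw [le_div_iff₀ hu] at h3
  rw [div_lt_iff₀ hu] at h4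
  have e : ⟪n, p - (k : ℝ) • u⟫_ℝ = ⟪n, p⟫_ℝ - k * ⟪n, u⟫_ℝ := by
    rw [inner_sub_right, inner_smul_right]
  obtain ⟨c, hc, hd⟩ := j2_mid (p := p - (k : ℝ) • u) hr hn h0 h1 h2 hu hu' hcov (by rw [e]; linarith)
    (by rw [e]; linarith)
  have hum : u ∈ Lat ![b 0, b 1, u] := Submodule.subset_span ⟨2, rfl⟩
  refine ⟨c + (k : ℝ) • u, ?_, ?_⟩
  · have h5 := Submodule.add_mem _ hc (Submodule.smul_mem _ k hum)
    rw [← Int.cast_smul_eq_zsmul ℝ k u] at h5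
    exact h5
  · rw [dist_eq_norm, show p - (c + (k : ℝ) • u) = p - (k : ℝ) • u - c by abel, ← dist_eq_norm]
    exact hd

end TPC
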