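import Pool.Agent.TPC.Defs

/-!
# [TPC-J3] the unit normal vector

m = nrmv 0 (b 0) (b 1) (file O/Q2.lean; the cross product): ⟪m, x⟫ = det3 0 (b 0) (b 1) x (`nrmv_det` with a = 0, sub_zero), ‖m‖² = cr2 (b 0) (b 1)
(Lagrange identity in coordinates, `nsq`, `inner3`). ⟪m, b 2⟫ = dt b ≠ 0, so m ≠ 0; ⟪m, b 0⟫ = ⟪m, b 1⟫ = 0. n = ± m/‖m‖ with the sign of dt b:
⟪n, b 2⟫ = |dt b|/‖m‖, ‖m‖ = √(cr2 (b 0) (b 1)). `dt_add`: det3 0 (b 0) (b 1) is additive in the last argument (ring). `dt_ne`: if ⟪n, b 0⟫ = ⟪n, b 1⟫ = 0,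
‖n‖ = 1, b 0, b 1 as above and ⟪n, x⟫ ≠ 0 then dt ![b 0, b 1, x] ≠ 0: m and n are both orthogonal to b 0, b 1, which are linearly independent (dt b ≠ 0),
so m = c n with c = ⟪m, n⟫ ≠ 0 (or directly: dt b * ⟪n, x⟫ = dt ![b 0, b 1, x] * ⟪n, b 2⟫, an identity modulo ⟪n, b 0⟫ = ⟪n, b 1⟫ = 0: Cramer's rule, linear_combination).
-/

set_option autoImplicit false

open MeasureTheory Real
open scoped InnerProductSpace

namespace TPC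

open BccCov BccO

theorem j3_inner (b0 b1 x : E3) : ⟪nrmv 0 b0 b1, x⟫_ℝ = det3 0 b0 b1 x := by
  have h := nrmv_det 0 b0 b1 x
  rwa [sub_zero] at h

theorem j3_norm (b0 b1 : E3) : ‖nrmv 0 b0 b1‖ ^ 2 = cr2 b0 b1 := by
  unfold cr2
  rw [nsq, nsq, nsq, inner3]
  simp only [nrmv, PiLp.zero_apply, sub_zero]
  simp
  ring

theorem exists_normal {b : Fin 3 → E3} (hb : dt b ≠ 0) : ∃ n : E3, ‖n‖ = 1 ∧ ⟪n, b 0⟫_ℝ = 0 ∧
    ⟪n, b 1⟫_ℝ = 0 ∧ 0 < ⟪n, b 2⟫_ℝ ∧ |dt b| = √(cr2 (b 0) (b 1)) * ⟪n, b 2⟫_ℝ := by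
  obtain ⟨m, hm⟩ : ∃ m, m = nrmv 0 (b 0) (b 1) := ⟨_, rfl⟩
  have m0 : ⟪m, b 0⟫_ℝ = 0 := by
    rw [hm, j3_inner]; unfold det3; simp; ring
  have m1 : ⟪m, b 1⟫_ℝ = 0 := by
    rw [hm, j3_inner]; unfold det3; simp; ring
  have m2 : ⟪m, b 2⟫_ℝ = dt b := by
    rw [hm, j3_inner]; rfl
  have hm0 : m ≠ 0 := by
    rintro rfl
    rw [inner_zero_left] at m2
    exact hb m2.symm
  have hmn : 0 < ‖m‖ := norm_pos_iff.2 hm0
  have hs : √(cr2 (b 0) (b 1)) = ‖m‖ := by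
    rw [← j3_norm, ← hm, Real.sqrt_sq hmn.le]
  obtain ⟨s, hs1, hs2⟩ : ∃ s : ℝ, |s| = 1 ∧ s * dt b = |dt b| := by
    rcases le_total 0 (dt b) with h | h
    · exact ⟨1, by norm_num, by rw [one_mul, abs_of_nonneg h]⟩
    · exact ⟨-1, by norm_num, by rw [abs_of_nonpos h]; ring⟩
  refine ⟨(s / ‖m‖) • m, ?_, ?_, ?_, ?_, ?_⟩
  · rw [norm_smul, Real.norm_eq_abs, abs_div, hs1, abs_of_pos hmn]
    field_simp
  · rw [real_inner_smul_left, m0, mul_zero]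
  · rw [real_inner_smul_left, m1, mul_zero]
  · rw [real_inner_smul_left, m2]
    have : s / ‖m‖ * dt b = |dt b| / ‖m‖ := by rw [← hs2]; ring
    rw [this]
    exact div_pos (abs_pos.2 hb) hmn
  · rw [real_inner_smul_left, m2, hs]
    have : s / ‖m‖ * dt b = |dt b| / ‖m‖ := by rw [← hs2]; ring
    rw [this]
    field_simp

theorem dt_add (b : Fin 3 → E3) (x : E3) :
    dt b = dt ![b 0, b 1, x] + dt ![b 0, b 1, b 2 - x] := by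
  unfold dt det3
  simp only [Matrix.cons_val, PiLp.sub_apply, PiLp.zero_apply]
  ring

theorem dt_ne {b : Fin 3 → E3} {n x : E3} (hb : dt b ≠ 0) (h0 : ⟪n, b 0⟫_ℝ = 0)
    (h1 : ⟪n, b 1⟫_ℝ = 0) (hx : ⟪n, x⟫_ℝ ≠ 0) : dt ![b 0, b 1, x] ≠ 0 := by
  intro h
  have key : dt b * ⟪n, x⟫_ℝ = dt ![b 0, b 1, x] * ⟪n, b 2⟫_ℝ := by
    rw [inner3] at h0 h1 ⊢
    rw [inner3]
    unfold dt det3
    simp only [Matrix.cons_val, PiLp.zero_apply, sub_zero]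
    linear_combination
      (x 0 * (b 1 1 * b 2 2 - b 1 2 * b 2 1) + x 1 * (b 1 2 * b 2 0 - b 1 0 * b 2 2) +
        x 2 * (b 1 0 * b 2 1 - b 1 1 * b 2 0)) * h0 -
      (x 0 * (b 0 1 * b 2 2 - b 0 2 * b 2 1) + x 1 * (b 0 2 * b 2 0 - b 0 0 * b 2 2) +
        x 2 * (b 0 0 * b 2 1 - b 0 1 * b 2 0)) * h1
  rw [h, zero_mul] at key
  rcases mul_eq_zero.1 key with h2 | h2
  · exact hb h2
  · exact hx h2

end TPC
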