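import Pool.Agent.TPC.J1
import Pool.Agent.TPC.J2
import Pool.Agent.TPC.J3
import Pool.Agent.TPC.I5

/-!
# [TPC-J4] lattices with a short parallelogram

b' from `exists_basis_cr2`; replace b by b' (Lat b' = Lat b, so XX b' u = XX b u, |dt b'| = |dt b| by `dt_of_Lat`). So let
cr2 (b 0) (b 1) ≤ 7.29 r⁴ (transitivity), n from `exists_normal`, H = ⟪n, b 2⟫ > 0, |dt b| = √cr2 * H, √cr2 ≤ 2.7 r².
Case H ≤ 2r: |dt b| ≤ 5.4 r³ ≤ 60 cc r³ (60 cc = 2.56 √5 = 5.724...).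
Case H > 2r: k = ⌊⟪n,u⟫/H⌋, u' = u - k • b 2, h = ⟪n,u'⟫ ∈ [0,H), XX b u' = XX b u (`XX_sub`, k • b 2 ∈ Lat b). If h = 0: all centres have heights
kH, and the point p = (H/2) • n has height H/2, so its distance to every centre is at least H/2 > r (|⟪n, p - c⟫| ≤ dist p c), contradiction to the covering.
If h > 0: `slab` for u' gives Cov (Lat ![b 0, b 1, u']) r, dt ≠ 0 by `dt_ne`, so |dt ![b 0, b 1, u']| ≤ 30 cc r³ (`bambah`). Also
XX b (b 2 - u') is a covering set: b 2 - u' = -u' - (-b 2), `cov_neg`, `XX_sub`; its height H - h ∈ (0,H); `slab`, `bambah` give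
|dt ![b 0, b 1, b 2 - u']| ≤ 30 cc r³. `dt_add` and the triangle inequality: |dt b| ≤ 60 cc r³.
-/

set_option autoImplicit false

open MeasureTheory Real
open scoped InnerProductSpace

namespace TPC

open BccCov BccO

theorem j4_cc : 5.724 ≤ 60 * cc := by
  have h : (2.236 : ℝ) ≤ √5 := by
    apply Real.le_sqrt_of_sq_le; norm_num
  unfold cc
  norm_num at h ⊢
  linarith

theorem j4_low {b : Fin 3 → E3} {u n : E3} (h0 : ⟪n, b 0⟫_ℝ = 0) (h1 : ⟪n, b 1⟫_ℝ = 0)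
    (hu : ⟪n, u⟫_ℝ = 0) {c : E3} (hc : c ∈ XX b u) : ∃ k : ℤ, ⟪n, c⟫_ℝ = k * ⟪n, b 2⟫_ℝ := by
  have key : ∀ x ∈ Lat b, ∃ k : ℤ, ⟪n, x⟫_ℝ = k * ⟪n, b 2⟫_ℝ := by
    intro x hx
    obtain ⟨m, rfl⟩ := mem_Lat.1 hx
    refine ⟨m 2, ?_⟩
    rw [Fin.sum_univ_three, inner_add_right, inner_add_right, inner_smul_right, inner_smul_right,
      inner_smul_right, h0, h1]
    ring
  rcases hc with hc | hc
  · exact key c hc
  · obtain ⟨k, hk⟩ := key _ hc
    refine ⟨k, ?_⟩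
    rw [← hk, inner_sub_right, hu, sub_zero]

/-- the case of a basis whose first two vectors span a small parallelogram -/
theorem j4_basis {b : Fin 3 → E3} {u : E3} {r : ℝ} (hr : 0 < r) (hb : dt b ≠ 0)
    (hcov : Cov (XX b u) r) (h1 : cr2 (b 0) (b 1) ≤ 7.29 * r ^ 4) : |dt b| ≤ 60 * cc * r ^ 3 := by
  have hcc := j4_cc
  obtain ⟨n, hn, n0, n1, n2, hdt⟩ := exists_normal hb
  set H := ⟪n, b 2⟫_ℝ with hH
  have hr3 : 0 < r ^ 3 := by positivity
  rcases le_or_gt H (2 * r) with hHr | hHr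
  · -- thin slabs
    have e1 : √(cr2 (b 0) (b 1)) ≤ 2.7 * r ^ 2 := by
      apply Real.sqrt_le_iff.2
      refine ⟨by positivity, h1.trans (le_of_eq (by ring))⟩
    have e2 : √(cr2 (b 0) (b 1)) * H ≤ 2.7 * r ^ 2 * (2 * r) :=
      mul_le_mul e1 hHr n2.le (by positivity)
    have e3 : 2.7 * r ^ 2 * (2 * r) = 5.4 * r ^ 3 := by ring
    have e4 : 5.724 * r ^ 3 ≤ 60 * cc * r ^ 3 := mul_le_mul_of_nonneg_right hcc hr3.le
    rw [hdt]
    linarith
  · -- thick slabs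
    set k : ℤ := ⌊⟪n, u⟫_ℝ / H⌋ with hk
    set l : E3 := (k : ℝ) • b 2 with hl
    have hb2 : ∀ i, b i ∈ Lat b := fun i => Submodule.subset_span ⟨i, rfl⟩
    have hlL : l ∈ Lat b := by
      rw [hl, Int.cast_smul_eq_zsmul]
      exact Submodule.smul_mem _ _ (hb2 2)
    have hX : XX b (u - l) = XX b u := XX_sub hlL
    rw [← hX] at hcov
    set u' := u - l with hu'
    have hh : ⟪n, u'⟫_ℝ = ⟪n, u⟫_ℝ - k * H := by
      rw [hu', hl, inner_sub_right, inner_smul_right]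
    have hk1 : (k : ℝ) * H ≤ ⟪n, u⟫_ℝ := by
      rw [← le_div_iff₀ n2]
      exact Int.floor_le _
    have hk2 : ⟪n, u⟫_ℝ < (k + 1) * H := by
      rw [← div_lt_iff₀ n2]
      exact Int.lt_floor_add_one _
    have hh0 : 0 ≤ ⟪n, u'⟫_ℝ := by rw [hh]; linarith
    have hh1 : ⟪n, u'⟫_ℝ < H := by rw [hh]; linarith
    rcases hh0.eq_or_lt with h | h
    · -- all centres in the planes of height `k H`
      exfalso
      obtain ⟨c, hc, hd⟩ := hcov ((H / 2) • n)
      obtain ⟨j, hj⟩ := j4_low n0 n1 h.symm hc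
      have q1 : |⟪n, (H / 2) • n - c⟫_ℝ| ≤ r := by
        refine (abs_real_inner_le_norm _ _).trans ?_
        rw [hn, one_mul, ← dist_eq_norm]
        exact hd
      rw [inner_sub_right, inner_smul_right, real_inner_self_eq_norm_sq, hn, hj, abs_le] at q1
      obtain ⟨q2, q3⟩ := q1
      rcases le_or_gt j 0 with hj0 | hj0
      · have q4 : (j : ℝ) ≤ 0 := by exact_mod_cast hj0
        nlinarith
      · have q4 : (1 : ℝ) ≤ j := by exact_mod_cast hj0
        nlinarith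
    · have s1 := slab hr hn n0 n1 hHr h hh1 hcov
      have d1 : dt ![b 0, b 1, u'] ≠ 0 := dt_ne hb n0 n1 h.ne'
      have B1 := bambah hr.le d1 s1
      have hcov2 : Cov (XX b (b 2 - u')) r := by
        have q1 := cov_neg hcov
        have q2 : XX b (-u' - -(b 2)) = XX b (-u') := XX_sub (Submodule.neg_mem _ (hb2 2))
        rw [← q2] at q1
        have q3 : -u' - -(b 2) = b 2 - u' := by abel
        rwa [q3] at q1
      have hi : ⟪n, b 2 - u'⟫_ℝ = H - ⟪n, u'⟫_ℝ := by rw [inner_sub_right]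
      have s2 := slab (u := b 2 - u') hr hn n0 n1 hHr (by rw [hi]; linarith) (by
        rw [hi]
        have : H - ⟪n, u'⟫_ℝ < H := by linarith
        exact this) hcov2
      have d2 : dt ![b 0, b 1, b 2 - u'] ≠ 0 := dt_ne hb n0 n1 (by
        rw [hi]
        have : 0 < H - ⟪n, u'⟫_ℝ := by linarith
        exact this.ne')
      have B2 := bambah hr.le d2 s2
      rw [dt_add b u']
      refine (abs_add_le _ _).trans ?_
      linarith

theorem case1 {b : Fin 3 → E3} {u : E3} {r : ℝ} (hr : 0 < r) (hb : dt b ≠ 0)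
    (hcov : Cov (XX b u) r) {v w : E3} (hv : v ∈ Lat b) (hw : w ∈ Lat b) (h0 : 0 < cr2 v w)
    (h1 : cr2 v w ≤ 7.29 * r ^ 4) : |dt b| ≤ 60 * cc * r ^ 3 := by
  obtain ⟨b', hL, hc⟩ := exists_basis_cr2 hb hv hw h0
  have hd := dt_of_Lat hb hL
  have hb' : dt b' ≠ 0 := by
    rw [← abs_pos, hd, abs_pos]
    exact hb
  have hX : XX b' u = XX b u := by
    unfold XX
    rw [hL]
  rw [← hd]
  exact j4_basis hr hb' (by rw [hX]; exact hcov) (hc.trans h1)

end TPC
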