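import Pool.Agent.TPC.H5
import Pool.Agent.TPC.J4
import Pool.Agent.TPC.K1

/-!
# [TPC-K2] conclusion

Assembly.
-/

set_option autoImplicit false

open MeasureTheory Real
open scoped InnerProductSpace

namespace TPC

open BccCov BccO

theorem det_bound {b : Fin 3 → E3} {u : E3} {r : ℝ} (hr : 0 < r) (hb : dt b ≠ 0)
    (hcov : Cov (XX b u) r) : |dt b| ≤ 60 * cc * r ^ 3 := by
  by_cases h : ∃ v ∈ Lat b, ∃ w ∈ Lat b, 0 < cr2 v w ∧ cr2 v w ≤ 7.29 * r ^ 4
  · obtain ⟨v, hv, w, hw, h0, h1⟩ := h
    exact case1 hr hb hcov hv hw h0 h1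
  · push Not at h
    refine case2 hr hb hcov fun v hv w hw => ?_
    rcases (cr2_nonneg v w).eq_or_lt with h0 | h0
    · left; exact h0.symm
    · right; exact h v hv w hw h0

theorem density_basis {b : Fin 3 → E3} {u : E3} {r : ℝ} (hr : 0 < r) (hb : dt b ≠ 0)
    (hcov : Cov (XX b u) r) :
    ENNReal.ofReal (5 * Real.sqrt 5 * Real.pi / 24) ≤
      Filter.liminf
        (fun R : ℝ =>
          ENat.toENNReal (XX b u ∩ Metric.closedBall (0 : EuclideanSpace ℝ (Fin 3)) R).encard *
            MeasureTheory.volume (Metric.closedBall (0 : EuclideanSpace ℝ (Fin 3)) r) /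
            MeasureTheory.volume (Metric.closedBall (0 : EuclideanSpace ℝ (Fin 3)) R))
        Filter.atTop := by
  have hcc : 0 < cc := BccCov.T.cc_pos
  have hr3 : 0 < r ^ 3 := by positivity
  apply density_of_bound (XX b u) r hr
  intro _ η hη
  obtain ⟨c, hc, hN⟩ := NN_XX hb u
  have hd : 0 < |dt b| := abs_pos.2 hb
  by_cases hu : u ∈ Lat b
  · -- a single lattice
    have hX := XX_of_mem hu
    have hB := bambah hr.le hb (by rw [← hX]; exact hcov)
    refine eventually_count (A := 30 * cc * r ^ 3) (c := c) (by positivity) hc (fun R hR => ?_) hη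
    have h1 := (hN R).2.2.2 hR
    have h2 : (NN (XX b u) R : ℝ) * |dt b| ≤ NN (XX b u) R * (30 * cc * r ^ 3) :=
      mul_le_mul_of_nonneg_left hB (Nat.cast_nonneg _)
    linarith
  · have hB := det_bound hr hb hcov
    refine eventually_count (A := 30 * cc * r ^ 3) (c := c) (by positivity) hc (fun R hR => ?_) hη
    have h1 := (hN R).2.2.1 hu hR
    have h2 : (NN (XX b u) R : ℝ) * |dt b| ≤ NN (XX b u) R * (60 * cc * r ^ 3) :=
      mul_le_mul_of_nonneg_left hB (Nat.cast_nonneg _)
    linarith

/-- **coverings by balls centred at the points of two translates of a lattice** -/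
theorem two_translates (L : Submodule ℤ E3) [DiscreteTopology L] [IsZLattice ℝ L] (u : E3) (r : ℝ)
    (hr : 0 < r)
    (hC : (⋃ c ∈ ((L : Set E3) ∪ (fun x => u + x) '' (L : Set E3)), Metric.closedBall c r)
      = Set.univ) :
    ENNReal.ofReal (5 * Real.sqrt 5 * Real.pi / 24) ≤
      Filter.liminf
        (fun R : ℝ =>
          ENat.toENNReal (((L : Set E3) ∪ (fun x => u + x) '' (L : Set E3)) ∩
              Metric.closedBall (0 : EuclideanSpace ℝ (Fin 3)) R).encard *
            MeasureTheory.volume (Metric.closedBall (0 : EuclideanSpace ℝ (Fin 3)) r) /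
            MeasureTheory.volume (Metric.closedBall (0 : EuclideanSpace ℝ (Fin 3)) R))
        Filter.atTop := by
  obtain ⟨b, hbL, hb⟩ := exists_basis L
  have hX : (L : Set E3) ∪ (fun x => u + x) '' (L : Set E3) = XX b u := by
    ext x
    simp only [XX, Set.mem_union, Set.mem_image, Set.mem_setOf_eq, SetLike.mem_coe, hbL]
    constructor
    · rintro (h | ⟨y, hy, rfl⟩)
      · left; exact h
      · right; rw [add_sub_cancel_left]; exact hy
    · rintro (h | h)
      · left; exact h
      · right; exact ⟨x - u, h, by abel⟩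
  rw [hX] at hC ⊢
  refine density_basis hr hb fun p => ?_
  have hp : p ∈ ⋃ c ∈ XX b u, Metric.closedBall c r := by rw [hC]; trivial
  simp only [Set.mem_iUnion, Metric.mem_closedBall, exists_prop] at hp
  exact hp

end TPC
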