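import Pool.Agent.TPC.Defs
import Pool.Agent.MP_bf7174_co.O.R2

/-!
# [TPC-M1] tetrahedra with two long opposite edges
-/

set_option autoImplicit false

open MeasureTheory Real
open scoped InnerProductSpace

namespace TPC

open BccCov BccO

/-- sum of the solid angles of the disphenoid with squared edges `X, X, Y, Y, Y, Y`,
`k = X / (4 Y - X)` -/
noncomputable def Om (k : ℝ) : ℝ := 4 * (arccos (1 - 2 * k) + 2 * arccos k - π)

/-- volume divided by the sum of the solid angles for the disphenoid with `X = m`, inscribed in the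
unit sphere -/
noncomputable def Km (m : ℝ) : ℝ := m * √(4 - m) / (6 * Om (m / (16 - 3 * m)))

theorem m1_FF {X Y : ℝ} (hX : 0 < X) (hY : X < 2 * Y) :
    cG * (X * √(Y - X / 2)) * FF X Y Y Y Y X = Om (X / (4 * Y - X)) := by
  have h := dis_FF hX hY
  have h4 : 0 < 4 * Y - X := by linarith
  have h5 : (4 * Y - 3 * X) / (4 * Y - X) = 1 - 2 * (X / (4 * Y - X)) := by
    field_simp; ring
  rw [h, h5, Om]; ring

theorem m1_pos {X Y : ℝ} (hX : 0 < X) (hY : X < 2 * Y) : 0 < FF X Y Y Y Y X := by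
  have hs : 0 < (2 * X + 4 * Y) / 6 := by linarith
  have hP : PosF X Y Y Y Y X := PosF_reg hs hX hY rfl
  have e1 : (2 * X + 4 * Y) / 6 * (1 + (6 * X / (2 * X + 4 * Y) - 1)) = X := by
    have : 0 < 2 * X + 4 * Y := by linarith
    field_simp; ring
  have e2 : (2 * X + 4 * Y) / 6 * (1 - (6 * X / (2 * X + 4 * Y) - 1) / 2) = Y := by
    have : 0 < 2 * X + 4 * Y := by linarith
    field_simp; ring
  have h := dis_lb (s := (2 * X + 4 * Y) / 6) (m := 6 * X / (2 * X + 4 * Y) - 1) hs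
    (by rw [e1, e2]; exact hP)
  rw [e1, e2] at h
  refine lt_of_lt_of_le ?_ h
  apply mul_pos (QQ_pos hs)
  have : 0 ≤ min (1 / 20 : ℝ) ((6 * X / (2 * X + 4 * Y) - 1) ^ 2 / 2) :=
    le_min (by norm_num) (by positivity)
  linarith

theorem m1_mono {m X Y : ℝ} (hm : 8 / 3 ≤ m) (hmX : m ≤ X) (hY : X < 2 * Y)
    (h16 : 2 * X + 4 * Y ≤ 16) : FF m (4 - m / 2) (4 - m / 2) (4 - m / 2) (4 - m / 2) m ≤
      FF X Y Y Y Y X := by
  have hX : 0 < X := by linarith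
  have hS : 0 < 2 * X + 4 * Y := by linarith
  obtain ⟨l, hl⟩ : ∃ l : ℝ, l = 16 / (2 * X + 4 * Y) := ⟨_, rfl⟩
  have hl1 : 1 ≤ l := by rw [hl, le_div_iff₀ hS]; linarith
  have hl0 : 0 < l := by linarith
  have hlS : 2 * (l * X) + 4 * (l * Y) = 16 := by rw [hl]; field_simp
  have hX' : 0 < l * X := by positivity
  have hY' : l * X < 2 * (l * Y) := by nlinarith
  have hXX : X ≤ l * X := by nlinarith
  -- scaling
  have h1 : FF (l * X) (l * Y) (l * Y) (l * Y) (l * Y) (l * X) ≤ FF X Y Y Y Y X := by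
    have f1 := m1_FF hX hY
    have f2 := m1_FF hX' hY'
    have e1 : l * X / (4 * (l * Y) - l * X) = X / (4 * Y - X) := by
      rw [show 4 * (l * Y) - l * X = l * (4 * Y - X) by ring, mul_div_mul_left _ _ hl0.ne']
    rw [e1, ← f1] at f2
    have hD : 0 < X * √(Y - X / 2) := mul_pos hX (sqrt_pos.2 (by linarith))
    have hD' : X * √(Y - X / 2) ≤ l * X * √(l * Y - l * X / 2) := by
      apply mul_le_mul hXX _ (sqrt_nonneg _) hX'.le
      apply sqrt_le_sqrt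
      nlinarith
    have hp := m1_pos hX' hY'
    have hcG := cG_pos
    have h3 : cG * (X * √(Y - X / 2)) * FF (l * X) (l * Y) (l * Y) (l * Y) (l * Y) (l * X) ≤
        cG * (X * √(Y - X / 2)) * FF X Y Y Y Y X := by
      rw [← f2]
      apply mul_le_mul_of_nonneg_right _ hp.le
      exact mul_le_mul_of_nonneg_left hD' hcG.le
    exact le_of_mul_le_mul_left h3 (by positivity)
  refine le_trans ?_ h1
  -- convexity
  obtain ⟨X', hX'e⟩ : ∃ X' : ℝ, X' = l * X := ⟨_, rfl⟩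
  have hYe : l * Y = 4 - X' / 2 := by rw [hX'e]; linarith
  rw [hYe, ← hX'e]
  rw [hYe, ← hX'e] at hY'
  rw [← hX'e] at hX' hXX
  have hmX' : m ≤ X' := hmX.trans hXX
  have hreg : PosF (8 / 3) (8 / 3) (8 / 3) (8 / 3) (8 / 3) (8 / 3) :=
    PosF_reg (s := 8 / 3) (by norm_num) (by norm_num) (by norm_num) rfl
  have hP : PosF X' (4 - X' / 2) (4 - X' / 2) (4 - X' / 2) (4 - X' / 2) X' :=
    PosF_reg (s := 1) one_pos hX' hY' rfl
  have e1 : (8 / 3 : ℝ) * (1 + (3 * X' / 8 - 1)) = X' := by ring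
  have e2 : (8 / 3 : ℝ) * (1 - (3 * X' / 8 - 1) / 2) = 4 - X' / 2 := by ring
  have hlb := dis_lb (s := 8 / 3) (m := 3 * X' / 8 - 1) (by norm_num) (by rw [e1, e2]; exact hP)
  rw [e1, e2] at hlb
  have hQ := QQ_pos (s := 8 / 3) (by norm_num)
  have hmin : 0 ≤ min (1 / 20 : ℝ) ((3 * X' / 8 - 1) ^ 2 / 2) :=
    le_min (by norm_num) (by positivity)
  have hlb2 : QQ (8 / 3) ≤ FF X' (4 - X' / 2) (4 - X' / 2) (4 - X' / 2) (4 - X' / 2) X' := by
    refine le_trans ?_ hlb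
    nlinarith
  rcases hmX'.eq_or_lt with he | hlt
  · rw [he]
  · obtain ⟨w, hw⟩ : ∃ w : ℝ, w = (m - 8 / 3) / (X' - 8 / 3) := ⟨_, rfl⟩
    have hd : 0 < X' - 8 / 3 := by linarith
    have hw0 : 0 ≤ w := by rw [hw]; exact div_nonneg (by linarith) hd.le
    have hw1 : w ≤ 1 := by rw [hw, div_le_one hd]; linarith
    have hwm : w * (X' - 8 / 3) = m - 8 / 3 := by rw [hw, div_mul_cancel₀ _ hd.ne']
    have hav := FF_avg hreg hP (w := 1 - w) (w' := w) (by linarith) hw0 (by ring)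
    rw [reg_val (by norm_num)] at hav
    have e3 : (1 - w) * (8 / 3) + w * X' = m := by linarith
    have e4 : (1 - w) * (8 / 3) + w * (4 - X' / 2) = 4 - m / 2 := by linarith
    rw [e3, e4] at hav
    refine hav.trans ?_
    nlinarith

theorem m1_Om {m : ℝ} (hm : 0 < m) (hm4 : m < 4) : 0 < Om (m / (16 - 3 * m)) := by
  have hY : m < 2 * (4 - m / 2) := by linarith
  have h := m1_FF hm hY
  have h1 := m1_pos hm hY
  have e1 : 4 * (4 - m / 2) - m = 16 - 3 * m := by ring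
  rw [e1] at h
  rw [← h]
  have hcG := cG_pos
  have : 0 < √(4 - m / 2 - m / 2) := sqrt_pos.2 (by linarith)
  positivity

theorem m1_Km {m : ℝ} (hm : 0 < m) (hm4 : m < 4) : 0 < Km m := by
  have h := m1_Om hm hm4
  have : 0 < √(4 - m) := sqrt_pos.2 (by linarith)
  unfold Km
  positivity

theorem m1_dis {m X Y : ℝ} (hm : 8 / 3 ≤ m) (hmX : m ≤ X) (hY : X < 2 * Y)
    (h16 : 2 * X + 4 * Y ≤ 16) : 1 / 6 ≤ cG * (Km m * FF X Y Y Y Y X) := by
  have hm4 : m < 4 := by linarith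
  have hm0 : 0 < m := by linarith
  have h1 := m1_mono hm hmX hY h16
  have h := m1_FF hm0 (show m < 2 * (4 - m / 2) by linarith)
  have hO := m1_Om hm0 hm4
  have hK := m1_Km hm0 hm4
  have hcG := cG_pos
  have e1 : 4 * (4 - m / 2) - m = 16 - 3 * m := by ring
  have e2 : 4 - m / 2 - m / 2 = 4 - m := by ring
  rw [e1, e2] at h
  have e3 : cG * (Km m * FF m (4 - m / 2) (4 - m / 2) (4 - m / 2) (4 - m / 2) m) = 1 / 6 := by
    have : cG * (Km m * FF m (4 - m / 2) (4 - m / 2) (4 - m / 2) (4 - m / 2) m) =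
        (cG * (m * √(4 - m)) * FF m (4 - m / 2) (4 - m / 2) (4 - m / 2) (4 - m / 2) m) /
          (6 * Om (m / (16 - 3 * m))) := by
      rw [Km]; ring
    rw [this, h, div_eq_div_iff (by positivity) (by norm_num)]
    ring
  rw [← e3]
  exact mul_le_mul_of_nonneg_left (mul_le_mul_of_nonneg_left h1 hK.le) hcG.le

theorem m1_tet1 {m : ℝ} (hm : 8 / 3 ≤ m) (hm4 : m < 4)
    {x y z w o : E3} {ρ : ℝ} (hρ : ρ ≤ 1) (hx : dist x o = ρ) (hy : dist y o = ρ)
    (hz : dist z o = ρ) (hw : dist w o = ρ) (h : det3 x y z w ≠ 0)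
    (hxy : m ≤ sd x y) (hzw : m ≤ sd z w) :
    |det3 x y z w| / 6 ≤ Km m * SS x y z w := by
  obtain ⟨hP, hF⟩ := avg_D4 (PosF_of_det h)
  have hs := sum_sd_le hx hy hz hw hρ
  set X := (sd x y + sd z w) / 2 with hXdef
  set Y := (sd x z + sd x w + sd y z + sd y w) / 4 with hYdef
  obtain ⟨hX, hXY⟩ := dis_pos hP
  have h16 : 2 * X + 4 * Y ≤ 16 := by rw [hXdef, hYdef]; linarith
  have hXl : m ≤ X := by rw [hXdef]; linarith
  have h1 := m1_dis hm hXl hXY h16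
  rw [SS_eq h]
  have hcG := cG_pos
  have hD : 0 ≤ |det3 x y z w| := abs_nonneg _
  have hK := m1_Km (by linarith : 0 < m) hm4
  have h2 : 1 / 6 ≤ cG * (Km m * FF (sd x y) (sd x z) (sd x w) (sd y z) (sd y w) (sd z w)) :=
    h1.trans (mul_le_mul_of_nonneg_left (mul_le_mul_of_nonneg_left hF hK.le) hcG.le)
  have h3 := mul_le_mul_of_nonneg_left h2 hD
  linarith

theorem m1_tet {m : ℝ} (hm : 8 / 3 ≤ m) (hm4 : m < 4)
    {x y z w o : E3} {ρ R : ℝ} (hR : 0 < R) (hρ : ρ ≤ R) (hx : dist x o = ρ) (hy : dist y o = ρ)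
    (hz : dist z o = ρ) (hw : dist w o = ρ) (h : det3 x y z w ≠ 0)
    (hxy : m * R ^ 2 ≤ sd x y) (hzw : m * R ^ 2 ≤ sd z w) :
    |det3 x y z w| / 6 ≤ R ^ 3 * (Km m * SS x y z w) := by
  have hc : 0 < R⁻¹ := inv_pos.2 hR
  have hsd : ∀ a b : E3, m * R ^ 2 ≤ sd a b → m ≤ sd (R⁻¹ • a) (R⁻¹ • b) := by
    intro a b hab
    rw [sd, dist_smul' hc, mul_pow]
    rw [sd] at hab
    have e : m = R⁻¹ ^ 2 * (m * R ^ 2) := by
      field_simp
    rw [e]
    exact mul_le_mul_of_nonneg_left hab (by positivity)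
  have hdet : det3 (R⁻¹ • x) (R⁻¹ • y) (R⁻¹ • z) (R⁻¹ • w) = R⁻¹ ^ 3 * det3 x y z w :=
    det3_smul _ _ _ _ _
  have hdist : ∀ a : E3, dist a o = ρ → dist (R⁻¹ • a) (R⁻¹ • o) = R⁻¹ * ρ := by
    intro a ha
    rw [dist_smul' hc, ha]
  have h1 := m1_tet1 hm hm4 (x := R⁻¹ • x) (y := R⁻¹ • y) (z := R⁻¹ • z) (w := R⁻¹ • w)
    (o := R⁻¹ • o) (ρ := R⁻¹ * ρ) (by
      rw [inv_mul_le_iff₀ hR, mul_one]; exact hρ)
    (hdist x hx) (hdist y hy) (hdist z hz) (hdist w hw)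
    (by rw [hdet]; exact mul_ne_zero (by positivity) h) (hsd x y hxy) (hsd z w hzw)
  rw [hdet, SS_smul hc, abs_mul, abs_of_pos (by positivity : 0 < R⁻¹ ^ 3)] at h1
  have h2 := mul_le_mul_of_nonneg_left h1 (by positivity : 0 ≤ R ^ 3)
  have e : R ^ 3 * (R⁻¹ ^ 3 * |det3 x y z w| / 6) = |det3 x y z w| / 6 := by
    field_simp
  rwa [e] at h2

end TPC
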