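import Pool.Agent.TPC.M1
import Pool.Agent.TPC.K1
import Pool.Agent.MP_bf7174_co.O.Q3
import Pool.Agent.MP_bf7174_co.O.R4

/-!
# [TPC-M2] unions of two separated sets
-/

set_option autoImplicit false

open MeasureTheory Real
open scoped InnerProductSpace

namespace TPC

open BccCov BccO

variable {X : Set E3} {D : Set (Finset E3)} {r : ℝ}

/-- volume and solid angles of the tetrahedra near a ball -/
theorem m2_count (hT : IsTriangulation X D)
    (hI : ∀ t ∈ D, Inscribed t r) (hfin : ∀ R : ℝ, (X ∩ Metric.closedBall (0 : E3) R).Finite) (R : ℝ) :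
    ∃ T : Finset (Finset E3), (∀ t ∈ T, t ∈ D) ∧
      (volume (Metric.closedBall (0 : E3) R)).toReal ≤ ∑ t ∈ T, vol t ∧
      ∑ t ∈ T, tSS t ≤ 4 * π * NN X (R + 4 * r) := by
  classical
  obtain ⟨hF1, hF2, -, hF4⟩ := finiteness hT hI hfin
  let T : Finset (Finset E3) := (hF2 (R + 2 * r)).toFinset
  have hTm : ∀ t, t ∈ T ↔ t ∈ D ∧ ∃ x ∈ t, ‖x‖ ≤ R + 2 * r := by
    intro t
    simp only [T, Set.Finite.mem_toFinset, Set.mem_ofPred_eq]
  have hTD : ∀ t ∈ T, t ∈ D := fun t ht => ((hTm t).1 ht).1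
  have hdist : ∀ t ∈ D, ∀ x ∈ t, ∀ y ∈ t, ‖x‖ ≤ ‖y‖ + 2 * r := by
    intro t ht x hx y hy
    have h1 := hF1 t ht x (subset_convexHull ℝ _ (Finset.mem_coe.2 hx)) y
      (subset_convexHull ℝ _ (Finset.mem_coe.2 hy))
    rw [dist_eq_norm] at h1
    have h2 : ‖x‖ ≤ ‖y‖ + ‖x - y‖ := by
      have := norm_add_le y (x - y)
      rwa [add_sub_cancel] at this
    linarith
  let Y1 : Finset E3 := (hfin (R + 4 * r)).toFinset
  have hY1m : ∀ x, x ∈ Y1 ↔ x ∈ X ∧ ‖x‖ ≤ R + 4 * r := by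
    intro x
    simp only [Y1, Set.Finite.mem_toFinset, Set.mem_inter_iff, mem_closedBall_zero_iff]
  have hN1 : NN X (R + 4 * r) = Y1.card := Set.ncard_eq_toFinset_card _ (hfin (R + 4 * r))
  have hTY1 : ∀ t ∈ T, ∀ x ∈ t, x ∈ Y1 := by
    intro t ht x hx
    obtain ⟨htD, y, hy, hyn⟩ := (hTm t).1 ht
    rw [hY1m]
    exact ⟨hT.vertices t htD x hx, by linarith [hdist t htD x hx y hy]⟩
  have hvfin : ∀ t : Finset E3, volume (convexHull ℝ (t : Set E3)) ≠ ⊤ := fun t =>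
    (Set.Finite.isCompact_convexHull ℝ t.finite_toSet).measure_lt_top.ne
  refine ⟨T, hTD, ?_, ?_⟩
  · have h1 : Metric.closedBall (0 : E3) R ⊆ ⋃ t ∈ T, convexHull ℝ (t : Set E3) := by
      intro z hz
      have h2 := hF4 R hz
      simp only [Set.mem_iUnion, exists_prop] at h2 ⊢
      obtain ⟨t, ht, hzt⟩ := h2
      exact ⟨t, (hTm t).2 ht, hzt⟩
    have h3 : volume (Metric.closedBall (0 : E3) R)
        ≤ ∑ t ∈ T, volume (convexHull ℝ (t : Set E3)) :=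
      (measure_mono h1).trans (measure_biUnion_finset_le _ _)
    unfold vol
    rw [← ENNReal.toReal_sum fun t _ => hvfin t]
    exact ENNReal.toReal_mono (ENNReal.sum_ne_top.2 fun t _ => hvfin t) h3
  · have h1 : ∑ t ∈ T, tSS t = ∑ t ∈ T, ∑ v ∈ t, tsol t v :=
      Finset.sum_congr rfl fun t ht => (sum_tsol (hT.card_eq t (hTD t ht))).symm
    have h2 : ∑ t ∈ T, ∑ v ∈ t, tsol t v = ∑ v ∈ Y1, ∑ t ∈ T.filter (fun t => v ∈ t), tsol t v := by
      refine Finset.sum_comm' fun t v => ?_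
      simp only [Finset.mem_filter]
      exact ⟨fun h => ⟨⟨h.1, h.2⟩, hTY1 t h.1 v h.2⟩, fun h => ⟨h.1.1, h.1.2⟩⟩
    rw [h1, h2, hN1]
    have h3 : ∀ v ∈ Y1, ∑ t ∈ T.filter (fun t => v ∈ t), tsol t v ≤ 4 * π := by
      intro v _
      apply vertex_sum hT v
      intro t ht
      rw [Finset.mem_filter] at ht
      exact ⟨hTD t ht.1, ht.2⟩
    refine (Finset.sum_le_sum h3).trans (le_of_eq ?_)
    rw [Finset.sum_const, nsmul_eq_mul]
    ring

/-- the squared sides of a triangle inscribed in a ball -/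
theorem m2_three {x y z o : E3} {ρ R : ℝ} (hx : dist x o = ρ) (hy : dist y o = ρ)
    (hz : dist z o = ρ) (hρ : ρ ≤ R) : sd x y + sd x z + sd y z ≤ 9 * R ^ 2 := by
  have hρ0 : 0 ≤ ρ := by rw [← hx]; exact dist_nonneg
  have ex : ρ ^ 2 = (x 0 - o 0) ^ 2 + (x 1 - o 1) ^ 2 + (x 2 - o 2) ^ 2 := by
    rw [← hx, ← sd_eq, sd]
  have ey : ρ ^ 2 = (y 0 - o 0) ^ 2 + (y 1 - o 1) ^ 2 + (y 2 - o 2) ^ 2 := by
    rw [← hy, ← sd_eq, sd]
  have ez : ρ ^ 2 = (z 0 - o 0) ^ 2 + (z 1 - o 1) ^ 2 + (z 2 - o 2) ^ 2 := by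
    rw [← hz, ← sd_eq, sd]
  have h1 : ρ ^ 2 ≤ R ^ 2 := pow_le_pow_left₀ hρ0 hρ 2
  have h2 : sd x y + sd x z + sd y z = 9 * ρ ^ 2 -
      ((x 0 - o 0 + (y 0 - o 0) + (z 0 - o 0)) ^ 2 +
       (x 1 - o 1 + (y 1 - o 1) + (z 1 - o 1)) ^ 2 +
       (x 2 - o 2 + (y 2 - o 2) + (z 2 - o 2)) ^ 2) := by
    simp only [sd_eq]
    linear_combination (-3) * ex + (-3) * ey + (-3) * ez
  rw [h2]
  nlinarith [sq_nonneg (x 0 - o 0 + (y 0 - o 0) + (z 0 - o 0)),
    sq_nonneg (x 1 - o 1 + (y 1 - o 1) + (z 1 - o 1)),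
    sq_nonneg (x 2 - o 2 + (y 2 - o 2) + (z 2 - o 2))]

/-- a class contains at most two vertices of a tetrahedron -/
theorem m2_two {s : Finset E3} {o : E3} {ρ R l : ℝ} (hl : 3 * R ^ 2 < l) (hρ : ρ ≤ R)
    (hs : ∀ x ∈ s, dist x o = ρ) (hd : ∀ x ∈ s, ∀ y ∈ s, x ≠ y → l ≤ sd x y) : s.card ≤ 2 := by
  by_contra hcon
  push Not at hcon
  obtain ⟨t, hts, ht3⟩ := Finset.exists_subset_card_eq (show 3 ≤ s.card by omega)
  obtain ⟨x, y, z, hxy, hxz, hyz, rfl⟩ := Finset.card_eq_three.1 ht3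
  have hx := hts (show x ∈ ({x, y, z} : Finset E3) by simp)
  have hy := hts (show y ∈ ({x, y, z} : Finset E3) by simp)
  have hz := hts (show z ∈ ({x, y, z} : Finset E3) by simp)
  have h1 := m2_three (hs x hx) (hs y hy) (hs z hz) hρ
  have h2 := hd x hx y hy hxy
  have h3 := hd x hx z hz hxz
  have h4 := hd y hy z hz hyz
  linarith

/-- the inequality for a tetrahedron whose vertices are split into two classes -/
theorem m2_vol {m : ℝ} (hm : 3 < m) (hm4 : m < 4) {t : Finset E3} {R : ℝ} (hR : 0 < R)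
    (hc : t.card = 4) (hi : AffineIndependent ℝ (Subtype.val : {x // x ∈ t} → E3))
    (hI : Inscribed t R) (P : E3 → Prop)
    (h1 : ∀ x ∈ t, ∀ y ∈ t, P x → P y → x ≠ y → m * R ^ 2 ≤ sd x y)
    (h2 : ∀ x ∈ t, ∀ y ∈ t, ¬ P x → ¬ P y → x ≠ y → m * R ^ 2 ≤ sd x y) :
    vol t ≤ R ^ 3 * (Km m * tSS t) := by
  classical
  obtain ⟨o, ρ, hρ, ho⟩ := hI
  have hm' : 3 * R ^ 2 < m * R ^ 2 := mul_lt_mul_of_pos_right hm (by positivity)
  have c1 : (t.filter P).card ≤ 2 := m2_two hm' hρ (fun x hx => ho x (Finset.mem_filter.1 hx).1)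
    (fun x hx y hy hne => h1 x (Finset.mem_filter.1 hx).1 y (Finset.mem_filter.1 hy).1
      (Finset.mem_filter.1 hx).2 (Finset.mem_filter.1 hy).2 hne)
  have c2 : (t.filter (fun x => ¬ P x)).card ≤ 2 := m2_two hm' hρ
    (fun x hx => ho x (Finset.mem_filter.1 hx).1)
    (fun x hx y hy hne => h2 x (Finset.mem_filter.1 hx).1 y (Finset.mem_filter.1 hy).1
      (Finset.mem_filter.1 hx).2 (Finset.mem_filter.1 hy).2 hne)
  have c3 : (t.filter P).card + (t.filter (fun x => ¬ P x)).card = t.card :=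
    Finset.card_filter_add_card_filter_not _
  obtain ⟨x, y, hxy, e1⟩ := Finset.card_eq_two.1 (show (t.filter P).card = 2 by omega)
  obtain ⟨z, w, hzw, e2⟩ := Finset.card_eq_two.1
    (show (t.filter (fun x => ¬ P x)).card = 2 by omega)
  have hx : x ∈ t.filter P := by rw [e1]; simp
  have hy : y ∈ t.filter P := by rw [e1]; simp
  have hz : z ∈ t.filter (fun x => ¬ P x) := by rw [e2]; simp
  have hw : w ∈ t.filter (fun x => ¬ P x) := by rw [e2]; simp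
  rw [Finset.mem_filter] at hx hy hz hw
  have ht : (t : Set E3) = {x, y, z, w} := by
    have e3 : t = t.filter P ∪ t.filter (fun x => ¬ P x) := by
      rw [Finset.filter_union_filter_not_eq]
    rw [e3, e1, e2]
    ext v
    simp only [Finset.coe_union, Finset.coe_insert, Finset.coe_singleton, Set.mem_union,
      Set.mem_insert_iff, Set.mem_singleton_iff]
    tauto
  have hdet := BccCov.S.det3_ne_zero x y z w t hc ht hi
  rw [tSS_eq hc ht, vol_eq ht]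
  exact m1_tet (by linarith) hm4 hR hρ (ho x hx.1) (ho y hy.1) (ho z hz.1) (ho w hw.1) hdet
    (h1 x hx.1 y hy.1 hx.2 hy.2 hxy) (h2 z hz.1 w hw.1 hz.2 hw.2 hzw)

end TPC
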